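import Mathlib

/-!
# Block G: families of unitriangular matrices

`UG ι I l S`: the group of the families `(m B)_{B : ι}` of matrices over `S` with rows and columns
in `I`, which are unitriangular with respect to the rank function `l : I → ℕ`: the entry at
`(x, y)` is that of the identity matrix when `l y ≤ l x`.
-/

namespace SingerRA

/-- Families of unitriangular matrices. -/
@[ext]
structure UG (ι I : Type) (l : I → ℕ) (S : Type) [DecidableEq I] [CommRing S] where
  /-- the matrices -/
  m : ι → Matrix I I S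
  tri : ∀ B x y, l y ≤ l x → m B x y = (1 : Matrix I I S) x y

variable {ι I : Type} {l : I → ℕ} {S : Type} [DecidableEq I] [CommRing S]

/-- Strictly upper triangular matrices of depth `k`. -/
def Dp (l : I → ℕ) (k : ℕ) (X : Matrix I I S) : Prop := ∀ x y, l y < l x + k → X x y = 0

theorem Dp.mul [Fintype I] {k k' : ℕ} {X Y : Matrix I I S} (hX : Dp l k X) (hY : Dp l k' Y) :
    Dp l (k + k') (X * Y) := by
  intro x y h
  rw [Matrix.mul_apply]
  refine Finset.sum_eq_zero fun z _ => ?_
  by_cases h1 : l z < l x + k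
  · rw [hX x z h1, zero_mul]
  · rw [hY z y (by omega), mul_zero]

theorem Dp.pow [Fintype I] {X : Matrix I I S} (hX : Dp l 1 X) (k : ℕ) : Dp l k (X ^ k) := by
  induction k with
  | zero =>
    intro x y h
    rw [pow_zero, Matrix.one_apply_ne]
    rintro rfl
    omega
  | succ k ih =>
    rw [pow_succ]
    exact ih.mul hX

theorem Dp.mono {k k' : ℕ} (h : k' ≤ k) {X : Matrix I I S} (hX : Dp l k X) : Dp l k' X :=
  fun x y h' => hX x y (by omega)

/-- A bound for the rank function. -/
noncomputable def lmax [Fintype I] (l : I → ℕ) : ℕ := ∑ x, l x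

theorem le_lmax [Fintype I] (l : I → ℕ) (x : I) : l x ≤ lmax l :=
  Finset.single_le_sum (f := l) (fun _ _ => Nat.zero_le _) (Finset.mem_univ x)

theorem Dp.eq_zero [Fintype I] {X : Matrix I I S} (hX : Dp l (lmax l + 1) X) : X = 0 := by
  ext x y
  exact hX x y (by have := le_lmax l y; omega)

/-- The inverse of `1 + X`, for `X` strictly upper triangular. -/
noncomputable def ginv [Fintype I] (l : I → ℕ) (X : Matrix I I S) : Matrix I I S :=
  ∑ k ∈ Finset.range (lmax l + 1), (-X) ^ k

theorem Dp.neg {k : ℕ} {X : Matrix I I S} (hX : Dp l k X) : Dp l k (-X) := by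
  intro x y h
  rw [Matrix.neg_apply, hX x y h, neg_zero]

theorem ginv_mul [Fintype I] {X : Matrix I I S} (hX : Dp l 1 X) : ginv l X * (1 + X) = 1 := by
  have h1 : ((-X) ^ (lmax l + 1)) = 0 := (hX.neg.pow (lmax l + 1)).eq_zero
  have h2 := geom_sum_mul_neg (-X) (lmax l + 1)
  rw [h1, sub_zero, sub_neg_eq_add] at h2
  exact h2

theorem ginv_tri [Fintype I] {X : Matrix I I S} (hX : Dp l 1 X) (x y : I) (h : l y ≤ l x) :
    ginv l X x y = (1 : Matrix I I S) x y := by
  unfold ginv
  rw [Finset.sum_range_succ', pow_zero, Matrix.add_apply, Matrix.sum_apply,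
    Finset.sum_eq_zero, zero_add]
  intro k _
  exact (hX.neg.pow (k + 1)) x y (by omega)

theorem UG.dp (g : UG ι I l S) (B : ι) : Dp l 1 (g.m B - 1) := by
  intro x y h
  rw [Matrix.sub_apply, g.tri B x y (by omega), sub_self]

noncomputable instance UG.instMul [Fintype I] : Mul (UG ι I l S) where
  mul g h := ⟨fun B => g.m B * h.m B, fun B x y hxy => by
    have h1 : g.m B * h.m B = 1 + (g.m B - 1) + (h.m B - 1) + (g.m B - 1) * (h.m B - 1) := by
      noncomm_ring
    rw [h1, Matrix.add_apply, Matrix.add_apply, Matrix.add_apply, g.dp B x y (by omega),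
      h.dp B x y (by omega), ((g.dp B).mul (h.dp B)) x y (by omega)]
    simp⟩

instance UG.instOne : One (UG ι I l S) where
  one := ⟨fun _ => 1, fun _ _ _ _ => rfl⟩

noncomputable instance UG.instInv [Fintype I] : Inv (UG ι I l S) where
  inv g := ⟨fun B => ginv l (g.m B - 1), fun B x y h => ginv_tri (g.dp B) x y h⟩

theorem UG.mul_m [Fintype I] (g h : UG ι I l S) (B : ι) : (g * h).m B = g.m B * h.m B := rfl

theorem UG.one_m (B : ι) : (1 : UG ι I l S).m B = 1 := rfl

theorem UG.mul_apply [Fintype I] (g h : UG ι I l S) (B : ι) (x y : I) :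
    (g * h).m B x y = ∑ z, g.m B x z * h.m B z y := by
  rw [UG.mul_m, Matrix.mul_apply]

noncomputable instance UG.instGroup [Fintype I] : Group (UG ι I l S) :=
  Group.ofLeftAxioms
    (fun a b c => UG.ext (funext fun B => by rw [UG.mul_m, UG.mul_m, UG.mul_m, UG.mul_m, mul_assoc]))
    (fun a => UG.ext (funext fun B => by rw [UG.mul_m, UG.one_m, one_mul]))
    (fun a => UG.ext (funext fun B => by
      rw [UG.mul_m, UG.one_m]
      have := ginv_mul (a.dp B)
      rw [add_sub_cancel] at this
      exact this))

theorem UG.ext' {g h : UG ι I l S} (H : ∀ B x y, l x < l y → g.m B x y = h.m B x y) : g = h := by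
  refine UG.ext (funext fun B => Matrix.ext fun x y => ?_)
  by_cases h1 : l x < l y
  · exact H B x y h1
  · rw [g.tri B x y (by omega), h.tri B x y (by omega)]

/-- The family with given entries above the diagonal. -/
def UG.mk' (l : I → ℕ) (f : ι → I → I → S) : UG ι I l S where
  m B := Matrix.of fun x y => if l x < l y then f B x y else (1 : Matrix I I S) x y
  tri B x y h := by rw [Matrix.of_apply, if_neg (by omega)]

theorem UG.mk'_apply (f : ι → I → I → S) (B : ι) (x y : I) (h : l x < l y) :
    (UG.mk' l f).m B x y = f B x y := by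
  show (if l x < l y then f B x y else (1 : Matrix I I S) x y) = _
  rw [if_pos h]

/-- Change of the ring of coefficients. -/
noncomputable def UG.map [Fintype I] {S' : Type} [CommRing S'] (φ : S →+* S') :
    UG ι I l S →* UG ι I l S' where
  toFun g := ⟨fun B => (g.m B).map φ, fun B x y h => by
    rw [Matrix.map_apply, g.tri B x y h, Matrix.one_apply, Matrix.one_apply]
    split_ifs <;> simp⟩
  map_one' := UG.ext (funext fun B => by
    rw [UG.one_m]
    show (UG.m 1 B).map φ = 1
    rw [UG.one_m, Matrix.map_one _ (map_zero φ) (map_one φ)])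
  map_mul' g h := UG.ext (funext fun B => by
    rw [UG.mul_m]
    show ((g * h).m B).map φ = (g.m B).map φ * (h.m B).map φ
    rw [UG.mul_m, Matrix.map_mul])

theorem UG.map_apply [Fintype I] {S' : Type} [CommRing S'] (φ : S →+* S') (g : UG ι I l S)
    (B : ι) (x y : I) : (UG.map φ g).m B x y = φ (g.m B x y) := rfl

/-- The coordinates: the triples `(B, x, y)` with `l x < l y`. -/
abbrev EI (ι I : Type) (l : I → ℕ) : Type := {a : ι × I × I // l a.2.1 < l a.2.2}

/-- A family is given by its entries above the diagonal. -/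
noncomputable def UG.equiv (ι I : Type) (l : I → ℕ) (S : Type) [DecidableEq I] [CommRing S] :
    UG ι I l S ≃ (EI ι I l → S) where
  toFun g a := g.m a.1.1 a.1.2.1 a.1.2.2
  invFun f := UG.mk' l fun B x y => if h : l x < l y then f ⟨(B, x, y), h⟩ else 0
  left_inv g := UG.ext' fun B x y h => by
    rw [UG.mk'_apply _ _ _ _ h, dif_pos h]
  right_inv f := funext fun a => by
    show (UG.mk' l fun B x y => if h : l x < l y then f ⟨(B, x, y), h⟩ else 0).m a.1.1 a.1.2.1
      a.1.2.2 = f a
    rw [UG.mk'_apply _ _ _ _ a.2, dif_pos a.2]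

end SingerRA
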