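import Mathlib
import Pool.Agent.Lib_MP_394d50_all.GDefs

/-!
# Block G: boxes, finiteness and cardinalities of the unitriangular groups
-/

namespace SingerRA

variable {ι I : Type} {l : I → ℕ} {S : Type} [DecidableEq I] [CommRing S]

open scoped Classical in
theorem box_exists [Fintype ι] [Fintype I] (d : ι → I → I → Finset S) :
    ∃ F : Finset (UG ι I l S), (∀ g, g ∈ F ↔ ∀ B x y, l x < l y → g.m B x y ∈ d B x y) ∧
      F.card = ∏ a : EI ι I l, (d a.1.1 a.1.2.1 a.1.2.2).card := by
  refine ⟨(Fintype.piFinset (fun a : EI ι I l => d a.1.1 a.1.2.1 a.1.2.2)).map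
    (UG.equiv ι I l S).symm.toEmbedding, fun g => ?_, ?_⟩
  · rw [Finset.mem_map_equiv, Equiv.symm_symm, Fintype.mem_piFinset]
    constructor
    · intro h B x y hxy
      exact h ⟨(B, x, y), hxy⟩
    · intro h a
      exact h a.1.1 a.1.2.1 a.1.2.2 a.2
  · rw [Finset.card_map, Fintype.card_piFinset]

instance UG.instFinite [Finite ι] [Finite I] [Finite S] : Finite (UG ι I l S) :=
  Finite.of_equiv _ (UG.equiv ι I l S).symm

theorem UG.card [Fintype ι] [Fintype I] (n : ℕ) [NeZero n] :
    Nat.card (UG ι I l (ZMod n)) = n ^ Fintype.card (EI ι I l) := by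
  rw [Nat.card_congr (UG.equiv ι I l (ZMod n)), Nat.card_fun, Nat.card_zmod,
    Nat.card_eq_fintype_card]

theorem UG.isPGroup [Fintype ι] [Fintype I] (n : ℕ) : IsPGroup 2 (UG ι I l (ZMod (2 ^ n))) := by
  have : NeZero (2 ^ n) := ⟨by positivity⟩
  refine IsPGroup.of_card (n := n * Fintype.card (EI ι I l)) ?_
  rw [UG.card, ← pow_mul]

end SingerRA
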