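import Mathlib
import Pool.Agent.Lib_MP_394d50_all.GDefs

/-!
# Block G: right multiplication by a finite set almost preserves the boxes

Piece GGOOD.

* `good_bound`: `C = ∑ s ∈ S, ∑ B, ∑ x, ∑ y, (s.m B x y).natAbs` (`ι`, `I` are finite).
* `good`: write `D = R ^ (l y - l x - 1)`. `(b s) x y - b x y = ∑ z, b x z * s z y - b x y`, where the term `z = y` is
  `b x y * 1`. For `z ≠ y`: if `l y ≤ l z` then `s z y = 0` (`UG.tri`). If `l z < l y` then `|b x z| ≤ D`: for
  `l z ≤ l x` it is `0` or `1` (`UG.tri`), for `l x < l z` it is `0 ≤ b x z < R ^ (l z - l x) ≤ D` (the lower bound of `hb`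
  is `≥ 0`; `l z - l x ≤ l y - l x - 1`). So `|(b s) x y - b x y| ≤ card I * (D * C)`, and `hb` gives the claim.
-/

namespace SingerRA

variable {ι I : Type} {l : I → ℕ} [DecidableEq I]

/-- A bound for the entries of the elements of a finite set. -/
theorem good_bound [Fintype ι] [Fintype I] (S : Finset (UG ι I l ℤ)) :
    ∃ C : ℕ, ∀ s ∈ S, ∀ B x y, |s.m B x y| ≤ (C : ℤ) := by
  refine ⟨∑ s ∈ S, ∑ B, ∑ x, ∑ y, (s.m B x y).natAbs, fun s hs B x y => ?_⟩
  rw [← Int.natCast_natAbs]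
  have h1 : (s.m B x y).natAbs ≤ ∑ y, (s.m B x y).natAbs :=
    Finset.single_le_sum (f := fun y => (s.m B x y).natAbs) (fun _ _ => Nat.zero_le _)
      (Finset.mem_univ y)
  have h2 : ∑ y, (s.m B x y).natAbs ≤ ∑ x, ∑ y, (s.m B x y).natAbs :=
    Finset.single_le_sum (f := fun x => ∑ y, (s.m B x y).natAbs) (fun _ _ => Nat.zero_le _)
      (Finset.mem_univ x)
  have h3 : ∑ x, ∑ y, (s.m B x y).natAbs ≤ ∑ B, ∑ x, ∑ y, (s.m B x y).natAbs :=
    Finset.single_le_sum (f := fun B => ∑ x, ∑ y, (s.m B x y).natAbs) (fun _ _ => Nat.zero_le _)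
      (Finset.mem_univ B)
  have h4 : ∑ B, ∑ x, ∑ y, (s.m B x y).natAbs ≤ ∑ s ∈ S, ∑ B, ∑ x, ∑ y, (s.m B x y).natAbs :=
    Finset.single_le_sum (f := fun s : UG ι I l ℤ => ∑ B, ∑ x, ∑ y, (s.m B x y).natAbs)
      (fun _ _ => Nat.zero_le _) hs
  exact_mod_cast ((h1.trans h2).trans h3).trans h4

theorem good [Fintype I] (C R : ℕ) (hR : 1 ≤ R) (s b : UG ι I l ℤ)
    (hs : ∀ B x y, |s.m B x y| ≤ (C : ℤ))
    (hb : ∀ B x y, l x < l y →
      ((Fintype.card I * C : ℕ) : ℤ) * (R : ℤ) ^ (l y - l x - 1) ≤ b.m B x y ∧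
      b.m B x y < (R : ℤ) ^ (l y - l x) -
        ((Fintype.card I * C : ℕ) : ℤ) * (R : ℤ) ^ (l y - l x - 1)) :
    ∀ B x y, l x < l y → 0 ≤ (b * s).m B x y ∧ (b * s).m B x y < (R : ℤ) ^ (l y - l x) := by
  intro B x y hxy
  have hRz : (1 : ℤ) ≤ (R : ℤ) := by exact_mod_cast hR
  have hC : (0 : ℤ) ≤ (C : ℤ) := Int.natCast_nonneg C
  have hpow : ∀ k : ℕ, (1 : ℤ) ≤ (R : ℤ) ^ k := fun k => one_le_pow₀ hRz
  obtain ⟨D, hD⟩ : ∃ D : ℤ, D = (R : ℤ) ^ (l y - l x - 1) := ⟨_, rfl⟩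
  have hD1 : 1 ≤ D := by rw [hD]; exact hpow _
  have hterm : ∀ z, z ≠ y → |b.m B x z * s.m B z y| ≤ D * (C : ℤ) := by
    intro z hz
    by_cases h1 : l y ≤ l z
    · rw [s.tri B z y h1, Matrix.one_apply_ne hz, mul_zero, abs_zero]
      positivity
    · have h2 : |b.m B x z| ≤ D := by
        by_cases h3 : l z ≤ l x
        · rw [b.tri B x z h3, Matrix.one_apply]
          split_ifs
          · rw [abs_one]; exact hD1
          · rw [abs_zero]; linarith
        · have h4 := hb B x z (by omega)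
          have h5 : (0 : ℤ) ≤ ((Fintype.card I * C : ℕ) : ℤ) * (R : ℤ) ^ (l z - l x - 1) :=
            mul_nonneg (Int.natCast_nonneg _) (by linarith [hpow (l z - l x - 1)])
          have h6 : (R : ℤ) ^ (l z - l x) ≤ D := by
            rw [hD]
            exact pow_le_pow_right₀ hRz (by omega)
          rw [abs_of_nonneg (h5.trans h4.1)]
          linarith [h4.2]
      rw [abs_mul]
      exact mul_le_mul h2 (hs B z y) (abs_nonneg _) (by linarith)
  have hsum : (b * s).m B x y - b.m B x y =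
      ∑ z ∈ Finset.univ.erase y, b.m B x z * s.m B z y := by
    rw [UG.mul_apply, ← Finset.add_sum_erase Finset.univ (fun z => b.m B x z * s.m B z y)
      (Finset.mem_univ y), s.tri B y y le_rfl, Matrix.one_apply_eq, mul_one]
    ring
  have habs : |(b * s).m B x y - b.m B x y| ≤
      ((Fintype.card I * C : ℕ) : ℤ) * (R : ℤ) ^ (l y - l x - 1) := by
    rw [hsum]
    refine (Finset.abs_sum_le_sum_abs _ _).trans ?_
    refine (Finset.sum_le_sum (g := fun _ => D * (C : ℤ)) fun z hz => hterm z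
      (Finset.ne_of_mem_erase hz)).trans ?_
    rw [Finset.sum_const, nsmul_eq_mul, ← hD]
    have h1 : ((Finset.univ.erase y).card : ℤ) ≤ (Fintype.card I : ℤ) := by
      exact_mod_cast Finset.card_le_univ _
    have h2 : 0 ≤ D * (C : ℤ) := by positivity
    calc ((Finset.univ.erase y).card : ℤ) * (D * (C : ℤ)) ≤ (Fintype.card I : ℤ) * (D * (C : ℤ)) :=
          mul_le_mul_of_nonneg_right h1 h2
      _ = ((Fintype.card I * C : ℕ) : ℤ) * D := by push_cast; ring
  rw [abs_le] at habs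
  have h1 := hb B x y hxy
  constructor
  · linarith [habs.1, h1.1]
  · linarith [habs.2, h1.2]

end SingerRA
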