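import Mathlib
import Pool.Agent.Lib_MP_394d50_all.GDefs

/-!
# Block G: the tiling

The products `u b` with `u` divisible by `R ^ (l y - l x)` and `b` in the box
`0 ≤ b < R ^ (l y - l x)` are different modulo `R ^ K`.

Piece GTILE.

* `UG.mul_split`: `UG.mul_apply`; the term `z = x` is `1 * h x y`, the term `z = y` is `g x y * 1`
  (`UG.tri` with `le_rfl`); for `z ≠ x`, `l z ≤ l x`: `g x z = 0` (`UG.tri`, `Matrix.one_apply_ne`);
  for `z ≠ y`, `l y ≤ l z`: `h z y = 0`.
* `tile_inj`: by strong induction on `n` show: for all `B x y` with `l x < l y`, `l y - l x = n`: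
  `u.m B x y = u'.m B x y` and `b.m B x y = b'.m B x y`. By `mul_split` and the induction hypothesis
  (the weights `l z - l x` and `l y - l z` are smaller than `n`)
  `(u b) x y - (u' b') x y = (b x y - b' x y) + (u x y - u' x y)`, and by `h` (entry `B x y`, `UG.map_apply`,
  `ZMod.intCast_eq_intCast_iff` or `ZMod.intCast_zmod_eq_zero_iff_dvd`) it is divisible by `R ^ K`, hence by `R ^ (l y - l x)`
  (`l y - l x ≤ K`). So `R ^ (l y - l x)` divides `b x y - b' x y`, which has absolute value less than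
  it, so it is `0` (`Int.eq_zero_of_abs_lt_dvd`). Then `R ^ K` divides `u x y - u' x y` and it is `0` too.
  Finally `UG.ext'`.
-/

namespace SingerRA

variable {ι I : Type} {l : I → ℕ} [DecidableEq I]

/-- Entries of a product: the terms `z = x`, `z = y` and the rest. -/
theorem UG.mul_split {S : Type} [CommRing S] [Fintype I] (g h : UG ι I l S) (B : ι) (x y : I)
    (hxy : l x < l y) : (g * h).m B x y = h.m B x y + g.m B x y +
      ∑ z ∈ Finset.univ.filter (fun z => l x < l z ∧ l z < l y), g.m B x z * h.m B z y := by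
  have hne : x ≠ y := by
    rintro rfl
    exact lt_irrefl _ hxy
  rw [UG.mul_apply]
  have h0 : ∑ z ∈ (insert x (insert y
      (Finset.univ.filter (fun z => l x < l z ∧ l z < l y)))), g.m B x z * h.m B z y =
      ∑ z, g.m B x z * h.m B z y := by
    refine Finset.sum_subset (Finset.subset_univ _) fun z _ hz => ?_
    rw [Finset.mem_insert, Finset.mem_insert, Finset.mem_filter, not_or, not_or] at hz
    obtain ⟨hzx, hzy, hz3⟩ := hz
    by_cases h1 : l z ≤ l x
    · rw [g.tri B x z h1, Matrix.one_apply_ne (Ne.symm hzx), zero_mul]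
    · have h2 : l y ≤ l z := by
        by_contra h3
        exact hz3 ⟨Finset.mem_univ _, by omega, by omega⟩
      rw [h.tri B z y h2, Matrix.one_apply_ne hzy, mul_zero]
  have hy : y ∉ Finset.univ.filter (fun z => l x < l z ∧ l z < l y) := by
    rw [Finset.mem_filter]
    rintro ⟨-, -, h2⟩
    exact lt_irrefl _ h2
  have hx : x ∉ insert y (Finset.univ.filter (fun z => l x < l z ∧ l z < l y)) := by
    rw [Finset.mem_insert, Finset.mem_filter]
    rintro (h1 | ⟨-, h2, -⟩)
    · exact hne h1
    · exact lt_irrefl _ h2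
  rw [← h0, Finset.sum_insert hx, Finset.sum_insert hy, g.tri B x x le_rfl,
    h.tri B y y le_rfl, Matrix.one_apply_eq, Matrix.one_apply_eq, one_mul, mul_one, add_assoc]

theorem tile_inj [Fintype I] (R K : ℕ) (hR : 1 ≤ R) (hK : ∀ x : I, l x ≤ K)
    (u u' b b' : UG ι I l ℤ)
    (hu : ∀ B x y, l x < l y → 0 ≤ u.m B x y ∧ u.m B x y < (R : ℤ) ^ K ∧
      (R : ℤ) ^ (l y - l x) ∣ u.m B x y)
    (hu' : ∀ B x y, l x < l y → 0 ≤ u'.m B x y ∧ u'.m B x y < (R : ℤ) ^ K ∧
      (R : ℤ) ^ (l y - l x) ∣ u'.m B x y)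
    (hb : ∀ B x y, l x < l y → 0 ≤ b.m B x y ∧ b.m B x y < (R : ℤ) ^ (l y - l x))
    (hb' : ∀ B x y, l x < l y → 0 ≤ b'.m B x y ∧ b'.m B x y < (R : ℤ) ^ (l y - l x))
    (h : UG.map (Int.castRingHom (ZMod (R ^ K))) (u * b) =
      UG.map (Int.castRingHom (ZMod (R ^ K))) (u' * b')) : u = u' ∧ b = b' := by
  have key : ∀ n : ℕ, ∀ B x y, l x < l y → l y - l x = n →
      u.m B x y = u'.m B x y ∧ b.m B x y = b'.m B x y := by
    intro n
    induction n using Nat.strong_induction_on with
    | _ n ih =>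
      intro B x y hxy hn
      have hs : ∑ z ∈ Finset.univ.filter (fun z => l x < l z ∧ l z < l y),
          u.m B x z * b.m B z y = ∑ z ∈ Finset.univ.filter (fun z => l x < l z ∧ l z < l y),
          u'.m B x z * b'.m B z y := by
        refine Finset.sum_congr rfl fun z hz => ?_
        rw [Finset.mem_filter] at hz
        obtain ⟨-, h1, h2⟩ := hz
        rw [(ih (l z - l x) (by omega) B x z h1 rfl).1,
          (ih (l y - l z) (by omega) B z y h2 rfl).2]
      have h1 : (UG.map (Int.castRingHom (ZMod (R ^ K))) (u * b)).m B x y =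
          (UG.map (Int.castRingHom (ZMod (R ^ K))) (u' * b')).m B x y := by rw [h]
      rw [UG.map_apply, UG.map_apply, UG.mul_split u b B x y hxy,
        UG.mul_split u' b' B x y hxy, hs, eq_intCast, eq_intCast,
        ZMod.intCast_eq_intCast_iff_dvd_sub] at h1
      have h2 : ((R : ℤ) ^ K) ∣ (b'.m B x y - b.m B x y) + (u'.m B x y - u.m B x y) := by
        have h3 : (((R ^ K : ℕ) : ℤ)) = (R : ℤ) ^ K := by push_cast; ring
        rw [h3] at h1
        have h4 : b'.m B x y + u'.m B x y + ∑ z ∈ Finset.univ.filter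
            (fun z => l x < l z ∧ l z < l y), u'.m B x z * b'.m B z y -
            (b.m B x y + u.m B x y + ∑ z ∈ Finset.univ.filter
            (fun z => l x < l z ∧ l z < l y), u'.m B x z * b'.m B z y) =
            (b'.m B x y - b.m B x y) + (u'.m B x y - u.m B x y) := by ring
        rw [h4] at h1
        exact h1
      obtain ⟨u1, u2, u3⟩ := hu B x y hxy
      obtain ⟨v1, v2, v3⟩ := hu' B x y hxy
      obtain ⟨b1, b2⟩ := hb B x y hxy
      obtain ⟨c1, c2⟩ := hb' B x y hxy
      have h5 : (R : ℤ) ^ (l y - l x) ∣ (R : ℤ) ^ K :=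
        pow_dvd_pow _ (by have := hK y; omega)
      have h6 : (R : ℤ) ^ (l y - l x) ∣ b'.m B x y - b.m B x y := by
        have h7 := h5.trans h2
        have h8 : (R : ℤ) ^ (l y - l x) ∣ u'.m B x y - u.m B x y := dvd_sub v3 u3
        exact (dvd_add_left h8).1 h7
      have h9 : b'.m B x y - b.m B x y = 0 := by
        refine Int.eq_zero_of_abs_lt_dvd h6 ?_
        rw [abs_lt]
        constructor <;> linarith
      have h10 : u'.m B x y - u.m B x y = 0 := by
        rw [h9, zero_add] at h2
        refine Int.eq_zero_of_abs_lt_dvd h2 ?_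
        rw [abs_lt]
        constructor <;> linarith
      exact ⟨by linarith, by linarith⟩
  exact ⟨UG.ext' fun B x y hxy => (key _ B x y hxy rfl).1,
    UG.ext' fun B x y hxy => (key _ B x y hxy rfl).2⟩

end SingerRA
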