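import Mathlib
import Pool.Agent.Lib_MP_394d50_all.GDefs
import Pool.Agent.Lib_MP_394d50_all.GBox
import Pool.Agent.Lib_MP_394d50_all.GTile
import Pool.Agent.Lib_MP_394d50_all.GGood

/-!
# Block G: Folner sets mapped injectively to the finite quotients

Piece GCOUNT.

Let `C` be from `good_bound S`, `M = card I * C`, `N = Fintype.card (EI ι I l)` (the number of triples
`(B, x, y)` with `l x < l y`), `K = ∑ x, l x` (so `l x ≤ K`, `le_lmax`), `R = 2 ^ r` with `r` so large that `2 M ≤ R` and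
`2 M N ≤ ε R` (`pow_unbounded_of_one_lt`). Take `n = r K`, so `2 ^ n = R ^ K` (`pow_mul`).

By `box_exists` (for `S = ℤ`) there are finsets (here `w = l y - l x`, all entries for the triples with `l x < l y`):
* `U`, given by `d B x y = (Finset.Ico 0 (R ^ (K - w))).image (fun z => R ^ w * z)`, of cardinality `∏ R ^ (K - w)`;
  its members have `0 ≤ u x y < R ^ K` and `R ^ w ∣ u x y`;
* `P`, given by `Finset.Ico 0 (R ^ w)`;
* `P'`, given by `Finset.Ico (M R ^ (w-1)) (R ^ w - M R ^ (w-1))`, of cardinality `∏ (R ^ w - 2 M R ^ (w-1))`.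
`F = image of U ×ˢ P under (u, b) ↦ u * b`, `B = image of U ×ˢ P' under the product`.
By `tile_inj` (transport along `2 ^ n = R ^ K`: best generalise `n`, or use `subst`/`rw` before unfolding; e.g. prove
the statement with `ZMod (R ^ K)` first and then rewrite `R ^ K = 2 ^ n` with `▸`) the map to the quotient is injective on `F`, and
`(u, b) ↦ u * b` is injective on `U × P ⊇ U × P'`, so `B.card = U.card * P'.card` (`Finset.card_image_of_injOn`).
`good` gives `b * s ∈ F` (`(u * b) * s = u * (b * s)`, `b * s ∈ P`).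
`Nat.card = (R ^ K) ^ N` (`UG.card`) and `B.card = ∏ R ^ (K - w) * (R ^ w - 2 M R ^ (w-1)) = ∏ R ^ K (1 - 2 M / R)
= (R ^ K) ^ N * (1 - 2 M / R) ^ N ≥ (R ^ K) ^ N * (1 - N * 2 M / R) ≥ (1 - ε) (R ^ K) ^ N` by `one_add_mul_le_pow`.
-/

namespace SingerRA

variable {ι I : Type} {l : I → ℕ} [DecidableEq I]

open scoped Classical in
/-- The version with a general base `R`. -/
private theorem gcount_main [Fintype ι] [Fintype I] (S : Finset (UG ι I l ℤ)) (C R K : ℕ)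
    (hC : ∀ s ∈ S, ∀ B x y, |s.m B x y| ≤ (C : ℤ)) (hR : 1 ≤ R) (hK : ∀ x : I, l x ≤ K)
    (hM : 2 * (Fintype.card I * C) ≤ R) :
    ∃ F B : Finset (UG ι I l ℤ),
      Set.InjOn (UG.map (ι := ι) (l := l) (Int.castRingHom (ZMod (R ^ K)))) F ∧
      (∀ b ∈ B, ∀ s ∈ S, b * s ∈ F) ∧
      ((R : ℝ) ^ K) ^ Fintype.card (EI ι I l) *
        (1 - 2 * ((Fintype.card I * C : ℕ) : ℝ) / R) ^ Fintype.card (EI ι I l) ≤ (B.card : ℝ) := by
  obtain ⟨M, hMdef⟩ : ∃ M : ℕ, M = Fintype.card I * C := ⟨_, rfl⟩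
  rw [← hMdef] at hM ⊢
  have hRz : (1 : ℤ) ≤ (R : ℤ) := by exact_mod_cast hR
  have hRpos : (0 : ℤ) < (R : ℤ) := by linarith
  have hMz : 2 * (M : ℤ) ≤ (R : ℤ) := by exact_mod_cast hM
  have hM0 : (0 : ℤ) ≤ (M : ℤ) := Int.natCast_nonneg M
  obtain ⟨U, hU, hUc⟩ := box_exists (ι := ι) (I := I) (l := l) (S := ℤ) (fun _ x y =>
    (Finset.Ico (0 : ℤ) ((R : ℤ) ^ (K - (l y - l x)))).image
      (fun z => (R : ℤ) ^ (l y - l x) * z))
  obtain ⟨P, hP, -⟩ := box_exists (ι := ι) (I := I) (l := l) (S := ℤ) (fun _ x y =>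
    Finset.Ico (0 : ℤ) ((R : ℤ) ^ (l y - l x)))
  obtain ⟨P', hP', hPc'⟩ := box_exists (ι := ι) (I := I) (l := l) (S := ℤ) (fun _ x y =>
    Finset.Ico ((M : ℤ) * (R : ℤ) ^ (l y - l x - 1))
      ((R : ℤ) ^ (l y - l x) - (M : ℤ) * (R : ℤ) ^ (l y - l x - 1)))
  have hUm : ∀ u ∈ U, ∀ B x y, l x < l y → 0 ≤ u.m B x y ∧ u.m B x y < (R : ℤ) ^ K ∧
      (R : ℤ) ^ (l y - l x) ∣ u.m B x y := by
    intro u hu B x y hxy
    have h1 := (hU u).1 hu B x y hxy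
    rw [Finset.mem_image] at h1
    obtain ⟨z, hz, h2⟩ := h1
    rw [Finset.mem_Ico] at hz
    have h3 : (0 : ℤ) < (R : ℤ) ^ (l y - l x) := pow_pos hRpos _
    have h4 : (R : ℤ) ^ (l y - l x) * (R : ℤ) ^ (K - (l y - l x)) = (R : ℤ) ^ K := by
      rw [← pow_add]
      congr 1
      have := hK y
      omega
    rw [← h2]
    refine ⟨mul_nonneg h3.le hz.1, ?_, dvd_mul_right _ _⟩
    rw [← h4]
    exact mul_lt_mul_of_pos_left hz.2 h3
  have hPm : ∀ b ∈ P, ∀ B x y, l x < l y → 0 ≤ b.m B x y ∧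
      b.m B x y < (R : ℤ) ^ (l y - l x) := by
    intro b hb B x y hxy
    exact Finset.mem_Ico.1 ((hP b).1 hb B x y hxy)
  have hPP : ∀ b ∈ P', b ∈ P := by
    intro b hb
    rw [hP]
    intro B x y hxy
    have h1 := Finset.mem_Ico.1 ((hP' b).1 hb B x y hxy)
    have h2 : (0 : ℤ) ≤ (M : ℤ) * (R : ℤ) ^ (l y - l x - 1) :=
      mul_nonneg hM0 (pow_pos hRpos _).le
    rw [Finset.mem_Ico]
    exact ⟨h2.trans h1.1, by linarith [h1.2]⟩
  have hgood : ∀ b ∈ P', ∀ s ∈ S, b * s ∈ P := by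
    intro b hb s hs
    rw [hP]
    intro B x y hxy
    rw [Finset.mem_Ico]
    refine good C R hR s b (hC s hs) ?_ B x y hxy
    intro B x y hxy
    have h1 := Finset.mem_Ico.1 ((hP' b).1 hb B x y hxy)
    rw [← hMdef]
    exact h1
  have htile : ∀ u ∈ U, ∀ b ∈ P, ∀ u' ∈ U, ∀ b' ∈ P,
      UG.map (Int.castRingHom (ZMod (R ^ K))) (u * b) =
      UG.map (Int.castRingHom (ZMod (R ^ K))) (u' * b') → u = u' ∧ b = b' := by
    intro u hu b hb u' hu' b' hb' h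
    exact tile_inj R K hR hK u u' b b' (hUm u hu) (hUm u' hu') (hPm b hb) (hPm b' hb') h
  refine ⟨(U ×ˢ P).image (fun a => a.1 * a.2), (U ×ˢ P').image (fun a => a.1 * a.2),
    ?_, ?_, ?_⟩
  · intro f hf f' hf' h
    rw [Finset.mem_coe, Finset.mem_image] at hf hf'
    obtain ⟨⟨u, b⟩, hub, rfl⟩ := hf
    obtain ⟨⟨u', b'⟩, hub', rfl⟩ := hf'
    rw [Finset.mem_product] at hub hub'
    obtain ⟨h1, h2⟩ := htile u hub.1 b hub.2 u' hub'.1 b' hub'.2 h
    show u * b = u' * b'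
    rw [h1, h2]
  · intro f hf s hs
    rw [Finset.mem_image] at hf ⊢
    obtain ⟨⟨u, b⟩, hub, rfl⟩ := hf
    rw [Finset.mem_product] at hub
    refine ⟨(u, b * s), ?_, ?_⟩
    · rw [Finset.mem_product]
      exact ⟨hub.1, hgood b hub.2 s hs⟩
    · show u * (b * s) = u * b * s
      rw [mul_assoc]
  · have hinj : Set.InjOn (fun a : UG ι I l ℤ × UG ι I l ℤ => a.1 * a.2) (U ×ˢ P' : Finset _) := by
      rintro ⟨u, b⟩ hub ⟨u', b'⟩ hub' h
      rw [Finset.mem_coe, Finset.mem_product] at hub hub'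
      have h0 : u * b = u' * b' := h
      obtain ⟨h1, h2⟩ := htile u hub.1 b (hPP b hub.2) u' hub'.1 b' (hPP b' hub'.2)
        (by rw [h0])
      rw [h1, h2]
    rw [Finset.card_image_of_injOn hinj, Finset.card_product, hUc, hPc', ← Finset.prod_mul_distrib]
    have hterm : ∀ a : EI ι I l,
        ((((Finset.Ico (0 : ℤ) ((R : ℤ) ^ (K - (l a.1.2.2 - l a.1.2.1)))).image
          (fun z => (R : ℤ) ^ (l a.1.2.2 - l a.1.2.1) * z)).card *
        (Finset.Ico ((M : ℤ) * (R : ℤ) ^ (l a.1.2.2 - l a.1.2.1 - 1))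
          ((R : ℤ) ^ (l a.1.2.2 - l a.1.2.1) -
            (M : ℤ) * (R : ℤ) ^ (l a.1.2.2 - l a.1.2.1 - 1))).card : ℕ) : ℝ) =
        (R : ℝ) ^ K * (1 - 2 * (M : ℝ) / R) := by
      intro a
      have hw : l a.1.2.1 < l a.1.2.2 := a.2
      obtain ⟨w, hw'⟩ : ∃ w : ℕ, l a.1.2.2 - l a.1.2.1 = w + 1 :=
        ⟨l a.1.2.2 - l a.1.2.1 - 1, by omega⟩
      have hwK : w + 1 ≤ K := by
        have := hK a.1.2.2
        omega
      rw [hw', Nat.add_sub_cancel]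
      rw [Finset.card_image_of_injective _ (mul_right_injective₀ (pow_pos hRpos _).ne'),
        Int.card_Ico, Int.card_Ico, sub_zero]
      have h1 : (0 : ℤ) ≤ (R : ℤ) ^ (w + 1) - (M : ℤ) * (R : ℤ) ^ w - (M : ℤ) * (R : ℤ) ^ w := by
        have h2 : (R : ℤ) ^ (w + 1) - (M : ℤ) * (R : ℤ) ^ w - (M : ℤ) * (R : ℤ) ^ w =
            (R : ℤ) ^ w * ((R : ℤ) - 2 * (M : ℤ)) := by ring
        rw [h2]
        exact mul_nonneg (pow_pos hRpos _).le (by linarith)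
      have h3 : ((((R : ℤ) ^ (w + 1) - (M : ℤ) * (R : ℤ) ^ w - (M : ℤ) * (R : ℤ) ^ w).toNat : ℕ) :
          ℝ) = (R : ℝ) ^ (w + 1) - (M : ℝ) * (R : ℝ) ^ w - (M : ℝ) * (R : ℝ) ^ w := by
        have h4 := Int.toNat_of_nonneg h1
        have h5 : ((((R : ℤ) ^ (w + 1) - (M : ℤ) * (R : ℤ) ^ w -
            (M : ℤ) * (R : ℤ) ^ w).toNat : ℤ) : ℝ) = (R : ℝ) ^ (w + 1) - (M : ℝ) * (R : ℝ) ^ w -
            (M : ℝ) * (R : ℝ) ^ w := by
          rw [h4]
          push_cast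
          ring
        exact_mod_cast h5
      have h6 : ((((R : ℤ) ^ (K - (w + 1))).toNat : ℕ) : ℝ) = (R : ℝ) ^ (K - (w + 1)) := by
        have h4 := Int.toNat_of_nonneg (pow_pos hRpos (K - (w + 1))).le
        have h5 : ((((R : ℤ) ^ (K - (w + 1))).toNat : ℤ) : ℝ) = (R : ℝ) ^ (K - (w + 1)) := by
          rw [h4]
          push_cast
          ring
        exact_mod_cast h5
      rw [Nat.cast_mul, h3, h6]
      have hR0 : (R : ℝ) ≠ 0 := by
        have : (0 : ℝ) < (R : ℝ) := by exact_mod_cast hR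
        exact this.ne'
      have h7 : (R : ℝ) ^ K = (R : ℝ) ^ (K - (w + 1)) * (R : ℝ) ^ (w + 1) := by
        rw [← pow_add]
        congr 1
        omega
      rw [h7, pow_succ]
      field_simp
      ring
    rw [Nat.cast_prod, Finset.prod_congr rfl fun a _ => hterm a, Finset.prod_const,
      Finset.card_univ, mul_pow]

open scoped Classical in
theorem folner_core [Fintype ι] [Fintype I] (S : Finset (UG ι I l ℤ)) (ε : ℝ) (hε : 0 < ε) :
    ∃ (n : ℕ) (F B : Finset (UG ι I l ℤ)),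
      Set.InjOn (UG.map (ι := ι) (l := l) (Int.castRingHom (ZMod (2 ^ n)))) F ∧
      (∀ b ∈ B, ∀ s ∈ S, b * s ∈ F) ∧
      (1 - ε) * (Nat.card (UG ι I l (ZMod (2 ^ n))) : ℝ) ≤ (B.card : ℝ) := by
  obtain ⟨C, hC⟩ := good_bound S
  obtain ⟨M, hM⟩ : ∃ M : ℕ, M = Fintype.card I * C := ⟨_, rfl⟩
  obtain ⟨N, hN⟩ : ∃ N : ℕ, N = Fintype.card (EI ι I l) := ⟨_, rfl⟩
  obtain ⟨r, hr⟩ := pow_unbounded_of_one_lt (max (2 * (M : ℝ)) (2 * (M : ℝ) * N / ε))
    (one_lt_two : (1 : ℝ) < 2)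
  obtain ⟨K, hK⟩ : ∃ K : ℕ, K = lmax l := ⟨_, rfl⟩
  obtain ⟨R, hRdef⟩ : ∃ R : ℕ, R = 2 ^ r := ⟨_, rfl⟩
  have hRr : (R : ℝ) = 2 ^ r := by rw [hRdef]; push_cast; ring
  rw [← hRr] at hr
  have hR1 : 1 ≤ R := by rw [hRdef]; exact Nat.one_le_two_pow
  have hR0 : (0 : ℝ) < (R : ℝ) := by exact_mod_cast hR1
  have h1 : 2 * (M : ℝ) ≤ R := (le_max_left _ _).trans hr.le
  have h2 : 2 * (M : ℝ) * N ≤ ε * R := by
    have h3 : 2 * (M : ℝ) * N / ε ≤ R := (le_max_right _ _).trans hr.le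
    rw [div_le_iff₀ hε] at h3
    linarith
  obtain ⟨F, B, hF, hB, hc⟩ := gcount_main S C R K hC hR1 (fun x => by rw [hK]; exact le_lmax l x)
    (by rw [← hM]; exact_mod_cast h1)
  have key : (1 - ε) * (Nat.card (UG ι I l (ZMod (R ^ K))) : ℝ) ≤ (B.card : ℝ) := by
    haveI : NeZero (R ^ K) := ⟨by positivity⟩
    rw [UG.card (ι := ι) (I := I) (l := l) (R ^ K)]
    refine le_trans ?_ hc
    rw [← hM, ← hN]
    push_cast
    rw [mul_comm (1 - ε)]
    refine mul_le_mul_of_nonneg_left ?_ (by positivity)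
    have h4 : (-2 : ℝ) ≤ -(2 * (M : ℝ) / R) := by
      have h5 : 2 * (M : ℝ) / R ≤ 1 := (div_le_one hR0).2 h1
      linarith
    have h6 := one_add_mul_le_pow h4 N
    have h7 : (N : ℝ) * (2 * (M : ℝ) / R) ≤ ε := by
      rw [mul_div_assoc', div_le_iff₀ hR0]
      linarith
    have h8 : (1 : ℝ) + (N : ℝ) * -(2 * (M : ℝ) / R) ≤ (1 - 2 * (M : ℝ) / R) ^ N := by
      rw [sub_eq_add_neg]
      exact h6
    refine le_trans ?_ h8
    linarith
  refine ⟨r * K, F, B, ?_⟩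
  rw [pow_mul, ← hRdef]
  exact ⟨hF, hB, key⟩

end SingerRA
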