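import Mathlib
import Pool.Agent.Lib_MP_394d50_all.GDefs

/-!
# Block G: conjugation by signs
-/

namespace SingerRA

variable {V ι I : Type} {l : I → ℕ} {S : Type} [DecidableEq I] [CommRing S]

/-- The sign. -/
def sz (S : Type) [CommRing S] (a : ZMod 2) : S := if a = 0 then 1 else -1

theorem sz_zero : sz S 0 = 1 := if_pos rfl

theorem sz_one : sz S 1 = -1 := if_neg (by decide)

theorem zm2_or (a : ZMod 2) : a = 0 ∨ a = 1 := by
  revert a
  decide

theorem sz_add (a b : ZMod 2) : sz S (a + b) = sz S a * sz S b := by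
  rcases zm2_or a with rfl | rfl <;> rcases zm2_or b with rfl | rfl
  · simp [sz_zero]
  · simp [sz_zero]
  · simp [sz_zero]
  · rw [show (1 : ZMod 2) + 1 = 0 from rfl, sz_zero, sz_one]
    ring

theorem sz_mul_self (a : ZMod 2) : sz S a * sz S a = 1 := by
  rw [← sz_add, CharTwo.add_self_eq_zero, sz_zero]

/-- The pairing. -/
def prg [Fintype V] (χ η : V → ZMod 2) : ZMod 2 := ∑ v, χ v * η v

theorem prg_add [Fintype V] (χ χ' η : V → ZMod 2) : prg (χ + χ') η = prg χ η + prg χ' η := by
  unfold prg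
  rw [← Finset.sum_add_distrib]
  exact Finset.sum_congr rfl fun v _ => by rw [Pi.add_apply, add_mul]

theorem prg_add_right [Fintype V] (χ η η' : V → ZMod 2) : prg χ (η + η') = prg χ η + prg χ η' := by
  unfold prg
  rw [← Finset.sum_add_distrib]
  exact Finset.sum_congr rfl fun v _ => by rw [Pi.add_apply, mul_add]

theorem prg_single [Fintype V] [DecidableEq V] (v : V) (η : V → ZMod 2) :
    prg (Pi.single v 1) η = η v := by
  unfold prg
  rw [Finset.sum_eq_single v]
  · rw [Pi.single_eq_same, one_mul]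
  · intro u _ hu
    rw [Pi.single_eq_of_ne hu, zero_mul]
  · intro h
    exact absurd (Finset.mem_univ v) h

/-- Conjugation by signs. -/
def UG.cj [Fintype V] (dg : I → V → ZMod 2) (χ : V → ZMod 2) (g : UG ι I l S) : UG ι I l S where
  m B := Matrix.of fun x y => sz S (prg χ (dg x)) * g.m B x y * sz S (prg χ (dg y))
  tri B x y h := by
    rw [Matrix.of_apply, g.tri B x y h, Matrix.one_apply]
    split_ifs with h1
    · rw [h1, mul_one, sz_mul_self]
    · rw [mul_zero, zero_mul]

theorem UG.cj_apply [Fintype V] (dg : I → V → ZMod 2) (χ : V → ZMod 2) (g : UG ι I l S) (B : ι)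
    (x y : I) : (UG.cj dg χ g).m B x y = sz S (prg χ (dg x)) * g.m B x y * sz S (prg χ (dg y)) :=
  rfl

theorem UG.cj_add [Fintype V] (dg : I → V → ZMod 2) (χ χ' : V → ZMod 2) (g : UG ι I l S) :
    UG.cj dg (χ + χ') g = UG.cj dg χ (UG.cj dg χ' g) := by
  refine UG.ext (funext fun B => Matrix.ext fun x y => ?_)
  rw [UG.cj_apply, UG.cj_apply, UG.cj_apply, prg_add, prg_add, sz_add, sz_add]
  ring

theorem UG.cj_zero [Fintype V] (dg : I → V → ZMod 2) (g : UG ι I l S) : UG.cj dg 0 g = g := by
  refine UG.ext (funext fun B => Matrix.ext fun x y => ?_)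
  have h : ∀ η : V → ZMod 2, prg 0 η = 0 := fun η => by
    unfold prg
    exact Finset.sum_eq_zero fun v _ => by rw [Pi.zero_apply, zero_mul]
  rw [UG.cj_apply, h, h, sz_zero, one_mul, mul_one]

theorem UG.cj_mul [Fintype V] [Fintype I] (dg : I → V → ZMod 2) (χ : V → ZMod 2)
    (g h : UG ι I l S) : UG.cj dg χ (g * h) = UG.cj dg χ g * UG.cj dg χ h := by
  refine UG.ext (funext fun B => Matrix.ext fun x y => ?_)
  rw [UG.cj_apply, UG.mul_apply, UG.mul_apply, Finset.mul_sum, Finset.sum_mul]
  refine Finset.sum_congr rfl fun z _ => ?_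
  rw [UG.cj_apply, UG.cj_apply]
  have := sz_mul_self (S := S) (prg χ (dg z))
  calc sz S (prg χ (dg x)) * (g.m B x z * h.m B z y) * sz S (prg χ (dg y))
      = (sz S (prg χ (dg x)) * g.m B x z) * 1 * (h.m B z y * sz S (prg χ (dg y))) := by ring
    _ = _ := by rw [← this]; ring

/-- The action of `(ℤ/2)^V` by signs. -/
noncomputable def UG.al [Fintype V] [Fintype I] (dg : I → V → ZMod 2) :
    Multiplicative (V → ZMod 2) →* MulAut (UG ι I l S) where
  toFun χ :=
    { toFun := UG.cj dg χ.toAdd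
      invFun := UG.cj dg χ.toAdd
      left_inv := fun g => by
        rw [← UG.cj_add]
        have : χ.toAdd + χ.toAdd = 0 := funext fun v => CharTwo.add_self_eq_zero _
        rw [this, UG.cj_zero]
      right_inv := fun g => by
        rw [← UG.cj_add]
        have : χ.toAdd + χ.toAdd = 0 := funext fun v => CharTwo.add_self_eq_zero _
        rw [this, UG.cj_zero]
      map_mul' := fun g h => UG.cj_mul dg χ.toAdd g h }
  map_one' := MulEquiv.ext fun g => UG.cj_zero dg g
  map_mul' χ χ' := MulEquiv.ext fun g => UG.cj_add dg χ.toAdd χ'.toAdd g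

theorem UG.al_apply [Fintype V] [Fintype I] (dg : I → V → ZMod 2)
    (χ : Multiplicative (V → ZMod 2)) (g : UG ι I l S) : UG.al dg χ g = UG.cj dg χ.toAdd g := rfl

end SingerRA
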