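import Mathlib
import Pool.Agent.Lib_MP_394d50_gt.Defs
import Pool.Agent.Lib_MP_394d50_gt.Defs2
import Pool.Agent.Lib_MP_394d50_gt.Defs3

/-!
# MP_394d50_gt, all flag homology spheres: definitions for the parts E and T

`D` is a division ring of characteristic two with units `t v` (`v` a vertex), commuting for
adjacent vertices. `M = (V → ZMod 2) → D ⊗ D` is a module of the right-angled Coxeter group
`W`: the generator `s_v` maps the component `χ` to the component `χ + e_v` by
`a ⊗ b ↦ a g⁻¹ ⊗ g b`, where `g = (t v)⁻¹` if `χ v = 0` and `g = t v` if `χ v = 1`.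
-/

namespace SingerRA

open scoped TensorProduct

/-- The tensor square over `F₂`. -/
abbrev TT (D : Type) [DivisionRing D] [Algebra (ZMod 2) D] : Type := D ⊗[ZMod 2] D

/-- The group `(ℤ/2)^V`. -/
abbrev QV (V : Type) : Type := V → ZMod 2

/-- The basis vector. -/
def ev {V : Type} [DecidableEq V] (v : V) : QV V := Pi.single v 1

/-- The module `M`. -/
abbrev MM (V D : Type) [DivisionRing D] [Algebra (ZMod 2) D] : Type := QV V → TT D

/-- `a ⊗ b ↦ a g⁻¹ ⊗ g b`. -/
noncomputable def act {D : Type} [DivisionRing D] [Algebra (ZMod 2) D] (g : Dˣ) :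
    TT D →ₗ[ZMod 2] TT D :=
  TensorProduct.map (LinearMap.mulRight (ZMod 2) ((g⁻¹ : Dˣ) : D))
    (LinearMap.mulLeft (ZMod 2) (g : D))

/-- Units for the vertices, commuting for adjacent vertices. -/
structure UD {V : Type} (G : SimpleGraph V) (D : Type) [DivisionRing D] where
  /-- the units -/
  t : V → Dˣ
  comm : ∀ u v, G.Adj u v → t u * t v = t v * t u

/-- The value of the cocycle at the generator `s_v` and the point `χ`. -/
def th1 {V D : Type} [DivisionRing D] (t : V → Dˣ) (v : V) (χ : QV V) : Dˣ :=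
  if χ v = 0 then (t v)⁻¹ else t v

/-- The operator `s_v` on `M`. -/
noncomputable def Sop {V D : Type} [DecidableEq V] [DivisionRing D] [Algebra (ZMod 2) D]
    (t : V → Dˣ) (v : V) : MM V D →ₗ[ZMod 2] MM V D where
  toFun m := fun χ => act (th1 t v (χ + ev v)) (m (χ + ev v))
  map_add' m n := by
    funext χ
    simp
  map_smul' r m := by
    funext χ
    simp

/-- The degree of an element of `W`. -/
noncomputable def deg {V : Type} (G : SimpleGraph V) (w : W G) : QV V := (lab G w).toAdd

/-- The parabolic subgroup of a finite set of vertices. -/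
noncomputable abbrev pW {V : Type} (G : SimpleGraph V) (A : Finset V) : Subgroup (W G) :=
  par G (A : Set V)

/-! ## Balanced relations and exactness -/

/-- The relations `a e ⊗ b = a ⊗ e b`, `e ∈ K`. -/
noncomputable def Rel {D : Type} [DivisionRing D] [Algebra (ZMod 2) D] (K : Subfield D) :
    Submodule (ZMod 2) (TT D) :=
  Submodule.span (ZMod 2) {x | ∃ a b : D, ∃ e ∈ K, x = (a * e) ⊗ₜ[ZMod 2] b - a ⊗ₜ[ZMod 2] (e * b)}

/-- The relations for a family of division subrings. -/
noncomputable def RelF {V D : Type} [DivisionRing D] [Algebra (ZMod 2) D]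
    (E : QV V → Subfield D) : Submodule (ZMod 2) (MM V D) :=
  Submodule.pi Set.univ (fun χ => Rel (E χ))

/-- The family is compatible with the operators `s_v`, `v ∈ A`. -/
def EqF {V D : Type} [DecidableEq V] [DivisionRing D] (t : V → Dˣ) (A : Finset V)
    (E : QV V → Subfield D) : Prop :=
  ∀ v ∈ A, ∀ χ, ∀ x ∈ E χ,
    ((th1 t v χ : Dˣ) : D) * x * (((th1 t v χ)⁻¹ : Dˣ) : D) ∈ E (χ + ev v)

/-- The boundary: `(bd z) τ = ∑_{v ∉ τ} z (τ ∪ {v})`. -/
def bd {V : Type} [Fintype V] [DecidableEq V] {X : Type} [AddCommMonoid X] (z : Finset V → X)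
    (τ : Finset V) : X := ∑ v ∈ Finset.univ \ τ, z (insert v τ)

/-- The chains of degree `i` on the subsets of `A` with values in `M`, the value at `σ` being
invariant under the `s_v`, `v ∈ σ`. -/
def Cch {V D : Type} [DecidableEq V] [DivisionRing D] [Algebra (ZMod 2) D] (G : SimpleGraph V)
    (t : V → Dˣ) (A : Finset V) (i : ℕ) (c : Finset V → MM V D) : Prop :=
  (∀ σ, ¬ (σ ∈ cliq G ∧ σ ⊆ A ∧ σ.card = i) → c σ = 0) ∧ ∀ σ, ∀ v ∈ σ, Sop t v (c σ) = c σ

/-- Exactness in positive degrees, modulo `R`. -/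
def ExM {V D : Type} [Fintype V] [DecidableEq V] [DivisionRing D] [Algebra (ZMod 2) D]
    (G : SimpleGraph V) (t : V → Dˣ) (A : Finset V) (R : Submodule (ZMod 2) (MM V D)) : Prop :=
  ∀ i, 1 ≤ i → ∀ c, Cch G t A i c → (∀ τ, bd c τ ∈ R) →
    ∃ d, Cch G t A (i + 1) d ∧ ∀ τ, c τ - bd d τ ∈ R

/-! ## Valuations -/

/-- A valuation of a division ring, given by its preorder: `le a b` means `v a ≤ v b`, with
`v 0 = ∞`. -/
structure PV (D : Type) [DivisionRing D] where
  /-- the preorder -/
  le : D → D → Prop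
  total : ∀ a b, le a b ∨ le b a
  trans : ∀ a b c, le a b → le b c → le a c
  mul_left : ∀ a b c, le a b → le (c * a) (c * b)
  mul_right : ∀ a b c, le a b → le (a * c) (b * c)
  add : ∀ a b c, le c a → le c b → le c (a + b)
  le_zero : ∀ a, le a 0
  eq_zero : ∀ a, le 0 a → a = 0

/-- `v a = 1`. -/
def PV.triv {D : Type} [DivisionRing D] (v : PV D) (a : D) : Prop := v.le 1 a ∧ v.le a 1

/-- The alternating product `θ(f(2k-1))⁻¹ θ(f(2k-2)) ⋯ θ(f 1)⁻¹ θ(f 0)`. -/
def prodw {ι D : Type} [DivisionRing D] (θ : ι → Dˣ) (f : ℕ → ι) : ℕ → Dˣ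
  | 0 => 1
  | k + 1 => (θ (f (2 * k + 1)))⁻¹ * θ (f (2 * k)) * prodw θ f k

/-- The tensors `a ⊗ b` with `v a > v g` or `v b > v h`, and the relations of `K`. -/
noncomputable def FF {D : Type} [DivisionRing D] [Algebra (ZMod 2) D] (v : PV D)
    (K : Subfield D) (g h : D) : Submodule (ZMod 2) (TT D) :=
  Submodule.span (ZMod 2) {x | ∃ a b : D, (¬ v.le a g ∨ ¬ v.le b h) ∧ x = a ⊗ₜ[ZMod 2] b} ⊔ Rel K

/-! ## The cocycle -/

/-- The permutation `(χ, d) ↦ (χ + e_v, θ_v(χ) d)`. -/
def sPerm {V D : Type} [DecidableEq V] [DivisionRing D] (t : V → Dˣ) (v : V) :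
    Equiv.Perm (QV V × Dˣ) where
  toFun p := (p.1 + ev v, th1 t v p.1 * p.2)
  invFun p := (p.1 + ev v, th1 t v p.1 * p.2)
  left_inv := by
    rintro ⟨χ, d⟩
    have h2 : ev v + ev v = (0 : QV V) := by
      funext u
      exact CharTwo.add_self_eq_zero _
    refine Prod.ext ?_ ?_
    · show χ + ev v + ev v = χ
      rw [add_assoc, h2, add_zero]
    · show th1 t v (χ + ev v) * (th1 t v χ * d) = d
      have h1 : (χ + ev v) v = χ v + 1 := by simp [ev]
      have hc : χ v = 0 ∨ χ v = 1 := by
        generalize χ v = a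
        revert a
        decide
      unfold th1
      rw [h1]
      rcases hc with h | h <;> rw [h] <;> simp
      intro h3
      exact absurd h3 (by decide)
  right_inv := by
    rintro ⟨χ, d⟩
    have h2 : ev v + ev v = (0 : QV V) := by
      funext u
      exact CharTwo.add_self_eq_zero _
    refine Prod.ext ?_ ?_
    · show χ + ev v + ev v = χ
      rw [add_assoc, h2, add_zero]
    · show th1 t v (χ + ev v) * (th1 t v χ * d) = d
      have h1 : (χ + ev v) v = χ v + 1 := by simp [ev]
      have hc : χ v = 0 ∨ χ v = 1 := by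
        generalize χ v = a
        revert a
        decide
      unfold th1
      rw [h1]
      rcases hc with h | h <;> rw [h] <;> simp
      intro h3
      exact absurd h3 (by decide)

end SingerRA
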