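import Mathlib
import Pool.Agent.Lib_MP_394d50_all.DDefs

/-!
# Basic lemmas on the operators `s_v`, the representation `rep` of `W` and the cocycle `th`
-/

namespace SingerRA

open scoped TensorProduct

section act

variable {D : Type} [DivisionRing D] [Algebra (ZMod 2) D]

theorem act_tmul (g : Dˣ) (a b : D) :
    act g (a ⊗ₜ[ZMod 2] b) = (a * ((g⁻¹ : Dˣ) : D)) ⊗ₜ[ZMod 2] ((g : D) * b) := by
  simp [act]

theorem act_mul (g h : Dˣ) (x : TT D) : act (g * h) x = act g (act h x) := by
  induction x using TensorProduct.induction_on with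
  | zero => simp
  | tmul a b => simp [act_tmul, mul_assoc]
  | add x y hx hy => rw [map_add, map_add, map_add, hx, hy]

theorem act_one (x : TT D) : act (1 : Dˣ) x = x := by
  induction x using TensorProduct.induction_on with
  | zero => simp
  | tmul a b => simp [act_tmul]
  | add x y hx hy => rw [map_add, hx, hy]

end act

theorem zm2_cases (a : ZMod 2) : a = 0 ∨ a = 1 := by
  revert a
  decide

section op

variable {V : Type} [DecidableEq V] {D : Type} [DivisionRing D]

theorem ev_self (v : V) : ev v v = (1 : ZMod 2) := by simp [ev]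

theorem ev_ne {u v : V} (h : u ≠ v) : ev v u = (0 : ZMod 2) := by simp [ev, h]

theorem ev_add_ev (v : V) : ev v + ev v = (0 : QV V) := by
  funext u
  exact CharTwo.add_self_eq_zero _

theorem add_ev_ev (χ : QV V) (v : V) : χ + ev v + ev v = χ := by
  rw [add_assoc, ev_add_ev, add_zero]

theorem th1_add_self (t : V → Dˣ) (v : V) (χ : QV V) : th1 t v (χ + ev v) = (th1 t v χ)⁻¹ := by
  unfold th1
  rw [Pi.add_apply, ev_self]
  rcases zm2_cases (χ v) with h | h <;> rw [h]
  · simp
  · rw [show (1 : ZMod 2) + 1 = 0 from rfl]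
    simp

theorem th1_add_ne (t : V → Dˣ) {u v : V} (h : v ≠ u) (χ : QV V) :
    th1 t v (χ + ev u) = th1 t v χ := by
  unfold th1
  rw [Pi.add_apply, ev_ne h, add_zero]

variable [Algebra (ZMod 2) D]

theorem Sop_apply (t : V → Dˣ) (v : V) (m : MM V D) (χ : QV V) :
    Sop t v m χ = act (th1 t v (χ + ev v)) (m (χ + ev v)) := rfl

theorem Sop_apply' (t : V → Dˣ) (v : V) (m : MM V D) (χ : QV V) :
    Sop t v m (χ + ev v) = act (th1 t v χ) (m χ) := by
  rw [Sop_apply, add_ev_ev]

theorem Sop_Sop (t : V → Dˣ) (v : V) (m : MM V D) : Sop t v (Sop t v m) = m := by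
  funext χ
  rw [Sop_apply, Sop_apply, add_ev_ev, ← act_mul, th1_add_self, inv_mul_cancel, act_one]

theorem Sop_comm {G : SimpleGraph V} (d : UD G D) {u v : V} (h : G.Adj u v) (m : MM V D) :
    Sop d.t u (Sop d.t v m) = Sop d.t v (Sop d.t u m) := by
  have hne : u ≠ v := h.ne
  have hc : ∀ χ χ' : QV V, th1 d.t u χ * th1 d.t v χ' = th1 d.t v χ' * th1 d.t u χ := by
    intro χ χ'
    have h0 : Commute (d.t u) (d.t v) := d.comm u v h
    unfold th1
    split_ifs
    · exact h0.inv_inv
    · exact h0.inv_left
    · exact h0.inv_right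
    · exact h0
  funext χ
  rw [Sop_apply, Sop_apply, Sop_apply, Sop_apply, ← act_mul, ← act_mul,
    add_right_comm χ (ev v) (ev u)]
  have e1 : th1 d.t v (χ + ev u + ev v) = (th1 d.t v χ)⁻¹ := by
    rw [th1_add_self, th1_add_ne d.t hne.symm]
  have e2 : th1 d.t v (χ + ev v) = (th1 d.t v χ)⁻¹ := th1_add_self _ _ _
  have e3 : th1 d.t u (χ + ev u) = (th1 d.t u χ)⁻¹ := th1_add_self _ _ _
  have e4 : th1 d.t u (χ + ev u + ev v) = (th1 d.t u χ)⁻¹ := by
    rw [th1_add_ne d.t hne, th1_add_self]
  rw [e1, e2, e3, e4]
  have h1 : Commute (th1 d.t u χ) (th1 d.t v χ) := hc χ χ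
  rw [h1.inv_inv.eq]

end op

/-! ## The degree -/

section deg

variable {V : Type} (G : SimpleGraph V)

theorem deg_mul (w w' : W G) : deg G (w * w') = deg G w + deg G w' := by
  unfold deg
  rw [map_mul, toAdd_mul]

theorem deg_one : deg G 1 = 0 := by
  unfold deg
  rw [map_one, toAdd_one]

theorem deg_inv (w : W G) : deg G w⁻¹ = deg G w := by
  have h : deg G w⁻¹ + deg G w = 0 := by rw [← deg_mul, inv_mul_cancel, deg_one]
  have h2 : deg G w + deg G w = 0 := by
    funext u
    exact CharTwo.add_self_eq_zero _
  exact add_right_cancel (h.trans h2.symm)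

theorem deg_gen [DecidableEq V] (v : V) : deg G (gen G v) = ev v := by
  unfold deg ev
  rw [lab_gen]
  rfl

theorem gen_mul_self (v : V) : gen G v * gen G v = 1 := (cs G).simple_mul_simple_self v

theorem gen_invE (v : V) : (gen G v)⁻¹ = gen G v := (cs G).inv_simple v

/-- Induction on the words. -/
theorem W_ind {p : W G → Prop} (one : p 1) (gm : ∀ v w, p w → p (gen G v * w)) (w : W G) : p w :=
  (cs G).simple_induction_left w one fun w v h => gm v w h

end deg

/-! ## The representation and the cocycle -/

section rep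

variable {V : Type} [DecidableEq V] {G : SimpleGraph V} {D : Type} [DivisionRing D]

omit [DecidableEq V] in
theorem liftable_ofE {X : Type} [Monoid X] (f : V → X) (sq : ∀ v, f v * f v = 1)
    (comm : ∀ u v, G.Adj u v → f u * f v = f v * f u) : (cox G).IsLiftable f := by
  classical
  intro i j
  by_cases h : i = j
  · subst h
    have : (cox G) i i = 1 := (cox G).diagonal i
    rw [this, pow_one]
    exact sq i
  · by_cases ha : G.Adj i j
    · have : (cox G) i j = 2 := by
        change (if i = j then 1 else if G.Adj i j then 2 else 0) = 2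
        rw [if_neg h, if_pos ha]
      rw [this, pow_two]
      nth_rw 1 [comm i j ha]
      rw [mul_assoc, ← mul_assoc (f i), sq, one_mul, sq]
    · have : (cox G) i j = 0 := by
        change (if i = j then 1 else if G.Adj i j then 2 else 0) = 0
        rw [if_neg h, if_neg ha]
      rw [this, pow_zero]

/-- The action of `W` on `QV V × Dˣ`, `s_v (χ, d) = (χ + e_v, θ_v(χ) d)`. -/
noncomputable def thHom (d : UD G D) : W G →* Equiv.Perm (QV V × Dˣ) :=
  (cs G).lift ⟨sPerm d.t, liftable_ofE _ (fun v => Equiv.ext fun p => (sPerm d.t v).left_inv p)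
    fun u v h => by
      have hne : u ≠ v := h.ne
      have h0 : Commute (d.t u) (d.t v) := d.comm u v h
      refine Equiv.ext fun p => Prod.ext ?_ ?_
      · show p.1 + ev v + ev u = p.1 + ev u + ev v
        exact add_right_comm _ _ _
      · show th1 d.t u (p.1 + ev v) * (th1 d.t v p.1 * p.2) =
          th1 d.t v (p.1 + ev u) * (th1 d.t u p.1 * p.2)
        rw [th1_add_ne d.t hne, th1_add_ne d.t hne.symm, ← mul_assoc, ← mul_assoc]
        congr 1
        unfold th1
        split_ifs
        · exact h0.inv_inv
        · exact h0.inv_left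
        · exact h0.inv_right
        · exact h0⟩

/-- The cocycle. -/
noncomputable def th (d : UD G D) (w : W G) (χ : QV V) : Dˣ := (thHom d w (χ, 1)).2

theorem thHom_gen (d : UD G D) (v : V) (p : QV V × Dˣ) :
    thHom d (gen G v) p = (p.1 + ev v, th1 d.t v p.1 * p.2) := by
  unfold thHom gen
  rw [CoxeterSystem.lift_apply_simple]
  rfl

theorem thHom_apply (d : UD G D) (w : W G) (χ : QV V) (x : Dˣ) :
    thHom d w (χ, x) = (χ + deg G w, th d w χ * x) := by
  induction w using W_ind with
  | one =>
    rw [map_one, deg_one, add_zero]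
    unfold th
    rw [map_one]
    simp
  | gm v w ih =>
    have h1 : th d w χ = (thHom d w (χ, 1)).2 := rfl
    rw [map_mul, Equiv.Perm.mul_apply, ih, thHom_gen, deg_mul, deg_gen]
    refine Prod.ext ?_ ?_
    · show χ + deg G w + ev v = χ + (ev v + deg G w)
      rw [add_assoc, add_comm (deg G w)]
    · show th1 d.t v (χ + deg G w) * (th d w χ * x) = th d (gen G v * w) χ * x
      have h2 : th d (gen G v * w) χ = th1 d.t v (χ + deg G w) * th d w χ := by
        unfold th
        rw [map_mul, Equiv.Perm.mul_apply, thHom_gen]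
        have h3 : (thHom d w (χ, 1)).1 = χ + deg G w := by
          have h4 : ∀ w' : W G, (thHom d w' (χ, 1)).1 = χ + deg G w' := by
            intro w'
            induction w' using W_ind with
            | one => rw [map_one, deg_one, add_zero]; rfl
            | gm v w'' ih' =>
              rw [map_mul, Equiv.Perm.mul_apply, thHom_gen, deg_mul, deg_gen, ih']
              show χ + deg G w'' + ev v = χ + (ev v + deg G w'')
              rw [add_assoc, add_comm (deg G w'')]
          exact h4 w
        rw [h3]
      rw [h2, mul_assoc]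

theorem th_one (d : UD G D) (χ : QV V) : th d (1 : W G) χ = 1 := by
  unfold th
  rw [map_one]
  rfl

theorem th_mul (d : UD G D) (w w' : W G) (χ : QV V) :
    th d (w * w') χ = th d w (χ + deg G w') * th d w' χ := by
  have h := thHom_apply d (w * w') χ 1
  rw [map_mul, Equiv.Perm.mul_apply, thHom_apply, thHom_apply] at h
  have := congrArg Prod.snd h
  simp only [mul_one] at this
  exact this.symm

theorem th_gen (d : UD G D) (v : V) (χ : QV V) : th d (gen G v) χ = th1 d.t v χ := by
  unfold th
  rw [thHom_gen, mul_one]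

theorem th_inv (d : UD G D) (w : W G) (χ : QV V) :
    th d w⁻¹ χ = (th d w (χ + deg G w))⁻¹ := by
  have h := th_mul d w w⁻¹ χ
  rw [mul_inv_cancel, th_one, deg_inv] at h
  exact eq_inv_of_mul_eq_one_right h.symm

theorem th_mem (d : UD G D) (w : W G) (χ : QV V) :
    th d w χ ∈ Subgroup.closure (Set.range d.t) := by
  induction w using W_ind with
  | one =>
    rw [th_one]
    exact one_mem _
  | gm v w ih =>
    rw [th_mul, th_gen]
    refine mul_mem ?_ ih
    unfold th1
    split_ifs
    · exact inv_mem (Subgroup.subset_closure ⟨v, rfl⟩)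
    · exact Subgroup.subset_closure ⟨v, rfl⟩

variable [Algebra (ZMod 2) D]

/-- The representation of `W` on `M`. -/
noncomputable def rep (d : UD G D) : W G →* Module.End (ZMod 2) (MM V D) :=
  (cs G).lift ⟨Sop d.t, liftable_ofE _ (fun v => LinearMap.ext fun m => Sop_Sop d.t v m)
    fun _ _ h => LinearMap.ext fun m => Sop_comm d h m⟩

theorem rep_gen (d : UD G D) (v : V) : rep d (gen G v) = Sop d.t v := by
  unfold rep gen
  rw [CoxeterSystem.lift_apply_simple]

theorem rep_mul (d : UD G D) (w w' : W G) (m : MM V D) :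
    rep d (w * w') m = rep d w (rep d w' m) := by
  rw [map_mul]
  rfl

theorem rep_one (d : UD G D) (m : MM V D) : rep d (1 : W G) m = m := by
  rw [map_one]
  rfl

theorem rep_apply (d : UD G D) (w : W G) (m : MM V D) (χ : QV V) :
    rep d w m (χ + deg G w) = act (th d w χ) (m χ) := by
  induction w using W_ind generalizing m with
  | one => rw [rep_one, deg_one, add_zero, th_one, act_one]
  | gm v w ih =>
    rw [rep_mul, rep_gen, deg_mul, deg_gen, th_mul, th_gen, act_mul]
    rw [show χ + (ev v + deg G w) = χ + deg G w + ev v by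
      rw [add_assoc, add_comm (deg G w)], Sop_apply', ih]

end rep

end SingerRA
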