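import Mathlib
import Pool.Agent.Lib_MP_394d50_all.DDefs
import Pool.Agent.Lib_MP_394d50_all.EBase

/-!
# Definitions for the exactness part (E)
-/

namespace SingerRA

open scoped TensorProduct

section

variable {V : Type} [DecidableEq V] {G : SimpleGraph V} {D : Type} [DivisionRing D]

/-- The conjugates of `u` by the elements of `W_{A \ u}`. -/
def conjU (G : SimpleGraph V) (A : Finset V) (u : V) : Set (W G) :=
  {g | ∃ w ∈ pW G (A.erase u), g = w * gen G u * w⁻¹}

/-- The elements of degree `0` of the subgroup generated by the conjugates of `u`. -/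
def KK (G : SimpleGraph V) (A : Finset V) (u : V) : Set (W G) :=
  {k | k ∈ Subgroup.closure (conjU G A u) ∧ deg G k = 0}

/-- The vertices of `A` in the link of `u`. -/
noncomputable def lkA (G : SimpleGraph V) (A : Finset V) (u : V) : Finset V :=
  open scoped Classical in (A.erase u).filter (fun v => G.Adj u v)

/-- The family `E'`: the division closure of `E χ` and the elements `θ_χ(k)`, `k ∈ KK`. -/
noncomputable def EX (d : UD G D) (A : Finset V) (u : V) (E : QV V → Subfield D) :
    QV V → Subfield D :=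
  fun χ => Subfield.closure ((E χ : Set D) ∪ {x | ∃ k ∈ KK G A u, x = ((th d k χ : Dˣ) : D)})

/-- The alternating words `u_{w(2k-1)} u_{w(2k-2)} ⋯ u_{w 1} u_{w 0}`, `u_w = w u w⁻¹`. -/
noncomputable def wordk (G : SimpleGraph V) (u : V) (w : ℕ → W G) : ℕ → W G
  | 0 => 1
  | k + 1 => (w (2 * k + 1) * gen G u * (w (2 * k + 1))⁻¹) * (w (2 * k) * gen G u * (w (2 * k))⁻¹) *
      wordk G u w k

variable [Algebra (ZMod 2) D]

/-- The restriction to the `χ` with `χ u = 0`. -/
def r0 (u : V) : MM V D →ₗ[ZMod 2] MM V D where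
  toFun m := fun χ => if χ u = 0 then m χ else 0
  map_add' m n := by
    funext χ
    by_cases h : χ u = 0 <;> simp [h]
  map_smul' r m := by
    funext χ
    by_cases h : χ u = 0 <;> simp [h]

/-- The norm `1 + s_u`. -/
noncomputable def nm (t : V → Dˣ) (u : V) : MM V D →ₗ[ZMod 2] MM V D := LinearMap.id + Sop t u

/-- The `s_u`-invariant element which agrees with `m` at the `χ` with `χ u = 0`. -/
noncomputable def sym (t : V → Dˣ) (u : V) : MM V D →ₗ[ZMod 2] MM V D := nm t u ∘ₗ r0 u

/-- The projection `m ↦ (m + s_u m)|_{χ u = 0}`. -/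
noncomputable def pp (t : V → Dˣ) (u : V) : MM V D →ₗ[ZMod 2] MM V D := r0 u ∘ₗ nm t u

/-- The sum of the spaces of invariants of the conjugates of `u`. -/
noncomputable def II (d : UD G D) (A : Finset V) (u : V) : Submodule (ZMod 2) (MM V D) :=
  Submodule.span (ZMod 2) {m | ∃ w ∈ pW G (A.erase u), rep d (w * gen G u * w⁻¹) m = m}

end

/-- The data for the exactness theorem: valuations `v A` which are trivial on the units `t u`,
`u ∉ A`, on the division subring `F A`, and faithful on `W_A`. -/
structure Sys {V : Type} [DecidableEq V] (G : SimpleGraph V) (D : Type) [DivisionRing D] extends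
    UD G D where
  /-- the valuations -/
  v : Finset V → PV D
  /-- the division subrings -/
  F : Finset V → Subfield D
  F_triv : ∀ A, ∀ x ∈ F A, x ≠ 0 → (v A).triv x
  F_mono : ∀ A B, B ⊆ A → F A ≤ F B
  v_t : ∀ A, ∀ u ∉ A, (v A).triv ((t u : Dˣ) : D)
  gen_mem : ∀ A, ∀ g ∈ Subgroup.closure (Set.range t), (v A).triv ((g : Dˣ) : D) → ((g : Dˣ) : D) ∈ F A
  inj : ∀ A, ∀ w ∈ pW G A, ∀ χ, (v A).triv ((th toUD w χ : Dˣ) : D) → w = 1

end SingerRA
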