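import Mathlib
import Pool.Agent.Lib_MP_394d50_all.DDefs
import Pool.Agent.Lib_MP_394d50_all.EBase

/-!
# Definitions for the part T (Tate cohomology and van Kampen)

`D` has an anti-involution `star` with `star (t v) = (t v)⁻¹`.
-/

namespace SingerRA

open scoped TensorProduct

section

variable {D : Type} [DivisionRing D] [Algebra (ZMod 2) D] [StarRing D]

/-- The involution as a linear map over `F₂`. -/
def starL (D : Type) [DivisionRing D] [Algebra (ZMod 2) D] [StarRing D] : D →ₗ[ZMod 2] D :=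
  (starAddEquiv : D ≃+ D).toAddMonoidHom.toZModLinearMap 2

theorem starL_apply (a : D) : starL D a = star a := rfl

/-- `a ⊗ b ↦ b* ⊗ a*`. -/
noncomputable def tau : TT D →ₗ[ZMod 2] TT D :=
  (TensorProduct.comm (ZMod 2) D D).toLinearMap ∘ₗ TensorProduct.map (starL D) (starL D)

theorem tau_tmul (a b : D) : tau (a ⊗ₜ[ZMod 2] b) = (star b) ⊗ₜ[ZMod 2] (star a) := rfl

/-- `tau` on `M`. -/
noncomputable def tauM {V : Type} : MM V D →ₗ[ZMod 2] MM V D where
  toFun m := fun χ => tau (m χ)
  map_add' m n := by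
    funext χ
    simp
  map_smul' r m := by
    funext χ
    simp

/-- The pairing `y ⊗ z*`. -/
noncomputable def pr {V : Type} (y z : QV V → D) : MM V D := fun χ => y χ ⊗ₜ[ZMod 2] star (z χ)

end

/-- Equivariance of a function with values in `D` under the `s_v`, `v ∈ σ`. -/
def EqD {V D : Type} [DecidableEq V] [DivisionRing D] (t : V → Dˣ) (σ : Finset V)
    (z : QV V → D) : Prop :=
  ∀ v ∈ σ, ∀ χ, z (χ + ev v) = z χ * (((th1 t v χ)⁻¹ : Dˣ) : D)

/-- The chains of degree `k` of the flag complex with coefficients in the local system `D`. -/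
def ChD {V D : Type} [DecidableEq V] [DivisionRing D] (G : SimpleGraph V) (t : V → Dˣ) (k : ℕ)
    (z : Finset V → QV V → D) : Prop :=
  (∀ σ, ¬ (σ ∈ cliq G ∧ σ.card = k) → z σ = 0) ∧ ∀ σ, EqD t σ (z σ)

/-- The homology with coefficients in `D` vanishes in degree `k`. -/
def ExD {V D : Type} [Fintype V] [DecidableEq V] [DivisionRing D] (G : SimpleGraph V)
    (t : V → Dˣ) (k : ℕ) : Prop :=
  ∀ z, ChD G t k z → (∀ τ, bd z τ = 0) → ∃ y, ChD G t (k + 1) y ∧ ∀ τ, z τ = bd y τ

/-- The elements of `F \ H` have even positions and the elements of `H \ F` odd positions in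
`F ∪ H` (the positions are counted from `0`). -/
def pat {V : Type} [LinearOrder V] (F H : Finset V) : Prop :=
  (∀ x ∈ F \ H, Even (((F ∪ H).filter (· < x)).card)) ∧
    ∀ x ∈ H \ F, Odd (((F ∪ H).filter (· < x)).card)

open scoped Classical in
/-- The canonical lifts of `z`: `xi z σ = ∑_{F ∩ H = σ, pat F H} z_F ⊗ z_H*`. -/
noncomputable def xi {V D : Type} [Fintype V] [LinearOrder V] [DivisionRing D]
    [Algebra (ZMod 2) D] [StarRing D] (z : Finset V → QV V → D) (σ : Finset V) : MM V D :=
  ∑ F, ∑ H, if F ∩ H = σ ∧ pat F H then pr (z F) (z H) else 0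

end SingerRA
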