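import Mathlib
import Pool.Agent.Lib_MP_394d50_all.DDefs
import Pool.Agent.Lib_MP_394d50_all.EBase
import Pool.Agent.Lib_MP_394d50_all.EDefs
import Pool.Agent.Lib_MP_394d50_all.TDefs

/-!
# Definitions for the ultraproduct

`PreSys G D c`: the data of `Sys`, where the valuations are faithful only on the elements of length
less than `c`. `UP D`: the ultraproduct of a sequence of division rings, with respect to the
hyperfilter of `ℕ`.
-/

namespace SingerRA

/-- The data of `Sys` with faithfulness in length less than `c`. -/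
structure PreSys {V : Type} [DecidableEq V] (G : SimpleGraph V) (D : Type) [DivisionRing D]
    (c : ℕ) extends UD G D where
  /-- the valuations -/
  v : Finset V → PV D
  /-- the division subrings -/
  F : Finset V → Subfield D
  F_triv : ∀ A, ∀ x ∈ F A, x ≠ 0 → (v A).triv x
  F_mono : ∀ A B, B ⊆ A → F A ≤ F B
  v_t : ∀ A, ∀ u ∉ A, (v A).triv ((t u : Dˣ) : D)
  gen_mem : ∀ A, ∀ g ∈ Subgroup.closure (Set.range t), (v A).triv ((g : Dˣ) : D) →
    ((g : Dˣ) : D) ∈ F A
  inj : ∀ A, ∀ w ∈ pW G A, len G w < c → ∀ χ, (v A).triv ((th toUD w χ : Dˣ) : D) → w = 1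

section

open Filter

/-- Equality on a set of the hyperfilter, as a ring congruence. -/
def upCon (D : ℕ → Type) [∀ c, DivisionRing (D c)] : RingCon ((c : ℕ) → D c) where
  r f g := ∀ᶠ c in (hyperfilter ℕ : Filter ℕ), f c = g c
  iseqv := ⟨fun _ => Eventually.of_forall fun _ => rfl, fun h => h.mono fun _ h => h.symm,
    fun h h' => (h.and h').mono fun _ h => h.1.trans h.2⟩
  add' h h' := (h.and h').mono fun _ h => by rw [Pi.add_apply, Pi.add_apply, h.1, h.2]
  mul' h h' := (h.and h').mono fun _ h => by rw [Pi.mul_apply, Pi.mul_apply, h.1, h.2]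

/-- The ultraproduct. -/
def UP (D : ℕ → Type) [∀ c, DivisionRing (D c)] : Type := (upCon D).Quotient

variable (D : ℕ → Type) [∀ c, DivisionRing (D c)]

noncomputable instance instRingUP : Ring (UP D) := inferInstanceAs (Ring (upCon D).Quotient)

/-- The class of a sequence. -/
def upm : ((c : ℕ) → D c) →+* UP D := (upCon D).mk'

theorem upm_surj : Function.Surjective (upm D) := Quotient.mk''_surjective

theorem upm_eq (f g : (c : ℕ) → D c) :
    upm D f = upm D g ↔ ∀ᶠ c in (hyperfilter ℕ : Filter ℕ), f c = g c :=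
  (RingCon.eq (upCon D))

end

end SingerRA
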