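import Mathlib
import Pool.Agent.Lib_MP_394d50_all.UDefs

/-!
# Ore localisation of the group algebra over `F₂` of an ordered group
-/

namespace SingerRA

/-- The group algebra over `F₂`. -/
abbrev FN (N : Type) [Group N] : Type := MonoidAlgebra (ZMod 2) N

/-- The left Ore condition for the group algebra. -/
class IsOreG (N : Type) [Group N] : Prop where
  ore : ∀ a b : FN N, b ≠ 0 → ∃ p q : FN N, p ≠ 0 ∧ p * a = q * b

/-- The nonzero elements form an Ore set. -/
noncomputable instance instOreSet (N : Type) [Group N] [NoZeroDivisors (FN N)] [IsOreG N] :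
    OreLocalization.OreSet (nonZeroDivisors (FN N)) where
  ore_right_cancel a b s h := by
    have hs : (s : FN N) ≠ 0 := nonZeroDivisors.ne_zero s.2
    have h1 : (a - b) * (s : FN N) = 0 := by rw [sub_mul, h, sub_self]
    rcases mul_eq_zero.1 h1 with h2 | h2
    · rw [sub_eq_zero.1 h2]
      exact ⟨1, rfl⟩
    · exact (hs h2).elim
  oreNum a s := (IsOreG.ore a (s : FN N) (nonZeroDivisors.ne_zero s.2)).choose_spec.choose
  oreDenom a s := ⟨(IsOreG.ore a (s : FN N) (nonZeroDivisors.ne_zero s.2)).choose,
    mem_nonZeroDivisors_of_ne_zero
      (IsOreG.ore a (s : FN N) (nonZeroDivisors.ne_zero s.2)).choose_spec.choose_spec.1⟩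
  ore_eq a s := (IsOreG.ore a (s : FN N) (nonZeroDivisors.ne_zero s.2)).choose_spec.choose_spec.2

/-- The division ring of fractions of the group algebra. -/
abbrev DN (N : Type) [Group N] [NoZeroDivisors (FN N)] [IsOreG N] : Type :=
  OreLocalization (nonZeroDivisors (FN N)) (FN N)

section

variable (N : Type) [Group N] [NoZeroDivisors (FN N)] [IsOreG N]

noncomputable example : DivisionRing (DN N) := inferInstance

noncomputable example : Algebra (ZMod 2) (DN N) := inferInstance

/-- The embedding of the group algebra. -/
noncomputable def io : FN N →+* DN N := OreLocalization.numeratorRingHom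

theorem io_frac (x : DN N) : ∃ s p : FN N, s ≠ 0 ∧ io N s * x = io N p := by
  induction x using OreLocalization.ind with
  | _ p s =>
    refine ⟨s, p, nonZeroDivisors.ne_zero s.2, ?_⟩
    show ((s : FN N) /ₒ (1 : nonZeroDivisors (FN N))) * (p /ₒ s) = p /ₒ 1
    rw [OreLocalization.mul_cancel]

theorem io_inj : Function.Injective (io N) :=
  OreLocalization.numeratorHom_inj (fun _ hx => (mem_nonZeroDivisors_iff.1 hx).1)

theorem io_ne_zero {a : FN N} (h : a ≠ 0) : io N a ≠ 0 := by
  intro h1
  rw [← map_zero (io N)] at h1
  exact h (io_inj N h1)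

/-- Two ring homomorphisms which agree on the group algebra are equal. -/
theorem hom_ext_DN {T : Type} [DivisionRing T] (f g : DN N →+* T)
    (h : ∀ a, f (io N a) = g (io N a)) : f = g := by
  refine RingHom.ext fun x => ?_
  obtain ⟨s, p, hs, hx⟩ := io_frac N x
  have h1 : f (io N s) * f x = g (io N s) * g x := by
    rw [← map_mul, ← map_mul, hx, h]
  rw [h s] at h1
  have h2 : g (io N s) ≠ 0 := by
    rw [Ne, map_eq_zero]
    exact io_ne_zero N hs
  exact mul_left_cancel₀ h2 h1

/-- The extension of an injective ring homomorphism to the division ring of fractions. -/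
noncomputable def extD {T : Type} [DivisionRing T] (f : FN N →+* T)
    (hf : Function.Injective f) : DN N →+* T :=
  OreLocalization.universalHom f
    { toFun := fun s => Units.mk0 (f (s : FN N)) (by
        intro h
        rw [← map_zero f] at h
        exact nonZeroDivisors.ne_zero s.2 (hf h))
      map_one' := by
        apply Units.ext
        simp
      map_mul' := fun a b => by
        apply Units.ext
        simp } (fun s => rfl)

theorem extD_io {T : Type} [DivisionRing T] (f : FN N →+* T)
    (hf : Function.Injective f) (a : FN N) : extD N f hf (io N a) = f a :=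
  OreLocalization.universalHom_commutes f _ _

/-! ## The involution -/

/-- The ring homomorphism `g ↦ g⁻¹` into the opposite ring. -/
noncomputable def invF : FN N →+* (FN N)ᵐᵒᵖ :=
  (MonoidAlgebra.lift (ZMod 2) (FN N)ᵐᵒᵖ N
    ({ toFun := fun g => MulOpposite.op (MonoidAlgebra.of (ZMod 2) N g⁻¹)
       map_one' := by rw [inv_one, map_one, MulOpposite.op_one]
       map_mul' := fun g h => by
        rw [mul_inv_rev, map_mul, MulOpposite.op_mul] } : N →* (FN N)ᵐᵒᵖ)).toRingHom

omit [NoZeroDivisors (FN N)] [IsOreG N] in
theorem invF_of (g : N) :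
    invF N (MonoidAlgebra.of (ZMod 2) N g) = MulOpposite.op (MonoidAlgebra.of (ZMod 2) N g⁻¹) := by
  unfold invF
  simp

omit [NoZeroDivisors (FN N)] [IsOreG N] in
theorem invF_invF (a : FN N) : (invF N (invF N a).unop).unop = a := by
  induction a using MonoidAlgebra.induction_on with
  | of g => rw [invF_of, MulOpposite.unop_op, invF_of, MulOpposite.unop_op, inv_inv]
  | add a b ha hb => rw [map_add, MulOpposite.unop_add, map_add, MulOpposite.unop_add, ha, hb]
  | smul r a ha =>
    have h : ∀ (r : ZMod 2) (x : FN N), invF N (r • x) = r • invF N x := by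
      intro r x
      unfold invF
      exact map_smul (MonoidAlgebra.lift (ZMod 2) (FN N)ᵐᵒᵖ N _) r x
    rw [h, MulOpposite.unop_smul, h, MulOpposite.unop_smul, ha]

/-- The involution of the division ring, as a ring homomorphism into the opposite ring. -/
noncomputable def starH : DN N →+* (DN N)ᵐᵒᵖ :=
  extD N ((RingHom.op (io N)).comp (invF N)) (by
    intro a b h
    have h1 : io N (invF N a).unop = io N (invF N b).unop := MulOpposite.op_injective h
    have h2 := io_inj N h1
    have h3 : invF N (invF N a).unop = invF N (invF N b).unop := congrArg _ h2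
    rw [← invF_invF N a, ← invF_invF N b, h3])

theorem starH_io (a : FN N) : starH N (io N a) = MulOpposite.op (io N (invF N a).unop) := by
  unfold starH
  rw [extD_io]
  rfl

theorem starH_starH (x : DN N) : (starH N (starH N x).unop).unop = x := by
  let f : DN N →+* DN N :=
    { toFun := fun x => (starH N (starH N x).unop).unop
      map_one' := by simp
      map_mul' := fun a b => by simp
      map_zero' := by simp
      map_add' := fun a b => by simp }
  have h : f = RingHom.id _ := hom_ext_DN N f _ fun a => by
    show (starH N (starH N (io N a)).unop).unop = io N a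
    rw [starH_io, MulOpposite.unop_op, starH_io, MulOpposite.unop_op, invF_invF]
  exact congrArg (fun g : DN N →+* DN N => g x) h

noncomputable instance instStarDN : StarRing (DN N) where
  star x := (starH N x).unop
  star_involutive x := starH_starH N x
  star_mul x y := by
    show (starH N (x * y)).unop = _
    rw [map_mul, MulOpposite.unop_mul]
  star_add x y := by
    show (starH N (x + y)).unop = _
    rw [map_add, MulOpposite.unop_add]

/-- The unit of a group element. -/
noncomputable def unN : N →* (DN N)ˣ :=
  (Units.map ((io N : FN N →* DN N))).comp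
    ((Units.map (MonoidAlgebra.of (ZMod 2) N)).comp toUnits.toMonoidHom)

theorem unN_val (g : N) :
    ((unN N g : (DN N)ˣ) : DN N) = io N (MonoidAlgebra.of (ZMod 2) N g) := rfl

theorem star_unN (g : N) :
    star ((unN N g : (DN N)ˣ) : DN N) = (((unN N g)⁻¹ : (DN N)ˣ) : DN N) := by
  rw [← map_inv, unN_val, unN_val]
  show (starH N _).unop = _
  rw [starH_io, MulOpposite.unop_op, invF_of, MulOpposite.unop_op]

end

end SingerRA
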