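import Mathlib
import Pool.Agent.Lib_MP_394d50_all.ODefs

/-!
# The cocycle with values in a group `N`
-/

namespace SingerRA

section

variable {V : Type} [DecidableEq V] {G : SimpleGraph V} {N : Type} [Group N]

/-- The value of the cocycle at the generator `s_v` and the point `χ`. -/
def th1G (t : V → N) (v : V) (χ : QV V) : N := if χ v = 0 then (t v)⁻¹ else t v

theorem th1G_add_self (t : V → N) (v : V) (χ : QV V) :
    th1G t v (χ + ev v) = (th1G t v χ)⁻¹ := by
  unfold th1G
  rw [Pi.add_apply, ev_self]
  rcases zm2_cases (χ v) with h | h <;> rw [h]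
  · simp
  · rw [show (1 : ZMod 2) + 1 = 0 from rfl]
    simp

theorem th1G_add_ne (t : V → N) {u v : V} (h : v ≠ u) (χ : QV V) :
    th1G t v (χ + ev u) = th1G t v χ := by
  unfold th1G
  rw [Pi.add_apply, ev_ne h, add_zero]

/-- The permutation `(χ, d) ↦ (χ + e_v, θ_v(χ) d)`. -/
def sPermG (t : V → N) (v : V) : Equiv.Perm (QV V × N) where
  toFun p := (p.1 + ev v, th1G t v p.1 * p.2)
  invFun p := (p.1 + ev v, th1G t v p.1 * p.2)
  left_inv := by
    rintro ⟨χ, d⟩
    refine Prod.ext (add_ev_ev χ v) ?_
    show th1G t v (χ + ev v) * (th1G t v χ * d) = d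
    rw [th1G_add_self, inv_mul_cancel_left]
  right_inv := by
    rintro ⟨χ, d⟩
    refine Prod.ext (add_ev_ev χ v) ?_
    show th1G t v (χ + ev v) * (th1G t v χ * d) = d
    rw [th1G_add_self, inv_mul_cancel_left]

/-- The action of `W` on `QV V × N`, `s_v (χ, d) = (χ + e_v, θ_v(χ) d)`. -/
noncomputable def thGHom (t : V → N) (comm : ∀ u v, G.Adj u v → t u * t v = t v * t u) :
    W G →* Equiv.Perm (QV V × N) :=
  (cs G).lift ⟨sPermG t, liftable_ofE _ (fun v => Equiv.ext fun p => (sPermG t v).left_inv p)
    fun u v h => by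
      have hne : u ≠ v := h.ne
      have h0 : Commute (t u) (t v) := comm u v h
      refine Equiv.ext fun p => Prod.ext ?_ ?_
      · show p.1 + ev v + ev u = p.1 + ev u + ev v
        exact add_right_comm _ _ _
      · show th1G t u (p.1 + ev v) * (th1G t v p.1 * p.2) =
          th1G t v (p.1 + ev u) * (th1G t u p.1 * p.2)
        rw [th1G_add_ne t hne, th1G_add_ne t hne.symm, ← mul_assoc, ← mul_assoc]
        congr 1
        unfold th1G
        split_ifs
        · exact h0.inv_inv
        · exact h0.inv_left
        · exact h0.inv_right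
        · exact h0⟩

/-- The cocycle. -/
noncomputable def thG (t : V → N) (comm : ∀ u v, G.Adj u v → t u * t v = t v * t u) (w : W G)
    (χ : QV V) : N := (thGHom t comm w (χ, 1)).2

variable (t : V → N) (comm : ∀ u v, G.Adj u v → t u * t v = t v * t u)

theorem thGHom_gen (v : V) (p : QV V × N) :
    thGHom t comm (gen G v) p = (p.1 + ev v, th1G t v p.1 * p.2) := by
  unfold thGHom gen
  rw [CoxeterSystem.lift_apply_simple]
  rfl

theorem thG_one (χ : QV V) : thG t comm (1 : W G) χ = 1 := by
  unfold thG
  rw [map_one]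
  rfl

theorem thGHom_fst (w : W G) (χ : QV V) (x : N) : (thGHom t comm w (χ, x)).1 = χ + deg G w := by
  induction w using W_ind with
  | one => rw [map_one, deg_one, add_zero]; rfl
  | gm v w ih =>
    rw [map_mul, Equiv.Perm.mul_apply, thGHom_gen, deg_mul, deg_gen, ih]
    show χ + deg G w + ev v = χ + (ev v + deg G w)
    rw [add_assoc, add_comm (deg G w)]

theorem thG_gen_mul (v : V) (w : W G) (χ : QV V) :
    thG t comm (gen G v * w) χ = th1G t v (χ + deg G w) * thG t comm w χ := by
  unfold thG
  rw [map_mul, Equiv.Perm.mul_apply, thGHom_gen, thGHom_fst]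

theorem thG_gen (v : V) (χ : QV V) : thG t comm (gen G v) χ = th1G t v χ := by
  unfold thG
  rw [thGHom_gen, mul_one]

theorem thG_mul (w w' : W G) (χ : QV V) :
    thG t comm (w * w') χ = thG t comm w (χ + deg G w') * thG t comm w' χ := by
  induction w using W_ind with
  | one => rw [one_mul, thG_one, one_mul]
  | gm v w ih =>
    rw [mul_assoc, thG_gen_mul, ih, thG_gen_mul, deg_mul, mul_assoc]
    congr 2
    rw [add_assoc, add_comm (deg G w')]

end

section

variable {V : Type} [DecidableEq V] {G : SimpleGraph V} {N : Type} [Group N]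
  [NoZeroDivisors (FN N)] [IsOreG N]

/-- The units of `DN N` given by elements of `N`. -/
noncomputable def udN (t : V → N) (comm : ∀ u v, G.Adj u v → t u * t v = t v * t u) :
    UD G (DN N) where
  t v := unN N (t v)
  comm u v h := by rw [← map_mul, ← map_mul, comm u v h]

theorem th1_udN (t : V → N) (comm : ∀ u v, G.Adj u v → t u * t v = t v * t u) (v : V)
    (χ : QV V) : th1 (udN t comm).t v χ = unN N (th1G t v χ) := by
  unfold th1 th1G
  split_ifs
  · exact (map_inv (unN N) (t v)).symm
  · rfl

theorem th_udN (t : V → N) (comm : ∀ u v, G.Adj u v → t u * t v = t v * t u) (w : W G)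
    (χ : QV V) : th (udN t comm) w χ = unN N (thG t comm w χ) := by
  induction w using W_ind with
  | one => rw [th_one, thG_one, map_one]
  | gm v w ih => rw [th_mul, th_gen, ih, th1_udN, thG_gen_mul, map_mul]

end

end SingerRA
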