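import Mathlib
import Pool.Agent.Lib_MP_394d50_all.GDefs
import Pool.Agent.Lib_MP_394d50_all.GSgn
import Pool.Agent.Lib_MP_394d50_all.OCoc

/-!
# Block G: the nilCoxeter operators and the elements `t v`
-/

namespace SingerRA

variable {V : Type} (G : SimpleGraph V) (c : ℕ)

/-- The ball of radius `c` of the Coxeter group. -/
def Yc : Type := {w : W G // len G w < c}

noncomputable instance instDecYc : DecidableEq (Yc G c) := Classical.decEq _

theorem finite_ball [Finite V] : {w : W G | len G w < c}.Finite := by
  have h1 : {L : List V | L.length < c}.Finite := List.finite_length_lt V c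
  refine (h1.image fun L => (cs G).wordProd L).subset fun w hw => ?_
  obtain ⟨L, hL, hLw⟩ := (cs G).exists_isReduced w
  refine ⟨L, ?_, hLw.symm⟩
  have h2 : len G w = L.length := by
    rw [hLw]
    exact hL
  show L.length < c
  rw [← h2]
  exact hw

noncomputable instance instFinYc [Finite V] : Fintype (Yc G c) := (finite_ball G c).fintype

/-- The length on the ball. -/
noncomputable def lY (x : Yc G c) : ℕ := len G x.1

theorem len_mul_gen_le (w : W G) (v : V) : len G (w * gen G v) ≤ len G w + 1 := by
  have h := (cs G).length_mul_le w (gen G v)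
  rw [(cs G).length_simple] at h
  exact h

theorem len_one' : len G (1 : W G) = 0 := (cs G).length_one

open scoped Classical in
/-- The nilCoxeter operator `T_v`: the entry at `(x, x s_v)` is one if the length goes up. -/
noncomputable def Tm (S : Type) [CommRing S] (v : V) : Matrix (Yc G c) (Yc G c) S :=
  Matrix.of fun x y => if y.1 = x.1 * gen G v ∧ len G y.1 = len G x.1 + 1 then 1 else 0

open scoped Classical in
theorem Tm_apply (S : Type) [CommRing S] (v : V) (x y : Yc G c) : Tm G c S v x y =
    if y.1 = x.1 * gen G v ∧ len G y.1 = len G x.1 + 1 then 1 else 0 := rfl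

theorem Tm_dp (S : Type) [CommRing S] (v : V) : Dp (lY G c) 1 (Tm G c S v) := by
  intro x y h
  unfold lY at h
  rw [Tm_apply, if_neg]
  rintro ⟨_, h2⟩
  omega

open scoped Classical in
theorem Tm_mul [Finite V] (S : Type) [CommRing S] (u v : V) (x y : Yc G c) :
    (Tm G c S u * Tm G c S v) x y =
      if y.1 = x.1 * gen G u * gen G v ∧ len G y.1 = len G x.1 + 2 then 1 else 0 := by
  rw [Matrix.mul_apply]
  by_cases h : y.1 = x.1 * gen G u * gen G v ∧ len G y.1 = len G x.1 + 2
  · rw [if_pos h]
    have h1 := len_mul_gen_le G x.1 u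
    have h2 := len_mul_gen_le G (x.1 * gen G u) v
    rw [← h.1] at h2
    have hy := y.2
    let z : Yc G c := ⟨x.1 * gen G u, by omega⟩
    rw [Finset.sum_eq_single z]
    · rw [Tm_apply, Tm_apply, if_pos, if_pos, one_mul]
      · refine ⟨h.1, ?_⟩
        show len G y.1 = len G (x.1 * gen G u) + 1
        omega
      · refine ⟨rfl, ?_⟩
        show len G (x.1 * gen G u) = len G x.1 + 1
        omega
    · intro z' _ hz'
      rw [Tm_apply, if_neg, zero_mul]
      rintro ⟨h3, _⟩
      exact hz' (Subtype.ext h3)
    · intro h3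
      exact absurd (Finset.mem_univ z) h3
  · rw [if_neg h]
    refine Finset.sum_eq_zero fun z _ => ?_
    rw [Tm_apply, Tm_apply]
    split_ifs with h1 h2
    · exfalso
      apply h
      refine ⟨?_, by omega⟩
      rw [h2.1, h1.1]
    · simp
    · simp
    · simp

theorem Tm_sq [Finite V] (S : Type) [CommRing S] (v : V) : Tm G c S v * Tm G c S v = 0 := by
  ext x y
  rw [Tm_mul, if_neg, Matrix.zero_apply]
  rintro ⟨h1, h2⟩
  rw [mul_assoc, gen_mul_self, mul_one] at h1
  rw [h1] at h2
  omega

theorem Tm_comm [Finite V] (S : Type) [CommRing S] (u v : V) (h : G.Adj u v) :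
    Tm G c S u * Tm G c S v = Tm G c S v * Tm G c S u := by
  ext x y
  rw [Tm_mul, Tm_mul, mul_assoc, mul_assoc, comm_of_adj G u v h]

/-! ## The elements `t v` -/

variable [DecidableEq V]

/-- The element `1 + a T_v` in the components `B ∋ v`. -/
noncomputable def tA (S : Type) [CommRing S] (a : S) (v : V) :
    UG (Finset V) (Yc G c) (lY G c) S where
  m B := if v ∈ B then 1 + a • Tm G c S v else 1
  tri B x y h := by
    split_ifs
    · rw [Matrix.add_apply, Matrix.smul_apply, Tm_dp G c S v x y (by omega), smul_zero, add_zero]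
    · rfl

theorem tA_pos (S : Type) [CommRing S] (a : S) {v : V} {B : Finset V} (h : v ∈ B) :
    (tA G c S a v).m B = 1 + a • Tm G c S v := if_pos h

theorem tA_neg (S : Type) [CommRing S] (a : S) {v : V} {B : Finset V} (h : v ∉ B) :
    (tA G c S a v).m B = 1 := if_neg h

theorem tA_mul [Finite V] (S : Type) [CommRing S] (a b : S) (v : V) :
    tA G c S a v * tA G c S b v = tA G c S (a + b) v := by
  refine UG.ext (funext fun B => ?_)
  rw [UG.mul_m]
  by_cases h : v ∈ B
  · rw [tA_pos G c S a h, tA_pos G c S b h, tA_pos G c S _ h]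
    have h1 := Tm_sq G c S v
    rw [add_mul, one_mul, mul_add, mul_one, smul_mul_smul_comm, h1, smul_zero, add_zero, add_smul]
    abel
  · rw [tA_neg G c S a h, tA_neg G c S b h, tA_neg G c S _ h, one_mul]

theorem tA_zero (S : Type) [CommRing S] (v : V) : tA G c S 0 v = 1 := by
  refine UG.ext (funext fun B => ?_)
  rw [UG.one_m]
  by_cases h : v ∈ B
  · rw [tA_pos G c S 0 h, zero_smul, add_zero]
  · rw [tA_neg G c S 0 h]

theorem tA_inv [Finite V] (S : Type) [CommRing S] (a : S) (v : V) :
    (tA G c S a v)⁻¹ = tA G c S (-a) v := by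
  rw [inv_eq_iff_mul_eq_one, tA_mul, add_neg_cancel, tA_zero]

theorem tA_comm [Finite V] (S : Type) [CommRing S] (a b : S) (u v : V) (h : G.Adj u v) :
    tA G c S a u * tA G c S b v = tA G c S b v * tA G c S a u := by
  refine UG.ext (funext fun B => ?_)
  rw [UG.mul_m, UG.mul_m]
  by_cases hu : u ∈ B
  · by_cases hv : v ∈ B
    · rw [tA_pos G c S a hu, tA_pos G c S b hv]
      have h1 := Tm_comm G c S u v h
      rw [add_mul, one_mul, mul_add, mul_one, add_mul, one_mul, mul_add, mul_one,
        smul_mul_smul_comm, smul_mul_smul_comm, h1, mul_comm a b]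
      abel
    · rw [tA_neg G c S b hv, one_mul, mul_one]
  · rw [tA_neg G c S a hu, one_mul, mul_one]

theorem tA_map [Finite V] (S S' : Type) [CommRing S] [CommRing S'] (φ : S →+* S') (a : S)
    (v : V) : UG.map φ (tA G c S a v) = tA G c S' (φ a) v := by
  refine UG.ext (funext fun B => Matrix.ext fun x y => ?_)
  rw [UG.map_apply]
  by_cases h : v ∈ B
  · rw [tA_pos G c S a h, tA_pos G c S' _ h, Matrix.add_apply, Matrix.add_apply,
      Matrix.smul_apply, Matrix.smul_apply, map_add, Tm_apply, Tm_apply, Matrix.one_apply,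
      Matrix.one_apply]
    split_ifs <;> simp
  · rw [tA_neg G c S a h, tA_neg G c S' _ h, Matrix.one_apply, Matrix.one_apply]
    split_ifs <;> simp

/-- The signs: `e_u` inverts `t u` and fixes the other `t v`. -/
theorem tA_al [Fintype V] (S : Type) [CommRing S] (a : S) (u v : V) :
    UG.al (fun x : Yc G c => deg G x.1) (Multiplicative.ofAdd (Pi.single v 1))
      (tA G c S a u) = if u = v then (tA G c S a u)⁻¹ else tA G c S a u := by
  have key : ∀ (B : Finset V) (x y : Yc G c), y.1 = x.1 * gen G u →
      sz S (deg G x.1 v) * (sz S (deg G y.1 v)) = if u = v then -1 else 1 := by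
    intro B x y h
    rw [h, deg_mul, deg_gen, Pi.add_apply, sz_add, ← mul_assoc, sz_mul_self, one_mul]
    by_cases huv : u = v
    · subst huv
      rw [ev_self, sz_one, if_pos rfl]
    · rw [ev_ne (Ne.symm huv), sz_zero, if_neg huv]
  have h0 : (if u = v then (tA G c S a u)⁻¹ else tA G c S a u) =
      tA G c S (if u = v then -a else a) u := by
    split_ifs
    · exact tA_inv G c S a u
    · rfl
  rw [h0, UG.al_apply]
  refine UG.ext (funext fun B => Matrix.ext fun x y => ?_)
  rw [UG.cj_apply]
  show sz S (prg (Pi.single v 1) (deg G x.1)) * _ * sz S (prg (Pi.single v 1) (deg G y.1)) = _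
  rw [prg_single, prg_single]
  by_cases h : u ∈ B
  · rw [tA_pos G c S a h, tA_pos G c S _ h, Matrix.add_apply, Matrix.add_apply,
      Matrix.smul_apply, Matrix.smul_apply, Tm_apply, Matrix.one_apply]
    by_cases hxy : x = y
    · subst hxy
      have h1 : ¬ (x.1 = x.1 * gen G u ∧ len G x.1 = len G x.1 + 1) := by
        rintro ⟨_, h2⟩
        omega
      rw [if_pos rfl, if_neg h1, smul_zero, smul_zero, add_zero, mul_one, sz_mul_self]
    · rw [if_neg hxy, zero_add, zero_add]
      split_ifs with h1 h2
      · have := key B x y h1.1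
        rw [if_pos h2] at this
        rw [smul_eq_mul, smul_eq_mul, mul_one, mul_one]
        linear_combination a * this
      · have := key B x y h1.1
        rw [if_neg h2] at this
        rw [smul_eq_mul, mul_one]
        linear_combination a * this
      · simp
      · simp
  · rw [tA_neg G c S a h, tA_neg G c S _ h, Matrix.one_apply]
    split_ifs with hxy
    · rw [hxy, mul_one, sz_mul_self]
    · rw [mul_zero, zero_mul]

end SingerRA
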