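import Mathlib
import Pool.Agent.Lib_MP_394d50_all.GNil

/-!
# Block G: the projections `pi A` and the injectivity of the cocycle
-/

namespace SingerRA

section mask

variable {V I : Type} [DecidableEq V] {l : I → ℕ} {S : Type} [DecidableEq I] [CommRing S]

/-- The projection on the components `B ⊆ A`. -/
def piG [Fintype I] (A : Finset V) : UG (Finset V) I l S →* UG (Finset V) I l S where
  toFun g := ⟨fun B => if B ⊆ A then g.m B else 1, fun B x y h => by
    split_ifs
    · exact g.tri B x y h
    · rfl⟩
  map_one' := UG.ext (funext fun B => by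
    show (if B ⊆ A then (1 : UG (Finset V) I l S).m B else 1) = _
    rw [UG.one_m]
    split_ifs <;> rfl)
  map_mul' g h := UG.ext (funext fun B => by
    rw [UG.mul_m]
    show (if B ⊆ A then (g * h).m B else 1) = (if B ⊆ A then g.m B else 1) *
      (if B ⊆ A then h.m B else 1)
    rw [UG.mul_m]
    split_ifs
    · rfl
    · rw [one_mul])

theorem piG_pos [Fintype I] {A B : Finset V} (h : B ⊆ A) (g : UG (Finset V) I l S) :
    (piG A g).m B = g.m B := if_pos h

theorem piG_neg [Fintype I] {A B : Finset V} (h : ¬ B ⊆ A) (g : UG (Finset V) I l S) :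
    (piG A g).m B = 1 := if_neg h

theorem piG_ker_mono [Fintype I] (A B : Finset V) (h : B ⊆ A) :
    (piG A : UG (Finset V) I l S →* _).ker ≤ (piG B : UG (Finset V) I l S →* _).ker := by
  intro g hg
  rw [MonoidHom.mem_ker] at hg ⊢
  refine UG.ext (funext fun C => ?_)
  rw [UG.one_m]
  by_cases hC : C ⊆ B
  · rw [piG_pos hC, ← piG_pos (hC.trans h) g, hg, UG.one_m]
  · exact piG_neg hC g

end mask

variable {V : Type} [DecidableEq V] (G : SimpleGraph V) (c : ℕ)

theorem piG_tA [Finite V] (S : Type) [CommRing S] (a : S) (A : Finset V) (u : V) (hu : u ∉ A) :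
    piG A (tA G c S a u) = 1 := by
  refine UG.ext (funext fun B => ?_)
  rw [UG.one_m]
  by_cases hB : B ⊆ A
  · rw [piG_pos hB, tA_neg G c S a fun h => hu (hB h)]
  · exact piG_neg hB _

/-! ## The retraction on a parabolic subgroup -/

/-- The retraction `W → W`, killing the generators outside `A`. -/
noncomputable def rhoA (A : Finset V) : W G →* W G :=
  (cs G).lift ⟨fun v => if v ∈ A then gen G v else 1, liftable_ofE _
    (fun v => by
      split_ifs
      · exact gen_mul_self G v
      · exact one_mul 1)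
    (fun u v h => by
      split_ifs
      · exact comm_of_adj G u v h
      · rw [one_mul, mul_one]
      · rw [one_mul, mul_one]
      · rfl)⟩

theorem rhoA_gen (A : Finset V) (v : V) :
    rhoA G A (gen G v) = if v ∈ A then gen G v else 1 := by
  unfold rhoA gen
  rw [CoxeterSystem.lift_apply_simple]

theorem rhoA_of_mem (A : Finset V) {w : W G} (hw : w ∈ pW G A) : rhoA G A w = w := by
  induction hw using Subgroup.closure_induction with
  | mem x hx =>
    obtain ⟨v, hv, rfl⟩ := hx
    rw [rhoA_gen, if_pos (by exact_mod_cast hv)]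
  | one => exact map_one _
  | mul x y _ _ hx hy => rw [map_mul, hx, hy]
  | inv x _ hx => rw [map_inv, hx]

theorem rhoA_wordProd (A : Finset V) (L : List V) :
    rhoA G A ((cs G).wordProd L) = (cs G).wordProd (L.filter (· ∈ A)) := by
  induction L with
  | nil => simp
  | cons v L ih =>
    rw [(cs G).wordProd_cons, map_mul, ih, List.filter_cons]
    have h := rhoA_gen G A v
    show rhoA G A (gen G v) * _ = _
    rw [h]
    by_cases hv : v ∈ A
    · rw [if_pos hv, if_pos (by simpa using hv), (cs G).wordProd_cons]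
    · rw [if_neg hv, if_neg (by simpa using hv), one_mul]

/-- A reduced word of an element of the parabolic subgroup has its letters in `A`. -/
theorem letters_mem (A : Finset V) {w : W G} (hw : w ∈ pW G A) (L : List V)
    (hL : (cs G).wordProd L = w) (hlen : L.length = len G w) : ∀ v ∈ L, v ∈ A := by
  have h1 : (cs G).wordProd (L.filter (· ∈ A)) = w := by
    rw [← rhoA_wordProd, hL, rhoA_of_mem G A hw]
  have h2 := (cs G).length_wordProd_le (L.filter (· ∈ A))
  rw [h1] at h2
  have h3 : (L.filter (· ∈ A)).length = L.length := by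
    refine le_antisymm (List.length_filter_le _ _) ?_
    rw [hlen]
    exact h2
  rw [List.length_filter_eq_length_iff] at h3
  intro v hv
  simpa using h3 v hv

/-! ## The leading entry -/

theorem Tm_mul_pos [Finite V] (S : Type) [CommRing S] (v : V) (M : Matrix (Yc G c) (Yc G c) S)
    (x y z : Yc G c) (h1 : z.1 = x.1 * gen G v) (h2 : len G z.1 = len G x.1 + 1) :
    (Tm G c S v * M) x y = M z y := by
  rw [Matrix.mul_apply, Finset.sum_eq_single z]
  · rw [Tm_apply, if_pos ⟨h1, h2⟩, one_mul]
  · intro z' _ hz'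
    rw [Tm_apply, if_neg, zero_mul]
    rintro ⟨h3, _⟩
    exact hz' (Subtype.ext (h3.trans h1.symm))
  · intro h3
    exact absurd (Finset.mem_univ z) h3

theorem Tm_mul_neg [Finite V] (S : Type) [CommRing S] (v : V) (M : Matrix (Yc G c) (Yc G c) S)
    (x y : Yc G c) (h : ¬ ∃ z : Yc G c, z.1 = x.1 * gen G v ∧ len G z.1 = len G x.1 + 1) :
    (Tm G c S v * M) x y = 0 := by
  rw [Matrix.mul_apply]
  refine Finset.sum_eq_zero fun z _ => ?_
  rw [Tm_apply, if_neg, zero_mul]
  intro h3
  exact h ⟨z, h3⟩

theorem th1G_tA [Finite V] (t : V → UG (Finset V) (Yc G c) (lY G c) ℤ)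
    (ht : ∀ v, t v = tA G c ℤ 1 v) (v : V) (χ : QV V) :
    ∃ a : ℤ, a ≠ 0 ∧ th1G t v χ = tA G c ℤ a v := by
  unfold th1G
  split_ifs
  · refine ⟨-1, by decide, ?_⟩
    rw [ht, tA_inv]
  · exact ⟨1, by decide, ht v⟩

theorem th_entry [Finite V] (t : V → UG (Finset V) (Yc G c) (lY G c) ℤ)
    (ht : ∀ v, t v = tA G c ℤ 1 v) (comm : ∀ u v, G.Adj u v → t u * t v = t v * t u)
    (A : Finset V) (L : List V) (hL : ∀ v ∈ L, v ∈ A) (χ : QV V) (x y : Yc G c) :
    (len G x.1 + L.length < len G y.1 →
      (thG t comm ((cs G).wordProd L) χ).m A x y = 0) ∧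
    (len G x.1 + L.length = len G y.1 → y.1 = x.1 * (cs G).wordProd L →
      (thG t comm ((cs G).wordProd L) χ).m A x y ≠ 0) ∧
    (len G x.1 + L.length = len G y.1 → y.1 ≠ x.1 * (cs G).wordProd L →
      (thG t comm ((cs G).wordProd L) χ).m A x y = 0) := by
  induction L generalizing x with
  | nil =>
    have h0 : thG t comm ((cs G).wordProd []) χ = 1 := by
      rw [(cs G).wordProd_nil]
      exact thG_one t comm χ
    rw [h0, UG.one_m, List.length_nil, add_zero, (cs G).wordProd_nil, mul_one]
    refine ⟨fun h => ?_, fun _ h => ?_, fun _ h => ?_⟩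
    · rw [Matrix.one_apply_ne]
      rintro rfl
      omega
    · have : x = y := Subtype.ext h.symm
      rw [this, Matrix.one_apply_eq]
      exact one_ne_zero
    · rw [Matrix.one_apply_ne]
      rintro rfl
      exact h rfl
  | cons v L ih =>
    have hv : v ∈ A := hL v List.mem_cons_self
    have ih' := fun x => ih (fun u hu => hL u (List.mem_cons_of_mem v hu)) x
    obtain ⟨a, ha, hth⟩ := th1G_tA G c t ht v (χ + deg G ((cs G).wordProd L))
    have h0 : thG t comm ((cs G).wordProd (v :: L)) χ =
        tA G c ℤ a v * thG t comm ((cs G).wordProd L) χ := by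
      rw [(cs G).wordProd_cons, ← hth]
      exact thG_gen_mul t comm v _ χ
    have h1 : (thG t comm ((cs G).wordProd (v :: L)) χ).m A x y =
        (thG t comm ((cs G).wordProd L) χ).m A x y +
          a * (Tm G c ℤ v * (thG t comm ((cs G).wordProd L) χ).m A) x y := by
      rw [h0, UG.mul_m, tA_pos G c ℤ a hv, add_mul, one_mul, Matrix.add_apply, smul_mul_assoc,
        Matrix.smul_apply, smul_eq_mul]
    have h2 : (cs G).wordProd (v :: L) = gen G v * (cs G).wordProd L := (cs G).wordProd_cons v L
    rw [h1, h2, List.length_cons]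
    by_cases hz : ∃ z : Yc G c, z.1 = x.1 * gen G v ∧ len G z.1 = len G x.1 + 1
    · obtain ⟨z, hz1, hz2⟩ := hz
      rw [Tm_mul_pos G c ℤ v _ x y z hz1 hz2]
      have h3 : x.1 * (gen G v * (cs G).wordProd L) = z.1 * (cs G).wordProd L := by
        rw [hz1, mul_assoc]
      rw [h3]
      refine ⟨fun h => ?_, fun h h' => ?_, fun h h' => ?_⟩
      · rw [(ih' x).1 (by omega), (ih' z).1 (by omega), mul_zero, add_zero]
      · rw [(ih' x).1 (by omega), zero_add]
        exact mul_ne_zero ha ((ih' z).2.1 (by omega) h')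
      · rw [(ih' x).1 (by omega), (ih' z).2.2 (by omega) h', mul_zero, add_zero]
    · rw [Tm_mul_neg G c ℤ v _ x y hz, mul_zero, add_zero]
      refine ⟨fun h => (ih' x).1 (by omega), fun h h' => ?_, fun h _ => (ih' x).1 (by omega)⟩
      exfalso
      apply hz
      have h4 := len_mul_gen_le G x.1 v
      have h5 := (cs G).length_mul_le (x.1 * gen G v) ((cs G).wordProd L)
      have h6 := (cs G).length_wordProd_le L
      have h7 : len G y.1 = (cs G).length (x.1 * gen G v * (cs G).wordProd L) := by
        rw [h', mul_assoc]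
      have h8 : (cs G).length (x.1 * gen G v) = len G (x.1 * gen G v) := rfl
      have hy := y.2
      refine ⟨⟨x.1 * gen G v, by omega⟩, rfl, ?_⟩
      show len G (x.1 * gen G v) = len G x.1 + 1
      omega

theorem h3_holds [Finite V] (t : V → UG (Finset V) (Yc G c) (lY G c) ℤ)
    (ht : ∀ v, t v = tA G c ℤ 1 v) (comm : ∀ u v, G.Adj u v → t u * t v = t v * t u)
    (A : Finset V) (w : W G) (hw : w ∈ pW G A) (hc : len G w < c) (χ : QV V)
    (h : piG A (thG t comm w χ) = 1) : w = 1 := by
  obtain ⟨L, hL, hLw⟩ := (cs G).exists_isReduced w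
  have hlen : L.length = len G w := by
    rw [hLw]
    exact hL.symm
  by_contra hne
  let x : Yc G c := ⟨1, by rw [len_one']; omega⟩
  let y : Yc G c := ⟨w, hc⟩
  have h1 := (th_entry G c t ht comm A L (letters_mem G A hw L hLw.symm hlen) χ x y).2.1
    (by
      show len G (1 : W G) + L.length = len G w
      rw [len_one', hlen, zero_add])
    (by
      show w = 1 * (cs G).wordProd L
      rw [one_mul, ← hLw])
  rw [← hLw] at h1
  apply h1
  rw [← piG_pos (Finset.Subset.refl A) (thG t comm w χ), h, UG.one_m, Matrix.one_apply_ne]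
  intro hxy
  exact hne (congrArg Subtype.val hxy).symm

end SingerRA
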