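import Mathlib
import Pool.Agent.Lib_MP_394d50_all.GDefs

/-!
# Block G: the bi-invariant order of the unitriangular group over `ℤ`
-/

namespace SingerRA

/-- All triples, with the linear order by the weight `l y - l x` (then by an enumeration). -/
def EO (ι I : Type) (_l : I → ℕ) : Type := ι × I × I

variable {ι I : Type} {l : I → ℕ}

/-- The triple. -/
def EO.mk (B : ι) (x y : I) : EO ι I l := (B, x, y)

/-- The weight of a triple. -/
def EO.wt (a : EO ι I l) : ℕ := l a.2.2 - l a.2.1

/-- The key of a triple. -/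
noncomputable def EO.key [Fintype ι] [Fintype I] (a : EO ι I l) :
    ℕ ×ₗ Fin (Fintype.card (ι × I × I)) :=
  toLex (a.wt, Fintype.equivFin (ι × I × I) a)

theorem EO.key_inj [Fintype ι] [Fintype I] :
    Function.Injective (EO.key : EO ι I l → ℕ ×ₗ Fin (Fintype.card (ι × I × I))) := by
  intro a b h
  have h1 : (a.wt, Fintype.equivFin (ι × I × I) a) = (b.wt, Fintype.equivFin (ι × I × I) b) :=
    toLex.injective h
  exact (Fintype.equivFin (ι × I × I)).injective (Prod.ext_iff.1 h1).2

noncomputable instance EO.instLO [Fintype ι] [Fintype I] : LinearOrder (EO ι I l) :=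
  LinearOrder.lift' EO.key EO.key_inj

instance EO.instFin [Finite ι] [Finite I] : Finite (EO ι I l) :=
  inferInstanceAs (Finite (ι × I × I))

theorem EO.lt_of_wt [Fintype ι] [Fintype I] {a b : EO ι I l} (h : a.wt < b.wt) : a < b := by
  show EO.key a < EO.key b
  exact Prod.Lex.left _ _ h

variable [DecidableEq I]

/-- The entries as a function on the triples. -/
def UG.ent (g : UG ι I l ℤ) : EO ι I l → ℤ := fun a => g.m a.1 a.2.1 a.2.2

theorem UG.ent_inj : Function.Injective (fun g : UG ι I l ℤ => toLex g.ent) := by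
  intro g h H
  have H' : g.ent = h.ent := toLex.injective H
  exact UG.ext' fun B x y _ => congrFun H' (B, x, y)

noncomputable instance UG.instLO [Fintype ι] [Fintype I] : LinearOrder (UG ι I l ℤ) :=
  LinearOrder.lift' (fun g => toLex g.ent) UG.ent_inj

theorem UG.lt_iff [Fintype ι] [Fintype I] (g h : UG ι I l ℤ) :
    g < h ↔ ∃ a : EO ι I l, (∀ b, b < a → g.ent b = h.ent b) ∧ g.ent a < h.ent a := Iff.rfl

/-- Entries of small weight of a product. -/
theorem UG.left_ent [Fintype ι] [Fintype I] (k g h : UG ι I l ℤ) (a : EO ι I l)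
    (H : ∀ b, b < a → g.ent b = h.ent b) :
    (k * h).ent a - (k * g).ent a = h.ent a - g.ent a := by
  obtain ⟨B, x, y⟩ := a
  show (k * h).m B x y - (k * g).m B x y = h.m B x y - g.m B x y
  by_cases hxy : l y ≤ l x
  · rw [(k * h).tri B x y hxy, (k * g).tri B x y hxy, h.tri B x y hxy, g.tri B x y hxy]
  · rw [UG.mul_apply, UG.mul_apply, ← Finset.sum_sub_distrib, Finset.sum_eq_single x]
    · rw [k.tri B x x le_rfl, Matrix.one_apply_eq, one_mul, one_mul]
    · intro z _ hz
      by_cases h1 : l z ≤ l x
      · rw [k.tri B x z h1, Matrix.one_apply_ne hz.symm, zero_mul, zero_mul, sub_zero]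
      · have h2 : EO.mk (l := l) B z y < EO.mk B x y := by
          apply EO.lt_of_wt
          show l y - l z < l y - l x
          omega
        have h3 : g.m B z y = h.m B z y := H _ h2
        rw [h3, sub_self]
    · intro hx
      exact absurd (Finset.mem_univ x) hx

theorem UG.right_ent [Fintype ι] [Fintype I] (k g h : UG ι I l ℤ) (a : EO ι I l)
    (H : ∀ b, b < a → g.ent b = h.ent b) :
    (h * k).ent a - (g * k).ent a = h.ent a - g.ent a := by
  obtain ⟨B, x, y⟩ := a
  show (h * k).m B x y - (g * k).m B x y = h.m B x y - g.m B x y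
  by_cases hxy : l y ≤ l x
  · rw [(h * k).tri B x y hxy, (g * k).tri B x y hxy, h.tri B x y hxy, g.tri B x y hxy]
  · rw [UG.mul_apply, UG.mul_apply, ← Finset.sum_sub_distrib, Finset.sum_eq_single y]
    · rw [k.tri B y y le_rfl, Matrix.one_apply_eq, mul_one, mul_one]
    · intro z _ hz
      by_cases h1 : l y ≤ l z
      · rw [k.tri B z y h1, Matrix.one_apply_ne hz, mul_zero, mul_zero, sub_zero]
      · have h2 : EO.mk (l := l) B x z < EO.mk B x y := by
          apply EO.lt_of_wt
          show l z - l x < l y - l x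
          omega
        have h3 : g.m B x z = h.m B x z := H _ h2
        rw [h3, sub_self]
    · intro hx
      exact absurd (Finset.mem_univ y) hx

instance UG.instLeft [Fintype ι] [Fintype I] : MulLeftStrictMono (UG ι I l ℤ) := by
  refine ⟨fun k g h hgh => ?_⟩
  rw [UG.lt_iff] at hgh
  obtain ⟨a, h1, h2⟩ := hgh
  show k * g < k * h
  rw [UG.lt_iff]
  refine ⟨a, fun b hb => ?_, ?_⟩
  · have := UG.left_ent k g h b fun b' hb' => h1 b' (hb'.trans hb)
    have h3 := h1 b hb
    omega
  · have := UG.left_ent k g h a h1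
    omega

instance UG.instRight [Fintype ι] [Fintype I] : MulRightStrictMono (UG ι I l ℤ) := by
  refine ⟨fun k g h hgh => ?_⟩
  rw [UG.lt_iff] at hgh
  obtain ⟨a, h1, h2⟩ := hgh
  show g * k < h * k
  rw [UG.lt_iff]
  refine ⟨a, fun b hb => ?_, ?_⟩
  · have := UG.right_ent k g h b fun b' hb' => h1 b' (hb'.trans hb)
    have h3 := h1 b hb
    omega
  · have := UG.right_ent k g h a h1
    omega

end SingerRA
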