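import Mathlib
import Pool.Agent.Lib_MP_394d50_all.TDefs

/-!
# Definitions for the part R (ranks): from `ExD` over a division ring containing `F₂[N]` to `SmallGrad`
-/

namespace SingerRA

section

variable {V R : Type} [DecidableEq V] [Ring R]

/-- Equivariance with values in a ring: `z (χ + e_v) = z χ * t v` for `χ v = 0`. -/
def EqR (t : V → R) (σ : Finset V) (z : QV V → R) : Prop :=
  ∀ v ∈ σ, ∀ χ : QV V, χ v = 0 → z (χ + ev v) = z χ * t v

/-- The chains of degree `k` over a ring. -/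
def ChR (G : SimpleGraph V) (t : V → R) (k : ℕ) (z : Finset V → QV V → R) : Prop :=
  (∀ σ, ¬ (σ ∈ cliq G ∧ σ.card = k) → z σ = 0) ∧ ∀ σ, EqR t σ (z σ)

end

/-- The coordinates of the chains of degree `k`. -/
def JJ {V : Type} (G : SimpleGraph V) (k : ℕ) : Type :=
  {p : Finset V × QV V // p.1 ∈ cliq G ∧ p.1.card = k ∧ ∀ v ∈ p.1, p.2 v = 0}

noncomputable instance instFintypeJJ {V : Type} [Fintype V] (G : SimpleGraph V) (k : ℕ) :
    Fintype (JJ G k) := by
  classical
  unfold JJ
  exact Fintype.ofFinite _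

noncomputable instance instDecEqJJ {V : Type} (G : SimpleGraph V) (k : ℕ) :
    DecidableEq (JJ G k) := Classical.decEq _

/-- The element of `F₂[N]` of an element of `N`. -/
noncomputable def gN {N : Type} [Group N] (g : N) : MonoidAlgebra (ZMod 2) N :=
  MonoidAlgebra.of (ZMod 2) N g

/-- Finite quotients of `N` with Følner tiles; `al` = the sign automorphisms. -/
def FolQ {V : Type} [DecidableEq V] {N : Type} [Group N] (t : V → N) : Prop :=
  ∀ (S : Finset N) (ε : ℝ), 0 < ε →
    ∃ (Q : Type) (_ : Group Q) (_ : Finite Q) (π : N →* Q)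
      (al : Multiplicative (V → ZMod 2) →* MulAut Q) (F B : Finset N), IsPGroup 2 Q ∧
      (∀ u v, al (Multiplicative.ofAdd (Pi.single v 1)) (π (t u)) =
        if u = v then (π (t u))⁻¹ else π (t u)) ∧
      Set.InjOn π F ∧ (∀ b ∈ B, ∀ s ∈ S, b * s ∈ F) ∧
      (1 - ε) * (Nat.card Q : ℝ) ≤ (B.card : ℝ)

/-- The finite group `Q ⋊ (ℤ/2)^V`. -/
abbrev SQ {V Q : Type} [Group Q] (al : Multiplicative (V → ZMod 2) →* MulAut Q) : Type :=
  Q ⋊[al] Multiplicative (V → ZMod 2)

/-- The marking `s_v = t_v e_v`. -/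
def aQ {V Q : Type} [DecidableEq V] [Group Q] (al : Multiplicative (V → ZMod 2) →* MulAut Q)
    (t : V → Q) (v : V) : SQ al :=
  ⟨t v, Multiplicative.ofAdd (Pi.single v 1)⟩

/-- A chain over `F₂[Q]` as a chain on the group `Q ⋊ (ℤ/2)^V`. -/
noncomputable def toA {V Q : Type} [Group Q] (al : Multiplicative (V → ZMod 2) →* MulAut Q) :
    (Finset V → QV V → MonoidAlgebra (ZMod 2) Q) →ₗ[ZMod 2] (Finset V → SQ al → ZMod 2) where
  toFun z := fun σ x => (z σ x.right.toAdd).coeff x.left
  map_add' _ _ := rfl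
  map_smul' _ _ := rfl

end SingerRA
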