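import Mathlib
import Pool.Agent.Lib_MP_394d50_all.ODefs
import Pool.Agent.Lib_MP_394d50_all.RDefs

/-!
# Block G: the Ore condition from Folner sets
-/

namespace SingerRA

section

variable {N : Type} [Group N]

open scoped Classical in
/-- The elements of the group algebra supported on a finite set. -/
noncomputable def embB (B : Finset N) : (B → ZMod 2) →ₗ[ZMod 2] FN N where
  toFun f := MonoidAlgebra.ofCoeff (Finsupp.onFinset B
    (fun g => if h : g ∈ B then f ⟨g, h⟩ else 0) fun g hg => by
      by_contra h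
      rw [dif_neg h] at hg
      exact hg rfl)
  map_add' f g := by
    apply MonoidAlgebra.coeff_injective
    ext x
    show (if h : x ∈ B then (f + g) ⟨x, h⟩ else 0) = (if h : x ∈ B then f ⟨x, h⟩ else 0) +
      (if h : x ∈ B then g ⟨x, h⟩ else 0)
    split_ifs
    · rfl
    · rw [add_zero]
  map_smul' r f := by
    apply MonoidAlgebra.coeff_injective
    ext x
    show (if h : x ∈ B then (r • f) ⟨x, h⟩ else 0) = r • (if h : x ∈ B then f ⟨x, h⟩ else 0)
    split_ifs
    · rfl
    · rw [smul_zero]

open scoped Classical in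
theorem embB_coeff (B : Finset N) (f : B → ZMod 2) (x : N) :
    (embB B f).coeff x = if h : x ∈ B then f ⟨x, h⟩ else 0 := rfl

theorem embB_supp (B : Finset N) (f : B → ZMod 2) {x : N} (h : (embB B f).coeff x ≠ 0) :
    x ∈ B := by
  classical
  by_contra hx
  rw [embB_coeff, dif_neg hx] at h
  exact h rfl

theorem embB_inj (B : Finset N) (f : B → ZMod 2) (h : embB B f = 0) : f = 0 := by
  classical
  funext b
  have h1 : (embB B f).coeff b.1 = 0 := by
    rw [h]
    rfl
  rw [embB_coeff, dif_pos b.2] at h1
  exact h1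

/-- The coefficients on a finite set. -/
noncomputable def resF (F : Finset N) : FN N →ₗ[ZMod 2] (F → ZMod 2) where
  toFun x := fun g => x.coeff g.1
  map_add' _ _ := rfl
  map_smul' _ _ := rfl

theorem mul_supp (B S F : Finset N) (hBF : ∀ b ∈ B, ∀ s ∈ S, b * s ∈ F) (f : B → ZMod 2)
    (a : FN N) (ha : a.coeff.support ⊆ S) (x : N) (hx : x ∉ F) :
    (embB B f * a).coeff x = 0 := by
  classical
  rw [MonoidAlgebra.coeff_mul]
  refine Finset.sum_eq_zero fun g hg => Finset.sum_eq_zero fun s hs => ?_
  show (if g * s = x then (embB B f).coeff g * a.coeff s else 0) = 0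
  rw [if_neg]
  rintro rfl
  exact hx (hBF g (embB_supp B f (Finsupp.mem_support_iff.1 hg)) s (ha hs))

end

theorem ore_of_folQ {V : Type} [DecidableEq V] {N : Type} [Group N] [NoZeroDivisors (FN N)]
    (t : V → N) (h : FolQ t) : IsOreG N := by
  classical
  refine ⟨fun a b hb => ?_⟩
  -- finite set
  let S : Finset N := a.coeff.support ∪ b.coeff.support
  obtain ⟨Q, iG, iF, π, al, F, B, _, _, hinj, hBF, hcard⟩ := h S (1 / 3) (by norm_num)
  have hQ : 0 < Nat.card Q := Nat.card_pos
  have hFQ : F.card ≤ Nat.card Q := by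
    have := Fintype.ofFinite Q
    rw [Nat.card_eq_fintype_card, ← Finset.card_image_of_injOn hinj]
    exact Finset.card_le_univ _
  have hlt : F.card < B.card + B.card := by
    have h1 : (F.card : ℝ) ≤ Nat.card Q := by exact_mod_cast hFQ
    have h2 : (0 : ℝ) < Nat.card Q := by exact_mod_cast hQ
    have h3 : (F.card : ℝ) < B.card + B.card := by
      have : (1 - 1 / 3 : ℝ) * (Nat.card Q : ℝ) ≤ B.card := hcard
      linarith
    exact_mod_cast h3
  -- the linear map
  let Φ : ((B → ZMod 2) × (B → ZMod 2)) →ₗ[ZMod 2] (F → ZMod 2) :=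
    (resF F).comp (((LinearMap.mulRight (ZMod 2) a).comp (embB B)).comp (LinearMap.fst _ _ _) -
      ((LinearMap.mulRight (ZMod 2) b).comp (embB B)).comp (LinearMap.snd _ _ _))
  have hker : LinearMap.ker Φ ≠ ⊥ := by
    apply LinearMap.ker_ne_bot_of_finrank_lt
    rw [Module.finrank_prod, Module.finrank_fintype_fun_eq_card,
      Module.finrank_fintype_fun_eq_card, Fintype.card_coe, Fintype.card_coe]
    exact hlt
  obtain ⟨⟨f, g⟩, hfg, hne⟩ := (Submodule.ne_bot_iff _).1 hker
  have hΦ : resF F (embB B f * a - embB B g * b) = 0 := hfg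
  have heq : embB B f * a = embB B g * b := by
    rw [← sub_eq_zero]
    apply MonoidAlgebra.coeff_injective
    ext x
    by_cases hx : x ∈ F
    · exact congrFun hΦ ⟨x, hx⟩
    · show (embB B f * a).coeff x - (embB B g * b).coeff x = 0
      rw [mul_supp B S F hBF f a Finset.subset_union_left x hx,
        mul_supp B S F hBF g b Finset.subset_union_right x hx, sub_zero]
  refine ⟨embB B f, embB B g, fun h0 => ?_, heq⟩
  rw [h0, zero_mul] at heq
  rcases mul_eq_zero.1 heq.symm with h1 | h1
  · apply hne
    rw [embB_inj B f h0, embB_inj B g h1]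
    rfl
  · exact hb h1

end SingerRA
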