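import Mathlib
import Pool.Agent.Lib_MP_394d50_all.GOrd
import Pool.Agent.Lib_MP_394d50_all.GBox
import Pool.Agent.Lib_MP_394d50_all.GCount
import Pool.Agent.Lib_MP_394d50_all.GInj
import Pool.Agent.Lib_MP_394d50_all.GOre
import Pool.Agent.Lib_MP_394d50_all.RDefs

/-!
# Block G: the groups `N_c`
-/

namespace SingerRA

variable {V : Type} [Fintype V] [DecidableEq V] (G : SimpleGraph V) (c : ℕ)

/-- The group `N_c`. -/
abbrev Nc : Type := UG (Finset V) (Yc G c) (lY G c) ℤ

/-- The elements `t v`. -/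
noncomputable def tN (v : V) : Nc G c := tA G c ℤ 1 v

theorem tN_comm (u v : V) (h : G.Adj u v) : tN G c u * tN G c v = tN G c v * tN G c u :=
  tA_comm G c ℤ 1 1 u v h

theorem folQ_tN : FolQ (tN G c) := by
  classical
  intro S ε hε
  obtain ⟨n, F, B, h1, h2, h3⟩ := folner_core S ε hε
  have : NeZero (2 ^ n) := ⟨by positivity⟩
  refine ⟨UG (Finset V) (Yc G c) (lY G c) (ZMod (2 ^ n)), inferInstance, inferInstance,
    UG.map (Int.castRingHom (ZMod (2 ^ n))), UG.al (fun x : Yc G c => deg G x.1), F, B,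
    UG.isPGroup n, fun u v => ?_, h1, h2, h3⟩
  unfold tN
  rw [tA_map, tA_al]

instance instNZDNc : NoZeroDivisors (FN (Nc G c)) := inferInstance

instance instOreNc : IsOreG (Nc G c) := ore_of_folQ (tN G c) (folQ_tN G c)

theorem tN_h1 (A : Finset V) (u : V) (hu : u ∉ A) : piG A (tN G c u) = 1 :=
  piG_tA G c ℤ 1 A u hu

theorem tN_h2 (A B : Finset V) (h : B ⊆ A) :
    (piG A : Nc G c →* Nc G c).ker ≤ (piG B : Nc G c →* Nc G c).ker :=
  piG_ker_mono A B h

theorem tN_h3 (A : Finset V) (w : W G) (hw : w ∈ pW G A) (hc : len G w < c) (χ : QV V)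
    (h : piG A (thG (tN G c) (tN_comm G c) w χ) = 1) : w = 1 :=
  h3_holds G c (tN G c) (fun _ => rfl) (tN_comm G c) A w hw hc χ h

end SingerRA
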