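import Mathlib
import Pool.Agent.Lib_MP_394d50_all.ODefs

/-!
Piece OLE: the valuation of the group algebra given by an endomorphism `f` of an ordered group (about 150 lines; self-contained).

`leF f a b`: for every `g` in the support of `b` there is `h` in the support of `a` with `f h ≤ f g`. (So `v a = min f(supp a)`, `v 0 = ∞`, and `leF f a b` iff
`v a ≤ v b`.)
`no zero divisors`: instance `NoZeroDivisors (FN N)` (Mathlib: `MonoidAlgebra` over a linearly ordered group, via `UniqueProds`).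
(P) For `a, b ≠ 0`, `α = min f(supp a)`, `β = min f(supp b)`: `min f(supp (a b)) = α β`. Proof: every `g ∈ supp (a b)` is `g₁ g₂`, `g₁ ∈ supp a`, `g₂ ∈ supp b` so
`f g ≥ α β`. Let `a₀` be the part of `a` with `f = α`, `a = a₀ + a₁`, `b = b₀ + b₁`. `a₀ b₀ ≠ 0` has its support in `f = α β`, the other three products have support in
`f > α β`; so for `g ∈ supp (a₀ b₀)` the coefficient of `a b` at `g` is that of `a₀ b₀`.
Then `mul_left`, `mul_right`, `canc_left`, `canc_right` follow (for `c ≠ 0`, `a, b ≠ 0`: `leF f (c a) (c b)` iff `γ α ≤ γ β` iff `α ≤ β`; the cases `c = 0`, `a = 0`,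
`b = 0` separately: `leF f a 0` always, `leF f 0 b` iff `b = 0`).
-/

namespace SingerRA

/-- `v a ≤ v b` for the valuation `v a = min f(supp a)`. -/
def leF {N : Type} [Group N] [LinearOrder N] (f : N →* N) (a b : FN N) : Prop :=
  ∀ g ∈ b.coeff.support, ∃ h ∈ a.coeff.support, f h ≤ f g

section

variable {N : Type} [Group N] [LinearOrder N] [MulLeftStrictMono N] [MulRightStrictMono N]
  (f : N →* N)

theorem ole_mono_lt_of_lt_of_le {a b c d : N} (h1 : a < c) (h2 : b ≤ d) : a * b < c * d := by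
  rcases h2.eq_or_lt with h | h
  · subst h
    exact mul_lt_mul_left h1 b
  · exact (mul_lt_mul_left h1 b).trans (mul_lt_mul_right h c)

theorem ole_mono_lt_of_le_of_lt {a b c d : N} (h1 : a ≤ c) (h2 : b < d) : a * b < c * d := by
  rcases h1.eq_or_lt with h | h
  · subst h
    exact mul_lt_mul_right h2 a
  · exact (mul_lt_mul_left h b).trans (mul_lt_mul_right h2 c)

theorem ole_mono_le {a b c d : N} (h1 : a ≤ c) (h2 : b ≤ d) : a * b ≤ c * d := by
  rcases h1.eq_or_lt with h | h
  · subst h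
    rcases h2.eq_or_lt with h' | h'
    · subst h'
      exact le_refl _
    · exact (ole_mono_lt_of_le_of_lt (le_refl _) h').le
  · exact (ole_mono_lt_of_lt_of_le h h2).le

/-- `α` is the minimum of `f` on the support of `a`. -/
def oleMin (a : FN N) (α : N) : Prop :=
  (∃ g ∈ a.coeff.support, f g = α) ∧ ∀ g ∈ a.coeff.support, α ≤ f g

theorem oleMin_exists {a : FN N} (ha : a ≠ 0) : ∃ α, oleMin f a α := by
  have h : a.coeff.support.Nonempty := by
    rw [Finsupp.support_nonempty_iff]
    intro h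
    exact ha (MonoidAlgebra.coeff_eq_zero.1 h)
  obtain ⟨g, hg, hm⟩ := Finset.exists_min_image a.coeff.support f h
  exact ⟨f g, ⟨g, hg, rfl⟩, hm⟩

theorem oleMin_leF {a b : FN N} {α β : N} (ha : oleMin f a α) (hb : oleMin f b β) :
    leF f a b ↔ α ≤ β := by
  constructor
  · intro h
    obtain ⟨g, hg, hgb⟩ := hb.1
    obtain ⟨k, hk, hkg⟩ := h g hg
    rw [← hgb]
    exact (ha.2 k hk).trans hkg
  · intro h g hg
    obtain ⟨k, hk, hka⟩ := ha.1
    refine ⟨k, hk, ?_⟩
    rw [hka]
    exact h.trans (hb.2 g hg)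

/-- The lexicographic choice: a minimal element among those of minimal value. -/
theorem ole_lex {a : FN N} {α : N} (ha : oleMin f a α) :
    ∃ g ∈ a.coeff.support, f g = α ∧ ∀ k ∈ a.coeff.support, f k = α → g ≤ k := by
  obtain ⟨g, hg, hga⟩ := ha.1
  have h : (a.coeff.support.filter (fun k => f k = α)).Nonempty :=
    ⟨g, Finset.mem_filter.2 ⟨hg, hga⟩⟩
  obtain ⟨m, hm, hmin⟩ := Finset.exists_min_image _ id h
  rw [Finset.mem_filter] at hm
  exact ⟨m, hm.1, hm.2, fun k hk hka => hmin k (Finset.mem_filter.2 ⟨hk, hka⟩)⟩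

theorem oleMin_mul {a b : FN N} {α β : N} (ha : oleMin f a α) (hb : oleMin f b β) :
    oleMin f (a * b) (α * β) := by
  classical
  obtain ⟨g, hg, hga, hgm⟩ := ole_lex f ha
  obtain ⟨k, hk, hkb, hkm⟩ := ole_lex f hb
  have hU : UniqueMul a.coeff.support b.coeff.support g k := by
    intro x y hx hy hxy
    have h1 : f x * f y = α * β := by
      rw [← map_mul, hxy, map_mul, hga, hkb]
    have hx1 : α ≤ f x := ha.2 x hx
    have hy1 : β ≤ f y := hb.2 y hy
    have hx2 : f x = α := by
      by_contra hne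
      have := ole_mono_lt_of_lt_of_le (lt_of_le_of_ne hx1 (Ne.symm hne)) hy1
      rw [h1] at this
      exact lt_irrefl _ this
    have hy2 : f y = β := by
      by_contra hne
      have := ole_mono_lt_of_le_of_lt hx1 (lt_of_le_of_ne hy1 (Ne.symm hne))
      rw [h1] at this
      exact lt_irrefl _ this
    have hx3 : g ≤ x := hgm x hx hx2
    have hy3 : k ≤ y := hkm y hy hy2
    have hx4 : x = g := by
      by_contra hne
      have := ole_mono_lt_of_lt_of_le (lt_of_le_of_ne hx3 (Ne.symm hne)) hy3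
      rw [hxy] at this
      exact lt_irrefl _ this
    have hy4 : y = k := by
      by_contra hne
      have := ole_mono_lt_of_le_of_lt hx3 (lt_of_le_of_ne hy3 (Ne.symm hne))
      rw [hxy] at this
      exact lt_irrefl _ this
    exact ⟨hx4, hy4⟩
  constructor
  · refine ⟨g * k, ?_, ?_⟩
    · rw [Finsupp.mem_support_iff, MonoidAlgebra.coeff_mul_mul_of_uniqueMul hU]
      exact mul_ne_zero (Finsupp.mem_support_iff.1 hg) (Finsupp.mem_support_iff.1 hk)
    · rw [map_mul, hga, hkb]
  · intro x hx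
    have h1 := MonoidAlgebra.support_coeff_mul_subset a b hx
    rw [Finset.mem_mul] at h1
    obtain ⟨y, hy, z, hz, hyz⟩ := h1
    rw [← hyz, map_mul]
    exact ole_mono_le (ha.2 y hy) (hb.2 z hz)

theorem ole_ne_zero {a : FN N} {α : N} (ha : oleMin f a α) : a ≠ 0 := by
  rintro rfl
  obtain ⟨g, hg, -⟩ := ha.1
  simp at hg

theorem leF_total (a b : FN N) : leF f a b ∨ leF f b a := by
  by_cases ha : a = 0
  · right
    subst ha
    intro g hg
    simp at hg
  by_cases hb : b = 0
  · left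
    subst hb
    intro g hg
    simp at hg
  obtain ⟨α, hα⟩ := oleMin_exists f ha
  obtain ⟨β, hβ⟩ := oleMin_exists f hb
  rw [oleMin_leF f hα hβ, oleMin_leF f hβ hα]
  exact le_total α β

theorem leF_trans (a b c : FN N) (h : leF f a b) (h' : leF f b c) : leF f a c := by
  intro g hg
  obtain ⟨k, hk, hkg⟩ := h' g hg
  obtain ⟨l, hl, hlk⟩ := h k hk
  exact ⟨l, hl, hlk.trans hkg⟩

theorem leF_zero (a : FN N) : leF f a 0 := by
  intro g hg
  simp at hg

theorem leF_eq_zero (a : FN N) (h : leF f 0 a) : a = 0 := by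
  by_contra ha
  obtain ⟨α, hα⟩ := oleMin_exists f ha
  obtain ⟨g, hg, -⟩ := hα.1
  obtain ⟨k, hk, -⟩ := h g hg
  simp at hk

theorem leF_mul_left (a b c : FN N) (h : leF f a b) : leF f (c * a) (c * b) := by
  by_cases hb : b = 0
  · rw [hb, mul_zero]
    exact leF_zero f _
  by_cases hc : c = 0
  · rw [hc, zero_mul, zero_mul]
    exact leF_zero f _
  have ha : a ≠ 0 := by
    rintro rfl
    exact hb (leF_eq_zero f b h)
  obtain ⟨α, hα⟩ := oleMin_exists f ha
  obtain ⟨β, hβ⟩ := oleMin_exists f hb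
  obtain ⟨γ, hγ⟩ := oleMin_exists f hc
  rw [oleMin_leF f hα hβ] at h
  rw [oleMin_leF f (oleMin_mul f hγ hα) (oleMin_mul f hγ hβ)]
  exact ole_mono_le (le_refl _) h

theorem leF_mul_right (a b c : FN N) (h : leF f a b) : leF f (a * c) (b * c) := by
  by_cases hb : b = 0
  · rw [hb, zero_mul]
    exact leF_zero f _
  by_cases hc : c = 0
  · rw [hc, mul_zero, mul_zero]
    exact leF_zero f _
  have ha : a ≠ 0 := by
    rintro rfl
    exact hb (leF_eq_zero f b h)
  obtain ⟨α, hα⟩ := oleMin_exists f ha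
  obtain ⟨β, hβ⟩ := oleMin_exists f hb
  obtain ⟨γ, hγ⟩ := oleMin_exists f hc
  rw [oleMin_leF f hα hβ] at h
  rw [oleMin_leF f (oleMin_mul f hα hγ) (oleMin_mul f hβ hγ)]
  exact ole_mono_le h (le_refl _)

theorem leF_canc_left (a b c : FN N) (hc : c ≠ 0) (h : leF f (c * a) (c * b)) : leF f a b := by
  obtain ⟨γ, hγ⟩ := oleMin_exists f hc
  by_cases hb : b = 0
  · rw [hb]
    exact leF_zero f _
  obtain ⟨β, hβ⟩ := oleMin_exists f hb
  by_cases ha : a = 0
  · rw [ha, mul_zero] at h
    exact (ole_ne_zero f (oleMin_mul f hγ hβ) (leF_eq_zero f _ h)).elim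
  obtain ⟨α, hα⟩ := oleMin_exists f ha
  rw [oleMin_leF f (oleMin_mul f hγ hα) (oleMin_mul f hγ hβ)] at h
  rw [oleMin_leF f hα hβ]
  by_contra hlt
  exact absurd h (not_le.2 (ole_mono_lt_of_le_of_lt (le_refl γ) (not_le.1 hlt)))

theorem leF_canc_right (a b c : FN N) (hc : c ≠ 0) (h : leF f (a * c) (b * c)) : leF f a b := by
  obtain ⟨γ, hγ⟩ := oleMin_exists f hc
  by_cases hb : b = 0
  · rw [hb]
    exact leF_zero f _
  obtain ⟨β, hβ⟩ := oleMin_exists f hb
  by_cases ha : a = 0
  · rw [ha, zero_mul] at h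
    exact (ole_ne_zero f (oleMin_mul f hβ hγ) (leF_eq_zero f _ h)).elim
  obtain ⟨α, hα⟩ := oleMin_exists f ha
  rw [oleMin_leF f (oleMin_mul f hα hγ) (oleMin_mul f hβ hγ)] at h
  rw [oleMin_leF f hα hβ]
  by_contra hlt
  exact absurd h (not_le.2 (ole_mono_lt_of_lt_of_le (not_le.1 hlt) (le_refl γ)))

theorem leF_add (a b c : FN N) (h : leF f c a) (h' : leF f c b) : leF f c (a + b) := by
  intro g hg
  rw [Finsupp.mem_support_iff, MonoidAlgebra.coeff_add, Finsupp.add_apply] at hg
  by_cases ha : a.coeff g = 0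
  · by_cases hb : b.coeff g = 0
    · rw [ha, hb, add_zero] at hg
      exact (hg rfl).elim
    · exact h' g (Finsupp.mem_support_iff.2 hb)
  · exact h g (Finsupp.mem_support_iff.2 ha)

/-- On the group elements. -/
theorem leF_of (g h : N) :
    leF f (MonoidAlgebra.of (ZMod 2) N g) (MonoidAlgebra.of (ZMod 2) N h) ↔ f g ≤ f h := by
  have key : ∀ k : N, oleMin f (MonoidAlgebra.of (ZMod 2) N k) (f k) := by
    intro k
    have hs : (MonoidAlgebra.of (ZMod 2) N k).coeff.support = {k} := by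
      rw [MonoidAlgebra.of_apply, MonoidAlgebra.coeff_single]
      exact Finsupp.support_single_ne_zero k one_ne_zero
    constructor
    · exact ⟨k, by rw [hs]; exact Finset.mem_singleton_self k, rfl⟩
    · intro x hx
      rw [hs, Finset.mem_singleton] at hx
      rw [hx]
  exact oleMin_leF f (key g) (key h)

end

end SingerRA
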