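import Mathlib
import Pool.Agent.Lib_MP_394d50_all.DDefs

/-!
Piece OPV: extension of a valuation from an Ore domain to its division ring of fractions (about 200 lines; self-contained).

`io : R →+* D` injective, every `x : D` satisfies `io s * x = io p` with `s ≠ 0`. `le` is a total preorder on `R` (`le a b`: `v a ≤ v b`), compatible with
left and right multiplication, and cancellable. Define `LE x y := ∃ s p q, s ≠ 0 ∧ io s * x = io p ∧ io s * y = io q ∧ le p q`.
(0) COMMON DENOMINATORS: for `x y : D` there are `s ≠ 0`, `p`, `q` with `io s * x = io p`, `io s * y = io q`: from `io s₁ * x = io p₁`, `io s₂ * y = io q₂` and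
    `u * s₁ = w * s₂` with `u ≠ 0` (`ore s₁ s₂`): `s = u * s₁`. Similarly for three elements.
(1) INDEPENDENCE: if `io s * x = io p`, `io s * y = io q`, `io s' * x = io p'`, `io s' * y = io q'` (`s, s' ≠ 0`) then `le p q ↔ le p' q'`: take
    `u * s = u' * s'` with `u ≠ 0` (then `u' ≠ 0`); `u * p = u' * p'`, `u * q = u' * q'` by injectivity; use `mul_left` and `canc_left`.
    So `LE x y ↔ le p q` for every common denominator.
(2) `total`, `trans` (three elements), `add` (three elements), `le_zero`, `eq_zero`: from the properties of `le`.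
(3) `mul_left`: `c = t⁻¹ r` (`io t * c = io r`): choose `s' ≠ 0`, `r'` with `s' * r = r' * s` (`ore r s`); then
    `io (s' * t) * (c * x) = io s' * io r * x = io r' * io s * x = io (r' * p)`; `le (r' * p) (r' * q)`.
(4) `mul_right`: `io t * c = io r`. Choose `u ≠ 0`, `p'`, `q'` with `u * p = p' * t`, `u * q = q' * t` (`ore p t`, then `ore` again for the second:
    `u₁ * p = a * t`, `u₂ * (u₁ * q) = b * t`, `u = u₂ * u₁`, `p' = u₂ * a`, `q' = b`). Then
    `io (u * s) * (x * c) = io (u * p) * c = io p' * io t * c = io (p' * r)`, and `le p q → le (u p) (u q) = le (p' t) (q' t) → le p' q'`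
    (`canc_right`, `t ≠ 0`) `→ le (p' r) (q' r)`.
(5) `v.le (io a) (io b) ↔ le a b`: common denominator `1`.

`sf_ext`: carrier `{x | ∃ s ∈ R', ∃ p ∈ R', s ≠ 0 ∧ io s * x = io p}`. Sums: `u * s = u' * s'`, `u ≠ 0`, in `R'`. Products `x y`: `io s * x = io p`,
`io t * y = io q`, `u * p = p' * t`, `u ≠ 0` (ore in `R'`): `io (u * s) * (x * y) = io (p' * q)`. Inverses: if `x ≠ 0` then `p ≠ 0` and
`io p * x⁻¹ = io s`.
-/

namespace SingerRA

section opv

variable {R D : Type} [Ring R] [NoZeroDivisors R] [Nontrivial R] [DivisionRing D]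

/-- The extended preorder. -/
private def opv_LE (io : R →+* D) (le : R → R → Prop) (x y : D) : Prop :=
  ∃ s p q : R, s ≠ 0 ∧ io s * x = io p ∧ io s * y = io q ∧ le p q

omit [Nontrivial R] in
private theorem opv_cd2 (io : R →+* D) (hf : ∀ x : D, ∃ s p : R, s ≠ 0 ∧ io s * x = io p)
    (ore : ∀ a b : R, b ≠ 0 → ∃ p q : R, p ≠ 0 ∧ p * a = q * b) (x y : D) :
    ∃ s p q : R, s ≠ 0 ∧ io s * x = io p ∧ io s * y = io q := by
  obtain ⟨s1, p1, h1, e1⟩ := hf x
  obtain ⟨s2, q2, h2, e2⟩ := hf y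
  obtain ⟨u, w, hu, e⟩ := ore s1 s2 h2
  refine ⟨u * s1, u * p1, w * q2, mul_ne_zero hu h1, ?_, ?_⟩
  · rw [map_mul, mul_assoc, e1, map_mul]
  · rw [e, map_mul, mul_assoc, e2, map_mul]

omit [Nontrivial R] in
private theorem opv_cd3 (io : R →+* D) (hf : ∀ x : D, ∃ s p : R, s ≠ 0 ∧ io s * x = io p)
    (ore : ∀ a b : R, b ≠ 0 → ∃ p q : R, p ≠ 0 ∧ p * a = q * b) (x y z : D) :
    ∃ s p q r : R, s ≠ 0 ∧ io s * x = io p ∧ io s * y = io q ∧ io s * z = io r := by
  obtain ⟨s1, p1, q1, h1, e1, f1⟩ := opv_cd2 io hf ore x y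
  obtain ⟨s2, q2, h2, e2⟩ := hf z
  obtain ⟨u, w, hu, e⟩ := ore s1 s2 h2
  refine ⟨u * s1, u * p1, u * q1, w * q2, mul_ne_zero hu h1, ?_, ?_, ?_⟩
  · rw [map_mul, mul_assoc, e1, map_mul]
  · rw [map_mul, mul_assoc, f1, map_mul]
  · rw [e, map_mul, mul_assoc, e2, map_mul]

omit [Nontrivial R] in
private theorem opv_ind (io : R →+* D) (hi : Function.Injective io)
    (ore : ∀ a b : R, b ≠ 0 → ∃ p q : R, p ≠ 0 ∧ p * a = q * b) (le : R → R → Prop)
    (mul_left : ∀ a b c, le a b → le (c * a) (c * b))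
    (canc_left : ∀ a b c, c ≠ 0 → le (c * a) (c * b) → le a b) {x y : D}
    {s p q s' p' q' : R} (hs : s ≠ 0) (hp : io s * x = io p) (hq : io s * y = io q)
    (hs' : s' ≠ 0) (hp' : io s' * x = io p') (hq' : io s' * y = io q') (h : le p q) :
    le p' q' := by
  obtain ⟨u, u', hu, e⟩ := ore s s' hs'
  have hu' : u' ≠ 0 := by
    rintro rfl
    rw [zero_mul] at e
    exact mul_ne_zero hu hs e
  have e1 : u * p = u' * p' := by
    apply hi
    rw [map_mul, ← hp, ← mul_assoc, ← map_mul, e, map_mul, mul_assoc, hp', map_mul]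
  have e2 : u * q = u' * q' := by
    apply hi
    rw [map_mul, ← hq, ← mul_assoc, ← map_mul, e, map_mul, mul_assoc, hq', map_mul]
  apply canc_left _ _ u' hu'
  rw [← e1, ← e2]
  exact mul_left _ _ _ h

omit [Nontrivial R] in
private theorem opv_iff (io : R →+* D) (hi : Function.Injective io)
    (ore : ∀ a b : R, b ≠ 0 → ∃ p q : R, p ≠ 0 ∧ p * a = q * b) (le : R → R → Prop)
    (mul_left : ∀ a b c, le a b → le (c * a) (c * b))
    (canc_left : ∀ a b c, c ≠ 0 → le (c * a) (c * b) → le a b) {x y : D}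
    {s p q : R} (hs : s ≠ 0) (hp : io s * x = io p) (hq : io s * y = io q) :
    opv_LE io le x y ↔ le p q := by
  constructor
  · rintro ⟨s', p', q', hs', hp', hq', h⟩
    exact opv_ind io hi ore le mul_left canc_left hs' hp' hq' hs hp hq h
  · intro h
    exact ⟨s, p, q, hs, hp, hq, h⟩

end opv

theorem pv_ext {R D : Type} [Ring R] [NoZeroDivisors R] [Nontrivial R] [DivisionRing D]
    (io : R →+* D) (hi : Function.Injective io)
    (hf : ∀ x : D, ∃ s p : R, s ≠ 0 ∧ io s * x = io p)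
    (ore : ∀ a b : R, b ≠ 0 → ∃ p q : R, p ≠ 0 ∧ p * a = q * b) (le : R → R → Prop)
    (total : ∀ a b, le a b ∨ le b a) (trans : ∀ a b c, le a b → le b c → le a c)
    (mul_left : ∀ a b c, le a b → le (c * a) (c * b))
    (mul_right : ∀ a b c, le a b → le (a * c) (b * c))
    (canc_left : ∀ a b c, c ≠ 0 → le (c * a) (c * b) → le a b)
    (canc_right : ∀ a b c, c ≠ 0 → le (a * c) (b * c) → le a b)
    (add : ∀ a b c, le c a → le c b → le c (a + b)) (le_zero : ∀ a, le a 0)
    (eq_zero : ∀ a, le 0 a → a = 0) : ∃ v : PV D, ∀ a b : R, v.le (io a) (io b) ↔ le a b := by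
  have key : ∀ {x y : D} {s p q : R}, s ≠ 0 → io s * x = io p → io s * y = io q →
      (opv_LE io le x y ↔ le p q) := fun hs hp hq =>
    opv_iff io hi ore le mul_left canc_left hs hp hq
  refine ⟨{ le := opv_LE io le
            total := ?_, trans := ?_, mul_left := ?_, mul_right := ?_, add := ?_
            le_zero := ?_, eq_zero := ?_ }, ?_⟩
  · intro x y
    obtain ⟨s, p, q, hs, hp, hq⟩ := opv_cd2 io hf ore x y
    rw [key hs hp hq, key hs hq hp]
    exact total p q
  · intro x y z h1 h2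
    obtain ⟨s, p, q, r, hs, hp, hq, hr⟩ := opv_cd3 io hf ore x y z
    rw [key hs hp hq] at h1
    rw [key hs hq hr] at h2
    rw [key hs hp hr]
    exact trans _ _ _ h1 h2
  · intro x y c h
    obtain ⟨s, p, q, hs, hp, hq, hle⟩ := h
    obtain ⟨t, r, ht, htr⟩ := hf c
    obtain ⟨s', r', hs', e⟩ := ore r s hs
    have aux : ∀ (z : D) (m : R), io s * z = io m → io (s' * t) * (c * z) = io (r' * m) := by
      intro z m hz
      rw [map_mul, mul_assoc, ← mul_assoc (io t), htr, ← mul_assoc, ← map_mul, e, map_mul,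
        mul_assoc, hz, map_mul]
    exact ⟨s' * t, r' * p, r' * q, mul_ne_zero hs' ht, aux x p hp, aux y q hq,
      mul_left _ _ _ hle⟩
  · intro x y c h
    obtain ⟨s, p, q, hs, hp, hq, hle⟩ := h
    obtain ⟨t, r, ht, htr⟩ := hf c
    obtain ⟨u1, a, hu1, e1⟩ := ore p t ht
    obtain ⟨u2, b, hu2, e2⟩ := ore (u1 * q) t ht
    have hu : u2 * u1 ≠ 0 := mul_ne_zero hu2 hu1
    have f1 : (u2 * u1) * p = (u2 * a) * t := by rw [mul_assoc, e1, mul_assoc]
    have f2 : (u2 * u1) * q = b * t := by rw [mul_assoc, e2]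
    have aux : ∀ (z : D) (m n : R), io s * z = io m → (u2 * u1) * m = n * t →
        io (u2 * u1 * s) * (z * c) = io (n * r) := by
      intro z m n hz hm
      rw [map_mul, mul_assoc, ← mul_assoc (io s), hz, ← mul_assoc, ← map_mul, hm, map_mul,
        mul_assoc, htr, map_mul]
    refine ⟨u2 * u1 * s, u2 * a * r, b * r, mul_ne_zero hu hs, aux x p _ hp f1, aux y q _ hq f2,
      mul_right _ _ _ (canc_right _ _ t ht ?_)⟩
    rw [← f1, ← f2]
    exact mul_left _ _ _ hle
  · intro x y z h1 h2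
    obtain ⟨s, p, q, r, hs, hp, hq, hr⟩ := opv_cd3 io hf ore x y z
    rw [key hs hr hp] at h1
    rw [key hs hr hq] at h2
    have hpq : io s * (x + y) = io (p + q) := by rw [mul_add, hp, hq, map_add]
    rw [key hs hr hpq]
    exact add _ _ _ h1 h2
  · intro x
    obtain ⟨s, p, hs, hp⟩ := hf x
    exact ⟨s, p, 0, hs, hp, by rw [mul_zero, map_zero], le_zero p⟩
  · rintro x ⟨s, p, q, hs, hp, hq, hle⟩
    have hp0 : p = 0 := by
      apply hi
      rw [← hp, mul_zero, map_zero]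
    rw [hp0] at hle
    have hq0 : q = 0 := eq_zero q hle
    rw [hq0, map_zero] at hq
    rcases mul_eq_zero.1 hq with h | h
    · exact absurd (hi (by rw [h, map_zero])) hs
    · exact h
  · intro a b
    show opv_LE io le (io a) (io b) ↔ le a b
    exact key one_ne_zero (by rw [map_one, one_mul]) (by rw [map_one, one_mul])

theorem sf_ext {R D : Type} [Ring R] [NoZeroDivisors R] [Nontrivial R] [DivisionRing D]
    (io : R →+* D) (hi : Function.Injective io) (R' : Subring R)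
    (ore : ∀ a ∈ R', ∀ b ∈ R', b ≠ 0 → ∃ p ∈ R', ∃ q ∈ R', p ≠ 0 ∧ p * a = q * b) :
    ∃ F : Subfield D, ∀ x, x ∈ F ↔ ∃ s ∈ R', ∃ p ∈ R', s ≠ 0 ∧ io s * x = io p := by
  refine ⟨{ carrier := {x | ∃ s ∈ R', ∃ p ∈ R', s ≠ 0 ∧ io s * x = io p}
            mul_mem' := ?_, one_mem' := ?_, add_mem' := ?_, zero_mem' := ?_, neg_mem' := ?_
            inv_mem' := ?_ }, fun x => Iff.rfl⟩
  · rintro x y ⟨s, hs, p, hp, hs0, e1⟩ ⟨t, ht, q, hq, ht0, e2⟩
    obtain ⟨u, hu, p', hp', hu0, e⟩ := ore p hp t ht ht0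
    refine ⟨u * s, R'.mul_mem hu hs, p' * q, R'.mul_mem hp' hq, mul_ne_zero hu0 hs0, ?_⟩
    rw [map_mul, mul_assoc, ← mul_assoc (io s), e1, ← mul_assoc, ← map_mul, e, map_mul,
      mul_assoc, e2, map_mul]
  · exact ⟨1, R'.one_mem, 1, R'.one_mem, one_ne_zero, mul_one _⟩
  · rintro x y ⟨s, hs, p, hp, hs0, e1⟩ ⟨t, ht, q, hq, ht0, e2⟩
    obtain ⟨u, hu, w, hw, hu0, e⟩ := ore s hs t ht ht0
    refine ⟨u * s, R'.mul_mem hu hs, u * p + w * q, R'.add_mem (R'.mul_mem hu hp)
      (R'.mul_mem hw hq), mul_ne_zero hu0 hs0, ?_⟩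
    have f1 : io (u * s) * x = io (u * p) := by rw [map_mul, mul_assoc, e1, map_mul]
    have f2 : io (u * s) * y = io (w * q) := by rw [e, map_mul, mul_assoc, e2, map_mul]
    rw [mul_add, f1, f2, map_add]
  · exact ⟨1, R'.one_mem, 0, R'.zero_mem, one_ne_zero, by rw [mul_zero, map_zero]⟩
  · rintro x ⟨s, hs, p, hp, hs0, e1⟩
    exact ⟨s, hs, -p, R'.neg_mem hp, hs0, by rw [mul_neg, e1, map_neg]⟩
  · rintro x ⟨s, hs, p, hp, hs0, e1⟩
    by_cases hx : x = 0
    · refine ⟨1, R'.one_mem, 0, R'.zero_mem, one_ne_zero, ?_⟩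
      rw [hx, inv_zero, mul_zero, map_zero]
    · have hp0 : p ≠ 0 := by
        rintro rfl
        rw [map_zero] at e1
        rcases mul_eq_zero.1 e1 with h | h
        · exact hs0 (hi (by rw [h, map_zero]))
        · exact hx h
      refine ⟨p, hp, s, hs, hp0, ?_⟩
      rw [← e1, mul_assoc, mul_inv_cancel₀ hx, mul_one]

end SingerRA
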