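import Mathlib
import Pool.Agent.Lib_MP_394d50_all.ODefs

/-!
Piece OSUB: the Ore condition for the group algebra of a subgroup (about 120 lines; self-contained).

`subF K`: the elements of `FN N` with support in the subgroup `K`.
`subF_ore`: let `a, b` have support in `K`, `b ≠ 0`. `IsOreG.ore` gives `p ≠ 0`, `q` in `FN N` with `p * a = q * b`. Multiply on the left by a group element
so that `1 ∈ supp p` (`p` replaced by `of g⁻¹ * p`, `g ∈ supp p`). Let `res : FN N → FN N` be the restriction of the coefficients to `K` (`Finsupp.filter`). Then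
`res (p * a) = res p * a` for `a ∈ subF K` (if `g = g₁ g₂` with `g₂ ∈ K` then `g ∈ K` iff `g₁ ∈ K`; check on `p = of g₁`, `a = of g₂` and extend bilinearly).
So `res p * a = res q * b`, `res p ≠ 0` (its coefficient at `1` is not zero), and `res p, res q ∈ subF K`.
-/

namespace SingerRA

/-- The group algebra of a subgroup, as a subring. -/
def subF {N : Type} [Group N] (K : Subgroup N) : Subring (FN N) where
  carrier := {a | ∀ g ∈ a.coeff.support, g ∈ K}
  mul_mem' := by
    classical
    intro a b ha hb g hg
    obtain ⟨x, hx, y, hy, rfl⟩ := Finset.mem_mul.1 (MonoidAlgebra.support_coeff_mul_subset a b hg)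
    exact K.mul_mem (ha x hx) (hb y hy)
  one_mem' := by
    classical
    intro g hg
    rw [MonoidAlgebra.one_def, MonoidAlgebra.coeff_single] at hg
    rw [Finset.mem_singleton.1 (Finsupp.support_single_subset hg)]
    exact K.one_mem
  add_mem' := by
    classical
    intro a b ha hb g hg
    rcases Finset.mem_union.1 (Finsupp.support_add hg) with h | h
    · exact ha g h
    · exact hb g h
  zero_mem' := by
    intro g hg
    rw [MonoidAlgebra.coeff_zero, Finsupp.support_zero] at hg
    exact absurd hg (Finset.notMem_empty g)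
  neg_mem' := by
    intro a ha g hg
    have h : (-a).coeff = -a.coeff := rfl
    rw [h, Finsupp.support_neg] at hg
    exact ha g hg

theorem mem_subF {N : Type} [Group N] (K : Subgroup N) (a : FN N) :
    a ∈ subF K ↔ ∀ g ∈ a.coeff.support, g ∈ K := Iff.rfl

theorem subF_mono {N : Type} [Group N] {K K' : Subgroup N} (h : K ≤ K') : subF K ≤ subF K' :=
  fun _ ha g hg => h (ha g hg)

theorem of_mem_subF {N : Type} [Group N] (K : Subgroup N) (g : N) (hg : g ∈ K) :
    MonoidAlgebra.of (ZMod 2) N g ∈ subF K := by
  intro x hx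
  rw [MonoidAlgebra.of_apply, MonoidAlgebra.coeff_single] at hx
  rw [Finset.mem_singleton.1 (Finsupp.support_single_subset hx)]
  exact hg

open scoped Classical in
/-- The restriction of the coefficients to a subgroup. -/
noncomputable def osubRes {N : Type} [Group N] (K : Subgroup N) (x : FN N) : FN N :=
  MonoidAlgebra.ofCoeff (x.coeff.filter (· ∈ K))

open scoped Classical in
theorem osubRes_coeff {N : Type} [Group N] (K : Subgroup N) (x : FN N) (g : N) :
    (osubRes K x).coeff g = if g ∈ K then x.coeff g else 0 := by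
  unfold osubRes
  rw [MonoidAlgebra.coeff_ofCoeff, Finsupp.filter_apply]

theorem osubRes_mem {N : Type} [Group N] (K : Subgroup N) (x : FN N) : osubRes K x ∈ subF K := by
  classical
  intro g hg
  rw [Finsupp.mem_support_iff, osubRes_coeff] at hg
  by_contra h
  exact hg (if_neg h)

theorem osubRes_mul {N : Type} [Group N] (K : Subgroup N) (x a : FN N) (ha : a ∈ subF K) :
    osubRes K (x * a) = osubRes K x * a := by
  classical
  refine MonoidAlgebra.ext ?_
  refine Finsupp.ext fun g => ?_
  rw [osubRes_coeff, MonoidAlgebra.coeff_mul_apply_right, MonoidAlgebra.coeff_mul_apply_right]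
  unfold Finsupp.sum
  split_ifs with h
  · refine Finset.sum_congr rfl fun k hk => ?_
    show x.coeff (g * k⁻¹) * a.coeff k = (osubRes K x).coeff (g * k⁻¹) * a.coeff k
    rw [osubRes_coeff, if_pos (K.mul_mem h (K.inv_mem (ha k hk)))]
  · symm
    refine Finset.sum_eq_zero fun k hk => ?_
    show (osubRes K x).coeff (g * k⁻¹) * a.coeff k = 0
    rw [osubRes_coeff, if_neg, zero_mul]
    intro h1
    apply h
    have h2 := K.mul_mem h1 (ha k hk)
    rwa [inv_mul_cancel_right] at h2

theorem subF_ore {N : Type} [Group N] [IsOreG N] (K : Subgroup N) (a : FN N) (ha : a ∈ subF K)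
    (b : FN N) (hb : b ∈ subF K) (hb0 : b ≠ 0) :
    ∃ p ∈ subF K, ∃ q ∈ subF K, p ≠ 0 ∧ p * a = q * b := by
  classical
  obtain ⟨p, q, hp, hpq⟩ := IsOreG.ore a b hb0
  have hp' : p.coeff ≠ 0 := fun h => hp (MonoidAlgebra.coeff_eq_zero.1 h)
  obtain ⟨g, hg⟩ := Finsupp.support_nonempty_iff.2 hp'
  rw [Finsupp.mem_support_iff] at hg
  refine ⟨osubRes K (MonoidAlgebra.single g⁻¹ 1 * p), osubRes_mem K _,
    osubRes K (MonoidAlgebra.single g⁻¹ 1 * q), osubRes_mem K _, ?_, ?_⟩
  · intro h
    have h1 : (osubRes K (MonoidAlgebra.single g⁻¹ 1 * p)).coeff 1 = 0 := by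
      rw [h]
      rfl
    rw [osubRes_coeff, if_pos K.one_mem, MonoidAlgebra.coeff_single_mul_apply, inv_inv, mul_one,
      one_mul] at h1
    exact hg h1
  · rw [← osubRes_mul K _ a ha, ← osubRes_mul K _ b hb, mul_assoc, mul_assoc, hpq]

end SingerRA
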