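import Mathlib
import Pool.Agent.Lib_MP_394d50_all.OCoc
import Pool.Agent.Lib_MP_394d50_all.OPv
import Pool.Agent.Lib_MP_394d50_all.OLe
import Pool.Agent.Lib_MP_394d50_all.OSub

/-!
Piece OASM: the data `PreSys` on the division ring of fractions `DN N` (about 120 lines), from `pv_ext`, `sf_ext`, the `leF` lemmas, `subF_ore`.

Take `toUD = udN t comm` (OCoc.lean), `v A` from `pv_ext (io N) (io_inj N) (io_frac N) IsOreG.ore (leF (pi A))` and `F A` from
`sf_ext (io N) (io_inj N) (subF (pi A).ker) (subF_ore _)`.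
* `triv (unN N g) ↔ pi A g = 1`: `(v A).le (io 1) (io (of g)) ↔ 1 ≤ pi A g` etc. (`leF_of`; `1 = io (of 1)`).
* `F_triv`: `io s * x = io p`, `s, p ≠ 0` with supports in the kernel: `leF s p` and `leF p s` (both values are `1`), so `(v A).le (io s) (io p)` and back, that is
  `le (io s * 1) (io s * x)`; multiply by `(io s)⁻¹` on the left.
* `F_mono`: `h2` and `subF_mono`.
* `v_t`: `h1`.
* `gen_mem`: an element of the subgroup generated by the `unN N (t v)` is `unN N g` (`Subgroup.map`, `MonoidHom.map_closure`, or closure induction); `pi A g = 1`, so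
  `of g ∈ subF (pi A).ker`; `s = 1`.
* `inj`: `th_udN` and `h3`.
-/

namespace SingerRA

theorem oasm_le_of_ker {N : Type} [Group N] [LinearOrder N] (f : N →* N) (a b : FN N)
    (ha : a ∈ subF f.ker) (hb : b ∈ subF f.ker) (ha0 : a ≠ 0) : leF f a b := by
  intro g hg
  have hne : a.coeff.support.Nonempty := by
    rw [Finsupp.support_nonempty_iff]
    intro h
    exact ha0 (MonoidAlgebra.coeff_eq_zero.1 h)
  obtain ⟨h, hh⟩ := hne
  refine ⟨h, hh, ?_⟩
  have h1 : f h = 1 := ha h hh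
  have h2 : f g = 1 := hb g hg
  rw [h1, h2]

theorem oasm_closure {N ι : Type} [Group N] [NoZeroDivisors (FN N)] [IsOreG N] (t : ι → N)
    (g : (DN N)ˣ) (hg : g ∈ Subgroup.closure (Set.range fun i => unN N (t i))) :
    ∃ n, g = unN N n := by
  induction hg using Subgroup.closure_induction with
  | mem x hx =>
    obtain ⟨v, rfl⟩ := hx
    exact ⟨t v, rfl⟩
  | one => exact ⟨1, (map_one _).symm⟩
  | mul x y _ _ hx hy =>
    obtain ⟨a, rfl⟩ := hx
    obtain ⟨b, rfl⟩ := hy
    exact ⟨a * b, (map_mul _ _ _).symm⟩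
  | inv x _ hx =>
    obtain ⟨a, rfl⟩ := hx
    exact ⟨a⁻¹, (map_inv _ _).symm⟩

theorem preSys_exists {V : Type} [DecidableEq V] (G : SimpleGraph V) (c : ℕ) {N : Type} [Group N]
    [LinearOrder N] [MulLeftStrictMono N] [MulRightStrictMono N] [IsOreG N] (t : V → N)
    (comm : ∀ u v, G.Adj u v → t u * t v = t v * t u) (pi : Finset V → N →* N)
    (h1 : ∀ A, ∀ u ∉ A, pi A (t u) = 1) (h2 : ∀ A B, B ⊆ A → (pi A).ker ≤ (pi B).ker)
    (h3 : ∀ A, ∀ w ∈ pW G A, len G w < c → ∀ χ, pi A (thG t comm w χ) = 1 → w = 1) :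
    ∃ S : PreSys G (DN N) c, S.t = (udN t comm).t := by
  have hv : ∀ A : Finset V, ∃ v : PV (DN N), ∀ a b : FN N,
      v.le (io N a) (io N b) ↔ leF (pi A) a b := fun A =>
    pv_ext (io N) (io_inj N) (io_frac N) IsOreG.ore (leF (pi A)) (leF_total _) (leF_trans _)
      (leF_mul_left _) (leF_mul_right _) (leF_canc_left _) (leF_canc_right _) (leF_add _)
      (leF_zero _) (leF_eq_zero _)
  choose v hv using hv
  have hF : ∀ A : Finset V, ∃ F : Subfield (DN N), ∀ x, x ∈ F ↔
      ∃ s ∈ subF (pi A).ker, ∃ p ∈ subF (pi A).ker, s ≠ 0 ∧ io N s * x = io N p := fun A =>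
    sf_ext (io N) (io_inj N) (subF (pi A).ker) (fun a ha b hb h0 => subF_ore _ a ha b hb h0)
  choose F hF using hF
  have htriv : ∀ A g, (v A).triv ((unN N g : (DN N)ˣ) : DN N) ↔ pi A g = 1 := by
    intro A g
    unfold PV.triv
    have e1 : (1 : DN N) = io N (MonoidAlgebra.of (ZMod 2) N 1) := by rw [map_one, map_one]
    rw [unN_val, e1, hv, hv, leF_of, leF_of, map_one]
    constructor
    · rintro ⟨h, h'⟩
      exact le_antisymm h' h
    · intro h
      rw [h]
      exact ⟨le_refl _, le_refl _⟩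
  refine ⟨{ toUD := udN t comm, v := v, F := F, F_triv := ?_, F_mono := ?_, v_t := ?_,
            gen_mem := ?_, inj := ?_ }, rfl⟩
  · intro A x hx h0
    obtain ⟨s, hs, p, hp, hs0, hxp⟩ := (hF A x).1 hx
    have hs1 : io N s ≠ 0 := io_ne_zero N hs0
    have hp0 : p ≠ 0 := by
      rintro rfl
      rw [map_zero] at hxp
      rcases mul_eq_zero.1 hxp with h | h
      · exact hs1 h
      · exact h0 h
    have k1 : (v A).le (io N s) (io N p) := (hv A s p).2 (oasm_le_of_ker _ s p hs hp hs0)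
    have k2 : (v A).le (io N p) (io N s) := (hv A p s).2 (oasm_le_of_ker _ p s hp hs hp0)
    constructor
    · have h := (v A).mul_left _ _ (io N s)⁻¹ k1
      rw [← hxp, inv_mul_cancel₀ hs1, inv_mul_cancel_left₀ hs1] at h
      exact h
    · have h := (v A).mul_left _ _ (io N s)⁻¹ k2
      rw [← hxp, inv_mul_cancel₀ hs1, inv_mul_cancel_left₀ hs1] at h
      exact h
  · intro A B h x hx
    rw [hF] at hx ⊢
    obtain ⟨s, hs, p, hp, h0, hx⟩ := hx
    exact ⟨s, subF_mono (h2 A B h) hs, p, subF_mono (h2 A B h) hp, h0, hx⟩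
  · intro A u hu
    exact (htriv A (t u)).2 (h1 A u hu)
  · intro A g hg hgt
    obtain ⟨n, rfl⟩ := oasm_closure t g hg
    rw [hF]
    refine ⟨1, one_mem _, MonoidAlgebra.of (ZMod 2) N n, of_mem_subF _ n ((htriv A n).1 hgt),
      one_ne_zero, ?_⟩
    rw [map_one, one_mul, unN_val]
  · intro A w hw hl χ h
    rw [th_udN] at h
    exact h3 A w hw hl χ ((htriv A _).1 h)

end SingerRA
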