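import Mathlib
import Pool.Agent.Lib_MP_394d50_all.RDefs

/-!
# Part R: chains over a ring, coordinates, ranks
-/

namespace SingerRA

section ring

variable {V R : Type} [DecidableEq V] [Ring R]

theorem ra_zm2_ne {a : ZMod 2} (h : a ≠ 0) : a = 1 := (zm2_cases a).resolve_left h

theorem ra_add_ev_ne {u v : V} (h : u ≠ v) (χ : QV V) : (χ + ev v) u = χ u := by
  rw [Pi.add_apply, ev_ne h, add_zero]

theorem ra_add_ev_self {v : V} {χ : QV V} (h : χ v ≠ 0) : (χ + ev v) v = 0 := by
  rw [Pi.add_apply, ev_self, ra_zm2_ne h]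
  rfl

/-- Equivariant extension. -/
theorem ra_ext (t : V → R) (σ : Finset V) (hσ : ∀ u ∈ σ, ∀ v ∈ σ, t u * t v = t v * t u)
    (f : QV V → R) : ∃ z : QV V → R, EqR t σ z ∧ ∀ χ : QV V, (∀ v ∈ σ, χ v = 0) → z χ = f χ := by
  induction σ using Finset.induction_on with
  | empty => exact ⟨f, fun v hv => absurd hv (Finset.notMem_empty v), fun χ _ => rfl⟩
  | insert u σ hu ih =>
    obtain ⟨z, hz, hf⟩ := ih (fun a ha b hb => hσ a (Finset.mem_insert_of_mem ha) b
      (Finset.mem_insert_of_mem hb))
    refine ⟨fun χ => if χ u = 0 then z χ else z (χ + ev u) * t u, ?_, ?_⟩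
    · intro v hv χ hχ
      by_cases hvu : v = u
      · subst hvu
        have h1 : (χ + ev v) v ≠ 0 := by
          rw [Pi.add_apply, ev_self, hχ, zero_add]
          exact one_ne_zero
        show (if (χ + ev v) v = 0 then z (χ + ev v) else z (χ + ev v + ev v) * t v) =
          (if χ v = 0 then z χ else z (χ + ev v) * t v) * t v
        rw [if_neg h1, if_pos hχ, add_ev_ev]
      · have hvσ : v ∈ σ := (Finset.mem_insert.mp hv).resolve_left hvu
        show (if (χ + ev v) u = 0 then z (χ + ev v) else z (χ + ev v + ev u) * t u) =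
          (if χ u = 0 then z χ else z (χ + ev u) * t u) * t v
        rw [ra_add_ev_ne (Ne.symm hvu)]
        by_cases h0 : χ u = 0
        · rw [if_pos h0, if_pos h0]
          exact hz v hvσ χ hχ
        · rw [if_neg h0, if_neg h0, add_right_comm, hz v hvσ (χ + ev u) (by
            rw [ra_add_ev_ne hvu]; exact hχ), mul_assoc, mul_assoc,
            hσ v hv u (Finset.mem_insert_self u σ)]
    · intro χ hχ
      show (if χ u = 0 then z χ else z (χ + ev u) * t u) = f χ
      rw [if_pos (hχ u (Finset.mem_insert_self u σ))]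
      exact hf χ (fun v hv => hχ v (Finset.mem_insert_of_mem hv))

/-- Uniqueness of the equivariant extension. -/
theorem ra_uniq (t : V → R) (σ : Finset V) (z : QV V → R) (hz : EqR t σ z)
    (h0 : ∀ χ : QV V, (∀ v ∈ σ, χ v = 0) → z χ = 0) : z = 0 := by
  have key : ∀ n : ℕ, ∀ χ : QV V, (σ.filter (fun v => χ v ≠ 0)).card = n → z χ = 0 := by
    intro n
    induction n with
    | zero =>
      intro χ hχ
      refine h0 χ fun v hv => ?_
      by_contra h
      have : v ∈ σ.filter (fun v => χ v ≠ 0) := Finset.mem_filter.mpr ⟨hv, h⟩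
      rw [Finset.card_eq_zero.mp hχ] at this
      exact Finset.notMem_empty v this
    | succ n ih =>
      intro χ hχ
      have hne : (σ.filter (fun v => χ v ≠ 0)).Nonempty := by
        rw [← Finset.card_pos, hχ]
        exact Nat.succ_pos n
      obtain ⟨v, hv⟩ := hne
      obtain ⟨hvσ, hv0⟩ := Finset.mem_filter.mp hv
      have h1 : (χ + ev v) v = 0 := ra_add_ev_self hv0
      have h2 := hz v hvσ (χ + ev v) h1
      rw [add_ev_ev] at h2
      rw [h2, ih (χ + ev v), zero_mul]
      have h3 : σ.filter (fun u => (χ + ev v) u ≠ 0) = (σ.filter (fun u => χ u ≠ 0)).erase v := by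
        ext u
        rw [Finset.mem_filter, Finset.mem_erase, Finset.mem_filter]
        by_cases huv : u = v
        · subst huv
          constructor
          · intro h
            exact absurd h1 h.2
          · intro h
            exact absurd rfl h.1
        · rw [ra_add_ev_ne huv]
          constructor
          · intro h
            exact ⟨huv, h⟩
          · intro h
            exact h.2
      rw [h3, Finset.card_erase_of_mem hv, hχ]
      rfl
  funext χ
  exact key _ χ rfl

theorem ra_chR_ext {G : SimpleGraph V} {t : V → R} {k : ℕ} {z : Finset V → QV V → R}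
    (hz : ChR G t k z) (h0 : ∀ j : JJ G k, z j.1.1 j.1.2 = 0) : z = 0 := by
  funext σ
  by_cases hσ : σ ∈ cliq G ∧ σ.card = k
  · exact ra_uniq t σ (z σ) (hz.2 σ) fun χ hχ => h0 ⟨(σ, χ), hσ.1, hσ.2, hχ⟩
  · exact hz.1 σ hσ

open scoped Classical in
theorem ra_exists_e (G : SimpleGraph V) (t : V → R)
    (comm : ∀ u v, G.Adj u v → t u * t v = t v * t u) (k : ℕ) :
    ∃ e : JJ G k → Finset V → QV V → R, (∀ j, ChR G t k (e j)) ∧
      ∀ i j, e j i.1.1 i.1.2 = if i = j then 1 else 0 := by
  have h : ∀ j : JJ G k, ∃ z : QV V → R, EqR t j.1.1 z ∧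
      ∀ χ : QV V, (∀ v ∈ j.1.1, χ v = 0) → z χ = if χ = j.1.2 then 1 else 0 := by
    intro j
    refine ra_ext t j.1.1 ?_ (fun χ => if χ = j.1.2 then 1 else 0)
    intro u hu v hv
    by_cases huv : u = v
    · rw [huv]
    · exact comm u v (j.2.1 hu hv huv)
  choose z hz hz' using h
  refine ⟨fun j σ => if σ = j.1.1 then z j else 0, ?_, ?_⟩
  · intro j
    refine ⟨?_, ?_⟩
    · intro σ hσ
      show (if σ = j.1.1 then z j else 0) = 0
      rw [if_neg]
      rintro rfl
      exact hσ ⟨j.2.1, j.2.2.1⟩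
    · intro σ v hv χ hχ
      show (if σ = j.1.1 then z j else 0) (χ + ev v) = (if σ = j.1.1 then z j else 0) χ * t v
      by_cases hσ : σ = j.1.1
      · rw [if_pos hσ]
        exact hz j v (hσ ▸ hv) χ hχ
      · rw [if_neg hσ]
        simp
  · intro i j
    show (if i.1.1 = j.1.1 then z j else 0) i.1.2 = if i = j then 1 else 0
    by_cases h1 : i.1.1 = j.1.1
    · rw [if_pos h1, hz' j i.1.2 (by rw [← h1]; exact i.2.2.2)]
      by_cases h2 : i.1.2 = j.1.2
      · have hij : i = j := Subtype.ext (Prod.ext h1 h2)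
        rw [if_pos h2, if_pos hij]
      · rw [if_neg h2, if_neg]
        rintro rfl
        exact h2 rfl
    · rw [if_neg h1, if_neg]
      · rfl
      · rintro rfl
        exact h1 rfl

theorem ChR.map {S : Type} [Ring S] {G : SimpleGraph V} {t : V → R} {k : ℕ}
    {z : Finset V → QV V → R} (hz : ChR G t k z) (φ : R →+* S) :
    ChR G (fun v => φ (t v)) k (fun σ χ => φ (z σ χ)) := by
  refine ⟨?_, ?_⟩
  · intro σ hσ
    funext χ
    show φ (z σ χ) = 0
    rw [hz.1 σ hσ]
    exact map_zero φ
  · intro σ v hv χ hχ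
    show φ (z σ (χ + ev v)) = φ (z σ χ) * φ (t v)
    rw [hz.2 σ v hv χ hχ, map_mul]

theorem ra_bd_apply {Y X : Type} [Fintype V] [AddCommMonoid X] (z : Finset V → Y → X)
    (τ : Finset V) (y : Y) : bd z τ y = ∑ v ∈ Finset.univ \ τ, z (insert v τ) y := by
  unfold bd
  rw [Finset.sum_apply]

theorem ra_bd_map {S : Type} [Ring S] [Fintype V] (z : Finset V → QV V → R) (φ : R →+* S)
    (τ : Finset V) (χ : QV V) : bd (fun σ χ => φ (z σ χ)) τ χ = φ (bd z τ χ) := by
  rw [ra_bd_apply, ra_bd_apply, map_sum]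

/-- The submodule of the chains. -/
def ChS (G : SimpleGraph V) (t : V → R) (k : ℕ) : Submodule R (Finset V → QV V → R) where
  carrier := {z | ChR G t k z}
  add_mem' := by
    rintro z y ⟨hz, hz'⟩ ⟨hy, hy'⟩
    refine ⟨fun σ h => ?_, fun σ v hv χ hχ => ?_⟩
    · rw [Pi.add_apply, hz σ h, hy σ h, add_zero]
    · rw [Pi.add_apply, Pi.add_apply, Pi.add_apply, hz' σ v hv χ hχ, hy' σ v hv χ hχ, add_mul]
  zero_mem' := ⟨fun _ _ => rfl, fun _ _ _ _ _ => (zero_mul _).symm⟩
  smul_mem' := by
    rintro r z ⟨hz, hz'⟩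
    refine ⟨fun σ h => ?_, fun σ v hv χ hχ => ?_⟩
    · rw [Pi.smul_apply, hz σ h, smul_zero]
    · rw [Pi.smul_apply, Pi.smul_apply, Pi.smul_apply, hz' σ v hv χ hχ, smul_eq_mul, smul_eq_mul,
        mul_assoc]

theorem ra_sum_e [Fintype V] {G : SimpleGraph V} {t : V → R} {k : ℕ} {e : JJ G k → Finset V → QV V → R}
    (he : ∀ j, ChR G t k (e j)) (he' : ∀ i j, e j i.1.1 i.1.2 = if i = j then 1 else 0)
    {z : Finset V → QV V → R} (hz : ChR G t k z) : z = ∑ j, z j.1.1 j.1.2 • e j := by
  have h1 : z - ∑ j, z j.1.1 j.1.2 • e j ∈ ChS G t k :=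
    Submodule.sub_mem _ hz (Submodule.sum_mem _ fun j _ => Submodule.smul_mem _ _ (he j))
  rw [← sub_eq_zero]
  refine ra_chR_ext h1 fun i => ?_
  rw [Pi.sub_apply, Pi.sub_apply, Finset.sum_apply, Finset.sum_apply, sub_eq_zero]
  symm
  rw [Finset.sum_eq_single i]
  · rw [Pi.smul_apply, Pi.smul_apply, he', if_pos rfl, smul_eq_mul, mul_one]
  · intro j _ hji
    rw [Pi.smul_apply, Pi.smul_apply, he', if_neg (Ne.symm hji), smul_zero]
  · intro h
    exact absurd (Finset.mem_univ i) h

/-- The boundary as a linear map. -/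
def bdL (R : Type) [Ring R] [Fintype V] :
    (Finset V → QV V → R) →ₗ[R] (Finset V → QV V → R) where
  toFun z := bd z
  map_add' z y := by
    funext τ
    unfold bd
    rw [Pi.add_apply, ← Finset.sum_add_distrib]
    rfl
  map_smul' r z := by
    funext τ
    unfold bd
    rw [RingHom.id_apply, Pi.smul_apply, Finset.smul_sum]
    rfl

theorem bdL_apply [Fintype V] (z : Finset V → QV V → R) : bdL R z = bd z := rfl

end ring

/-! ## Over a division ring -/

theorem chD_iff {V D : Type} [DecidableEq V] [DivisionRing D] (G : SimpleGraph V) (t : V → Dˣ)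
    (k : ℕ) (z : Finset V → QV V → D) :
    ChD G t k z ↔ ChR G (fun v => ((t v : Dˣ) : D)) k z := by
  refine and_congr Iff.rfl (forall_congr' fun σ => ?_)
  constructor
  · intro h v hv χ hχ
    rw [h v hv χ]
    unfold th1
    rw [if_pos hχ, inv_inv]
  · intro h v hv χ
    by_cases hχ : χ v = 0
    · rw [h v hv χ hχ]
      unfold th1
      rw [if_pos hχ, inv_inv]
    · have h1 := h v hv (χ + ev v) (ra_add_ev_self hχ)
      rw [add_ev_ev] at h1
      unfold th1
      rw [if_neg hχ, h1, mul_assoc, Units.mul_inv, mul_one]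

theorem ra_ranks {V D : Type} [Fintype V] [DecidableEq V] [DivisionRing D] (G : SimpleGraph V)
    (t : V → Dˣ) (k : ℕ) (hex : ExD G t k)
    (e : JJ G k → Finset V → QV V → D) (he : ∀ j, ChR G (fun v => ((t v : Dˣ) : D)) k (e j))
    (he0 : ∀ i j, e j i.1.1 i.1.2 = if i = j then 1 else 0)
    (e' : JJ G (k + 1) → Finset V → QV V → D)
    (he' : ∀ j, ChR G (fun v => ((t v : Dˣ) : D)) (k + 1) (e' j))
    (he0' : ∀ i j, e' j i.1.1 i.1.2 = if i = j then 1 else 0) :
    ∃ (κ κ' : Type) (_ : Fintype κ) (_ : Fintype κ') (f : κ → JJ G k) (f' : κ' → JJ G (k + 1)),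
      LinearIndependent D (fun i => bd (e (f i))) ∧ LinearIndependent D (fun i => bd (e' (f' i))) ∧
      Fintype.card (JJ G k) ≤ Fintype.card κ + Fintype.card κ' := by
  classical
  obtain ⟨κ, f, hf, hspan, hli⟩ := exists_linearIndependent' D (fun j => bd (e j))
  obtain ⟨κ', f', hf', hspan', hli'⟩ := exists_linearIndependent' D (fun j => bd (e' j))
  have i1 : Fintype κ := Fintype.ofInjective f hf
  have i2 : Fintype κ' := Fintype.ofInjective f' hf'
  refine ⟨κ, κ', i1, i2, f, f', hli, hli', ?_⟩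
  -- the linear maps from the coordinates
  set E : (JJ G k → D) →ₗ[D] (Finset V → QV V → D) := Fintype.linearCombination D e with hE
  have hEi : Function.Injective E := by
    rw [← LinearMap.ker_eq_bot, LinearMap.ker_eq_bot']
    intro x hx
    funext i
    have h1 : E x i.1.1 i.1.2 = x i := by
      rw [hE, Fintype.linearCombination_apply, Finset.sum_apply, Finset.sum_apply,
        Finset.sum_eq_single i]
      · rw [Pi.smul_apply, Pi.smul_apply, he0, if_pos rfl, smul_eq_mul, mul_one]
      · intro j _ hji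
        rw [Pi.smul_apply, Pi.smul_apply, he0, if_neg (Ne.symm hji), smul_zero]
      · intro h
        exact absurd (Finset.mem_univ i) h
    rw [← h1, hx]
    rfl
  have hEm : ∀ x, ChR G (fun v => ((t v : Dˣ) : D)) k (E x) := by
    intro x
    have : E x ∈ ChS G (fun v => ((t v : Dˣ) : D)) k := by
      rw [hE, Fintype.linearCombination_apply]
      exact Submodule.sum_mem _ fun j _ => Submodule.smul_mem _ _ (he j)
    exact this
  have hrn := LinearMap.finrank_range_add_finrank_ker (bdL D ∘ₗ E)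
  rw [Module.finrank_fintype_fun_eq_card] at hrn
  have hr : Module.finrank D (LinearMap.range (bdL D ∘ₗ E)) = Fintype.card κ := by
    have : LinearMap.range (bdL D ∘ₗ E) = Submodule.span D (Set.range (fun j => bd (e j))) := by
      rw [LinearMap.range_comp, hE, Fintype.range_linearCombination, Submodule.map_span,
        ← Set.range_comp]
      rfl
    rw [this, ← hspan]
    exact finrank_span_eq_card hli
  have hker : Module.finrank D (LinearMap.ker (bdL D ∘ₗ E)) ≤ Fintype.card κ' := by
    have h1 : (LinearMap.ker (bdL D ∘ₗ E)).map E ≤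
        Submodule.span D (Set.range ((fun j => bd (e' j)) ∘ f')) := by
      rintro _ ⟨x, hx, rfl⟩
      have hx' : bd (E x) = 0 := hx
      obtain ⟨y, hy, hy'⟩ := hex (E x) ((chD_iff G t k _).mpr (hEm x)) (fun τ => by rw [hx']; rfl)
      have hy2 : E x = bd y := funext hy'
      rw [hspan', hy2, ra_sum_e he' he0' ((chD_iff G t (k + 1) y).mp hy), ← bdL_apply, map_sum]
      refine Submodule.sum_mem _ fun j _ => ?_
      rw [map_smul]
      exact Submodule.smul_mem _ _ (Submodule.subset_span ⟨j, rfl⟩)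
    have h2 : Module.finrank D ((LinearMap.ker (bdL D ∘ₗ E)).map E) =
        Module.finrank D (LinearMap.ker (bdL D ∘ₗ E)) :=
      (LinearEquiv.finrank_eq (Submodule.equivMapOfInjective E hEi _)).symm
    rw [← h2, ← finrank_span_eq_card hli']
    exact Submodule.finrank_mono h1
  omega

end SingerRA
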