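import Mathlib
import Pool.Agent.Lib_MP_394d50_all.RAlg
import Pool.Agent.Lib_MP_394d50_gt.BBetti

/-!
# Part R: the finite level
-/

namespace SingerRA

section fin

variable {V : Type} [Fintype V] [DecidableEq V] {Q : Type} [Group Q]

omit [Fintype V] in
theorem ra_al_aux (al : Multiplicative (V → ZMod 2) →* MulAut Q) (t : V → Q)
    (hal : ∀ u v, al (Multiplicative.ofAdd (Pi.single v 1)) (t u) =
      if u = v then (t u)⁻¹ else t u) (S : Finset V) (u : V) :
    al (Multiplicative.ofAdd (∑ v ∈ S, (Pi.single v 1 : V → ZMod 2))) (t u) =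
      if u ∈ S then (t u)⁻¹ else t u := by
  induction S using Finset.induction_on with
  | empty =>
    rw [Finset.sum_empty, ofAdd_zero, map_one, if_neg (Finset.notMem_empty u)]
    rfl
  | insert v S hv ih =>
    rw [Finset.sum_insert hv, ofAdd_add, map_mul, MulAut.mul_apply, ih]
    by_cases hu : u ∈ S
    · have huv : u ≠ v := by
        rintro rfl
        exact hv hu
      rw [if_pos hu, if_pos (Finset.mem_insert_of_mem hu), map_inv, hal, if_neg huv]
    · rw [if_neg hu, hal]
      by_cases huv : u = v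
      · rw [if_pos huv, if_pos (by rw [huv]; exact Finset.mem_insert_self v S)]
      · rw [if_neg huv, if_neg]
        intro h
        exact hu ((Finset.mem_insert.mp h).resolve_left huv)

theorem ra_al (al : Multiplicative (V → ZMod 2) →* MulAut Q) (t : V → Q)
    (hal : ∀ u v, al (Multiplicative.ofAdd (Pi.single v 1)) (t u) =
      if u = v then (t u)⁻¹ else t u) (χ : Multiplicative (V → ZMod 2)) (u : V) :
    al χ (t u) = if χ.toAdd u = 0 then t u else (t u)⁻¹ := by
  have h1 : χ = Multiplicative.ofAdd (∑ v ∈ Finset.univ.filter (fun v => χ.toAdd v ≠ 0),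
      (Pi.single v 1 : V → ZMod 2)) := by
    apply Multiplicative.toAdd.injective
    rw [toAdd_ofAdd]
    funext w
    rw [Finset.sum_apply]
    by_cases hw : χ.toAdd w = 0
    · rw [hw]
      symm
      apply Finset.sum_eq_zero
      intro v hv
      have hne : w ≠ v := by
        rintro rfl
        exact (Finset.mem_filter.mp hv).2 hw
      rw [Pi.single_apply, if_neg hne]
    · rw [ra_zm2_ne hw, Finset.sum_eq_single w]
      · rw [Pi.single_eq_same]
      · intro v _ hv
        rw [Pi.single_apply, if_neg (Ne.symm hv)]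
      · intro h
        exact absurd (Finset.mem_filter.mpr ⟨Finset.mem_univ w, hw⟩) h
  have h2 := ra_al_aux al t hal (Finset.univ.filter (fun v => χ.toAdd v ≠ 0)) u
  rw [← h1] at h2
  rw [h2]
  by_cases hu : χ.toAdd u = 0
  · rw [if_pos hu, if_neg]
    intro h
    exact (Finset.mem_filter.mp h).2 hu
  · rw [if_neg hu, if_pos (Finset.mem_filter.mpr ⟨Finset.mem_univ u, hu⟩)]

/-- The marking of `Q ⋊ (ℤ/2)^V`. -/
def mkSQ (G : SimpleGraph V) (al : Multiplicative (V → ZMod 2) →* MulAut Q) (t : V → Q)
    (hal : ∀ u v, al (Multiplicative.ofAdd (Pi.single v 1)) (t u) =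
      if u = v then (t u)⁻¹ else t u) (comm : ∀ u v, G.Adj u v → t u * t v = t v * t u) :
    Mk G (SQ al) where
  a := aQ al t
  lab := SemidirectProduct.rightHom
  sq := fun v => by
    refine SemidirectProduct.ext ?_ ?_
    · show t v * al (Multiplicative.ofAdd (Pi.single v 1)) (t v) = 1
      rw [hal, if_pos rfl, mul_inv_cancel]
    · show (Multiplicative.ofAdd (Pi.single v 1 : V → ZMod 2) *
        Multiplicative.ofAdd (Pi.single v 1 : V → ZMod 2)) = 1
      have : (Pi.single v 1 : V → ZMod 2) + (Pi.single v 1 : V → ZMod 2) = 0 := by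
        funext v
        exact CharTwo.add_self_eq_zero _
      exact this
  comm := fun u v h => by
    refine SemidirectProduct.ext ?_ ?_
    · show t u * al (Multiplicative.ofAdd (Pi.single u 1)) (t v) =
        t v * al (Multiplicative.ofAdd (Pi.single v 1)) (t u)
      rw [hal, hal, if_neg h.ne, if_neg h.ne.symm, comm u v h]
    · exact mul_comm _ _
  lab_a := fun v => rfl

theorem toA_mem (G : SimpleGraph V) (k : ℕ) (al : Multiplicative (V → ZMod 2) →* MulAut Q)
    (t : V → Q) (hal : ∀ u v, al (Multiplicative.ofAdd (Pi.single v 1)) (t u) =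
      if u = v then (t u)⁻¹ else t u) (z : Finset V → QV V → MonoidAlgebra (ZMod 2) Q)
    (hz : ChR G (fun v => gN (t v)) k z) : toA al z ∈ IC (aQ al t) (cliq G) k := by
  refine ⟨?_, ?_⟩
  · intro σ hσ
    funext x
    show (z σ x.right.toAdd).coeff x.left = 0
    rw [hz.1 σ hσ]
    rfl
  · intro σ v hv x
    show (z σ (x * aQ al t v).right.toAdd).coeff (x * aQ al t v).left =
      (z σ x.right.toAdd).coeff x.left
    have e1 : (x * aQ al t v).right.toAdd = x.right.toAdd + ev v := rfl
    have e2 : (x * aQ al t v).left = x.left * al x.right (t v) := rfl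
    rw [e1, e2, ra_al al t hal]
    by_cases h : x.right.toAdd v = 0
    · rw [if_pos h, hz.2 σ v hv _ h]
      show (z σ x.right.toAdd * MonoidAlgebra.single (t v) 1).coeff (x.left * t v) = _
      rw [MonoidAlgebra.coeff_mul_single_apply, mul_inv_cancel_right, mul_one]
    · rw [if_neg h]
      have h1 := hz.2 σ v hv (x.right.toAdd + ev v) (ra_add_ev_self h)
      rw [add_ev_ev] at h1
      rw [h1]
      show _ = (z σ (x.right.toAdd + ev v) * MonoidAlgebra.single (t v) 1).coeff x.left
      rw [MonoidAlgebra.coeff_mul_single_apply, mul_one]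

theorem ra_bd_zero {R : Type} [Ring R] {G : SimpleGraph V} {t : V → R} {k : ℕ}
    {z : Finset V → QV V → R} (hz : ChR G t k z) (τ : Finset V) (hτ : τ ∉ cliq G) :
    bd z τ = 0 := by
  unfold bd
  apply Finset.sum_eq_zero
  intro v _
  apply hz.1
  rintro ⟨h1, _⟩
  exact hτ (Set.Pairwise.mono (Finset.coe_subset.mpr (Finset.subset_insert v τ)) h1)

theorem dT_toA (G : SimpleGraph V) (al : Multiplicative (V → ZMod 2) →* MulAut Q)
    (z : Finset V → QV V → MonoidAlgebra (ZMod 2) Q) (τ : Finset V) (hτ : τ ∈ cliq G)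
    (x : SQ al) : dT (SQ al) (cliq G) (toA al z) τ x = (bd z τ x.right.toAdd).coeff x.left := by
  have h1 : dT (SQ al) (cliq G) (toA al z) τ = ∑ v ∈ Finset.univ \ τ, toA al z (insert v τ) := by
    unfold dT
    exact if_pos hτ
  rw [h1, Finset.sum_apply, ra_bd_apply, MonoidAlgebra.coeff_sum, Finset.sum_apply']
  rfl

end fin

section rank

variable {V : Type} [Fintype V] [DecidableEq V] {N Q : Type} [Group N] [Group Q]

theorem ra_mapDomain_inj (π : N →* Q) (F : Finset N) (hF : Set.InjOn π F)
    (x : MonoidAlgebra (ZMod 2) N) (hx : x.coeff.support ⊆ F)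
    (h : MonoidAlgebra.mapDomainRingHom (ZMod 2) π x = 0) : x = 0 := by
  have h1 : Finsupp.mapDomain π x.coeff = 0 := congrArg MonoidAlgebra.coeff h
  have h2 : x.coeff = 0 := Finsupp.mapDomain_injOn (M := ZMod 2) (F : Set N) hF
    (x₁ := x.coeff) (x₂ := 0) (Finset.coe_subset.mpr hx)
    (by
      show ((0 : N →₀ ZMod 2).support : Set N) ⊆ (F : Set N)
      rw [Finsupp.support_zero, Finset.coe_empty]
      exact Set.empty_subset _)
    (by
      show Finsupp.mapDomain π x.coeff = Finsupp.mapDomain π 0
      rw [h1, Finsupp.mapDomain_zero])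
  exact MonoidAlgebra.coeff_injective h2

theorem ra_map_gN (π : N →* Q) (g : N) :
    MonoidAlgebra.mapDomainRingHom (ZMod 2) π (gN g) = gN (π g) := by
  unfold gN
  rw [MonoidAlgebra.of_apply, MonoidAlgebra.of_apply, MonoidAlgebra.mapDomainRingHom_apply,
    MonoidAlgebra.mapDomain_single]

theorem ra_rk (G : SimpleGraph V) (k : ℕ) (t : V → N) (π : N →* Q) [Finite Q]
    (al : Multiplicative (V → ZMod 2) →* MulAut Q)
    (hal : ∀ u v, al (Multiplicative.ofAdd (Pi.single v 1)) (π (t u)) =
      if u = v then (π (t u))⁻¹ else π (t u))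
    {κ : Type} [Fintype κ] (f : κ → Finset V → QV V → MonoidAlgebra (ZMod 2) N)
    (hf : ∀ i, ChR G (fun v => gN (t v)) k (f i)) (F B S : Finset N)
    (hS : ∀ i τ χ, (bd (f i) τ χ).coeff.support ⊆ S) (hπ : Set.InjOn π F)
    (hB : ∀ b ∈ B, ∀ s ∈ S, b * s ∈ F) {D : Type} [DivisionRing D] [Algebra (ZMod 2) D]
    (ι : MonoidAlgebra (ZMod 2) N →+* D) (hι : Function.Injective ι)
    (hli : LinearIndependent D (fun i => (fun τ χ => ι (bd (f i) τ χ) : Finset V → QV V → D))) :
    (Fintype.card κ * B.card : ℤ) ≤ rk (aQ al (fun v => π (t v))) (cliq G) k := by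
  classical
  set φ := MonoidAlgebra.mapDomainRingHom (ZMod 2) π with hφ
  have hch : ∀ p : κ × B, ChR G (fun v => gN (t v)) k (fun σ χ => gN (p.2 : N) * f p.1 σ χ) := by
    intro p
    exact (ChS G (fun v => gN (t v)) k).smul_mem (gN (p.2 : N)) (hf p.1)
  have hch' : ∀ p : κ × B, ChR G (fun v => gN (π (t v))) k
      (fun σ χ => φ (gN (p.2 : N) * f p.1 σ χ)) := by
    intro p
    have h := (hch p).map φ
    have e : (fun v => φ (gN (t v))) = fun v => gN (π (t v)) := by
      funext v
      exact ra_map_gN π (t v)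
    rw [e] at h
    exact h
  set w : κ × B → ((IC (aQ al (fun v => π (t v))) (cliq G) k).map (dT (SQ al) (cliq G))) :=
    fun p => ⟨dT (SQ al) (cliq G) (toA al (fun σ χ => φ (gN (p.2 : N) * f p.1 σ χ))),
      Submodule.mem_map_of_mem (toA_mem G k al _ hal _ (hch' p))⟩ with hw
  have hlw : LinearIndependent (ZMod 2) w := by
    apply LinearIndependent.of_comp (Submodule.subtype _)
    rw [Fintype.linearIndependent_iff]
    intro g hg
    have key : ∀ τ χ, ∑ p : κ × B, g p • (gN (p.2 : N) * bd (f p.1) τ χ) = 0 := by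
      intro τ χ
      by_cases hτ : τ ∈ cliq G
      · apply ra_mapDomain_inj π F hπ
        · intro n hn
          rw [MonoidAlgebra.coeff_sum] at hn
          obtain ⟨p, _, hp⟩ := Finset.mem_biUnion.mp (Finsupp.support_finsetSum hn)
          have h1 : n ∈ (gN (p.2 : N) * bd (f p.1) τ χ).coeff.support := by
            rw [MonoidAlgebra.coeff_smul] at hp
            exact Finsupp.support_smul hp
          have h2 := MonoidAlgebra.support_coeff_single_mul_subset (bd (f p.1) τ χ) (1 : ZMod 2)
            (p.2 : N) h1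
          obtain ⟨s, hs, rfl⟩ := Finset.mem_image.mp h2
          exact hB p.2 p.2.2 s (hS p.1 τ χ hs)
        · apply MonoidAlgebra.coeff_injective
          ext h
          have h1 := congrFun (congrFun hg τ) (⟨h, Multiplicative.ofAdd χ⟩ : SQ al)
          rw [Finset.sum_apply, Finset.sum_apply] at h1
          rw [map_sum, MonoidAlgebra.coeff_sum, Finsupp.finsetSum_apply]
          refine Eq.trans (Finset.sum_congr rfl fun p _ => ?_) h1
          show _ = g p • (dT (SQ al) (cliq G) (toA al (fun σ χ => φ (gN (p.2 : N) * f p.1 σ χ)))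
            τ (⟨h, Multiplicative.ofAdd χ⟩ : SQ al))
          rw [dT_toA G al _ τ hτ, ra_bd_map (fun σ χ => gN (p.2 : N) * f p.1 σ χ) φ]
          have e1 : bd (fun σ χ => gN (p.2 : N) * f p.1 σ χ) τ χ =
              gN (p.2 : N) * bd (f p.1) τ χ := by
            rw [ra_bd_apply, ra_bd_apply, Finset.mul_sum]
          show _ = g p • (φ (bd (fun σ χ => gN (p.2 : N) * f p.1 σ χ) τ χ)).coeff h
          rw [e1]
          have e2 : φ (g p • (gN (p.2 : N) * bd (f p.1) τ χ)) =
              g p • φ (gN (p.2 : N) * bd (f p.1) τ χ) := by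
            rcases zm2_cases (g p) with hg | hg
            · rw [hg, zero_smul, zero_smul, map_zero]
            · rw [hg, one_smul, one_smul]
          rw [e2]
          rfl
      · apply Finset.sum_eq_zero
        intro p _
        rw [ra_bd_zero (hf p.1) τ hτ]
        simp
    have key2 : ∑ i, ι (∑ b : B, g (i, b) • gN (b : N)) •
        (fun τ χ => ι (bd (f i) τ χ) : Finset V → QV V → D) = 0 := by
      funext τ χ
      rw [Finset.sum_apply, Finset.sum_apply]
      have h1 := congrArg ι (key τ χ)
      rw [map_zero, Fintype.sum_prod_type, map_sum] at h1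
      refine Eq.trans (Finset.sum_congr rfl fun i _ => ?_) h1
      show ι (∑ b : B, g (i, b) • gN (b : N)) * ι (bd (f i) τ χ) = _
      rw [← map_mul, Finset.sum_mul]
      congr 1
      refine Finset.sum_congr rfl fun b _ => ?_
      rw [smul_mul_assoc]
    have key3 := Fintype.linearIndependent_iff.mp hli _ key2
    rintro ⟨i, b⟩
    have h1 : ∑ b : B, g (i, b) • gN (b : N) = 0 := hι ((key3 i).trans (map_zero ι).symm)
    have h2 := congrArg (fun x => x.coeff (b : N)) h1
    rw [MonoidAlgebra.coeff_sum, Finsupp.finsetSum_apply, Finset.sum_eq_single b] at h2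
    · have h3 : (g (i, b) • gN (b : N)).coeff (b : N) = g (i, b) := by
        show g (i, b) • (MonoidAlgebra.single (b : N) (1 : ZMod 2)).coeff (b : N) = g (i, b)
        rw [MonoidAlgebra.coeff_single, Finsupp.single_eq_same, smul_eq_mul, mul_one]
      rw [h3] at h2
      exact h2
    · intro c _ hc
      show g (i, c) • (MonoidAlgebra.single (c : N) (1 : ZMod 2)).coeff (b : N) = 0
      rw [MonoidAlgebra.coeff_single, Finsupp.single_eq_of_ne, smul_zero]
      intro h
      exact hc (Subtype.ext h.symm)
    · intro h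
      exact absurd (Finset.mem_univ b) h
  have hfin : Finite (SQ al) := by
    have : Finite (Multiplicative (V → ZMod 2)) := inferInstanceAs (Finite (V → ZMod 2))
    exact Finite.of_equiv _ SemidirectProduct.equivProd.symm
  have h := hlw.fintype_card_le_finrank
  rw [Fintype.card_prod, Fintype.card_coe] at h
  unfold rk
  exact_mod_cast h

end rank

end SingerRA
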