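import Mathlib
import Pool.Agent.Lib_MP_394d50_all.RFin
import Pool.Agent.Lib_MP_394d50_gt.ASmall

/-!
# Part R: from the exactness over a division ring containing `F₂[N]` to the small gradient
-/

namespace SingerRA

theorem ra_finite_SQ {V Q : Type} [Finite V] [Group Q] [Finite Q]
    (al : Multiplicative (V → ZMod 2) →* MulAut Q) : Finite (SQ al) := by
  have : Finite (Multiplicative (V → ZMod 2)) := inferInstanceAs (Finite (V → ZMod 2))
  exact Finite.of_equiv _ SemidirectProduct.equivProd.symm

theorem ra_card_SQ {V Q : Type} [Finite V] [Group Q] [Finite Q]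
    (al : Multiplicative (V → ZMod 2) →* MulAut Q) :
    Nat.card (SQ al) = Nat.card Q * Nat.card (Multiplicative (V → ZMod 2)) := by
  rw [Nat.card_congr SemidirectProduct.equivProd, Nat.card_prod]

theorem ra_isPGroup_SQ {V Q : Type} [Finite V] [Group Q] [Finite Q] (hQ : IsPGroup 2 Q)
    (al : Multiplicative (V → ZMod 2) →* MulAut Q) : IsPGroup 2 (SQ al) := by
  have : Fact (Nat.Prime 2) := ⟨Nat.prime_two⟩
  have : Finite (Multiplicative (V → ZMod 2)) := inferInstanceAs (Finite (V → ZMod 2))
  have := ra_finite_SQ al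
  obtain ⟨n, hn⟩ := IsPGroup.iff_card.mp hQ
  obtain ⟨m, hm⟩ := IsPGroup.iff_card.mp (isPGroup_mul V)
  refine IsPGroup.iff_card.mpr ⟨n + m, ?_⟩
  rw [ra_card_SQ, hn, hm, pow_add]

theorem ra_erase_filter {V : Type} [DecidableEq V] (σ : Finset V) (χ : QV V) (v : V)
    (hv : v ∈ σ.filter (fun u => χ u ≠ 0)) :
    σ.filter (fun u => (χ + ev v) u ≠ 0) = (σ.filter (fun u => χ u ≠ 0)).erase v := by
  have h1 : (χ + ev v) v = 0 := ra_add_ev_self (Finset.mem_filter.mp hv).2
  ext u
  rw [Finset.mem_filter, Finset.mem_erase, Finset.mem_filter]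
  by_cases huv : u = v
  · subst huv
    constructor
    · intro h
      exact absurd h1 h.2
    · intro h
      exact absurd rfl h.1
  · rw [ra_add_ev_ne huv]
    constructor
    · intro h
      exact ⟨huv, h⟩
    · intro h
      exact h.2

/-- The coordinates of a chain. -/
def raCoord {V Q : Type} [Group Q] (G : SimpleGraph V)
    (al : Multiplicative (V → ZMod 2) →* MulAut Q) (k : ℕ) :
    (Finset V → SQ al → ZMod 2) →ₗ[ZMod 2] (JJ G k × Q → ZMod 2) where
  toFun c := fun p => c p.1.1.1 ⟨p.2, Multiplicative.ofAdd p.1.1.2⟩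
  map_add' _ _ := rfl
  map_smul' _ _ := rfl

theorem ra_cdim {V Q : Type} [Fintype V] [DecidableEq V] [Group Q] [Finite Q]
    (G : SimpleGraph V) (al : Multiplicative (V → ZMod 2) →* MulAut Q) (t : V → Q) (k : ℕ) :
    cdim (aQ al t) (cliq G) k ≤ Fintype.card (JJ G k) * Nat.card Q := by
  have iQ : Fintype Q := Fintype.ofFinite Q
  have h1 : Function.Injective ((raCoord G al k).domRestrict (IC (aQ al t) (cliq G) k)) := by
    rw [← LinearMap.ker_eq_bot, LinearMap.ker_eq_bot']
    rintro ⟨c, hc⟩ h
    apply Subtype.ext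
    show c = 0
    have h0 : ∀ (j : JJ G k) (g : Q), c j.1.1 ⟨g, Multiplicative.ofAdd j.1.2⟩ = 0 := fun j g =>
      congrFun h (j, g)
    funext σ
    by_cases hσ : σ ∈ cliq G ∧ σ.card = k
    · have key : ∀ n : ℕ, ∀ x : SQ al,
          (σ.filter (fun v => x.right.toAdd v ≠ 0)).card = n → c σ x = 0 := by
        intro n
        induction n with
        | zero =>
          intro x hx
          have hx0 : ∀ v ∈ σ, x.right.toAdd v = 0 := by
            intro v hv
            by_contra h'
            have : v ∈ σ.filter (fun v => x.right.toAdd v ≠ 0) := Finset.mem_filter.mpr ⟨hv, h'⟩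
            rw [Finset.card_eq_zero.mp hx] at this
            exact Finset.notMem_empty v this
          exact h0 ⟨(σ, x.right.toAdd), hσ.1, hσ.2, hx0⟩ x.left
        | succ n ih =>
          intro x hx
          have hne : (σ.filter (fun v => x.right.toAdd v ≠ 0)).Nonempty := by
            rw [← Finset.card_pos, hx]
            exact Nat.succ_pos n
          obtain ⟨v, hv⟩ := hne
          rw [← hc.2 σ v (Finset.mem_filter.mp hv).1 x]
          apply ih
          have e1 : (x * aQ al t v).right.toAdd = x.right.toAdd + ev v := rfl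
          rw [e1, ra_erase_filter σ _ v hv, Finset.card_erase_of_mem hv, hx]
          rfl
      funext x
      exact key _ x rfl
    · exact hc.1 σ hσ
  have h2 := LinearMap.finrank_le_finrank_of_injective h1
  rw [Module.finrank_fintype_fun_eq_card, Fintype.card_prod] at h2
  unfold cdim
  rw [Nat.card_eq_fintype_card]
  exact_mod_cast h2

theorem ra_betti {V : Type} [Fintype V] [DecidableEq V] (G : SimpleGraph V) (k : ℕ)
    {N : Type} [Group N] (t : V → N) (comm : ∀ u v, G.Adj u v → t u * t v = t v * t u)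
    (hF : FolQ t) {D : Type} [DivisionRing D] [Algebra (ZMod 2) D]
    (ι : MonoidAlgebra (ZMod 2) N →+* D) (hι : Function.Injective ι) (j : N →* Dˣ)
    (hj : ∀ g, ((j g : Dˣ) : D) = ι (MonoidAlgebra.of (ZMod 2) N g))
    (h : ExD G (fun v => j (t v)) k) (ε : ℝ) (hε : 0 < ε) :
    ∃ (Q : Type) (_ : Group Q) (_ : Finite Q) (al : Multiplicative (V → ZMod 2) →* MulAut Q)
      (s : V → Q), IsPGroup 2 Q ∧
      (∀ u v, al (Multiplicative.ofAdd (Pi.single v 1)) (s u) =
        if u = v then (s u)⁻¹ else s u) ∧ (∀ u v, G.Adj u v → s u * s v = s v * s u) ∧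
      (bettiF (aQ al s) (cliq G) k : ℝ) ≤ ε * Nat.card Q := by
  classical
  have comm' : ∀ u v, G.Adj u v → gN (t u) * gN (t v) = gN (t v) * gN (t u) := by
    intro u v huv
    unfold gN
    rw [← map_mul, comm u v huv, map_mul]
  obtain ⟨e, he, he0⟩ := ra_exists_e G (fun v => gN (t v)) comm' k
  obtain ⟨e', he', he0'⟩ := ra_exists_e G (fun v => gN (t v)) comm' (k + 1)
  have hmap : ∀ (m : ℕ) (z : Finset V → QV V → MonoidAlgebra (ZMod 2) N),
      ChR G (fun v => gN (t v)) m z →
      ChR G (fun v => ((j (t v) : Dˣ) : D)) m (fun σ χ => ι (z σ χ)) := by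
    intro m z hz
    have h1 := hz.map ι
    have h2 : (fun v => ι (gN (t v))) =
        fun v => ((j (t v) : Dˣ) : D) := by
      funext v
      exact (hj (t v)).symm
    rw [h2] at h1
    exact h1
  have hbd : ∀ z : Finset V → QV V → MonoidAlgebra (ZMod 2) N,
      bd (fun σ χ => ι (z σ χ)) = fun τ χ => ι (bd z τ χ) := by
    intro z
    funext τ χ
    exact ra_bd_map z ι τ χ
  obtain ⟨κ, κ', i1, i2, f, f', hli, hli', hc⟩ := ra_ranks G (fun v => j (t v)) k h
    (fun i σ χ => ι (e i σ χ)) (fun i => hmap k (e i) (he i)) (fun i i' => by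
      rw [he0]
      split_ifs
      · exact map_one ι
      · exact map_zero ι)
    (fun i σ χ => ι (e' i σ χ)) (fun i => hmap (k + 1) (e' i) (he' i)) (fun i i' => by
      rw [he0']
      split_ifs
      · exact map_one ι
      · exact map_zero ι)
  set S : Finset N := (Finset.univ.biUnion fun i : JJ G k => Finset.univ.biUnion
      fun p : Finset V × QV V => (bd (e i) p.1 p.2).coeff.support) ∪
    (Finset.univ.biUnion fun i : JJ G (k + 1) => Finset.univ.biUnion
      fun p : Finset V × QV V => (bd (e' i) p.1 p.2).coeff.support) with hSdef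
  set c : ℕ := Fintype.card (JJ G k) with hcdef
  obtain ⟨Q, iG, iF, π, al, F, B, hQ, hal, hπ, hB, hcard⟩ := hF S (ε / (c + 1)) (by positivity)
  have comm2 : ∀ u v, G.Adj u v → π (t u) * π (t v) = π (t v) * π (t u) := by
    intro u v huv
    rw [← map_mul, comm u v huv, map_mul]
  refine ⟨Q, iG, iF, al, fun v => π (t v), hQ, hal, comm2, ?_⟩
  have r1 := ra_rk G k t π al hal (fun i => e (f i)) (fun i => he (f i)) F B S
    (by
      intro i τ χ n hn
      rw [hSdef]
      apply Finset.mem_union_left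
      rw [Finset.mem_biUnion]
      refine ⟨f i, Finset.mem_univ _, ?_⟩
      rw [Finset.mem_biUnion]
      exact ⟨(τ, χ), Finset.mem_univ _, hn⟩) hπ hB ι hι (by
      have h1 := hli
      simp only [hbd] at h1
      exact h1)
  have r2 := ra_rk G (k + 1) t π al hal (fun i => e' (f' i)) (fun i => he' (f' i)) F B S
    (by
      intro i τ χ n hn
      rw [hSdef]
      apply Finset.mem_union_right
      rw [Finset.mem_biUnion]
      refine ⟨f' i, Finset.mem_univ _, ?_⟩
      rw [Finset.mem_biUnion]
      exact ⟨(τ, χ), Finset.mem_univ _, hn⟩) hπ hB ι hι (by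
      have h1 := hli'
      simp only [hbd] at h1
      exact h1)
  have r0 : cdim (aQ al (fun v => π (t v))) (cliq G) k ≤ Fintype.card (JJ G k) * Nat.card Q :=
    ra_cdim G al (fun v => π (t v)) k
  have h3 : (bettiF (aQ al (fun v => π (t v))) (cliq G) k : ℝ) ≤
      c * Nat.card Q - (Fintype.card κ * B.card + Fintype.card κ' * B.card) := by
    unfold bettiF
    have r0' : (cdim (aQ al (fun v => π (t v))) (cliq G) k : ℝ) ≤ c * Nat.card Q := by
      exact_mod_cast r0
    have r1' : ((Fintype.card κ * B.card : ℤ) : ℝ) ≤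
        (rk (aQ al (fun v => π (t v))) (cliq G) k : ℝ) := by exact_mod_cast r1
    have r2' : ((Fintype.card κ' * B.card : ℤ) : ℝ) ≤
        (rk (aQ al (fun v => π (t v))) (cliq G) (k + 1) : ℝ) := by exact_mod_cast r2
    push_cast at r1' r2' ⊢
    linarith
  have h4 : (c : ℝ) ≤ Fintype.card κ + Fintype.card κ' := by exact_mod_cast hc
  have h5 : (0 : ℝ) ≤ B.card := by positivity
  have h6 : (c : ℝ) * B.card ≤ Fintype.card κ * B.card + Fintype.card κ' * B.card := by
    have := mul_le_mul_of_nonneg_right h4 h5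
    linarith
  have h7 : (0 : ℝ) ≤ c := by positivity
  have h8 := mul_le_mul_of_nonneg_left hcard h7
  have h9 : (0 : ℝ) ≤ Nat.card Q := by positivity
  have h10 : (c : ℝ) * (ε / (c + 1)) ≤ ε := by
    rw [← mul_div_assoc, div_le_iff₀ (by positivity)]
    nlinarith
  have h11 := mul_le_mul_of_nonneg_right h10 h9
  have h12 : (c : ℝ) * ((1 - ε / (c + 1)) * Nat.card Q) =
      c * Nat.card Q - c * (ε / (c + 1)) * Nat.card Q := by ring
  rw [h12] at h8
  linarith

theorem small_of_exD {V : Type} [Fintype V] [DecidableEq V] (G : SimpleGraph V) (k : ℕ)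
    {N : Type} [Group N] (t : V → N) (comm : ∀ u v, G.Adj u v → t u * t v = t v * t u)
    (hF : FolQ t) {D : Type} [DivisionRing D] [Algebra (ZMod 2) D]
    (ι : MonoidAlgebra (ZMod 2) N →+* D) (hι : Function.Injective ι) (j : N →* Dˣ)
    (hj : ∀ g, ((j g : Dˣ) : D) = ι (MonoidAlgebra.of (ZMod 2) N g))
    (h : ExD G (fun v => j (t v)) k) : SmallGrad k G := by
  rename_i iF iD _ _ _
  intro i1 i2 ε hε
  obtain rfl : i1 = iF := Subsingleton.elim _ _
  obtain rfl : i2 = iD := Subsingleton.elim _ _
  obtain ⟨Q, iG, iQ, al, s, hQ, hal, comm2, hb⟩ := ra_betti G k t comm hF ι hι j hj h ε hε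
  set M := mkSQ G al s hal comm2 with hM
  have hfin := ra_finite_SQ al
  have hP := ra_isPGroup_SQ hQ al
  refine ⟨SQ al, inferInstance, hfin, aQ al s, hP, M.sq, M.comm, ?_⟩
  have hPs := isPGroup_std (V := V) hP
  have : Finite (Multiplicative (V → ZMod 2)) := inferInstanceAs (Finite (V → ZMod 2))
  have hOK : OK (stdA (aQ al s)) (cliq G) := OK_of_Mk (stdMk G (aQ al s) M.sq M.comm)
  have hOK0 : OK (aQ al s) (cliq G) := OK_of_Mk M
  have h1 := bettiF_cover_real hPs
    (MonoidHom.fst (SQ al) (Multiplicative (V → ZMod 2))) Prod.fst_surjective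
    (stdA (aQ al s)) (cliq G) hOK0 hOK.sq hOK.comm k
  have hX : (0 : ℝ) < Nat.card (Multiplicative (V → ZMod 2)) := by
    have := Nat.card_pos (α := Multiplicative (V → ZMod 2))
    exact_mod_cast this
  have hSQ : (0 : ℝ) < Nat.card (SQ al) := by
    have := Nat.card_pos (α := SQ al)
    exact_mod_cast this
  have hratio : (Nat.card (SQ al × Multiplicative (V → ZMod 2)) / Nat.card (SQ al) : ℝ) =
      Nat.card (Multiplicative (V → ZMod 2)) := by
    rw [Nat.card_prod]
    push_cast
    field_simp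
  rw [hratio] at h1
  refine h1.trans ?_
  have h2 := mul_le_mul_of_nonneg_left hb hX.le
  refine h2.trans (le_of_eq ?_)
  rw [ra_card_SQ al]
  push_cast
  ring

end SingerRA
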