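import Mathlib
import Pool.Agent.Lib_MP_394d50_all.EDefs

/-!
Piece EOP (operators; about 150 lines, all elementary). `EBase.lean` has `Sop_apply`, `Sop_apply'`, `Sop_Sop`,
`Sop_comm`, `add_ev_ev`, `ev_self`, `ev_ne`.

* `mm_add_self`: `M` is a module over `ZMod 2`.
* `Sop_r0`: for `v ≠ u` the value `χ u` does not change under `χ ↦ χ + e_v`.
* `decomp`: with `m₁ = m - r0 u m` (the part on `χ u = 1`): `s_u m₁` is the part of `s_u m` on `χ u = 0`.
-/

namespace SingerRA

open scoped TensorProduct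

section

variable {V : Type} [DecidableEq V] {D : Type} [DivisionRing D] [Algebra (ZMod 2) D]

theorem mm_add_self (m : MM V D) : m + m = 0 := by
  funext χ
  have h : (2 : ZMod 2) = 0 := rfl
  have h2 := two_smul (ZMod 2) (m χ)
  rw [h, zero_smul] at h2
  exact h2.symm

theorem mm_sub (m n : MM V D) : m - n = m + n := by
  have h : n = -n := eq_neg_of_add_eq_zero_left (mm_add_self n)
  rw [sub_eq_add_neg, ← h]

theorem r0_apply (u : V) (m : MM V D) (χ : QV V) : r0 u m χ = if χ u = 0 then m χ else 0 := rfl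

theorem nm_apply (t : V → Dˣ) (u : V) (m : MM V D) : nm t u m = m + Sop t u m := rfl

theorem sym_apply (t : V → Dˣ) (u : V) (m : MM V D) : sym t u m = nm t u (r0 u m) := rfl

theorem pp_apply (t : V → Dˣ) (u : V) (m : MM V D) : pp t u m = r0 u (nm t u m) := rfl

theorem r0_r0 (u : V) (m : MM V D) : r0 u (r0 u m) = r0 u m := by
  funext χ
  rw [r0_apply, r0_apply]
  split_ifs <;> rfl

theorem r0_comm (u v : V) (m : MM V D) : r0 u (r0 v m) = r0 v (r0 u m) := by
  funext χ
  rw [r0_apply, r0_apply, r0_apply, r0_apply]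
  split_ifs <;> rfl

/-- `s_u r0 u m` is supported on `χ u = 1`. -/
theorem r0_Sop_r0 (t : V → Dˣ) (u : V) (m : MM V D) : r0 u (Sop t u (r0 u m)) = 0 := by
  funext χ
  rw [r0_apply, Sop_apply, r0_apply]
  split_ifs with h1 h2
  · exfalso
    rw [Pi.add_apply, ev_self, h1] at h2
    exact absurd h2 (by decide)
  · rw [map_zero]
    rfl
  · rfl

theorem Sop_r0 (t : V → Dˣ) {u v : V} (h : v ≠ u) (m : MM V D) :
    Sop t v (r0 u m) = r0 u (Sop t v m) := by
  funext χ
  rw [Sop_apply, r0_apply, r0_apply, Sop_apply]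
  have h3 : (χ + ev v) u = χ u := by rw [Pi.add_apply, ev_ne h.symm, add_zero]
  rw [h3]
  split_ifs
  · rfl
  · rw [map_zero]

theorem Sop_nm (t : V → Dˣ) (u : V) (m : MM V D) : Sop t u (nm t u m) = nm t u m := by
  rw [nm_apply, map_add, Sop_Sop, add_comm]

theorem nm_nm (t : V → Dˣ) (u : V) (m : MM V D) : nm t u (nm t u m) = 0 := by
  rw [nm_apply t u (nm t u m), Sop_nm, mm_add_self]

theorem nm_of_inv (t : V → Dˣ) (u : V) (m : MM V D) (h : Sop t u m = m) : nm t u m = 0 := by
  rw [nm_apply, h, mm_add_self]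

theorem Sop_sym (t : V → Dˣ) (u : V) (m : MM V D) : Sop t u (sym t u m) = sym t u m := by
  rw [sym_apply, Sop_nm]

theorem sym_of_inv (t : V → Dˣ) (u : V) (m : MM V D) (h : Sop t u m = m) : sym t u m = m := by
  funext χ
  rw [sym_apply, nm_apply, Pi.add_apply, r0_apply, Sop_apply, r0_apply]
  have h2 : (χ + ev u) u = χ u + 1 := by rw [Pi.add_apply, ev_self]
  rw [h2]
  rcases zm2_cases (χ u) with h3 | h3
  · rw [h3, if_pos rfl, if_neg (by decide), map_zero, add_zero]
  · rw [h3, if_neg (by decide), if_pos (by decide), zero_add, ← Sop_apply, h]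

/-- `sym` does not change the values at the `χ` with `χ u = 0`. -/
theorem r0_sym (t : V → Dˣ) (u : V) (m : MM V D) : r0 u (sym t u m) = r0 u m := by
  rw [sym_apply, nm_apply, map_add, r0_r0, r0_Sop_r0, add_zero]

theorem Sop_nm_adj {G : SimpleGraph V} (d : UD G D) {u v : V} (h : G.Adj u v) (m : MM V D) :
    Sop d.t v (nm d.t u m) = nm d.t u (Sop d.t v m) := by
  rw [nm_apply, nm_apply, map_add, Sop_comm d h]

theorem Sop_sym_adj {G : SimpleGraph V} (d : UD G D) {u v : V} (h : G.Adj u v) (m : MM V D) :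
    Sop d.t v (sym d.t u m) = sym d.t u (Sop d.t v m) := by
  rw [sym_apply, sym_apply, Sop_nm_adj d h, Sop_r0 d.t h.ne']

theorem decomp (t : V → Dˣ) (u : V) (m : MM V D) : m = nm t u (m - r0 u m) + pp t u m := by
  rw [pp_apply, nm_apply, nm_apply, map_add, map_sub]
  funext χ
  simp only [Pi.add_apply, Pi.sub_apply, r0_apply, Sop_apply, ev_self]
  rcases zm2_cases (χ u) with h3 | h3
  · simp only [h3, if_true, zero_add, one_ne_zero, if_false, map_zero, sub_zero, sub_self]
    have h4 := congrFun (mm_add_self (fun _ : QV V => act (th1 t u (χ + ev u)) (m (χ + ev u)))) χ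
    have h5 : act (th1 t u (χ + ev u)) (m (χ + ev u)) + act (th1 t u (χ + ev u)) (m (χ + ev u)) = 0 := h4
    rw [add_comm (m χ), ← add_assoc, h5, zero_add]
  · have h6 : (1 : ZMod 2) + 1 = 0 := rfl
    simp only [h3, h6, if_true, one_ne_zero, if_false, sub_zero, sub_self, add_zero]

theorem pp_of_inv (t : V → Dˣ) (u : V) (m : MM V D) (h : Sop t u m = m) : pp t u m = 0 := by
  rw [pp_apply, nm_of_inv t u m h, map_zero]

theorem pp_r0 (t : V → Dˣ) (u : V) (m : MM V D) : pp t u (r0 u m) = r0 u m := by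
  rw [pp_apply, nm_apply, map_add, r0_r0, r0_Sop_r0, add_zero]

theorem r0_pp (t : V → Dˣ) (u : V) (m : MM V D) : r0 u (pp t u m) = pp t u m := by
  rw [pp_apply, r0_r0]

/-- Every element which is a value of `Sop`-invariants is a norm. -/
theorem eq_nm_of_inv (t : V → Dˣ) (u : V) (m : MM V D) (h : Sop t u m = m) :
    m = nm t u (r0 u m) := by
  rw [← sym_apply, sym_of_inv t u m h]

end

end SingerRA
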