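import Mathlib
import Pool.Agent.Lib_MP_394d50_all.EDefs

/-!
Piece EREL (relations; about 200 lines). `EBase.lean` has `act_tmul`, `act_mul`, `rep_apply`.

* `act_rel`: on the generators: `act g ((a e) ⊗ b - a ⊗ (e b)) = (a g⁻¹)(g e g⁻¹) ⊗ g b - a g⁻¹ ⊗ (g e g⁻¹)(g b)`.
* `act_sub_mem`: on `a ⊗ b`: `a g⁻¹ ⊗ g b - a ⊗ b = a' ⊗ g b - a' g ⊗ b` with `a' = a g⁻¹`. Induction on `x`.
* `bal Q`: closed under multiplication by `(a e e') ⊗ b - a ⊗ (e e' b) = [(a e) e' ⊗ b - (a e) ⊗ (e' b)] +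
  [(a e) ⊗ (e' b) - a ⊗ (e (e' b))]`, under inverses by `a' = a e⁻¹`, `b' = e⁻¹ b`:
  `(a e⁻¹) ⊗ b - a ⊗ (e⁻¹ b) = a' ⊗ (e b') - (a' e) ⊗ b'` (for `e ≠ 0`).
* `rel_bot`: `⊥ ≤ bal ⊥` (the subfield `⊥` is the smallest one, `bot_le`).
* `EqF_pW`: induction on the element `w` of the subgroup `pW G A` generated by the `gen G v`, `v ∈ A`
  (`Subgroup.closure_induction`; the generators are involutions; use `th_mul`, `deg_mul`, `th_inv`, `deg_inv`).
-/

namespace SingerRA

open scoped TensorProduct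

section

variable {D : Type} [DivisionRing D] [Algebra (ZMod 2) D]

theorem act_rel (g : Dˣ) (K K' : Subfield D)
    (h : ∀ e ∈ K, ((g : Dˣ) : D) * e * ((g⁻¹ : Dˣ) : D) ∈ K') (x : TT D) (hx : x ∈ Rel K) :
    act g x ∈ Rel K' := by
  unfold Rel at hx
  induction hx using Submodule.span_induction with
  | mem x hx =>
    obtain ⟨a, b, e, he, rfl⟩ := hx
    rw [map_sub, act_tmul, act_tmul]
    refine Submodule.subset_span ⟨a * ((g⁻¹ : Dˣ) : D), (g : D) * b, _, h e he, ?_⟩
    have h1 : ((g⁻¹ : Dˣ) : D) * (g : D) = 1 := Units.inv_mul g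
    congr 2
    · calc a * e * ((g⁻¹ : Dˣ) : D) = a * 1 * e * ((g⁻¹ : Dˣ) : D) := by rw [mul_one]
        _ = a * ((g⁻¹ : Dˣ) : D) * ((g : D) * e * ((g⁻¹ : Dˣ) : D)) := by
          rw [← h1]
          simp only [mul_assoc]
    · calc (g : D) * (e * b) = (g : D) * e * 1 * b := by simp only [mul_assoc, one_mul]
        _ = (g : D) * e * ((g⁻¹ : Dˣ) : D) * ((g : D) * b) := by
          rw [← h1]
          simp only [mul_assoc]
  | zero => rw [map_zero]; exact zero_mem _
  | add x y _ _ hx hy => rw [map_add]; exact add_mem hx hy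
  | smul r x _ hx => rw [map_smul]; exact Submodule.smul_mem _ r hx

theorem act_sub_mem (g : Dˣ) (K : Subfield D) (hg : ((g : Dˣ) : D) ∈ K) (x : TT D) :
    act g x - x ∈ Rel K := by
  induction x using TensorProduct.induction_on with
  | zero => rw [map_zero, sub_zero]; exact zero_mem _
  | tmul a b =>
    rw [act_tmul]
    have h1 : ((g⁻¹ : Dˣ) : D) * (g : D) = 1 := Units.inv_mul g
    have h2 : (a * ((g⁻¹ : Dˣ) : D)) * (g : D) = a := by rw [mul_assoc, h1, mul_one]
    have h3 : (a * ((g⁻¹ : Dˣ) : D) * (g : D)) ⊗ₜ[ZMod 2] b -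
        (a * ((g⁻¹ : Dˣ) : D)) ⊗ₜ[ZMod 2] ((g : D) * b) ∈ Rel K :=
      Submodule.subset_span ⟨_, _, _, hg, rfl⟩
    rw [h2] at h3
    have h4 := neg_mem h3
    rwa [neg_sub] at h4
  | add x y hx hy =>
    rw [map_add, add_sub_add_comm]
    exact add_mem hx hy

/-- The division subring of the elements over which `Q` is balanced. -/
def bal (Q : Submodule (ZMod 2) (TT D)) : Subfield D where
  carrier := {e | ∀ a b : D, (a * e) ⊗ₜ[ZMod 2] b - a ⊗ₜ[ZMod 2] (e * b) ∈ Q}
  mul_mem' := by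
    intro e f he hf a b
    have h1 := hf (a * e) b
    have h2 := he a (f * b)
    have h3 := add_mem h1 h2
    rw [sub_add_sub_cancel] at h3
    rw [← mul_assoc, mul_assoc e f b]
    exact h3
  one_mem' := by
    intro a b
    rw [mul_one, one_mul, sub_self]
    exact zero_mem _
  add_mem' := by
    intro e f he hf a b
    rw [mul_add, add_mul, TensorProduct.add_tmul, TensorProduct.tmul_add, add_sub_add_comm]
    exact add_mem (he a b) (hf a b)
  zero_mem' := by
    intro a b
    rw [mul_zero, zero_mul, TensorProduct.zero_tmul, TensorProduct.tmul_zero, sub_self]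
    exact zero_mem _
  neg_mem' := by
    intro e he a b
    rw [mul_neg, neg_mul, TensorProduct.neg_tmul, TensorProduct.tmul_neg, ← neg_sub']
    exact neg_mem (he a b)
  inv_mem' := by
    intro e he a b
    by_cases h0 : e = 0
    · subst h0
      rw [inv_zero, mul_zero, zero_mul, TensorProduct.zero_tmul, TensorProduct.tmul_zero, sub_self]
      exact zero_mem _
    · have h1 := he (a * e⁻¹) (e⁻¹ * b)
      rw [mul_assoc, inv_mul_cancel₀ h0, mul_one, ← mul_assoc, mul_inv_cancel₀ h0, one_mul] at h1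
      have h2 := neg_mem h1
      rwa [neg_sub] at h2

theorem mem_bal (Q : Submodule (ZMod 2) (TT D)) (e : D) :
    e ∈ bal Q ↔ ∀ a b : D, (a * e) ⊗ₜ[ZMod 2] b - a ⊗ₜ[ZMod 2] (e * b) ∈ Q := Iff.rfl

theorem rel_le (Q : Submodule (ZMod 2) (TT D)) (K : Subfield D) (h : K ≤ bal Q) : Rel K ≤ Q := by
  unfold Rel
  rw [Submodule.span_le]
  rintro x ⟨a, b, e, he, rfl⟩
  exact (mem_bal Q e).1 (h he) a b

theorem rel_mono {K K' : Subfield D} (h : K ≤ K') : Rel K ≤ Rel K' := by
  unfold Rel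
  refine Submodule.span_mono ?_
  rintro x ⟨a, b, e, he, rfl⟩
  exact ⟨a, b, e, h he, rfl⟩

theorem rel_bot : Rel (⊥ : Subfield D) = ⊥ := by
  rw [eq_bot_iff]
  exact rel_le _ _ bot_le

end

section

variable {V : Type} [DecidableEq V] {D : Type} [DivisionRing D] [Algebra (ZMod 2) D]

omit [DecidableEq V] in
theorem mem_relF (E : QV V → Subfield D) (m : MM V D) : m ∈ RelF E ↔ ∀ χ, m χ ∈ Rel (E χ) := by
  unfold RelF
  rw [Submodule.mem_pi]
  exact ⟨fun h χ => h χ (Set.mem_univ _), fun h χ _ => h χ⟩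

omit [DecidableEq V] in
theorem relF_mono {E E' : QV V → Subfield D} (h : ∀ χ, E χ ≤ E' χ) : RelF E ≤ RelF E' := by
  intro m hm
  rw [mem_relF] at hm ⊢
  exact fun χ => rel_mono (h χ) (hm χ)

theorem Sop_relF (t : V → Dˣ) (A : Finset V) (E : QV V → Subfield D) (hE : EqF t A E) (v : V)
    (hv : v ∈ A) (m : MM V D) (hm : m ∈ RelF E) : Sop t v m ∈ RelF E := by
  rw [mem_relF] at hm ⊢
  intro χ
  rw [Sop_apply]
  refine act_rel _ (E (χ + ev v)) (E χ) (fun e he => ?_) _ (hm _)
  have h := hE v hv (χ + ev v) e he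
  rwa [add_ev_ev] at h

omit [DecidableEq V] in
theorem r0_relF (E : QV V → Subfield D) (u : V) (m : MM V D) (hm : m ∈ RelF E) :
    r0 u m ∈ RelF E := by
  rw [mem_relF] at hm ⊢
  intro χ
  have h1 : r0 u m χ = if χ u = 0 then m χ else 0 := rfl
  rw [h1]
  split_ifs
  · exact hm χ
  · exact zero_mem _

theorem nm_relF (t : V → Dˣ) (A : Finset V) (E : QV V → Subfield D) (hE : EqF t A E) (v : V)
    (hv : v ∈ A) (m : MM V D) (hm : m ∈ RelF E) : nm t v m ∈ RelF E := by
  exact add_mem hm (Sop_relF t A E hE v hv m hm)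

/-- An element which is invariant under `s_v` modulo the relations agrees with its symmetrisation. -/
theorem sym_sub_mem (t : V → Dˣ) (E : QV V → Subfield D) (v : V) (m : MM V D)
    (hm : Sop t v m - m ∈ RelF E) : sym t v m - m ∈ RelF E := by
  rw [mem_relF] at hm ⊢
  intro χ
  have h1 : (sym t v m - m) χ = r0 v m χ + Sop t v (r0 v m) χ - m χ := rfl
  have h2 : ∀ χ, r0 v m χ = if χ v = 0 then m χ else 0 := fun _ => rfl
  rw [h1, Sop_apply, h2, h2, Pi.add_apply χ, ev_self]
  rcases zm2_cases (χ v) with h3 | h3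
  · simp only [h3, if_true, zero_add, one_ne_zero, if_false, map_zero, add_zero, sub_self]
    exact zero_mem _
  · have h6 : (1 : ZMod 2) + 1 = 0 := rfl
    simp only [h3, h6, if_true, one_ne_zero, if_false, zero_add]
    exact hm χ

/-- The compatibility of `E` with one element of `W`. -/
private def erelP {G : SimpleGraph V} (d : UD G D) (E : QV V → Subfield D) (w : W G) : Prop :=
  ∀ (χ : QV V) (x : D), x ∈ E χ →
    ((th d w χ : Dˣ) : D) * x * (((th d w χ)⁻¹ : Dˣ) : D) ∈ E (χ + deg G w)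

omit [Algebra (ZMod 2) D] in
private theorem erelP_mul {G : SimpleGraph V} (d : UD G D) (E : QV V → Subfield D) (g g' : W G)
    (ih : erelP d E g) (ih' : erelP d E g') : erelP d E (g * g') := by
  intro χ x hx
  have h1 := ih (χ + deg G g') _ (ih' χ x hx)
  rw [th_mul, deg_mul, mul_inv_rev]
  rw [show χ + (deg G g + deg G g') = χ + deg G g' + deg G g by
    rw [add_assoc, add_comm (deg G g)]]
  simp only [Units.val_mul, mul_assoc] at h1 ⊢
  exact h1

theorem EqF_pW {G : SimpleGraph V} (d : UD G D) (A : Finset V) (E : QV V → Subfield D)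
    (hE : EqF d.t A E) (w : W G) (hw : w ∈ pW G A) (χ : QV V) (x : D) (hx : x ∈ E χ) :
    ((th d w χ : Dˣ) : D) * x * (((th d w χ)⁻¹ : Dˣ) : D) ∈ E (χ + deg G w) := by
  have key : erelP d E w ∧ erelP d E w⁻¹ := by
    unfold pW par at hw
    induction hw using Subgroup.closure_induction with
    | mem g hg =>
      obtain ⟨v, hv, rfl⟩ := hg
      rw [gen_invE, and_self]
      intro χ x hx
      rw [th_gen, deg_gen]
      exact hE v (Finset.mem_coe.1 hv) χ x hx
    | one =>
      rw [inv_one, and_self]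
      intro χ x hx
      rw [th_one, deg_one, add_zero]
      simpa using hx
    | mul g g' _ _ ih ih' =>
      rw [mul_inv_rev]
      exact ⟨erelP_mul d E g g' ih.1 ih'.1, erelP_mul d E g'⁻¹ g⁻¹ ih'.2 ih.2⟩
    | inv g _ ih =>
      rw [inv_inv]
      exact ⟨ih.2, ih.1⟩
  exact key.1 χ x hx

theorem rep_relF {G : SimpleGraph V} (d : UD G D) (A : Finset V) (E : QV V → Subfield D)
    (hE : EqF d.t A E) (w : W G) (hw : w ∈ pW G A) (m : MM V D) (hm : m ∈ RelF E) :
    rep d w m ∈ RelF E := by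
  rw [mem_relF] at hm ⊢
  intro χ
  have h1 : χ = (χ + deg G w) + deg G w := by
    rw [add_assoc]
    have h2 : deg G w + deg G w = 0 := by
      funext u
      exact CharTwo.add_self_eq_zero _
    rw [h2, add_zero]
  rw [h1, rep_apply]
  exact act_rel _ _ _ (fun e he => EqF_pW d A E hE w hw _ e he) _ (hm _)

end

end SingerRA
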