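import Mathlib
import Pool.Agent.Lib_MP_394d50_all.EDefs
import Pool.Agent.Lib_MP_394d50_all.ERel

/-!
Piece EEXP: properties of the family `E' = EX d A u E` (about 120 lines).

* `le_EX`: `Subfield.subset_closure`.
* `EqF_EX`: let `v ∈ A.erase u`, `g = th1 d.t v χ`. The map `x ↦ g x g⁻¹` is a ring automorphism of `D`, so it suffices that the generators of
  `EX χ` are mapped into `EX (χ + ev v)` (`Subfield.closure_le` with the comap `Subfield.comap` along the conjugation as a ring
  homomorphism): `E χ` by `hE`; for `k ∈ KK`: `g · th d k χ · g⁻¹ = th d (s_v k s_v) (χ + ev v)` (`th_mul`, `th_gen`, `deg k = 0`,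
  `th1_add_self`), and `s_v k s_v ∈ KK`: conjugation by `s_v ∈ pW G (A.erase u)` maps `conjU` to itself, hence its closure, and
  `deg` is unchanged (`deg_mul`, `ev v + 0 + ev v = 0`).
* `EX_le`: by `Subfield.closure_le`: `E χ ≤ S.F A ≤ S.F (A.erase u)` (`S.F_mono`); for `k ∈ KK`: `th k χ ∈ S.F (A.erase u)` by
  `S.gen_mem` (`th_mem`) once `(S.v (A.erase u)).triv (th k χ)`. More generally for `k` in the closure of `conjU` and every `χ`:
  induction: `triv` is closed under products and inverses (lemmas on `PV`), `th_mul`; for a conjugate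
  `w u w⁻¹`: `th (w u w⁻¹) χ = th w (χ + deg w + ev u) * th u (χ + deg w) * th w⁻¹ χ`; `th u _ = (t u)^{±1}` is trivial by `S.v_t`
  (`u ∉ A.erase u`); `th w (χ' + ev u) = th w χ'` for `w ∈ pW G (A.erase u)` (closure induction: `th1 t v` does not change
  under `+ ev u` for `v ≠ u`), and `th w (χ + deg w) * th w⁻¹ χ = th 1 χ = 1`; a conjugate `a b c` of a trivial element `b` with
  `a c = 1` is trivial (`v.mul_left`, `v.mul_right`).
-/

namespace SingerRA

variable {V : Type} [DecidableEq V] {G : SimpleGraph V} {D : Type} [DivisionRing D]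

theorem le_EX (d : UD G D) (A : Finset V) (u : V) (E : QV V → Subfield D) (χ : QV V) :
    E χ ≤ EX d A u E χ := by
  intro x hx
  exact Subfield.subset_closure (Or.inl hx)

/-- conjugation by a unit -/
private def eexp_conj (g : Dˣ) : D →+* D where
  toFun x := (g : D) * x * ((g⁻¹ : Dˣ) : D)
  map_one' := by simp
  map_mul' x y := by
    rw [mul_assoc ((g : D) * x), ← mul_assoc ((g⁻¹ : Dˣ) : D), ← mul_assoc ((g⁻¹ : Dˣ) : D),
      Units.inv_mul, one_mul]
    simp only [mul_assoc]
  map_zero' := by simp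
  map_add' x y := by rw [mul_add, add_mul]

private theorem eexp_gen_mem (A : Finset V) {v : V} (hv : v ∈ A) : gen G v ∈ pW G A :=
  Subgroup.subset_closure ⟨v, hv, rfl⟩

/-- conjugation by `s_v` preserves `KK` -/
private theorem eexp_KK (A : Finset V) (u v : V) (hv : v ∈ A.erase u) (k : W G)
    (hk : k ∈ KK G A u) : gen G v * k * gen G v ∈ KK G A u := by
  obtain ⟨h1, h2⟩ := hk
  refine ⟨?_, ?_⟩
  · have h3 : Subgroup.closure (conjU G A u) ≤
        (Subgroup.closure (conjU G A u)).comap (MulAut.conj (gen G v)).toMonoidHom := by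
      rw [Subgroup.closure_le]
      rintro g ⟨w, hw, rfl⟩
      refine Subgroup.subset_closure ⟨gen G v * w, mul_mem (eexp_gen_mem _ hv) hw, ?_⟩
      simp [MulAut.conj_apply, mul_assoc]
    have h4 := h3 h1
    rw [Subgroup.mem_comap] at h4
    have h5 : (MulAut.conj (gen G v)).toMonoidHom k = gen G v * k * gen G v := by
      simp only [MulEquiv.toMonoidHom_eq_coe, MonoidHom.coe_coe, MulAut.conj_apply]
      rw [gen_invE]
    rw [h5] at h4
    exact h4
  · rw [deg_mul, deg_mul, h2, deg_gen, add_zero, ev_add_ev]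

theorem EqF_EX (d : UD G D) (A : Finset V) (u : V) (E : QV V → Subfield D) (hE : EqF d.t A E) :
    EqF d.t (A.erase u) (EX d A u E) := by
  intro v hv χ x hx
  have hvA : v ∈ A := Finset.mem_of_mem_erase hv
  have key : EX d A u E χ ≤ (EX d A u E (χ + ev v)).comap (eexp_conj (th1 d.t v χ)) := by
    unfold EX
    rw [Subfield.closure_le]
    rintro y (hy | ⟨k, hk, rfl⟩)
    · exact Subfield.subset_closure (Or.inl (hE v hvA χ y hy))
    · refine Subfield.subset_closure (Or.inr ⟨gen G v * k * gen G v, eexp_KK A u v hv k hk, ?_⟩)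
      show ((th1 d.t v χ : Dˣ) : D) * ((th d k χ : Dˣ) : D) * (((th1 d.t v χ)⁻¹ : Dˣ) : D) = _
      rw [th_mul, th_mul, th_gen, th_gen, deg_gen, add_ev_ev, hk.2, add_zero, th1_add_self,
        Units.val_mul, Units.val_mul]
  exact key hx

private theorem eexp_one (v : PV D) : v.triv 1 := by
  have h : v.le 1 1 := by
    rcases v.total 1 1 with h | h <;> exact h
  exact ⟨h, h⟩

private theorem eexp_mul (v : PV D) {a b : D} (ha : v.triv a) (hb : v.triv b) :
    v.triv (a * b) := by
  refine ⟨?_, ?_⟩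
  · have h := v.mul_left 1 b a hb.1
    rw [mul_one] at h
    exact v.trans _ _ _ ha.1 h
  · have h := v.mul_left b 1 a hb.2
    rw [mul_one] at h
    exact v.trans _ _ _ h ha.2

private theorem eexp_inv (v : PV D) (g : Dˣ) (hg : v.triv ((g : Dˣ) : D)) :
    v.triv ((g⁻¹ : Dˣ) : D) := by
  refine ⟨?_, ?_⟩
  · have h := v.mul_left _ _ ((g⁻¹ : Dˣ) : D) hg.2
    rw [Units.inv_mul, mul_one] at h
    exact h
  · have h := v.mul_left _ _ ((g⁻¹ : Dˣ) : D) hg.1
    rw [Units.inv_mul, mul_one] at h
    exact h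

private theorem eexp_conj_triv (v : PV D) {a b c : D} (hac : a * c = 1) (hb : v.triv b) :
    v.triv (a * b * c) := by
  refine ⟨?_, ?_⟩
  · have h := v.mul_right _ _ c (v.mul_left _ _ a hb.1)
    rw [mul_one, hac] at h
    exact h
  · have h := v.mul_right _ _ c (v.mul_left _ _ a hb.2)
    rw [mul_one, hac] at h
    exact h

/-- `th w` does not depend on the coordinate `u` for `w ∈ W_{A ∖ u}` -/
private theorem eexp_th_ev (d : UD G D) (A : Finset V) (u : V) (w : W G)
    (hw : w ∈ pW G (A.erase u)) : ∀ χ, th d w (χ + ev u) = th d w χ := by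
  induction hw using Subgroup.closure_induction with
  | mem x hx =>
    obtain ⟨v, hv, rfl⟩ := hx
    intro χ
    have hne : v ≠ u := Finset.ne_of_mem_erase hv
    rw [th_gen, th_gen, th1_add_ne d.t hne]
  | one => intro χ; rw [th_one, th_one]
  | mul x y _ _ hx hy =>
    intro χ
    rw [th_mul, th_mul, hy, add_right_comm, hx]
  | inv x _ hx =>
    intro χ
    rw [th_inv, th_inv, add_right_comm, hx]

private theorem eexp_triv (S : Sys G D) (A : Finset V) (u : V) (k : W G)
    (hk : k ∈ Subgroup.closure (conjU G A u)) :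
    ∀ χ, (S.v (A.erase u)).triv ((th S.toUD k χ : Dˣ) : D) := by
  induction hk using Subgroup.closure_induction with
  | mem x hx =>
    obtain ⟨w, hw, rfl⟩ := hx
    intro χ
    have h0 : ∀ χ' : QV V, (S.v (A.erase u)).triv ((th1 S.t u χ' : Dˣ) : D) := by
      intro χ'
      have h1 := S.v_t (A.erase u) u (Finset.notMem_erase u A)
      unfold th1
      split_ifs
      · exact eexp_inv _ _ h1
      · exact h1
    rw [th_mul, th_mul, th_gen, deg_gen, eexp_th_ev S.toUD A u w hw, Units.val_mul, Units.val_mul]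
    refine eexp_conj_triv _ ?_ (h0 _)
    rw [← Units.val_mul, ← th_mul, mul_inv_cancel, th_one, Units.val_one]
  | one => intro χ; rw [th_one, Units.val_one]; exact eexp_one _
  | mul x y _ _ hx hy =>
    intro χ
    rw [th_mul, Units.val_mul]
    exact eexp_mul _ (hx _) (hy _)
  | inv x _ hx =>
    intro χ
    rw [th_inv]
    exact eexp_inv _ _ (hx _)

theorem EX_le (S : Sys G D) (A : Finset V) (u : V) (E : QV V → Subfield D)
    (hF : ∀ χ, E χ ≤ S.F A) (χ : QV V) : EX S.toUD A u E χ ≤ S.F (A.erase u) := by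
  unfold EX
  rw [Subfield.closure_le]
  rintro y (hy | ⟨k, hk, rfl⟩)
  · exact S.F_mono A (A.erase u) (Finset.erase_subset u A) (hF χ hy)
  · exact S.gen_mem _ _ (th_mem _ _ _) (eexp_triv S A u k hk.1 χ)

end SingerRA
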