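import Mathlib
import Pool.Agent.Lib_MP_394d50_all.EDefs

/-!
Piece EGENC: coinvariants of a parabolic subgroup (about 60 lines).

Let `P` be the submodule of all `∑_{v ∈ C} (m v - s_v (m v))`, `m v ∈ U` (it is a submodule; or take
`⨆ v ∈ C, U.map (id - s_v)`). Show: for `c ∈ pW G C` and `m ∈ U`: `rep d c m ∈ U` and `m - rep d c m ∈ P`. Closure induction on `c`
(for all `m ∈ U`): generators: `rep_gen`; products: `m - rep (c c') m = (m - rep c' m) + (m' - rep c m')`, `m' = rep c' m ∈ U`;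
inverses: `m - rep c⁻¹ m = -(m'' - rep c m'')`, `m'' = rep c⁻¹ m`, which needs `rep c⁻¹ m ∈ U`: the generators are
involutions (`gen_invE`), so it is easier to use the induction `W_ind`-like on words: `Subgroup.closure_induction` with the set closed
under inverses, or `Submonoid.closure` (`Subgroup.closure_toSubmonoid`). Then the span is contained in `P`.
-/

namespace SingerRA

/-- The sums of the `m v - s_v (m v)`. -/
private def genc_P {V : Type} [DecidableEq V] {D : Type} [DivisionRing D]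
    [Algebra (ZMod 2) D] (t : V → Dˣ) (C : Finset V) (U : Submodule (ZMod 2) (MM V D)) :
    Submodule (ZMod 2) (MM V D) where
  carrier := {x | ∃ m : V → MM V D, (∀ v, m v ∈ U) ∧ x = ∑ v ∈ C, (m v - Sop t v (m v))}
  zero_mem' := ⟨fun _ => 0, fun _ => U.zero_mem, by simp⟩
  add_mem' := by
    rintro x y ⟨m, hm, rfl⟩ ⟨n, hn, rfl⟩
    refine ⟨fun v => m v + n v, fun v => U.add_mem (hm v) (hn v), ?_⟩
    rw [← Finset.sum_add_distrib]
    refine Finset.sum_congr rfl fun v _ => ?_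
    rw [map_add]
    exact sub_add_sub_comm _ _ _ _
  smul_mem' := by
    rintro r x ⟨m, hm, rfl⟩
    refine ⟨fun v => r • m v, fun v => U.smul_mem r (hm v), ?_⟩
    rw [Finset.smul_sum]
    refine Finset.sum_congr rfl fun v _ => ?_
    rw [map_smul, smul_sub]

private theorem genc_key {V : Type} [DecidableEq V] {G : SimpleGraph V} {D : Type}
    [DivisionRing D] [Algebra (ZMod 2) D] (d : UD G D) (C : Finset V)
    (U : Submodule (ZMod 2) (MM V D)) (hU : ∀ v ∈ C, ∀ m ∈ U, Sop d.t v m ∈ U) (c : W G)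
    (hc : c ∈ pW G C) :
    (∀ m ∈ U, rep d c m ∈ U ∧ m - rep d c m ∈ genc_P d.t C U) ∧
      ∀ m ∈ U, rep d c⁻¹ m ∈ U ∧ m - rep d c⁻¹ m ∈ genc_P d.t C U := by
  have hmul : ∀ a b : W G, (∀ m ∈ U, rep d a m ∈ U ∧ m - rep d a m ∈ genc_P d.t C U) →
      (∀ m ∈ U, rep d b m ∈ U ∧ m - rep d b m ∈ genc_P d.t C U) →
      ∀ m ∈ U, rep d (a * b) m ∈ U ∧ m - rep d (a * b) m ∈ genc_P d.t C U := by
    intro a b ha hb m hm
    obtain ⟨h1, h2⟩ := hb m hm
    obtain ⟨h3, h4⟩ := ha _ h1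
    rw [rep_mul]
    refine ⟨h3, ?_⟩
    have e : m - rep d a (rep d b m) = (m - rep d b m) + (rep d b m - rep d a (rep d b m)) := by
      abel
    rw [e]
    exact Submodule.add_mem _ h2 h4
  have hgen : ∀ v ∈ C, ∀ m ∈ U, rep d (gen G v) m ∈ U ∧
      m - rep d (gen G v) m ∈ genc_P d.t C U := by
    intro v hv m hm
    rw [rep_gen]
    refine ⟨hU v hv m hm, fun u => if u = v then m else 0, fun u => ?_, ?_⟩
    · show (if u = v then m else 0) ∈ U
      split_ifs
      · exact hm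
      · exact U.zero_mem
    · rw [Finset.sum_eq_single_of_mem v hv]
      · simp
      · intro u _ huv
        simp [huv]
  unfold pW par at hc
  induction hc using Subgroup.closure_induction with
  | mem x hx =>
    obtain ⟨v, hv, rfl⟩ := hx
    have hv' : v ∈ C := hv
    refine ⟨hgen v hv', ?_⟩
    rw [gen_invE]
    exact hgen v hv'
  | one =>
    have h1 : ∀ m ∈ U, rep d (1 : W G) m ∈ U ∧ m - rep d (1 : W G) m ∈ genc_P d.t C U := by
      intro m hm
      rw [rep_one, sub_self]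
      exact ⟨hm, Submodule.zero_mem _⟩
    refine ⟨h1, ?_⟩
    rw [inv_one]
    exact h1
  | mul x y _ _ hx hy =>
    refine ⟨hmul x y hx.1 hy.1, ?_⟩
    rw [mul_inv_rev]
    exact hmul _ _ hy.2 hx.2
  | inv x _ hx =>
    refine ⟨hx.2, ?_⟩
    rw [inv_inv]
    exact hx.1

theorem genc {V : Type} [DecidableEq V] {G : SimpleGraph V} {D : Type} [DivisionRing D]
    [Algebra (ZMod 2) D] (d : UD G D) (C : Finset V) (U : Submodule (ZMod 2) (MM V D))
    (hU : ∀ v ∈ C, ∀ m ∈ U, Sop d.t v m ∈ U) (x : MM V D)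
    (hx : x ∈ Submodule.span (ZMod 2) {x | ∃ c ∈ pW G C, ∃ m ∈ U, x = m - rep d c m}) :
    ∃ m : V → MM V D, (∀ v, m v ∈ U) ∧ x = ∑ v ∈ C, (m v - Sop d.t v (m v)) := by
  have h : Submodule.span (ZMod 2) {x | ∃ c ∈ pW G C, ∃ m ∈ U, x = m - rep d c m} ≤
      genc_P d.t C U := by
    rw [Submodule.span_le]
    rintro y ⟨c, hc, m, hm, rfl⟩
    exact ((genc_key d C U hU c hc).1 m hm).2
  exact h hx

theorem rep_mem_of_pW {V : Type} [DecidableEq V] {G : SimpleGraph V} {D : Type} [DivisionRing D]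
    [Algebra (ZMod 2) D] (d : UD G D) (C : Finset V) (U : Submodule (ZMod 2) (MM V D))
    (hU : ∀ v ∈ C, ∀ m ∈ U, Sop d.t v m ∈ U) (c : W G) (hc : c ∈ pW G C) (m : MM V D)
    (hm : m ∈ U) : rep d c m ∈ U :=
  ((genc_key d C U hU c hc).1 m hm).1

end SingerRA
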