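import Mathlib
import Pool.Agent.Lib_MP_394d50_all.EDefs
import Pool.Agent.Lib_MP_394d50_all.EOp
import Pool.Agent.Lib_MP_394d50_all.ERel

/-!
Piece EKER: the quotient by the invariants of the conjugates of `u` (about 200 lines).
Here `EX d A u E χ` is the division closure of `E χ` and the `th d k χ`, `k ∈ KK G A u`.

* `rep_sub_mem`: for `k ∈ KK` (degree `0`): `(rep d k m) χ = act (th d k χ) (m χ)` (`rep_apply` with `deg = 0`) and `act_sub_mem`.
* `pp_comm`: both sides vanish at the `χ` with `χ u ≠ 0`. At `χ u = 0` the difference is `(s_u s_v m - s_v s_u m) χ`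
  (`Sop t v (pp m) χ`: the value of `r0 u` at `χ + ev v` is not changed since `v ≠ u`). With `m' = s_v s_u m` and
  `k = u (v u v⁻¹)` one has `s_u s_v m = rep k m'` (`rep_gen`, `gen_mul_self`), `k ∈ KK` (`deg_mul`, `deg_gen`), so `rep_sub_mem`.
* `ker_step`: `m = nm u (m - r0 u m) + pp u m` (`decomp`). The first summand is `s_u`-invariant, so in `II` (`w = 1`). So it suffices:
  `RelF (EX d A u E) ≤ II d A u ⊔ RelF E`. An element `m'` of the left side is the sum over `χ` of `Pi.single χ (m' χ)` (`V` finite). Fix `χ`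
  and let `Q = {x : TT D | Pi.single χ x ∈ II ⊔ RelF E}` (comap of the linear map `LinearMap.single`). By `rel_le` it suffices
  `EX χ ≤ bal Q`, by `Subfield.closure_le` that `E χ ⊆ bal Q` (clear: `Pi.single χ x ∈ RelF E` for
  `x ∈ Rel (E χ)`) and `th d k χ ∈ bal Q` for `k ∈ KK`. The element `(a θ) ⊗ b - a ⊗ (θ b)` with `θ = th d k χ` is
  `x - act θ x` for `x = (a θ) ⊗ b`, and `Pi.single χ (x - act θ x) = n - rep k n`, `n = Pi.single χ x`
  (`rep_apply`, `deg k = 0`). So it suffices: `n - rep k n ∈ II ⊔ RelF E` (in fact in `II`) for all `n` and all `k` in the subgroup generated by `conjU`: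
  closure induction: `n - rep (u_w) n` is invariant under `u_w` (`u_w² = 1`, characteristic two), and
  `n - rep (k k') n = (n - rep k' n) + (n' - rep k n')` with `n' = rep k' n`; inverses: `n' = rep k⁻¹ n`.
-/

namespace SingerRA

open scoped TensorProduct

variable {V : Type} [Fintype V] [DecidableEq V] {G : SimpleGraph V} {D : Type} [DivisionRing D]
  [Algebra (ZMod 2) D]

theorem rep_sub_mem (d : UD G D) (A : Finset V) (u : V) (E : QV V → Subfield D) (k : W G)
    (hk : k ∈ KK G A u) (m : MM V D) : rep d k m - m ∈ RelF (EX d A u E) := by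
  rw [mem_relF]
  intro χ
  have h1 := rep_apply d k m χ
  rw [hk.2, add_zero] at h1
  rw [Pi.sub_apply, h1]
  apply act_sub_mem
  exact Subfield.subset_closure (Or.inr ⟨k, hk, rfl⟩)

private theorem eker_gen_mem (A : Finset V) (u v : V) (hv : v ∈ A.erase u) :
    gen G v ∈ pW G (A.erase u) := by
  exact Subgroup.subset_closure ⟨v, Finset.mem_coe.2 hv, rfl⟩

private theorem eker_conj_gen (A : Finset V) (u : V) : gen G u ∈ conjU G A u :=
  ⟨1, one_mem _, by rw [one_mul, inv_one, mul_one]⟩

theorem pp_comm (d : UD G D) (A : Finset V) (u v : V) (hv : v ∈ A.erase u)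
    (E : QV V → Subfield D) (m : MM V D) :
    pp d.t u (Sop d.t v m) - Sop d.t v (pp d.t u m) ∈ RelF (EX d A u E) := by
  have hne : v ≠ u := (Finset.mem_erase.1 hv).1
  have h1 : pp d.t u (Sop d.t v m) - Sop d.t v (pp d.t u m) =
      r0 u (Sop d.t u (Sop d.t v m) - Sop d.t v (Sop d.t u m)) := by
    rw [pp_apply, pp_apply, nm_apply, nm_apply, Sop_r0 _ hne, map_add, map_add, map_add, map_sub]
    abel
  rw [h1]
  apply r0_relF
  set k : W G := gen G u * (gen G v * gen G u * (gen G v)⁻¹) with hk
  have hkK : k ∈ KK G A u := by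
    refine ⟨mul_mem (Subgroup.subset_closure (eker_conj_gen A u))
      (Subgroup.subset_closure ⟨gen G v, eker_gen_mem A u v hv, rfl⟩), ?_⟩
    rw [hk, deg_mul, deg_mul, deg_mul, deg_inv, deg_gen, deg_gen]
    funext x
    simp only [Pi.add_apply, Pi.zero_apply]
    have h2 : ∀ a b : ZMod 2, a + (b + a + b) = 0 := by decide
    exact h2 _ _
  have h3 := rep_sub_mem d A u E k hkK (Sop d.t v (Sop d.t u m))
  have h4 : rep d k (Sop d.t v (Sop d.t u m)) = Sop d.t u (Sop d.t v m) := by
    rw [hk, gen_invE, rep_mul, rep_mul, rep_mul, rep_gen, rep_gen, Sop_Sop, Sop_Sop]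
  rw [h4] at h3
  exact h3

omit [Fintype V] in
private theorem eker_neg (m : MM V D) : -m = m := by
  have h := mm_add_self m
  exact neg_eq_of_add_eq_zero_left h

private theorem eker_sub_mem_II (d : UD G D) (A : Finset V) (u : V) {k : W G}
    (hk : k ∈ Subgroup.closure (conjU G A u)) (n : MM V D) : n - rep d k n ∈ II d A u := by
  induction hk using Subgroup.closure_induction generalizing n with
  | mem k hk =>
    obtain ⟨w, hw, rfl⟩ := hk
    refine Submodule.subset_span ⟨w, hw, ?_⟩
    set k : W G := w * gen G u * w⁻¹ with hkk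
    have h1 : k * k = 1 := by
      rw [hkk]
      have : w * gen G u * w⁻¹ * (w * gen G u * w⁻¹) = w * (gen G u * gen G u) * w⁻¹ := by group
      rw [this, gen_mul_self, mul_one, mul_inv_cancel]
    have h2 : rep d k (rep d k n) = n := by
      rw [← rep_mul, h1, rep_one]
    rw [map_sub, h2, ← neg_sub, eker_neg]
  | one =>
    rw [rep_one, sub_self]
    exact zero_mem _
  | mul k k' _ _ ih ih' =>
    have h1 : n - rep d (k * k') n = (n - rep d k' n) + (rep d k' n - rep d k (rep d k' n)) := by
      rw [rep_mul]; abel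
    rw [h1]
    exact add_mem (ih' n) (ih (rep d k' n))
  | inv k _ ih =>
    have h1 := ih (rep d k⁻¹ n)
    rw [← rep_mul, mul_inv_cancel, rep_one] at h1
    have h2 := neg_mem h1
    rw [neg_sub] at h2
    exact h2

private theorem eker_relF_le (d : UD G D) (A : Finset V) (u : V) (E : QV V → Subfield D) :
    RelF (EX d A u E) ≤ II d A u ⊔ RelF E := by
  intro m hm
  rw [mem_relF] at hm
  have h1 : m = ∑ χ : QV V, LinearMap.single (ZMod 2) (fun _ : QV V => TT D) χ (m χ) := by
    have h2 := Finset.univ_sum_single m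
    exact h2.symm
  rw [h1]
  refine Submodule.sum_mem _ fun χ _ => ?_
  have key : Rel (EX d A u E χ) ≤
      (II d A u ⊔ RelF E).comap (LinearMap.single (ZMod 2) (fun _ : QV V => TT D) χ) := by
    apply rel_le
    unfold EX
    rw [Subfield.closure_le]
    rintro e (he | ⟨k, hk, rfl⟩)
    · intro a b
      rw [Submodule.mem_comap]
      refine Submodule.mem_sup_right ?_
      rw [mem_relF]
      intro χ'
      by_cases h : χ' = χ
      · subst h
        rw [LinearMap.single_apply, Pi.single_eq_same]
        exact Submodule.subset_span ⟨a, b, e, he, rfl⟩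
      · rw [LinearMap.single_apply, Pi.single_eq_of_ne h]
        exact zero_mem _
    · intro a b
      rw [Submodule.mem_comap]
      refine Submodule.mem_sup_left ?_
      set θ : Dˣ := th d k χ with hθ
      set x : TT D := (a * ((θ : Dˣ) : D)) ⊗ₜ[ZMod 2] b with hx
      have h2 : a ⊗ₜ[ZMod 2] (((θ : Dˣ) : D) * b) = act θ x := by
        rw [hx, act_tmul, mul_assoc, Units.mul_inv, mul_one]
      have h3 : LinearMap.single (ZMod 2) (fun _ : QV V => TT D) χ
          (x - a ⊗ₜ[ZMod 2] (((θ : Dˣ) : D) * b)) =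
          (LinearMap.single (ZMod 2) (fun _ : QV V => TT D) χ x) -
            rep d k (LinearMap.single (ZMod 2) (fun _ : QV V => TT D) χ x) := by
        funext χ'
        have h4 := rep_apply d k (LinearMap.single (ZMod 2) (fun _ : QV V => TT D) χ x) χ'
        rw [hk.2, add_zero] at h4
        rw [Pi.sub_apply, h4, h2]
        by_cases h : χ' = χ
        · subst h
          simp only [LinearMap.single_apply, Pi.single_eq_same]
          rw [hθ]
        · simp only [LinearMap.single_apply, Pi.single_eq_of_ne h, map_zero, sub_zero]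
      rw [h3]
      exact eker_sub_mem_II d A u hk.1 _
  exact key (hm χ)

theorem ker_step (d : UD G D) (A : Finset V) (u : V) (E : QV V → Subfield D) (m : MM V D)
    (h : pp d.t u m ∈ RelF (EX d A u E)) : m ∈ II d A u ⊔ RelF E := by
  rw [decomp d.t u m]
  refine add_mem (Submodule.mem_sup_left ?_) (eker_relF_le d A u E h)
  refine Submodule.subset_span ⟨1, one_mem _, ?_⟩
  rw [one_mul, inv_one, mul_one, rep_gen, Sop_nm]

end SingerRA
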