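import Mathlib
import Pool.Agent.Lib_MP_394d50_all.EDefs
import Pool.Agent.Lib_MP_394d50_all.EOp
import Pool.Agent.Lib_MP_394d50_all.ERel
import Pool.Agent.Lib_MP_394d50_all.EKer
import Pool.Agent.Lib_MP_394d50_all.EExp

/-!
Piece ESTARA (about 150 lines). Notation `A' = A.erase u`, `C = lkA G A u`, `R = RelF E`,
`E' = EX S.toUD A u E`, `R' = RelF E'`, `p = pp S.t u`, `s_v = Sop S.t v`, characteristic two (`mm_sub`, `mm_add_self`).

ESTARA `star_lift`: given `s_u q = q`, `s_v (n v) = n v` (`v ∈ A'`) and `q - ∑_{v ∈ A'} n v ∈ R`, find `i v ∈ II ⊔ R` with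
`q - ∑_{v ∈ A'} nm v (i v) ∈ R`.
(1) `R ≤ R'` (`relF_mono`, `le_EX`) and `p (R) ⊆ R ⊆ R'` (`nm_relF`, `r0_relF`).
(2) `c v = sym S.t v (p (n v))` for `v ∈ A'`. By `pp_comm`: `s_v (p (n v)) - p (n v) ∈ R'` (as `s_v (n v) = n v`), so by `sym_sub_mem`
    `c v - p (n v) ∈ R'`.
(3) The chain `cc σ = c v` if `σ = {v}`, `v ∈ A'`, and `0` otherwise, is in `Cch G S.t A' 1` (`Sop_sym`). `bd cc ∅ = ∑_{v ∈ A'} c v ≡ ∑ p (n v) = p (∑ n v) ≡
    p q = 0` modulo `R'` (`pp_of_inv`), and `bd cc τ = 0` for `τ ≠ ∅`.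
(4) `IH` for `E'` (`EqF_EX`, `EX_le`), `i = 1`: `d ∈ Cch G S.t A' 2` with `cc τ - bd d τ ∈ R'`. Put `d0 σ = r0 u (d σ)`: again in `Cch G S.t A' 2` (`Sop_r0`, the
    elements of `σ ⊆ A'` are `≠ u`).
(5) `n' v = n v - bd d0 {v}`: `s_v (n' v) = n' v` (each `d0 (insert w {v})` is `s_v`-invariant). `∑_{v ∈ A'} bd d0 {v} = 0` (`bd d0 {v} = 0` for
    `v ∉ A'`; every pair occurs twice; `bd (bd d0) ∅ = 0`). So `q - ∑ n' v ∈ R`.
(6) `p (n' v) ∈ R'`: `p (n' v) = p (n v) - r0 u (bd d {v})` (`pp_r0`); `r0 u (cc {v} - bd d {v}) ∈ R'` (`r0_relF`), and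
    `r0 u (c v) - p (n v) = r0 u (c v - p (n v)) ∈ R'` (`r0_pp`).
(7) `n' v = nm v n''`, `n'' = r0 v (n' v)` (`eq_nm_of_inv`). Let `y = p n''`. `p (nm v n'') - nm v y ∈ R'` (`pp_comm`), so
    `nm v y ∈ R'`, that is `s_v y - y ∈ R'`, so `sym v y - y ∈ R'`, that is `nm v m - y ∈ R'` with `m = r0 v y`. `r0 u (nm v m) = nm v m`
    (`r0 u y = y` by `r0_pp`, `r0_comm`, `Sop_r0`), so `p (nm v m) = nm v m` (`pp_r0`). So `p (n'' - nm v m) = y - nm v m ∈ R'`. By `ker_step`
    `i v := n'' - nm v m ∈ II ⊔ R`; `nm v (i v) = nm v n'' = n' v` (`nm_nm`).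
-/

namespace SingerRA

open scoped TensorProduct

variable {V : Type} [Fintype V] [DecidableEq V] {G : SimpleGraph V} {D : Type} [DivisionRing D]
  [Algebra (ZMod 2) D]

/-- The sum of the boundaries at the singletons vanishes (characteristic two). -/
private theorem estara_bd_bd (z : Finset V → MM V D) : ∑ v : V, bd z {v} = 0 := by
  have h1 : ∀ v : V, bd z {v} = ∑ w : V, if v = w then 0 else z {v, w} := by
    intro v
    unfold bd
    rw [← Finset.sum_filter_add_sum_filter_not Finset.univ (fun w => v = w)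
      (fun w => if v = w then (0 : MM V D) else z {v, w})]
    rw [Finset.sum_eq_zero (s := Finset.univ.filter (fun w => v = w))
      (fun w hw => if_pos (Finset.mem_filter.1 hw).2), zero_add]
    refine Finset.sum_congr ?_ ?_
    · ext w
      simp only [Finset.mem_sdiff, Finset.mem_univ, true_and, Finset.mem_singleton,
        Finset.mem_filter]
      exact ⟨fun h h' => h h'.symm, fun h h' => h h'.symm⟩
    · intro w hw
      rw [if_neg (Finset.mem_filter.1 hw).2]
      congr 1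
      exact Finset.pair_comm w v
  have h2 : ∑ v : V, bd z {v} = ∑ a : V × V, if a.1 = a.2 then (0 : MM V D) else z {a.1, a.2} := by
    rw [Fintype.sum_prod_type]
    exact Finset.sum_congr rfl fun v _ => h1 v
  rw [h2]
  refine Finset.sum_involution (fun a _ => (a.2, a.1)) ?_ ?_ (fun _ _ => Finset.mem_univ _)
    (fun _ _ => rfl)
  · intro a _
    by_cases h : a.1 = a.2
    · rw [if_pos h, if_pos h.symm, add_zero]
    · rw [if_neg h, if_neg fun h' => h h'.symm, Finset.pair_comm a.2 a.1]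
      exact mm_add_self _
  · intro a _ ha h
    apply ha
    have h3 : a.2 = a.1 := congrArg Prod.fst h
    rw [if_pos h3.symm]

/-- Steps (2)-(4): correcting the elements so that the projections are relations of `E'`. -/
private theorem estara_corr (S : Sys G D) (A : Finset V) (u : V) (hu : u ∈ A)
    (E : QV V → Subfield D) (hE : EqF S.t A E) (hF : ∀ χ, E χ ≤ S.F A)
    (IH : ∀ E' : QV V → Subfield D, EqF S.t (A.erase u) E' → (∀ χ, E' χ ≤ S.F (A.erase u)) →
      ExM G S.t (A.erase u) (RelF E'))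
    (q : MM V D) (hq : Sop S.t u q = q) (n : V → MM V D)
    (hn : ∀ v ∈ A.erase u, Sop S.t v (n v) = n v) (hs : q - ∑ v ∈ A.erase u, n v ∈ RelF E) :
    ∃ d : Finset V → MM V D, Cch G S.t (A.erase u) 2 d ∧
      ∀ v ∈ A.erase u, pp S.t u (n v) - r0 u (bd d {v}) ∈ RelF (EX S.toUD A u E) := by
  have hRR : RelF E ≤ RelF (EX S.toUD A u E) := relF_mono (le_EX S.toUD A u E)
  -- step (2)
  have h2 : ∀ v ∈ A.erase u, sym S.t v (pp S.t u (n v)) - pp S.t u (n v) ∈
      RelF (EX S.toUD A u E) := by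
    intro v hv
    apply sym_sub_mem
    have h := neg_mem (pp_comm S.toUD A u v hv E (n v))
    rw [neg_sub, hn v hv] at h
    exact h
  -- step (3)
  obtain ⟨cc, hccdef⟩ : ∃ cc : Finset V → MM V D, cc = fun σ =>
    ∑ v ∈ A.erase u, if σ = {v} then sym S.t v (pp S.t u (n v)) else 0 := ⟨_, rfl⟩
  have hcc1 : ∀ v ∈ A.erase u, cc {v} = sym S.t v (pp S.t u (n v)) := by
    intro v hv
    rw [hccdef]
    show ∑ w ∈ A.erase u, (if ({v} : Finset V) = {w} then sym S.t w (pp S.t u (n w)) else 0) = _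
    rw [Finset.sum_eq_single v]
    · rw [if_pos rfl]
    · intro w _ hw
      rw [if_neg]
      intro h
      exact hw (Finset.singleton_inj.1 h).symm
    · intro h
      exact absurd hv h
  have hcc0 : ∀ v, v ∉ A.erase u → cc {v} = 0 := by
    intro v hv
    rw [hccdef]
    refine Finset.sum_eq_zero fun w hw => ?_
    rw [if_neg]
    intro h
    rw [Finset.singleton_inj.1 h] at hv
    exact hv hw
  have hC : Cch G S.t (A.erase u) 1 cc := by
    constructor
    · intro σ hσ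
      rw [hccdef]
      refine Finset.sum_eq_zero fun w hw => ?_
      rw [if_neg]
      rintro rfl
      apply hσ
      refine ⟨?_, Finset.singleton_subset_iff.2 hw, Finset.card_singleton w⟩
      show G.IsClique (({w} : Finset V) : Set V)
      rw [Finset.coe_singleton]
      exact Set.pairwise_singleton _ _
    · intro σ v hv
      rw [hccdef]
      show Sop S.t v (∑ w ∈ A.erase u, if σ = {w} then sym S.t w (pp S.t u (n w)) else 0) = _
      rw [map_sum]
      refine Finset.sum_congr rfl fun w hw => ?_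
      by_cases h : σ = {w}
      · rw [if_pos h]
        rw [h, Finset.mem_singleton] at hv
        rw [hv, Sop_sym]
      · rw [if_neg h, map_zero]
  have hbd0 : bd cc ∅ = ∑ v ∈ A.erase u, sym S.t v (pp S.t u (n v)) := by
    unfold bd
    rw [Finset.sdiff_empty]
    rw [← Finset.sum_subset (Finset.subset_univ (A.erase u))]
    · exact Finset.sum_congr rfl fun v hv => hcc1 v hv
    · intro v _ hv
      exact hcc0 v hv
  have hbd1 : ∀ τ : Finset V, τ ≠ ∅ → bd cc τ = 0 := by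
    intro τ hτ
    unfold bd
    refine Finset.sum_eq_zero fun v hv => ?_
    rw [hccdef]
    refine Finset.sum_eq_zero fun w hw => ?_
    rw [if_neg]
    intro h
    apply hτ
    have h3 : v ∉ τ := (Finset.mem_sdiff.1 hv).2
    have h4 : v ∈ ({w} : Finset V) := by rw [← h]; exact Finset.mem_insert_self v τ
    rw [Finset.mem_singleton] at h4
    rw [Finset.eq_empty_iff_forall_notMem]
    intro x hx
    have h5 : x ∈ ({w} : Finset V) := by rw [← h]; exact Finset.mem_insert_of_mem hx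
    rw [Finset.mem_singleton] at h5
    rw [h5, ← h4] at hx
    exact h3 hx
  have hppR : ∀ m ∈ RelF E, pp S.t u m ∈ RelF E := fun m hm =>
    r0_relF E u _ (nm_relF S.t A E hE u hu m hm)
  have hbdR : ∀ τ, bd cc τ ∈ RelF (EX S.toUD A u E) := by
    intro τ
    by_cases hτ : τ = ∅
    · rw [hτ, hbd0]
      have h3 : ∑ v ∈ A.erase u, sym S.t v (pp S.t u (n v)) =
          ∑ v ∈ A.erase u, (sym S.t v (pp S.t u (n v)) - pp S.t u (n v)) -
            pp S.t u (q - ∑ v ∈ A.erase u, n v) := by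
        rw [Finset.sum_sub_distrib, map_sub, pp_of_inv S.t u q hq, map_sum]
        abel
      rw [h3]
      exact sub_mem (Submodule.sum_mem _ h2) (hRR (hppR _ hs))
    · rw [hbd1 τ hτ]
      exact zero_mem _
  -- step (4)
  obtain ⟨d, hd, hdR⟩ := IH (EX S.toUD A u E) (EqF_EX S.toUD A u E hE)
    (EX_le S A u E hF) 1 le_rfl cc hC hbdR
  refine ⟨d, hd, fun v hv => ?_⟩
  -- step (6)
  have h6 := r0_relF (EX S.toUD A u E) u _ (hdR {v})
  rw [hcc1 v hv, map_sub] at h6
  have h7 := r0_relF (EX S.toUD A u E) u _ (h2 v hv)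
  rw [map_sub, r0_pp] at h7
  have h8 := sub_mem h6 h7
  rw [sub_sub_sub_cancel_left] at h8
  exact h8

theorem star_lift (S : Sys G D) (A : Finset V) (u : V) (hu : u ∈ A) (E : QV V → Subfield D)
    (hE : EqF S.t A E) (hF : ∀ χ, E χ ≤ S.F A)
    (IH : ∀ E' : QV V → Subfield D, EqF S.t (A.erase u) E' → (∀ χ, E' χ ≤ S.F (A.erase u)) →
      ExM G S.t (A.erase u) (RelF E'))
    (q : MM V D) (hq : Sop S.t u q = q) (n : V → MM V D)
    (hn : ∀ v ∈ A.erase u, Sop S.t v (n v) = n v) (hs : q - ∑ v ∈ A.erase u, n v ∈ RelF E) :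
    ∃ i : V → MM V D, (∀ v ∈ A.erase u, i v ∈ II S.toUD A u ⊔ RelF E) ∧
      q - ∑ v ∈ A.erase u, nm S.t v (i v) ∈ RelF E := by
  obtain ⟨d, hd, hdR⟩ := estara_corr S A u hu E hE hF IH q hq n hn hs
  obtain ⟨d0, hd0⟩ : ∃ d0 : Finset V → MM V D, d0 = fun σ => r0 u (d σ) := ⟨_, rfl⟩
  have hz : ∀ σ : Finset V, ¬ σ ⊆ A.erase u → d0 σ = 0 := by
    intro σ hσ
    rw [hd0]
    show r0 u (d σ) = 0
    rw [hd.1 σ fun h => hσ h.2.1, map_zero]
  have hinv : ∀ σ : Finset V, ∀ v ∈ σ, Sop S.t v (d0 σ) = d0 σ := by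
    intro σ v hv
    by_cases hσ : σ ⊆ A.erase u
    · have hne : v ≠ u := (Finset.mem_erase.1 (hσ hv)).1
      rw [hd0]
      show Sop S.t v (r0 u (d σ)) = r0 u (d σ)
      rw [Sop_r0 _ hne, hd.2 σ v hv]
    · rw [hz σ hσ, map_zero]
  have hbdr : ∀ τ : Finset V, bd d0 τ = r0 u (bd d τ) := by
    intro τ
    unfold bd
    rw [map_sum, hd0]
  -- step (5)
  have h5 : ∀ v ∈ A.erase u, Sop S.t v (n v - bd d0 {v}) = n v - bd d0 {v} := by
    intro v hv
    rw [map_sub, hn v hv]
    congr 1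
    unfold bd
    rw [map_sum]
    refine Finset.sum_congr rfl fun w _ => ?_
    exact hinv _ v (Finset.mem_insert_of_mem (Finset.mem_singleton_self v))
  have h5' : ∑ v ∈ A.erase u, bd d0 {v} = 0 := by
    rw [← estara_bd_bd d0]
    refine Finset.sum_subset (Finset.subset_univ _) fun v _ hv => ?_
    unfold bd
    refine Finset.sum_eq_zero fun w _ => hz _ fun h => hv ?_
    exact h (Finset.mem_insert_of_mem (Finset.mem_singleton_self v))
  -- step (7)
  have key : ∀ v ∈ A.erase u, ∃ i : MM V D, i ∈ II S.toUD A u ⊔ RelF E ∧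
      nm S.t v i = n v - bd d0 {v} := by
    intro v hv
    have hne : v ≠ u := (Finset.mem_erase.1 hv).1
    obtain ⟨n', hn'⟩ : ∃ n' : MM V D, n' = r0 v (n v - bd d0 {v}) := ⟨_, rfl⟩
    have h1 : n v - bd d0 {v} = nm S.t v n' := by
      rw [hn']
      exact eq_nm_of_inv S.t v _ (h5 v hv)
    have h6 : pp S.t u (nm S.t v n') ∈ RelF (EX S.toUD A u E) := by
      rw [← h1, map_sub, hbdr, pp_r0]
      exact hdR v hv
    obtain ⟨y, hy⟩ : ∃ y : MM V D, y = pp S.t u n' := ⟨_, rfl⟩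
    have h7 : Sop S.t v y - y ∈ RelF (EX S.toUD A u E) := by
      have h8 := sub_mem h6 (pp_comm S.toUD A u v hv E n')
      have h9 : pp S.t u (nm S.t v n') - (pp S.t u (Sop S.t v n') - Sop S.t v (pp S.t u n')) =
          Sop S.t v y - y := by
        rw [mm_sub (Sop S.t v y) y, nm_apply, map_add, hy]
        abel
      rw [h9] at h8
      exact h8
    have h8 := sym_sub_mem S.t (EX S.toUD A u E) v y h7
    rw [sym_apply] at h8
    have h9 : r0 u y = y := by rw [hy, r0_pp]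
    have h10 : r0 u (nm S.t v (r0 v y)) = nm S.t v (r0 v y) := by
      rw [nm_apply, map_add, ← Sop_r0 S.t hne, r0_comm u v, h9]
    have h11 : pp S.t u (nm S.t v (r0 v y)) = nm S.t v (r0 v y) := by
      rw [← h10, pp_r0]
    refine ⟨n' - nm S.t v (r0 v y), ?_, ?_⟩
    · apply ker_step
      show pp S.t u (n' - nm S.t v (r0 v y)) ∈ RelF (EX S.toUD A u E)
      rw [map_sub, h11, ← hy, ← neg_sub]
      exact neg_mem h8
    · rw [map_sub, nm_nm, sub_zero, h1]
  choose! i hi using key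
  refine ⟨i, fun v hv => (hi v hv).1, ?_⟩
  rw [Finset.sum_congr rfl fun v hv => (hi v hv).2, Finset.sum_sub_distrib, h5', sub_zero]
  exact hs

end SingerRA
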