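import Mathlib

/-!
Piece ESTARG: coinvariants of an induced module (about 150 lines; linear algebra and cosets only).

`R ≤ U ≤ M`, `H` a subgroup of `Wg` with `R` stable under `H`, `HC ≤ H` with `U` stable under `HC`; `T` says that the sum of the `h U`, `h ∈ H / HC`,
is direct modulo `R`.

Proof. Suppose `q` is not in `Q₀ = R ⊔ span {m - r c m | c ∈ HC, m ∈ U}`. By `Submodule.exists_le_ker_of_notMem` there is a linear
`lam : M → F₂` with `lam q ≠ 0`, `lam = 0` on `Q₀`; so `lam (r c m) = lam m` for `c ∈ HC`, `m ∈ U`, and `lam R = 0`.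
(WD) Let `h : Fin p → Wg`, `h j ∈ H`, `m : Fin p → M`, `m j ∈ U` with `∑ r (h j) (m j) ∈ R`. Then `∑ lam (m j) = 0`.
Proof: group the `j` by the cosets `x` of `h j` in `Wg ⧸ HC` (finite set of cosets, choose a representative `w x ∈ H` among the `h j` for each
coset which occurs): `n x = ∑_{j in x} r (h j) (m j)`; `r (w x)⁻¹ (n x) = ∑ r ((w x)⁻¹ h j) (m j)` with
`(w x)⁻¹ h j ∈ HC`, so it lies in `U` and `lam` of it is `∑_{j in x} lam (m j)`. `∑_x n x ∈ R`, so by `T` `n x ∈ R`, and `r (w x)⁻¹ (n x) ∈ R`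
(`hR`), so `∑_{j in x} lam (m j) = 0`. Sum over `x`.
Now every `i j` is a finite sum of `r h m'` (`Submodule.span_induction`, or `Finsupp`; the set is closed under scalars of `F₂`): so
`q - ∑_j (i j - r (s j) (i j)) ∈ R` is a relation of the kind (WD), with the terms `r 1 q`, `r h m'` (coefficient one; in characteristic two signs
do not matter, or replace `m'` by `-m'`) and `r (s j * h) m'`; (WD) gives `lam q - ∑ (lam m' - lam m') = 0`, so `lam q = 0`, contradiction.
(It may be convenient to formulate (WD) for the finitely supported functions or to prove by induction that for each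
`x` in the span `{r h m'}` there is a list representation.)
-/

namespace SingerRA

/-- every element of the span of the `r h m'` is a finite sum of such elements -/
private theorem estarg_rep {Wg M : Type} [Group Wg] [AddCommGroup M] [Module (ZMod 2) M]
    (r : Wg →* Module.End (ZMod 2) M) (H : Subgroup Wg) (U : Submodule (ZMod 2) M) (x : M)
    (hx : x ∈ Submodule.span (ZMod 2) {m | ∃ h ∈ H, ∃ m' ∈ U, m = r h m'}) :
    ∃ (n : ℕ) (g : Fin n → Wg) (u : Fin n → M), (∀ a, g a ∈ H) ∧ (∀ a, u a ∈ U) ∧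
      x = ∑ a, r (g a) (u a) := by
  induction hx using Submodule.span_induction with
  | mem x hx =>
    obtain ⟨h, hh, m', hm', rfl⟩ := hx
    exact ⟨1, fun _ => h, fun _ => m', fun _ => hh, fun _ => hm', by simp⟩
  | zero => exact ⟨0, fun _ => 1, fun _ => 0, fun _ => H.one_mem, fun _ => U.zero_mem, by simp⟩
  | add x y _ _ hx hy =>
    obtain ⟨n, g, u, hg, hu, rfl⟩ := hx
    obtain ⟨n', g', u', hg', hu', rfl⟩ := hy
    refine ⟨n + n', Fin.append g g', Fin.append u u', ?_, ?_, ?_⟩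
    · intro a
      refine Fin.addCases (fun i => ?_) (fun i => ?_) a
      · rw [Fin.append_left]; exact hg i
      · rw [Fin.append_right]; exact hg' i
    · intro a
      refine Fin.addCases (fun i => ?_) (fun i => ?_) a
      · rw [Fin.append_left]; exact hu i
      · rw [Fin.append_right]; exact hu' i
    · rw [Fin.sum_univ_add]
      simp only [Fin.append_left, Fin.append_right]
  | smul c x _ hx =>
    obtain ⟨n, g, u, hg, hu, rfl⟩ := hx
    refine ⟨n, g, fun a => c • u a, hg, fun a => U.smul_mem c (hu a), ?_⟩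
    rw [Finset.smul_sum]
    refine Finset.sum_congr rfl fun a _ => ?_
    rw [map_smul]

/-- a relation among the terms `r (h j) (m j)` modulo `R` has coefficient sum zero under `lam` -/
private theorem estarg_wd {Wg M : Type} [Group Wg] [AddCommGroup M] [Module (ZMod 2) M]
    (r : Wg →* Module.End (ZMod 2) M) (H HC : Subgroup Wg)
    (R U : Submodule (ZMod 2) M) (hR : ∀ h ∈ H, ∀ m ∈ R, r h m ∈ R)
    (hUC : ∀ h ∈ HC, ∀ m ∈ U, r h m ∈ U)
    (T : ∀ (k : ℕ) (w : Fin k → Wg) (n : Fin k → M), (∀ i, w i ∈ H) →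
      (∀ i j, i ≠ j → (w i)⁻¹ * w j ∉ HC) → (∀ i, r (w i)⁻¹ (n i) ∈ U) → ∑ i, n i ∈ R →
      ∀ i, n i ∈ R)
    (lam : M →ₗ[ZMod 2] ZMod 2) (hlR : ∀ m ∈ R, lam m = 0)
    (hlC : ∀ c ∈ HC, ∀ m ∈ U, lam (r c m) = lam m)
    {ι : Type} [Fintype ι] (h : ι → Wg) (m : ι → M) (hh : ∀ j, h j ∈ H) (hm : ∀ j, m j ∈ U)
    (hs : ∑ j, r (h j) (m j) ∈ R) : ∑ j, lam (m j) = 0 := by
  classical
  let f : ι → Wg ⧸ HC := fun j => (h j : Wg ⧸ HC)
  let S : Finset (Wg ⧸ HC) := Finset.univ.image f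
  let e : Fin S.card ≃ S := S.equivFin.symm
  have hrep : ∀ i : Fin S.card, ∃ j : ι, f j = (e i : Wg ⧸ HC) := by
    intro i
    obtain ⟨j, _, hj⟩ := Finset.mem_image.1 (e i).2
    exact ⟨j, hj⟩
  choose jr hjr using hrep
  let w : Fin S.card → Wg := fun i => h (jr i)
  let F : Fin S.card → Finset ι := fun i => Finset.univ.filter fun j => f j = (e i : Wg ⧸ HC)
  let n : Fin S.card → M := fun i => ∑ j ∈ F i, r (h j) (m j)
  have hwc : ∀ i, ∀ j ∈ F i, (w i)⁻¹ * h j ∈ HC := by
    intro i j hj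
    have h1 : f j = (e i : Wg ⧸ HC) := (Finset.mem_filter.1 hj).2
    have h2 : f (jr i) = f j := (hjr i).trans h1.symm
    exact QuotientGroup.eq.1 h2
  have hterm : ∀ i, ∀ j, r (w i)⁻¹ (r (h j) (m j)) = r ((w i)⁻¹ * h j) (m j) := by
    intro i j
    rw [map_mul]
    rfl
  have hn : ∀ i, r (w i)⁻¹ (n i) = ∑ j ∈ F i, r ((w i)⁻¹ * h j) (m j) := by
    intro i
    show r (w i)⁻¹ (∑ j ∈ F i, r (h j) (m j)) = _
    rw [map_sum]
    exact Finset.sum_congr rfl fun j _ => hterm i j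
  have hsum : ∀ {N : Type} [AddCommMonoid N] (g : ι → N), ∑ i, ∑ j ∈ F i, g j = ∑ j, g j := by
    intro N _ g
    have h1 : ∑ x ∈ S, ∑ j ∈ Finset.univ.filter (fun j => f j = x), g j = ∑ j, g j :=
      Finset.sum_fiberwise_of_maps_to (fun j hj => Finset.mem_image_of_mem f hj) g
    rw [← h1, ← Finset.sum_coe_sort S (fun x => ∑ j ∈ Finset.univ.filter (fun j => f j = x), g j)]
    exact Fintype.sum_equiv e _ _ fun i => rfl
  have hnR : ∀ i, n i ∈ R := by
    refine T S.card w n (fun i => hh _) ?_ ?_ ?_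
    · intro i j hij hc
      apply hij
      have h1 : f (jr i) = f (jr j) := QuotientGroup.eq.2 hc
      rw [hjr i, hjr j] at h1
      exact e.injective (Subtype.ext h1)
    · intro i
      rw [hn i]
      exact U.sum_mem fun j hj => hUC _ (hwc i j hj) _ (hm j)
    · have : ∑ i, n i = ∑ j, r (h j) (m j) := hsum (fun j => r (h j) (m j))
      rw [this]
      exact hs
  rw [← hsum (fun j => lam (m j))]
  refine Finset.sum_eq_zero fun i _ => ?_
  have h1 : lam (r (w i)⁻¹ (n i)) = 0 := hlR _ (hR _ (H.inv_mem (hh _)) _ (hnR i))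
  rw [hn i, map_sum] at h1
  rw [← h1]
  exact Finset.sum_congr rfl fun j hj => (hlC _ (hwc i j hj) _ (hm j)).symm

theorem starg {Wg M : Type} [Group Wg] [AddCommGroup M] [Module (ZMod 2) M]
    (r : Wg →* Module.End (ZMod 2) M) (H HC : Subgroup Wg) (hle : HC ≤ H)
    (R U : Submodule (ZMod 2) M) (hR : ∀ h ∈ H, ∀ m ∈ R, r h m ∈ R) (hRU : R ≤ U)
    (hUC : ∀ h ∈ HC, ∀ m ∈ U, r h m ∈ U)
    (T : ∀ (k : ℕ) (w : Fin k → Wg) (n : Fin k → M), (∀ i, w i ∈ H) →
      (∀ i j, i ≠ j → (w i)⁻¹ * w j ∉ HC) → (∀ i, r (w i)⁻¹ (n i) ∈ U) → ∑ i, n i ∈ R →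
      ∀ i, n i ∈ R)
    (q : M) (hq : q ∈ U) (J : Type) [Fintype J] (s : J → Wg) (hs : ∀ j, s j ∈ H) (i : J → M)
    (hi : ∀ j, i j ∈ Submodule.span (ZMod 2) {m | ∃ h ∈ H, ∃ m' ∈ U, m = r h m'})
    (h : q - ∑ j, (i j - r (s j) (i j)) ∈ R) :
    q ∈ R ⊔ Submodule.span (ZMod 2) {x | ∃ c ∈ HC, ∃ m ∈ U, x = m - r c m} := by
  classical
  haveI : Fact (Nat.Prime 2) := ⟨Nat.prime_two⟩
  by_contra hq0
  obtain ⟨lam, hlq, hle0⟩ := Submodule.exists_le_ker_of_notMem hq0
  have hlR : ∀ m ∈ R, lam m = 0 := fun m hm =>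
    LinearMap.mem_ker.1 (hle0 (Submodule.mem_sup_left hm))
  have hlC : ∀ c ∈ HC, ∀ m ∈ U, lam (r c m) = lam m := by
    intro c hc m hm
    have h1 : lam (m - r c m) = 0 := LinearMap.mem_ker.1
      (hle0 (Submodule.mem_sup_right (Submodule.subset_span ⟨c, hc, m, hm, rfl⟩)))
    rw [map_sub, sub_eq_zero] at h1
    exact h1.symm
  choose nn g u hg hu hrep using fun j => estarg_rep r H U (i j) (hi j)
  let ι : Type := Unit ⊕ ((Σ j : J, Fin (nn j)) ⊕ (Σ j : J, Fin (nn j)))
  let h' : ι → Wg := Sum.elim (fun _ => 1)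
    (Sum.elim (fun p => g p.1 p.2) (fun p => s p.1 * g p.1 p.2))
  let m' : ι → M := Sum.elim (fun _ => q)
    (Sum.elim (fun p => - u p.1 p.2) (fun p => u p.1 p.2))
  have hh' : ∀ a, h' a ∈ H := by
    rintro (a | a | a)
    · exact H.one_mem
    · exact hg _ _
    · exact H.mul_mem (hs _) (hg _ _)
  have hm' : ∀ a, m' a ∈ U := by
    rintro (a | a | a)
    · exact hq
    · exact U.neg_mem (hu _ _)
    · exact hu _ _
  have hsum : ∑ a, r (h' a) (m' a) = q - ∑ j, (i j - r (s j) (i j)) := by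
    rw [Fintype.sum_sum_type, Fintype.sum_sum_type]
    simp only [h', m', Sum.elim_inl, Sum.elim_inr]
    rw [Fintype.sum_sigma, Fintype.sum_sigma]
    simp only [map_neg, Finset.sum_neg_distrib, map_mul, Module.End.mul_apply, map_one,
      Module.End.one_apply, Finset.univ_unique, Finset.sum_const, Finset.card_singleton, one_smul]
    simp only [← map_sum, ← hrep]
    rw [Finset.sum_sub_distrib]
    abel
  have key := estarg_wd r H HC R U hR hUC T lam hlR hlC h' m' hh' hm' (by rw [hsum]; exact h)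
  rw [Fintype.sum_sum_type, Fintype.sum_sum_type] at key
  simp only [m', Sum.elim_inl, Sum.elim_inr, map_neg, Finset.sum_neg_distrib, neg_add_cancel,
    add_zero, Finset.univ_unique, Finset.sum_const, Finset.card_singleton, one_smul] at key
  exact hlq key

end SingerRA
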