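import Mathlib
import Pool.Agent.Lib_MP_394d50_all.EDefs

/-!
Piece EALT: the alternating words are not trivial (about 150 lines; group theory only).

`A' = A.erase u`, `C = lkA G A u` (the vertices of `A'` adjacent to `u`).
Let `X = W G ⧸ pW G C` (left cosets, `W` acts by left multiplication), `F = Monoid.CoprodI (fun _ : X => Multiplicative (ZMod 2))` (the free
product of copies of `ℤ/2`), `ι_x = Monoid.CoprodI.of (i := x) (Multiplicative.ofAdd 1)`.
`W` acts on `F` by `φ(w) ι_x = ι_{w x}` (`CoprodI.lift`; a homomorphism `φ : W G →* MulAut F`).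
Define `Θ : W G →* F ⋊[φ] W G` by `(cs G).lift` (see `liftable_ofE` in EBase.lean) on the generators:
`v ∈ A'` goes to `inr (gen G v)`, `u` goes to `inl ι_{x₀}` (`x₀` = the coset of `1`), all others go to `1`.
Relations: squares are `1`; `v, v' ∈ A'` adjacent: `gen` commute (`comm_of_adj`); `u` and `v ∈ A'` adjacent: `v ∈ C`, so `gen G v` fixes `x₀` and
`inr (gen G v)` commutes with `inl ι_{x₀}`; everything commutes with `1`.
For `w ∈ pW G A'`: `Θ w = inr w` (closure induction), so `Θ (w u w⁻¹) = inl ι_{w x₀}`. So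
`Θ (wordk G u w k) = inl (ι_{x_{2k-1}} ⋯ ι_{x_0})`, `x_j` = the coset of `w j`. Consecutive `x_j` are different
(`QuotientGroup.eq`: `(w j)⁻¹ * w (j+1) ∉ pW G C`). A nonempty product of such `ι` is not `1` in `F`: it is the product of the
reduced word with letters `⟨x_j, 1'⟩` (`Monoid.CoprodI.Word`, `Word.prod`, `Word.equiv`, or `NeWord.prod_ne_one`).
-/

namespace SingerRA

section ealt

/-- Toggle the first letter. -/
private noncomputable def ealtT {X : Type} (x : X) : List X → List X
  | [] => [x]
  | y :: l => open scoped Classical in if y = x then l else x :: y :: l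

private theorem ealtT_chain {X : Type} (x : X) (l : List X) (hl : l.IsChain (· ≠ ·)) :
    (ealtT x l).IsChain (· ≠ ·) := by
  classical
  cases l with
  | nil => exact List.isChain_singleton x
  | cons y l =>
    by_cases h : y = x
    · have h1 : ealtT x (y :: l) = l := by simp [ealtT, h]
      rw [h1]
      exact hl.tail
    · have h1 : ealtT x (y :: l) = x :: y :: l := by simp [ealtT, h]
      rw [h1, List.isChain_cons_cons]
      exact ⟨fun h' => h h'.symm, hl⟩

private theorem ealtT_T {X : Type} (x : X) (l : List X) (hl : l.IsChain (· ≠ ·)) :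
    ealtT x (ealtT x l) = l := by
  classical
  cases l with
  | nil => simp [ealtT]
  | cons y l =>
    by_cases h : y = x
    · subst h
      have h1 : ealtT y (y :: l) = l := by simp [ealtT]
      rw [h1]
      cases l with
      | nil => rfl
      | cons z l =>
        rw [List.isChain_cons_cons] at hl
        have h2 : ¬ z = y := fun h' => hl.1 h'.symm
        simp [ealtT, h2]
    · simp [ealtT, h]

private theorem ealtT_map {X : Type} (f : X → X) (hf : Function.Injective f) (x : X)
    (l : List X) : ealtT (f x) (l.map f) = (ealtT x l).map f := by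
  classical
  cases l with
  | nil => simp [ealtT]
  | cons y l =>
    by_cases h : y = x
    · subst h
      simp [ealtT]
    · have h1 : ¬ f y = f x := fun h' => h (hf h')
      simp [ealtT, h, h1]

/-- Lists without equal consecutive letters. -/
private abbrev ealtS (X : Type) : Type := {l : List X // l.IsChain (· ≠ ·)}

private noncomputable def ealtTS {X : Type} (x : X) (s : ealtS X) : ealtS X :=
  ⟨ealtT x s.1, ealtT_chain x s.1 s.2⟩

private def ealtM {X : Type} (W' : Type) [Group W'] [MulAction W' X] (g : W') (s : ealtS X) :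
    ealtS X :=
  ⟨s.1.map (g • ·), List.isChain_map_of_isChain _
    (fun _ _ h h' => h (MulAction.injective g h')) s.2⟩

variable {V : Type} [DecidableEq V] (G : SimpleGraph V) (A : Finset V) (u : V)

private abbrev ealtX : Type := W G ⧸ pW G (lkA G A u)

/-- The base coset. -/
private noncomputable def ealt0 : ealtX G A u := ((1 : W G) : W G ⧸ pW G (lkA G A u))

/-- The action of the generators. -/
private noncomputable def ealtF (v : V) : Function.End (ealtS (ealtX G A u)) :=
  if v = u then ealtTS (ealt0 G A u) else if v ∈ A then ealtM (W G) (gen G v) else id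

private theorem ealtM_mul {X : Type} (W' : Type) [Group W'] [MulAction W' X] (g h : W')
    (s : ealtS X) : ealtM W' (g * h) s = ealtM W' g (ealtM W' h s) := by
  refine Subtype.ext ?_
  show s.1.map _ = (s.1.map _).map _
  rw [List.map_map]
  refine List.map_congr_left fun x _ => ?_
  exact mul_smul g h x

private theorem ealtM_one {X : Type} (W' : Type) [Group W'] [MulAction W' X]
    (s : ealtS X) : ealtM W' 1 s = s := by
  refine Subtype.ext ?_
  show s.1.map _ = s.1
  have h : (fun x : X => (1 : W') • x) = id := by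
    funext x
    exact one_smul _ x
  rw [h, List.map_id]

private theorem ealtM_T {X : Type} (W' : Type) [Group W'] [MulAction W' X] (g : W') (x : X)
    (s : ealtS X) : ealtTS (g • x) (ealtM W' g s) = ealtM W' g (ealtTS x s) :=
  Subtype.ext (ealtT_map _ (MulAction.injective g) x s.1)

private theorem ealtT0_comm (v : V) (hv : v ∈ A) (hu : v ≠ u) (h : G.Adj u v)
    (s : ealtS (ealtX G A u)) :
    ealtTS (ealt0 G A u) (ealtM (W G) (gen G v) s) =
      ealtM (W G) (gen G v) (ealtTS (ealt0 G A u) s) := by
  classical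
  have h1 : gen G v • ealt0 G A u = ealt0 G A u := by
    have h2 : (gen G v)⁻¹ * 1 ∈ pW G (lkA G A u) := by
      rw [mul_one]
      refine inv_mem (Subgroup.subset_closure ⟨v, ?_, rfl⟩)
      rw [Finset.mem_coe]
      unfold lkA
      rw [Finset.mem_filter, Finset.mem_erase]
      exact ⟨⟨hu, hv⟩, h⟩
    show ((gen G v * 1 : W G) : W G ⧸ pW G (lkA G A u)) = ((1 : W G) : W G ⧸ pW G (lkA G A u))
    rw [mul_one]
    exact QuotientGroup.eq.2 h2
  have h3 := ealtM_T (W G) (gen G v) (ealt0 G A u) s
  rwa [h1] at h3

private theorem ealtTS_TS {X : Type} (x : X) (s : ealtS X) : ealtTS x (ealtTS x s) = s :=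
  Subtype.ext (ealtT_T x s.1 s.2)

private noncomputable def ealtHom : W G →* Function.End (ealtS (ealtX G A u)) :=
  (cs G).lift ⟨ealtF G A u, liftable_ofE _ (fun v => by
      funext s
      show ealtF G A u v (ealtF G A u v s) = s
      unfold ealtF
      split_ifs
      · exact ealtTS_TS _ s
      · rw [← ealtM_mul, gen_mul_self, ealtM_one]
      · rfl)
    (fun v v' h => by
      have hne : v ≠ v' := h.ne
      funext s
      show ealtF G A u v (ealtF G A u v' s) = ealtF G A u v' (ealtF G A u v s)
      unfold ealtF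
      by_cases h1 : v = u
      · subst h1
        rw [if_pos rfl, if_neg hne.symm]
        by_cases h2 : v' ∈ A
        · rw [if_pos h2]
          exact ealtT0_comm G A v v' h2 hne.symm h s
        · rw [if_neg h2]
          rfl
      · by_cases h2 : v' = u
        · subst h2
          rw [if_pos rfl, if_neg hne]
          by_cases h3 : v ∈ A
          · rw [if_pos h3]
            exact (ealtT0_comm G A v' v h3 hne h.symm s).symm
          · rw [if_neg h3]
            rfl
        · rw [if_neg h1, if_neg h2]
          by_cases h3 : v ∈ A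
          · by_cases h4 : v' ∈ A
            · rw [if_pos h3, if_pos h4, ← ealtM_mul, ← ealtM_mul, comm_of_adj G v v' h]
            · rw [if_pos h3, if_neg h4]
              rfl
          · rw [if_neg h3]
            rfl)⟩

private theorem ealtHom_gen (v : V) : ealtHom G A u (gen G v) = ealtF G A u v := by
  unfold ealtHom gen
  rw [CoxeterSystem.lift_apply_simple]

private theorem ealtHom_mul (g h : W G) (s : ealtS (ealtX G A u)) :
    ealtHom G A u (g * h) s = ealtHom G A u g (ealtHom G A u h s) := by
  rw [map_mul]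
  rfl

private theorem ealtHom_pW (w : W G) (hw : w ∈ pW G (A.erase u)) :
    ealtHom G A u w = ealtM (W G) w := by
  unfold pW par at hw
  have key : ealtHom G A u w = ealtM (W G) w ∧ ealtHom G A u w⁻¹ = ealtM (W G) w⁻¹ := by
    induction hw using Subgroup.closure_induction with
    | mem g hg =>
      obtain ⟨v, hv, rfl⟩ := hg
      rw [Finset.mem_coe, Finset.mem_erase] at hv
      rw [gen_invE, and_self, ealtHom_gen]
      unfold ealtF
      rw [if_neg hv.1, if_pos hv.2]
    | one =>
      rw [inv_one, and_self, map_one]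
      funext s
      exact (ealtM_one (W G) s).symm
    | mul g h _ _ ihg ihh =>
      refine ⟨?_, ?_⟩
      · funext s
        rw [ealtHom_mul, ihg.1, ihh.1, ealtM_mul]
      · rw [mul_inv_rev]
        funext s
        rw [ealtHom_mul, ihg.2, ihh.2, ealtM_mul]
    | inv g _ ih =>
      rw [inv_inv]
      exact ⟨ih.2, ih.1⟩
  exact key.1

private theorem ealtHom_conj (w : W G) (hw : w ∈ pW G (A.erase u)) (s : ealtS (ealtX G A u)) :
    ealtHom G A u (w * gen G u * w⁻¹) s = ealtTS (w • ealt0 G A u) s := by
  rw [ealtHom_mul, ealtHom_mul, ealtHom_pW G A u w hw, ealtHom_pW G A u w⁻¹ (inv_mem hw),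
    ealtHom_gen]
  have h1 : ealtF G A u u = ealtTS (ealt0 G A u) := by
    unfold ealtF
    rw [if_pos rfl]
  rw [h1, ← ealtM_T, ← ealtM_mul, mul_inv_cancel, ealtM_one]

end ealt

theorem wordk_ne_one {V : Type} [DecidableEq V] (G : SimpleGraph V) (A : Finset V) (u : V)
    (w : ℕ → W G) (hw : ∀ j, w j ∈ pW G (A.erase u))
    (hne : ∀ j, (w j)⁻¹ * w (j + 1) ∉ pW G (lkA G A u)) (k : ℕ) (hk : 1 ≤ k) :
    wordk G u w k ≠ 1 := by
  have hx : ∀ j, w j • ealt0 G A u ≠ w (j + 1) • ealt0 G A u := by
    intro j h
    have h1 : ((w j * 1 : W G) : W G ⧸ pW G (lkA G A u)) =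
        ((w (j + 1) * 1 : W G) : W G ⧸ pW G (lkA G A u)) := h
    rw [mul_one, mul_one] at h1
    exact hne j (QuotientGroup.eq.1 h1)
  have hT : ∀ (x y : ealtX G A u) (l : List (ealtX G A u)), y ≠ x → ealtT x (y :: l) = x :: y :: l := by
    intro x y l h
    simp [ealtT, h]
  have key : ∀ k, ∃ l, (ealtHom G A u (wordk G u w (k + 1)) ⟨[], List.isChain_nil⟩).1 =
      (w (2 * k + 1) • ealt0 G A u) :: l := by
    intro k
    induction k with
    | zero =>
      refine ⟨[w (2 * 0) • ealt0 G A u], ?_⟩
      have h1 : wordk G u w (0 + 1) = (w (2 * 0 + 1) * gen G u * (w (2 * 0 + 1))⁻¹) *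
          (w (2 * 0) * gen G u * (w (2 * 0))⁻¹) * 1 := rfl
      rw [h1, mul_one, ealtHom_mul, ealtHom_conj G A u _ (hw _), ealtHom_conj G A u _ (hw _)]
      show ealtT _ (ealtT _ []) = _
      exact hT _ _ _ (hx _)
    | succ k ih =>
      obtain ⟨l, hl⟩ := ih
      refine ⟨(w (2 * (k + 1)) • ealt0 G A u) :: (w (2 * k + 1) • ealt0 G A u) :: l, ?_⟩
      have h1 : wordk G u w (k + 1 + 1) =
          (w (2 * (k + 1) + 1) * gen G u * (w (2 * (k + 1) + 1))⁻¹) *
          (w (2 * (k + 1)) * gen G u * (w (2 * (k + 1)))⁻¹) * wordk G u w (k + 1) := rfl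
      rw [h1, ealtHom_mul, ealtHom_mul, ealtHom_conj G A u _ (hw _), ealtHom_conj G A u _ (hw _)]
      show ealtT _ (ealtT _ (ealtHom G A u (wordk G u w (k + 1)) ⟨[], List.isChain_nil⟩).1) = _
      have h2 : w (2 * k + 1) • ealt0 G A u ≠ w (2 * (k + 1)) • ealt0 G A u := hx (2 * k + 1)
      rw [hl, hT _ _ _ h2, hT _ _ _ (hx (2 * (k + 1)))]
  obtain ⟨k, rfl⟩ : ∃ k', k = k' + 1 := ⟨k - 1, by omega⟩
  obtain ⟨l, hl⟩ := key k
  intro h
  rw [h, map_one] at hl
  exact absurd hl (by
    intro h'
    exact List.cons_ne_nil _ _ h'.symm)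

end SingerRA
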