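import Mathlib
import Pool.Agent.Lib_MP_394d50_all.DDefs

/-!
Piece EADAPT: adapted representations of tensors (about 200 lines).

`v` is a valuation (preorder `v.le a b`: `v a ≤ v b`, `v 0 = ∞`), trivial on the division subring `K`.

Terminology: a finite family `b_j` of nonzero elements is ADAPTED if for all `e_j ∈ K` and all `h`:
`¬ v.le (∑ e_j b_j) h` implies `¬ v.le (e_j * b_j) h` for all `j`; that is
`v (∑ e_j b_j) = min {v (b_j) : e_j ≠ 0}`.

1. (`PV` basics) `v.le (a b) (c b) ↔ v.le a c` and `v.le (b a) (b c) ↔ v.le a c` for `b ≠ 0`; `v (-a) = v a`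
   (`v(-1)`: `(-1)(-1) = 1` and totality; in characteristic two `-a = a`, which is simpler);
   `v (e b) = v b` for `e ∈ K`, `e ≠ 0`; if `v a > v g` and `v b > v g` then `v (a + b) > v g`
   (by `add` with the smaller one of `a`, `b`).
2. Every finite dimensional left `K`-subspace `U` of `D` (that is `Submodule K D`) has an adapted basis: induction on the dimension,
   or a maximal adapted family: if `b_1 .. b_s` in `U` is adapted and `x ∈ U` is not in its span then choose
   `y ∈ x + span(b_j)` with `v y` maximal. A maximum exists: elements of `U` with strictly increasing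
   values are left independent over `K`, so there are at most `dim U` values. Then `b_1, .., b_s, y` is adapted: let
   `z = ∑ e_j b_j`, `e ≠ 0`; divide by `e`: `v (y + z) ≤ v y` by maximality; if `v z ≠ v y` then `v (y+z) = min`; if `v z = v y` then
   `v (y + z) ≥ v y`, so equal.
3. Let `m = ∑ a_i ⊗ b_i` with finitely many terms, `U` = the left `K`-span of the `b_i`, `b'_j` an adapted basis of `U`,
   `b_i = ∑_j e_ij b'_j`; modulo `Rel K`: `m ≡ ∑_j a'_j ⊗ b'_j` with `a'_j = ∑_i a_i e_ij`; drop the `j` with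
   `a'_j = 0`. If all are dropped then `m ∈ Rel K`.
4. `m ∈ FF v K g h ↔ ∀ j, ¬ v.le (a_j) g ∨ ¬ v.le (b_j) h`. Right to left is clear. Left to right: fix `j` with `v.le (b_j) h`
   (otherwise done). The set `D' = {x | ¬ v.le x h}` together with `0` (note `¬ v.le 0 h` for `h ≠ 0`, so `0` is in) is a left `K`-subspace, and the
   `b_i` with `v.le (b_i) h` are left independent modulo `D'` (adapted). So there is a left `K`-linear
   `ψ : D → K` with `ψ = 0` on `D'` and on the `b_i`, `i ≠ j`, `ψ (b_j) = 1` (`LinearMap.exists_extend`, or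
   `Submodule.exists_le_ker_of_notMem` applied to `D' + span(b_i, i ≠ j)` and `b_j`, and normalise). The `F₂`-linear map
   `Ψ : D ⊗ D → D`, `a ⊗ b ↦ a ψ(b)` kills `Rel K` and `D ⊗ D'`, and maps
   `{a : ¬ v.le a g} ⊗ D` into `{a : ¬ v.le a g}` (`v (a ψ(b)) = v a` or the value is `0`). `Ψ m = a_j`. So `¬ v.le (a_j) g`.
-/

namespace SingerRA

open scoped TensorProduct

variable {D : Type} [DivisionRing D] [Algebra (ZMod 2) D]

private theorem ead_two (x : D) : x + x = 0 := by
  have h : ((1 : ZMod 2) + 1) • x = 0 := by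
    rw [show (1 : ZMod 2) + 1 = 0 from rfl, zero_smul]
  rwa [add_smul, one_smul] at h

private theorem ead_sub (x y : D) : x - y = x + y := by
  rw [sub_eq_iff_eq_add, add_assoc, ead_two, add_zero]

omit [Algebra (ZMod 2) D] in
private theorem ead_refl (v : PV D) (a : D) : v.le a a := by
  rcases v.total a a with h | h <;> exact h

omit [Algebra (ZMod 2) D] in
private theorem ead_slt (v : PV D) {x y d : D} (hx : ¬ v.le x d) (hy : ¬ v.le y d) :
    ¬ v.le (x + y) d := by
  intro h
  rcases v.total x y with h1 | h1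
  · exact hx (v.trans _ _ _ (v.add _ _ _ (ead_refl v x) h1) h)
  · exact hy (v.trans _ _ _ (v.add _ _ _ h1 (ead_refl v y)) h)

omit [Algebra (ZMod 2) D] in
private theorem ead_slt_zero (v : PV D) {d : D} (hd : d ≠ 0) : ¬ v.le 0 d :=
  fun h => hd (v.eq_zero d h)

omit [Algebra (ZMod 2) D] in
private theorem ead_slt_sum (v : PV D) {ι : Type} (s : Finset ι) (f : ι → D) {d : D}
    (hd : d ≠ 0) (h : ∀ i ∈ s, ¬ v.le (f i) d) : ¬ v.le (∑ i ∈ s, f i) d := by
  classical
  induction s using Finset.induction_on with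
  | empty =>
    rw [Finset.sum_empty]
    exact ead_slt_zero v hd
  | insert a s ha ih =>
    rw [Finset.sum_insert ha]
    exact ead_slt v (h a (Finset.mem_insert_self a s))
      (ih fun i hi => h i (Finset.mem_insert_of_mem hi))

omit [Algebra (ZMod 2) D] in
private theorem ead_l (v : PV D) {e : D} (he : v.triv e) (b : D) :
    v.le (e * b) b ∧ v.le b (e * b) := by
  have h1 := v.mul_right _ _ b he.1
  have h2 := v.mul_right _ _ b he.2
  rw [one_mul] at h1 h2
  exact ⟨h2, h1⟩

omit [Algebra (ZMod 2) D] in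
private theorem ead_r (v : PV D) {e : D} (he : v.triv e) (b : D) :
    v.le (b * e) b ∧ v.le b (b * e) := by
  have h1 := v.mul_left _ _ b he.1
  have h2 := v.mul_left _ _ b he.2
  rw [mul_one] at h1 h2
  exact ⟨h2, h1⟩

/-- adapted families -/
private def EAd (v : PV D) (K : Subfield D) {r : ℕ} (b : Fin r → D) : Prop :=
  (∀ j, b j ≠ 0) ∧ ∀ e : Fin r → D, (∀ j, e j ∈ K) → ∀ j, e j ≠ 0 → v.le (∑ i, e i * b i) (b j)

/-- the left span -/
private def ESp (K : Subfield D) {r : ℕ} (b : Fin r → D) (y : D) : Prop :=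
  ∃ e : Fin r → D, (∀ j, e j ∈ K) ∧ y = ∑ i, e i * b i

omit [Algebra (ZMod 2) D] in
private theorem esp_add (K : Subfield D) {r : ℕ} (b : Fin r → D) {x y : D} (hx : ESp K b x)
    (hy : ESp K b y) : ESp K b (x + y) := by
  obtain ⟨e, he, rfl⟩ := hx
  obtain ⟨f, hf, rfl⟩ := hy
  refine ⟨fun j => e j + f j, fun j => add_mem (he j) (hf j), ?_⟩
  rw [← Finset.sum_add_distrib]
  exact Finset.sum_congr rfl fun i _ => (add_mul _ _ _).symm

omit [Algebra (ZMod 2) D] in
private theorem esp_zero (K : Subfield D) {r : ℕ} (b : Fin r → D) : ESp K b 0 :=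
  ⟨fun _ => 0, fun _ => zero_mem K, by simp⟩

omit [Algebra (ZMod 2) D] in
private theorem esp_mul (K : Subfield D) {r : ℕ} (b : Fin r → D) {x c : D} (hx : ESp K b x)
    (hc : c ∈ K) : ESp K b (c * x) := by
  obtain ⟨e, he, rfl⟩ := hx
  refine ⟨fun j => c * e j, fun j => mul_mem hc (he j), ?_⟩
  rw [Finset.mul_sum]
  exact Finset.sum_congr rfl fun i _ => (mul_assoc _ _ _).symm

omit [Algebra (ZMod 2) D] in
/-- a nonzero element of the span of an adapted family has the value of a member -/
private theorem ead_val (v : PV D) (K : Subfield D) (hK : ∀ x ∈ K, x ≠ 0 → v.triv x) {r : ℕ}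
    (b : Fin r → D) (hb : EAd v K b) {d : D} (hd : d ≠ 0) (hs : ESp K b d) :
    ∃ j, v.le d (b j) ∧ v.le (b j) d := by
  obtain ⟨e, he, hde⟩ := hs
  by_contra hcon
  push Not at hcon
  have h1 : ¬ v.le (∑ i, e i * b i) d := by
    refine ead_slt_sum v _ _ hd fun j _ => ?_
    by_cases h0 : e j = 0
    · rw [h0, zero_mul]
      exact ead_slt_zero v hd
    · intro hc
      have h2 := hb.2 e he j h0
      rw [← hde] at h2
      exact hcon j h2 (v.trans _ _ _ (ead_l v (hK _ (he j) h0) (b j)).2 hc)
  rw [← hde] at h1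
  exact h1 (ead_refl v d)

/-- a representative of maximal value -/
private theorem ead_max (v : PV D) (K : Subfield D) (hK : ∀ x ∈ K, x ≠ 0 → v.triv x) {r : ℕ}
    (b : Fin r → D) (hb : EAd v K b) (y : D) :
    ∃ y', ESp K b (y + y') ∧ ∀ z, ESp K b (y + z) → v.le z y' := by
  by_contra hcon
  push Not at hcon
  choose nx hnx1 hnx2 using hcon
  let st : {z : D // ESp K b (y + z)} → {z : D // ESp K b (y + z)} := fun z =>
    ⟨nx z.1 z.2, hnx1 z.1 z.2⟩
  let sq : ℕ → {z : D // ESp K b (y + z)} := fun n =>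
    st^[n] ⟨y, by rw [ead_two]; exact esp_zero K b⟩
  have hsq : ∀ n, sq (n + 1) = st (sq n) := fun n => Function.iterate_succ_apply' st n _
  have hlt : ∀ n, ¬ v.le (sq (n + 1)).1 (sq n).1 := by
    intro n
    rw [hsq]
    exact hnx2 (sq n).1 (sq n).2
  have hle : ∀ n, v.le (sq n).1 (sq (n + 1)).1 := fun n =>
    (v.total _ _).resolve_right (hlt n)
  have hmono : ∀ n k, v.le (sq n).1 (sq (n + k)).1 := by
    intro n k
    induction k with
    | zero => exact ead_refl v _
    | succ k ih => exact v.trans _ _ _ ih (hle (n + k))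
  have hj : ∀ n, ∃ j, v.le (sq n).1 (b j) ∧ v.le (b j) (sq n).1 := by
    intro n
    set z := (sq n).1 with hz
    set z' := (sq (n + 1)).1 with hz'
    have h1 : ESp K b (z + z') := by
      have h2 := esp_add K b (sq n).2 (sq (n + 1)).2
      have h3 : y + z + (y + z') = z + z' := by
        have := ead_two y
        calc y + z + (y + z') = (y + y) + (z + z') := by abel
          _ = z + z' := by rw [this, zero_add]
      rwa [h3] at h2
    have h4 : z + z' ≠ 0 := by
      intro h5
      have h6 : z' = z := by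
        have h7 : z + z = z + z' := by rw [h5, ead_two]
        exact (add_left_cancel h7).symm
      apply hlt n
      rw [← hz', ← hz, h6]
      exact ead_refl v _
    obtain ⟨j, h5, h6⟩ := ead_val v K hK b hb h4 h1
    have h7 : v.le z (z + z') := v.add _ _ _ (ead_refl v z) (hle n)
    have h8 : v.le (z + z') z := by
      by_contra h9
      have h10 := ead_slt v h9 (hlt n)
      have h11 : z + z' + (sq (n + 1)).1 = z := by
        rw [← hz', add_assoc, ead_two, add_zero]
      rw [h11] at h10
      exact h10 (ead_refl v z)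
    exact ⟨j, v.trans _ _ _ h7 h5, v.trans _ _ _ h6 h8⟩
  choose jj hj1 hj2 using hj
  obtain ⟨n, m, hnm, hp⟩ := Finite.exists_ne_map_eq_of_infinite jj
  wlog hlt' : n < m generalizing n m
  · exact this m n hnm.symm hp.symm (lt_of_le_of_ne (not_lt.1 hlt') hnm.symm)
  obtain ⟨k, rfl⟩ : ∃ k, m = n + 1 + k := ⟨m - (n + 1), by omega⟩
  have h1 : v.le (sq (n + 1 + k)).1 (sq n).1 := by
    refine v.trans _ _ _ (hj1 (n + 1 + k)) ?_
    rw [← hp]
    exact hj2 n
  exact hlt n (v.trans _ _ _ (hmono (n + 1) k) h1)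

/-- extension of an adapted family -/
private theorem ead_ext (v : PV D) (K : Subfield D) (hK : ∀ x ∈ K, x ≠ 0 → v.triv x) {r : ℕ}
    (b : Fin r → D) (hb : EAd v K b) (y : D) (hy : ¬ ESp K b y) :
    ∃ b' : Fin (r + 1) → D, EAd v K b' ∧ ESp K b' y ∧ ∀ x, ESp K b x → ESp K b' x := by
  obtain ⟨y', h1, h2⟩ := ead_max v K hK b hb y
  have hy0 : y' ≠ 0 := by
    rintro rfl
    rw [add_zero] at h1
    exact hy h1
  have hmono : ∀ x, ESp K b x → ESp K (Fin.cons y' b : Fin (r + 1) → D) x := by
    rintro x ⟨e, he, rfl⟩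
    refine ⟨Fin.cons 0 e, Fin.cases (zero_mem K) he, ?_⟩
    rw [Fin.sum_univ_succ]
    simp
  refine ⟨Fin.cons y' b, ⟨?_, ?_⟩, ?_, hmono⟩
  · refine Fin.cases ?_ ?_
    · simpa using hy0
    · intro j
      simpa using hb.1 j
  · intro e he
    have hsum : ∑ i, e i * (Fin.cons y' b : Fin (r + 1) → D) i =
        e 0 * y' + ∑ i : Fin r, e i.succ * b i := by
      rw [Fin.sum_univ_succ]
      simp
    rw [hsum]
    by_cases h0 : e 0 = 0
    · rw [h0, zero_mul, zero_add]
      refine Fin.cases ?_ ?_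
      · intro h
        exact absurd h0 h
      · intro j hj
        rw [Fin.cons_succ]
        exact hb.2 (fun i => e i.succ) (fun i => he _) j hj
    · -- factor out the coefficient
      set c := e 0 with hc
      have hcK : c ∈ K := he 0
      have hct := hK c hcK h0
      set u := ∑ i : Fin r, (c⁻¹ * e i.succ) * b i with hu
      have hfac : c * y' + ∑ i : Fin r, e i.succ * b i = c * (y' + u) := by
        rw [mul_add, hu, Finset.mul_sum]
        congr 1
        refine Finset.sum_congr rfl fun i _ => ?_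
        rw [← mul_assoc, ← mul_assoc, mul_inv_cancel₀ h0, one_mul]
      have hcu : ∀ i : Fin r, c⁻¹ * e i.succ ∈ K := fun i => mul_mem (inv_mem hcK) (he _)
      have huS : ESp K b u := ⟨_, hcu, rfl⟩
      have hzS : ESp K b (y + (y' + u)) := by
        rw [← add_assoc]
        exact esp_add K b h1 huS
      have hzy := h2 _ hzS
      rw [hfac]
      have hw := (ead_l v hct (y' + u)).1
      refine Fin.cases ?_ ?_
      · intro _
        rw [Fin.cons_zero]
        exact v.trans _ _ _ hw hzy
      · intro j hj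
        rw [Fin.cons_succ]
        have h3 : v.le u (b j) := hb.2 _ hcu j (mul_ne_zero (inv_ne_zero h0) hj)
        have h4 : v.le (y' + u) u := by
          by_contra h5
          have h6 : ¬ v.le y' u := fun h7 => h5 (v.trans _ _ _ hzy h7)
          have h8 := ead_slt v h5 h6
          have h9 : y' + u + y' = u := by
            calc y' + u + y' = (y' + y') + u := by abel
              _ = u := by rw [ead_two, zero_add]
          rw [h9] at h8
          exact h8 (ead_refl v u)
        exact v.trans _ _ _ hw (v.trans _ _ _ h4 h3)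
  · obtain ⟨e, he, hey⟩ := h1
    refine ⟨Fin.cons 1 e, Fin.cases (one_mem K) he, ?_⟩
    rw [Fin.sum_univ_succ]
    simp only [Fin.cons_zero, Fin.cons_succ, one_mul]
    rw [← hey]
    calc y = (y' + y') + y := by rw [ead_two, zero_add]
      _ = y' + (y + y') := by abel

private theorem ead_span (v : PV D) (K : Subfield D) (hK : ∀ x ∈ K, x ≠ 0 → v.triv x)
    (Y : Finset D) : ∃ (r : ℕ) (b : Fin r → D), EAd v K b ∧ ∀ y ∈ Y, ESp K b y := by
  classical
  induction Y using Finset.induction_on with
  | empty =>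
    refine ⟨0, Fin.elim0, ⟨fun j => j.elim0, fun e _ j => j.elim0⟩, ?_⟩
    intro y hy
    exact absurd hy (Finset.notMem_empty y)
  | insert a Y ha ih =>
    obtain ⟨r, b, hb, hY⟩ := ih
    by_cases h : ESp K b a
    · refine ⟨r, b, hb, fun y hy => ?_⟩
      rcases Finset.mem_insert.1 hy with rfl | hy
      · exact h
      · exact hY y hy
    · obtain ⟨b', h1, h2, h3⟩ := ead_ext v K hK b hb a h
      refine ⟨r + 1, b', h1, fun y hy => ?_⟩
      rcases Finset.mem_insert.1 hy with rfl | hy
      · exact h2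
      · exact h3 y (hY y hy)

private theorem ead_rel (K : Subfield D) (a b e : D) (he : e ∈ K) :
    (a * e) ⊗ₜ[ZMod 2] b - a ⊗ₜ[ZMod 2] (e * b) ∈ Rel K :=
  Submodule.subset_span ⟨a, b, e, he, rfl⟩

private theorem ead_rep (v : PV D) (K : Subfield D) (hK : ∀ x ∈ K, x ≠ 0 → v.triv x)
    (m : TT D) : ∃ (r : ℕ) (a b : Fin r → D), EAd v K b ∧
      m - ∑ j, a j ⊗ₜ[ZMod 2] b j ∈ Rel K := by
  classical
  obtain ⟨S, hS⟩ := TensorProduct.exists_finset m
  obtain ⟨r, b, hb, hY⟩ := ead_span v K hK (S.image Prod.snd)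
  have hex : ∀ p : D × D, p ∈ S → ∃ e : Fin r → D, (∀ j, e j ∈ K) ∧ p.2 = ∑ i, e i * b i :=
    fun p hp => hY p.2 (Finset.mem_image_of_mem _ hp)
  choose! E hE1 hE2 using hex
  refine ⟨r, fun j => ∑ p ∈ S, p.1 * E p j, b, hb, ?_⟩
  have e1 : m = ∑ p ∈ S, ∑ j, p.1 ⊗ₜ[ZMod 2] (E p j * b j) := by
    rw [hS]
    refine Finset.sum_congr rfl fun p hp => ?_
    rw [← TensorProduct.tmul_sum, ← hE2 p hp]
  have e2 : ∑ j, (∑ p ∈ S, p.1 * E p j) ⊗ₜ[ZMod 2] b j =
      ∑ p ∈ S, ∑ j, (p.1 * E p j) ⊗ₜ[ZMod 2] b j := by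
    rw [Finset.sum_comm]
    refine Finset.sum_congr rfl fun j _ => ?_
    rw [TensorProduct.sum_tmul]
  rw [e2, e1, ← Finset.sum_sub_distrib]
  refine Submodule.sum_mem _ fun p hp => ?_
  rw [← Finset.sum_sub_distrib]
  refine Submodule.sum_mem _ fun j _ => ?_
  rw [← neg_sub]
  exact Submodule.neg_mem _ (ead_rel K _ _ _ (hE1 p hp j))

/-- a left `K`-linear functional -/
private theorem ead_fun (v : PV D) (K : Subfield D) (hK : ∀ x ∈ K, x ≠ 0 → v.triv x) {r : ℕ}
    (b : Fin r → D) (hb : EAd v K b) (h : D) (hh : h ≠ 0) (j : Fin r) (hj : v.le (b j) h) :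
    ∃ f : D →ₗ[ZMod 2] D, (∀ e ∈ K, ∀ x, f (e * x) = e * f x) ∧ (∀ x, f x ∈ K) ∧
      (∀ x, ¬ v.le x h → f x = 0) ∧ (∀ i, i ≠ j → f (b i) = 0) ∧ f (b j) ≠ 0 := by
  classical
  let D' : Submodule K D :=
    { carrier := {x | ¬ v.le x h}
      add_mem' := fun {x y} hx hy => ead_slt v hx hy
      zero_mem' := ead_slt_zero v hh
      smul_mem' := fun c x hx => by
        by_cases hc : (c : D) = 0
        · have : c • x = 0 := by rw [Subfield.smul_def, hc, zero_smul]
          rw [this]
          exact ead_slt_zero v hh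
        · intro hle
          apply hx
          rw [Subfield.smul_def, smul_eq_mul] at hle
          exact v.trans _ _ _ (ead_l v (hK _ c.2 hc) x).2 hle }
  let Wp : Submodule K D := D' ⊔ Submodule.span K (b '' {i | i ≠ j})
  have hsp : ∀ x ∈ Submodule.span K (b '' {i | i ≠ j}), ∃ e : Fin r → D, (∀ i, e i ∈ K) ∧
      e j = 0 ∧ x = ∑ i, e i * b i := by
    intro x hx
    induction hx using Submodule.span_induction with
    | mem x hx =>
      obtain ⟨i, hi, rfl⟩ := hx
      refine ⟨Pi.single i 1, fun k => ?_, ?_, ?_⟩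
      · by_cases hk : k = i
        · subst hk
          rw [Pi.single_eq_same]
          exact one_mem K
        · rw [Pi.single_eq_of_ne hk]
          exact zero_mem K
      · exact Pi.single_eq_of_ne (Ne.symm hi) _
      · rw [Finset.sum_eq_single i]
        · rw [Pi.single_eq_same, one_mul]
        · intro k _ hk
          rw [Pi.single_eq_of_ne hk, zero_mul]
        · intro hn
          exact absurd (Finset.mem_univ i) hn
    | zero => exact ⟨fun _ => 0, fun _ => zero_mem K, rfl, by simp⟩
    | add x y _ _ hx hy =>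
      obtain ⟨e, he, he0, rfl⟩ := hx
      obtain ⟨f, hf, hf0, rfl⟩ := hy
      refine ⟨fun i => e i + f i, fun i => add_mem (he i) (hf i), by simp [he0, hf0], ?_⟩
      rw [← Finset.sum_add_distrib]
      exact Finset.sum_congr rfl fun i _ => (add_mul _ _ _).symm
    | smul c x _ hx =>
      obtain ⟨e, he, he0, rfl⟩ := hx
      refine ⟨fun i => (c : D) * e i, fun i => mul_mem c.2 (he i), by simp [he0], ?_⟩
      rw [Subfield.smul_def, smul_eq_mul, Finset.mul_sum]
      exact Finset.sum_congr rfl fun i _ => (mul_assoc _ _ _).symm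
  have hnot : b j ∉ Wp := by
    intro hmem
    obtain ⟨x, hx, s, hs, hxs⟩ := Submodule.mem_sup.1 hmem
    obtain ⟨e, he, he0, rfl⟩ := hsp s hs
    have h1 : x = ∑ i, (e i + (Pi.single j 1 : Fin r → D) i) * b i := by
      have h2 : ∑ i, (Pi.single j 1 : Fin r → D) i * b i = b j := by
        rw [Finset.sum_eq_single j]
        · rw [Pi.single_eq_same, one_mul]
        · intro k _ hk
          rw [Pi.single_eq_of_ne hk, zero_mul]
        · intro hn
          exact absurd (Finset.mem_univ j) hn
      have h3 : ∑ i, (e i + (Pi.single j 1 : Fin r → D) i) * b i =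
          ∑ i, e i * b i + b j := by
        rw [← h2, ← Finset.sum_add_distrib]
        exact Finset.sum_congr rfl fun i _ => add_mul _ _ _
      rw [h3, ← hxs]
      calc x = x + (∑ i, e i * b i + ∑ i, e i * b i) := by rw [ead_two, add_zero]
        _ = _ := by abel
    have h4 := hb.2 (fun i => e i + (Pi.single j 1 : Fin r → D) i) (fun i => by
      refine add_mem (he i) ?_
      by_cases hk : i = j
      · subst hk
        rw [Pi.single_eq_same]
        exact one_mem K
      · rw [Pi.single_eq_of_ne hk]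
        exact zero_mem K) j (by simp [he0])
    rw [← h1] at h4
    exact hx (v.trans _ _ _ h4 hj)
  obtain ⟨f, hf1, hf2⟩ := Submodule.exists_le_ker_of_notMem hnot
  let g : D →+ D := (Subfield.subtype K : K →+* D).toAddMonoidHom.comp f.toAddMonoidHom
  have hg : ∀ x, g.toZModLinearMap 2 x = ((f x : K) : D) := fun x => rfl
  refine ⟨g.toZModLinearMap 2, ?_, ?_, ?_, ?_, ?_⟩
  · intro e he x
    rw [hg, hg]
    have h1 : f (e * x) = (⟨e, he⟩ : K) • f x := by
      rw [← map_smul]
      rfl
    rw [h1]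
    rfl
  · intro x
    rw [hg]
    exact (f x).2
  · intro x hx
    rw [hg]
    have h1 : f x = 0 := hf2 (Submodule.mem_sup_left hx)
    rw [h1]
    rfl
  · intro i hi
    rw [hg]
    have h1 : f (b i) = 0 :=
      hf2 (Submodule.mem_sup_right (Submodule.subset_span ⟨i, hi, rfl⟩))
    rw [h1]
    rfl
  · rw [hg]
    intro h1
    apply hf1
    exact Subtype.ext h1

theorem adapt (v : PV D) (K : Subfield D) (hK : ∀ x ∈ K, x ≠ 0 → v.triv x) (m : TT D)
    (hm : m ∉ Rel K) :
    ∃ (r : ℕ) (a b : Fin r → D), 0 < r ∧ (∀ j, a j ≠ 0 ∧ b j ≠ 0) ∧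
      ∀ g h : D, g ≠ 0 → h ≠ 0 → (m ∉ FF v K g h ↔ ∃ j, v.le (a j) g ∧ v.le (b j) h) := by
  classical
  have hex := ead_rep v K hK m
  obtain ⟨r, ⟨a, b, hb, hab⟩, hmin⟩ : ∃ r, (∃ a b : Fin r → D, EAd v K b ∧
      m - ∑ j, a j ⊗ₜ[ZMod 2] b j ∈ Rel K) ∧ ∀ r', r' < r → ¬ ∃ a b : Fin r' → D, EAd v K b ∧
      m - ∑ j, a j ⊗ₜ[ZMod 2] b j ∈ Rel K :=
    ⟨Nat.find hex, Nat.find_spec hex, fun r' h' => Nat.find_min hex h'⟩
  have hr0 : 0 < r := by
    rcases Nat.eq_zero_or_pos r with h0 | h0
    · exfalso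
      apply hm
      have h1 : ∑ j, a j ⊗ₜ[ZMod 2] b j = 0 := by
        refine Finset.sum_eq_zero fun j _ => ?_
        have := j.2
        omega
      rw [h1, sub_zero] at hab
      exact hab
    · exact h0
  have ha : ∀ j, a j ≠ 0 := by
    intro j hj
    obtain ⟨r', hr'⟩ : ∃ r', r = r' + 1 := ⟨r - 1, by omega⟩
    refine hmin r' (by omega) ?_
    subst hr'
    refine ⟨fun i => a (j.succAbove i), fun i => b (j.succAbove i), ⟨fun i => hb.1 _, ?_⟩, ?_⟩
    · intro e he i hi
      have h1 := hb.2 (j.insertNth 0 e) (by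
        intro k
        rcases Fin.eq_self_or_eq_succAbove j k with rfl | ⟨l, rfl⟩
        · rw [Fin.insertNth_apply_same]
          exact zero_mem K
        · rw [Fin.insertNth_apply_succAbove]
          exact he l) (j.succAbove i) (by rw [Fin.insertNth_apply_succAbove]; exact hi)
      rw [Fin.sum_univ_succAbove _ j] at h1
      simp only [Fin.insertNth_apply_same, Fin.insertNth_apply_succAbove, zero_mul,
        zero_add] at h1
      exact h1
    · rw [Fin.sum_univ_succAbove _ j, hj, TensorProduct.zero_tmul, zero_add] at hab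
      exact hab
  refine ⟨r, a, b, hr0, fun j => ⟨ha j, hb.1 j⟩, fun g h hg hh => ?_⟩
  constructor
  · intro hnm
    by_contra hcon
    push Not at hcon
    apply hnm
    have e : m = (m - ∑ j, a j ⊗ₜ[ZMod 2] b j) + ∑ j, a j ⊗ₜ[ZMod 2] b j := by
      rw [sub_add_cancel]
    rw [e]
    refine Submodule.add_mem _ (Submodule.mem_sup_right hab) (Submodule.sum_mem _ fun j _ => ?_)
    refine Submodule.mem_sup_left (Submodule.subset_span ⟨a j, b j, ?_, rfl⟩)
    by_cases h1 : v.le (a j) g
    · exact Or.inr (hcon j h1)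
    · exact Or.inl h1
  · rintro ⟨j, hj1, hj2⟩ hmem
    obtain ⟨f, f1, f2, f3, f4, f5⟩ := ead_fun v K hK b hb h hh j hj2
    let Ψ : TT D →ₗ[ZMod 2] D :=
      LinearMap.mul' (ZMod 2) D ∘ₗ TensorProduct.map LinearMap.id f
    have hΨ : ∀ x y : D, Ψ (x ⊗ₜ[ZMod 2] y) = x * f y := fun x y => rfl
    let Dg : Submodule (ZMod 2) D :=
      { carrier := {x | ¬ v.le x g}
        add_mem' := fun {x y} hx hy => ead_slt v hx hy
        zero_mem' := ead_slt_zero v hg
        smul_mem' := fun c x hx => by
          have hc : c = 0 ∨ c = 1 := by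
            revert c
            decide
          rcases hc with rfl | rfl
          · rw [zero_smul]
            exact ead_slt_zero v hg
          · rw [one_smul]
            exact hx }
    have hrel : ∀ x ∈ Rel K, Ψ x = 0 := by
      intro x hx
      have : Rel K ≤ LinearMap.ker Ψ := by
        unfold Rel
        rw [Submodule.span_le]
        rintro _ ⟨x, y, e, he, rfl⟩
        rw [SetLike.mem_coe, LinearMap.mem_ker, map_sub, hΨ, hΨ, f1 e he, mul_assoc, sub_self]
      exact this hx
    have hFF : ∀ x ∈ FF v K g h, Ψ x ∈ Dg := by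
      intro x hx
      have : FF v K g h ≤ Dg.comap Ψ := by
        unfold FF
        refine sup_le ?_ ?_
        · rw [Submodule.span_le]
          rintro _ ⟨x, y, hxy, rfl⟩
          rw [SetLike.mem_coe, Submodule.mem_comap, hΨ]
          by_cases h0 : f y = 0
          · rw [h0, mul_zero]
            exact Dg.zero_mem
          · rcases hxy with h1 | h1
            · intro h2
              exact h1 (v.trans _ _ _ (ead_r v (hK _ (f2 y) h0) x).2 h2)
            · exact absurd (f3 y h1) h0
        · intro y hy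
          rw [Submodule.mem_comap, hrel y hy]
          exact Dg.zero_mem
      exact this hx
    have h1 := hFF m hmem
    have h2 : Ψ m = a j * f (b j) := by
      have h3 := hrel _ hab
      rw [map_sub, sub_eq_zero, map_sum] at h3
      rw [h3, Finset.sum_eq_single j]
      · exact hΨ _ _
      · intro i _ hi
        rw [hΨ, f4 i hi, mul_zero]
      · intro hn
        exact absurd (Finset.mem_univ j) hn
    rw [h2] at h1
    exact h1 (v.trans _ _ _ (ead_r v (hK _ (f2 (b j)) f5) (a j)).1 hj1)

end SingerRA
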