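import Mathlib
import Pool.Agent.Lib_MP_394d50_all.DDefs
import Pool.Agent.Lib_MP_394d50_all.EBase
import Pool.Agent.Lib_MP_394d50_all.ERel
import Pool.Agent.Lib_MP_394d50_all.EAdapt

/-!
Piece ELEAF: the leading term argument (about 200 lines), from `adapt` (EAdapt.lean) and `act_rel`.

Notation: for `m : TT D` and `g h ≠ 0`: `(g, h) ∈ S_K(m)` iff `m ∉ FF v K g h`.
(c) `S_K(m + m') ⊆ S_K(m) ∪ S_K(m')`, `S_K(m) = ∅` for `m ∈ Rel K` (as `Rel K ≤ FF`), and for finite sums.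
(d) If `θ x θ⁻¹ ∈ K1` for all `x ∈ K0` then `act θ (FF v K0 g h) ⊆ FF v K1 (g θ⁻¹) (θ h)` (because
    `act θ (a ⊗ b) = a θ⁻¹ ⊗ θ b`, `v.le (a θ⁻¹) (g θ⁻¹) ↔ v.le a g`, `v.le (θ b) (θ h) ↔ v.le b h`, and `act_rel`). The same for `θ⁻¹`, with
    hypothesis: `θ⁻¹ x θ ∈ K0` for `x ∈ K1` (`hK'`). So `(g, h) ∈ S_K0(m) ↔ (g θ⁻¹, θ h) ∈ S_K1(act θ m)`.

Suppose not all `m i ∈ Rel K0`. For the `i` with `m i ∉ Rel K0` let `(a^i_j, b^i_j)` be as in `adapt`. Choose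
`(i₀, j₀)` such that `γ = a^{i₀}_{j₀} b^{i₀}_{j₀}` is minimal for the preorder `v.le` among all the products
`a^i_j b^i_j` (finite nonempty set, total preorder: `Finset.exists_minimal` or induction). Call `(i, h)`, `h ≠ 0`, an EDGE if `m i ∉ Rel K0` and
`(γ h⁻¹, h) ∈ S_K0(m i)`. For an edge there is `j` with `v.le (a_j) (γ h⁻¹)`, `v.le (b_j) h`; then `v.le (a_j b_j) γ`,
minimality gives `v.le γ (a_j b_j)`, hence `v.le h (b_j)` (otherwise `v (b_j) < v h` and `v (a_j b_j) < v γ`): so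
`h` is equivalent to `b^i_j`, an element of a FINITE set `B` of elements (all the `b^i_j`). `(i₀, b^{i₀}_{j₀})` is an edge.
(L) if `(i, h)` is an edge there is `i' ≠ i` with `(i', h)` an edge: `m i = ∑ m - ∑_{i' ≠ i} m i'` with `∑ m ∈ Rel K0`, and (c).
(R) if `(i, h)` is an edge there is `i' ≠ i` such that `(i', θ(i')⁻¹ θ(i) h)` is an edge: by (d)
    `(γ h⁻¹ θ(i)⁻¹, θ(i) h) ∈ S_K1(act (θ i) (m i))`; by `s1` and (c) there is `i' ≠ i` with
    `(γ h⁻¹ θ(i)⁻¹, θ(i) h) ∈ S_K1(act (θ i') (m i'))`, and by (d) `(γ h⁻¹ θ(i)⁻¹ θ(i'), θ(i')⁻¹ θ(i) h) ∈ S_K0(m i')`.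
So there is an infinite sequence `f 0, f 1, f 2, …` in `ι` with `f j ≠ f (j+1)` such that, with `h_k = prodw θ f k * h₀`,
`(f (2k), h_k)` and `(f (2k+1), h_{k+1})` are edges: start with an edge `(f 0, h₀)`; (R) gives `f 1` and the edge `(f 1, h_1)`,
`h_1 = θ(f 1)⁻¹ θ(f 0) h₀`; (L) gives `f 2 ≠ f 1` with `(f 2, h_1)` an edge, and so on (`exists_seq`-type recursion on the subtype of edges).
Each `h_k` is equivalent (for `v.le` both ways) to an element of the finite set `B`, so there are `k < l` with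
`h_k` equivalent to `h_l` (pigeonhole, `Finite.exists_ne_map_eq_of_infinite`). But `h_l = prodw θ (f (2k + ·)) (l - k) * h_k` (induction on `l`), so
`v.triv (prodw θ (f (2k + ·)) (l - k))`, contradiction to `hw`.
-/

namespace SingerRA

open scoped TensorProduct

variable {D : Type} [DivisionRing D] [Algebra (ZMod 2) D]

omit [Algebra (ZMod 2) D] in
private theorem eleaf_mul_left_iff (v : PV D) {c : D} (hc : c ≠ 0) (a b : D) :
    v.le (c * a) (c * b) ↔ v.le a b := by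
  constructor
  · intro h
    have := v.mul_left _ _ c⁻¹ h
    rwa [inv_mul_cancel_left₀ hc, inv_mul_cancel_left₀ hc] at this
  · exact v.mul_left _ _ c

omit [Algebra (ZMod 2) D] in
private theorem eleaf_mul_right_iff (v : PV D) {c : D} (hc : c ≠ 0) (a b : D) :
    v.le (a * c) (b * c) ↔ v.le a b := by
  constructor
  · intro h
    have := v.mul_right _ _ c⁻¹ h
    rwa [mul_inv_cancel_right₀ hc, mul_inv_cancel_right₀ hc] at this
  · exact v.mul_right _ _ c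

/-- (d) -/
private theorem eleaf_act_FF (v : PV D) (K0 K1 : Subfield D) (θ : Dˣ)
    (hK : ∀ x ∈ K0, ((θ : Dˣ) : D) * x * ((θ⁻¹ : Dˣ) : D) ∈ K1) (g h : D) (x : TT D)
    (hx : x ∈ FF v K0 g h) :
    act θ x ∈ FF v K1 (g * ((θ⁻¹ : Dˣ) : D)) (((θ : Dˣ) : D) * h) := by
  have key : FF v K0 g h ≤
      (FF v K1 (g * ((θ⁻¹ : Dˣ) : D)) (((θ : Dˣ) : D) * h)).comap (act θ) := by
    unfold FF
    refine sup_le ?_ ?_
    · rw [Submodule.span_le]
      rintro _ ⟨a, b, hab, rfl⟩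
      rw [SetLike.mem_coe, Submodule.mem_comap, act_tmul]
      refine Submodule.mem_sup_left (Submodule.subset_span ⟨_, _, ?_, rfl⟩)
      rcases hab with h1 | h1
      · left
        rwa [eleaf_mul_right_iff v (Units.ne_zero _)]
      · right
        rwa [eleaf_mul_left_iff v (Units.ne_zero _)]
    · intro y hy
      rw [Submodule.mem_comap]
      exact Submodule.mem_sup_right (act_rel θ K0 K1 hK y hy)
  exact key hx

/-- (c) -/
private theorem eleaf_other {ι : Type} [Fintype ι] (v : PV D) (K : Subfield D) (m : ι → TT D)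
    (s : ∑ i, m i ∈ Rel K) (g h : D) (i : ι) (hi : m i ∉ FF v K g h) :
    ∃ i', i' ≠ i ∧ m i' ∉ FF v K g h := by
  classical
  by_contra hcon
  push Not at hcon
  apply hi
  have e : m i = ∑ j, m j - ∑ j ∈ Finset.univ.erase i, m j := by
    rw [← Finset.add_sum_erase _ _ (Finset.mem_univ i)]
    abel
  rw [e]
  refine Submodule.sub_mem _ (Submodule.mem_sup_right s) (Submodule.sum_mem _ fun j hj => ?_)
  exact hcon j (Finset.ne_of_mem_erase hj)

omit [Algebra (ZMod 2) D] in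
private theorem eleaf_min (v : PV D) {α : Type} [Finite α] [Nonempty α] (f : α → D) :
    ∃ x0, ∀ x, v.le (f x0) (f x) := by
  classical
  have := Fintype.ofFinite α
  have key : ∀ s : Finset α, s.Nonempty → ∃ x0 ∈ s, ∀ x ∈ s, v.le (f x0) (f x) := by
    intro s hs
    induction hs using Finset.Nonempty.cons_induction with
    | singleton a =>
      refine ⟨a, Finset.mem_singleton_self a, fun x hx => ?_⟩
      rw [Finset.mem_singleton] at hx
      subst hx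
      rcases v.total (f x) (f x) with h | h <;> exact h
    | cons a s has hs ih =>
      obtain ⟨x0, hx0, h0⟩ := ih
      rcases v.total (f a) (f x0) with h | h
      · refine ⟨a, Finset.mem_cons_self a s, fun x hx => ?_⟩
        rcases Finset.mem_cons.1 hx with rfl | hx
        · rcases v.total (f x) (f x) with h | h <;> exact h
        · exact v.trans _ _ _ h (h0 x hx)
      · refine ⟨x0, Finset.mem_cons_of_mem hx0, fun x hx => ?_⟩
        rcases Finset.mem_cons.1 hx with rfl | hx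
        · exact h
        · exact h0 x hx
  obtain ⟨x0, _, h0⟩ := key Finset.univ Finset.univ_nonempty
  exact ⟨x0, fun x => h0 x (Finset.mem_univ x)⟩

theorem leaf {ι : Type} [Fintype ι] (v : PV D) (K0 K1 : Subfield D)
    (h0 : ∀ x ∈ K0, x ≠ 0 → v.triv x) (θ : ι → Dˣ)
    (hK : ∀ i, ∀ x ∈ K0, ((θ i : Dˣ) : D) * x * (((θ i)⁻¹ : Dˣ) : D) ∈ K1)
    (hK' : ∀ i, ∀ x ∈ K1, (((θ i)⁻¹ : Dˣ) : D) * x * ((θ i : Dˣ) : D) ∈ K0)
    (m : ι → TT D) (s0 : ∑ i, m i ∈ Rel K0) (s1 : ∑ i, act (θ i) (m i) ∈ Rel K1)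
    (hw : ∀ f : ℕ → ι, (∀ j, f j ≠ f (j + 1)) → ∀ k, 1 ≤ k →
      ¬ v.triv ((prodw θ f k : Dˣ) : D)) :
    ∀ i, m i ∈ Rel K0 := by
  classical
  by_contra hcon
  push Not at hcon
  obtain ⟨i1, hi1⟩ := hcon
  -- adapted representations
  choose r a b hr hne hS using fun i : {i // m i ∉ Rel K0} => adapt v K0 h0 (m i.1) i.2
  have hnon : Nonempty (Σ i : {i // m i ∉ Rel K0}, Fin (r i)) :=
    ⟨⟨⟨i1, hi1⟩, ⟨0, hr _⟩⟩⟩
  obtain ⟨⟨i0, j0⟩, hmin⟩ := eleaf_min v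
    (fun p : Σ i : {i // m i ∉ Rel K0}, Fin (r i) => a p.1 p.2 * b p.1 p.2)
  set γ : D := a i0 j0 * b i0 j0 with hγ
  have hγ0 : γ ≠ 0 := mul_ne_zero (hne i0 j0).1 (hne i0 j0).2
  -- edges
  let Edge : ι → D → Prop := fun i h => h ≠ 0 ∧ m i ∉ FF v K0 (γ * h⁻¹) h
  have hedge0 : Edge i0.1 (b i0 j0) := by
    refine ⟨(hne i0 j0).2, ?_⟩
    rw [hS i0 _ _ (mul_ne_zero hγ0 (inv_ne_zero (hne i0 j0).2)) (hne i0 j0).2]
    refine ⟨j0, ?_, ?_⟩
    · rw [hγ, mul_assoc, mul_inv_cancel₀ (hne i0 j0).2, mul_one]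
      rcases v.total (a i0 j0) (a i0 j0) with h | h <;> exact h
    · rcases v.total (b i0 j0) (b i0 j0) with h | h <;> exact h
  have hfin : ∀ i h, Edge i h → ∃ p : Σ i : {i // m i ∉ Rel K0}, Fin (r i),
      v.le h (b p.1 p.2) ∧ v.le (b p.1 p.2) h := by
    rintro i h ⟨hh, hm⟩
    have hi : m i ∉ Rel K0 := fun hc => hm (Submodule.mem_sup_right hc)
    obtain ⟨j, h1, h2⟩ := (hS ⟨i, hi⟩ _ _ (mul_ne_zero hγ0 (inv_ne_zero hh)) hh).1 hm
    refine ⟨⟨⟨i, hi⟩, j⟩, ?_, h2⟩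
    have h3 := hmin ⟨⟨i, hi⟩, j⟩
    have h4 := v.mul_right _ _ (b ⟨i, hi⟩ j) h1
    have h5 := v.trans _ _ _ h3 h4
    have h6 : v.le (γ * 1) (γ * (h⁻¹ * b ⟨i, hi⟩ j)) := by
      rw [mul_one, ← mul_assoc]
      exact h5
    rw [eleaf_mul_left_iff v hγ0] at h6
    have h7 := v.mul_left _ _ h h6
    rwa [mul_one, mul_inv_cancel_left₀ hh] at h7
  have hL : ∀ i h, Edge i h → ∃ i', i' ≠ i ∧ Edge i' h := by
    rintro i h ⟨hh, hm⟩
    obtain ⟨i', h1, h2⟩ := eleaf_other v K0 m s0 _ _ i hm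
    exact ⟨i', h1, hh, h2⟩
  have hR : ∀ i h, Edge i h → ∃ i', i' ≠ i ∧
      Edge i' ((((θ i')⁻¹ * θ i : Dˣ) : D) * h) := by
    rintro i h ⟨hh, hm⟩
    have h1 : act (θ i) (m i) ∉ FF v K1 (γ * h⁻¹ * (((θ i)⁻¹ : Dˣ) : D))
        (((θ i : Dˣ) : D) * h) := by
      intro hc
      apply hm
      have h2 := eleaf_act_FF v K1 K0 (θ i)⁻¹ (fun x hx => by rw [inv_inv]; exact hK' i x hx)
        _ _ _ hc
      rw [← act_mul, inv_mul_cancel, act_one, inv_inv, mul_assoc (γ * h⁻¹), ← Units.val_mul,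
        inv_mul_cancel, Units.val_one, mul_one, ← mul_assoc, ← Units.val_mul, inv_mul_cancel,
        Units.val_one, one_mul] at h2
      exact h2
    obtain ⟨i', hi', h2⟩ := eleaf_other v K1 (fun i => act (θ i) (m i)) s1 _ _ i h1
    refine ⟨i', hi', mul_ne_zero (Units.ne_zero _) hh, fun hc => h2 ?_⟩
    have h3 := eleaf_act_FF v K0 K1 (θ i') (hK i') _ _ _ hc
    have e1 : γ * ((((θ i')⁻¹ * θ i : Dˣ) : D) * h)⁻¹ * (((θ i')⁻¹ : Dˣ) : D) =
        γ * h⁻¹ * (((θ i)⁻¹ : Dˣ) : D) := by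
      rw [mul_inv_rev, ← Units.val_inv_eq_inv_val, mul_inv_rev, inv_inv, mul_assoc γ,
        mul_assoc h⁻¹, ← Units.val_mul, mul_assoc (θ i)⁻¹, mul_inv_cancel, mul_one, ← mul_assoc]
    have e2 : ((θ i' : Dˣ) : D) * ((((θ i')⁻¹ * θ i : Dˣ) : D) * h) = ((θ i : Dˣ) : D) * h := by
      rw [← mul_assoc, ← Units.val_mul, mul_inv_cancel_left]
    rw [e1, e2] at h3
    exact h3
  -- the infinite path
  choose L hL1 hL2 using hL
  choose R hR1 hR2 using hR
  let nxt : {p : ι × D // Edge p.1 p.2} → {p : ι × D // Edge p.1 p.2} := fun e =>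
    ⟨(L _ _ (hR2 e.1.1 e.1.2 e.2), (((θ (R e.1.1 e.1.2 e.2))⁻¹ * θ e.1.1 : Dˣ) : D) * e.1.2),
      hL2 _ _ (hR2 e.1.1 e.1.2 e.2)⟩
  let sq : ℕ → {p : ι × D // Edge p.1 p.2} := fun k => nxt^[k] ⟨(i0.1, b i0 j0), hedge0⟩
  have hsq : ∀ k, sq (k + 1) = nxt (sq k) := fun k => Function.iterate_succ_apply' nxt k _
  let f : ℕ → ι := fun n => if n % 2 = 0 then (sq (n / 2)).1.1 else
    R (sq (n / 2)).1.1 (sq (n / 2)).1.2 (sq (n / 2)).2
  have fe : ∀ k, f (2 * k) = (sq k).1.1 := by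
    intro k
    have h1 : 2 * k % 2 = 0 := by omega
    have h2 : 2 * k / 2 = k := by omega
    change (if 2 * k % 2 = 0 then (sq (2 * k / 2)).1.1 else _) = _
    rw [if_pos h1, h2]
  have fo : ∀ k, f (2 * k + 1) = R (sq k).1.1 (sq k).1.2 (sq k).2 := by
    intro k
    have h1 : ¬ (2 * k + 1) % 2 = 0 := by omega
    have h2 : (2 * k + 1) / 2 = k := by omega
    change (if (2 * k + 1) % 2 = 0 then _ else
      R (sq ((2 * k + 1) / 2)).1.1 (sq ((2 * k + 1) / 2)).1.2 (sq ((2 * k + 1) / 2)).2) = _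
    rw [if_neg h1]
    simp only [h2]
  have hne : ∀ j, f j ≠ f (j + 1) := by
    intro j
    rcases Nat.even_or_odd' j with ⟨k, rfl | rfl⟩
    · rw [fe, fo]
      exact (hR1 _ _ _).symm
    · rw [fo, show 2 * k + 1 + 1 = 2 * (k + 1) by ring, fe, hsq]
      exact (hL1 _ _ _).symm
  have hprod : ∀ k n, (sq (k + n)).1.2 =
      ((prodw θ (fun j => f (2 * k + j)) n : Dˣ) : D) * (sq k).1.2 := by
    intro k n
    induction n with
    | zero => simp [prodw]
    | succ n ih =>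
      have e1 : (sq (k + (n + 1))).1.2 =
          (((θ (f (2 * (k + n) + 1)))⁻¹ * θ (f (2 * (k + n))) : Dˣ) : D) * (sq (k + n)).1.2 := by
        rw [← add_assoc, hsq, fe, fo]
      have e2 : prodw θ (fun j => f (2 * k + j)) (n + 1) =
          (θ (f (2 * (k + n) + 1)))⁻¹ * θ (f (2 * (k + n))) *
            prodw θ (fun j => f (2 * k + j)) n := by
        rw [prodw]
        have e3 : 2 * k + (2 * n + 1) = 2 * (k + n) + 1 := by ring
        have e4 : 2 * k + 2 * n = 2 * (k + n) := by ring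
        rw [e3, e4]
      rw [e1, ih, e2, ← mul_assoc, ← Units.val_mul]
  choose pt hpt using fun k => hfin _ _ (sq k).2
  obtain ⟨k, l, hkl, hp⟩ := Finite.exists_ne_map_eq_of_infinite pt
  wlog hlt : k < l generalizing k l
  · exact this l k hkl.symm hp.symm (lt_of_le_of_ne (not_lt.1 hlt) hkl.symm)
  obtain ⟨n, rfl⟩ : ∃ n, l = k + n := ⟨l - k, by omega⟩
  have hk0 : (sq k).1.2 ≠ 0 := (sq k).2.1
  have h1 := (hpt k)
  have h2 := (hpt (k + n))
  rw [← hp, hprod k n] at h2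
  refine hw (fun j => f (2 * k + j)) (fun j => hne (2 * k + j)) n (by omega) ⟨?_, ?_⟩
  · have h3 := v.trans _ _ _ h1.1 h2.2
    have h4 : v.le (1 * (sq k).1.2)
        (((prodw θ (fun j => f (2 * k + j)) n : Dˣ) : D) * (sq k).1.2) := by
      rw [one_mul]
      exact h3
    rwa [eleaf_mul_right_iff v hk0] at h4
  · have h3 := v.trans _ _ _ h2.1 h1.2
    have h4 : v.le (((prodw θ (fun j => f (2 * k + j)) n : Dˣ) : D) * (sq k).1.2)
        (1 * (sq k).1.2) := by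
      rw [one_mul]
      exact h3
    rwa [eleaf_mul_right_iff v hk0] at h4

end SingerRA
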