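import Mathlib
import Pool.Agent.Lib_MP_394d50_all.EDefs
import Pool.Agent.Lib_MP_394d50_all.ERel
import Pool.Agent.Lib_MP_394d50_all.ELeaf
import Pool.Agent.Lib_MP_394d50_all.EAlt

/-!
Piece ETDIR: the sum of the invariants of the conjugates of `u` is direct (about 120 lines), from `leaf`, `wordk_ne_one`, `EqF_pW`.

Let `u_i = w_i u w_i⁻¹ ∈ pW G A`, `deg u_i = ev u`, `u_i u_i = 1`. Fix `χ`. Apply `leaf` with `v = S.v A`, `K0 = E χ`, `K1 = E (χ + ev u)`,
`θ i = th S.toUD u_i χ`, `m i = n i χ`: `h0` by `hF` and `S.F_triv`; `hK` by `EqF_pW` for `u_i`, `hK'` by `EqF_pW` for `u_i` at `χ + ev u`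
(`th u_i (χ + ev u) = (th u_i χ)⁻¹` because `u_i u_i = 1`: `th_mul`, `th_one`; and `add_ev_ev`). `s0` is `hs` at `χ`. `s1`:
`act (θ i) (n i χ) = (rep u_i (n i)) (χ + ev u)` (`rep_apply`) which is `n i (χ + ev u)` modulo `Rel (E (χ + ev u))` by `hn`.
`hw`: let `f : ℕ → Fin k` with `f j ≠ f (j+1)`. By induction on `l`: `deg G (wordk G u (w ∘ f) l) = 0` and
`th S.toUD (wordk G u (w ∘ f) l) χ = prodw θ f l` (`th_mul`, `th u_i (χ + ev u) = (th u_i χ)⁻¹`, the degree of the
rest is `0`). `wordk ∈ pW G A`. So if `prodw θ f l` is trivial then by `S.inj` the word is `1`, contradiction to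
`wordk_ne_one` (`hne` for `f j ≠ f (j+1)`).
-/

namespace SingerRA

theorem tdir {V : Type} [Fintype V] [DecidableEq V] {G : SimpleGraph V} {D : Type} [DivisionRing D]
    [Algebra (ZMod 2) D] (S : Sys G D) (A : Finset V) (u : V) (hu : u ∈ A)
    (E : QV V → Subfield D) (hE : EqF S.t A E) (hF : ∀ χ, E χ ≤ S.F A) (k : ℕ)
    (w : Fin k → W G) (n : Fin k → MM V D) (hw : ∀ i, w i ∈ pW G (A.erase u))
    (hne : ∀ i j, i ≠ j → (w i)⁻¹ * w j ∉ pW G (lkA G A u))
    (hn : ∀ i, rep S.toUD (w i * gen G u * (w i)⁻¹) (n i) - n i ∈ RelF E)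
    (hs : ∑ i, n i ∈ RelF E) : ∀ i, n i ∈ RelF E := by
  classical
  intro i0
  let U : Fin k → W G := fun i => w i * gen G u * (w i)⁻¹
  have hpar : ∀ B : Finset V, B ⊆ A → pW G B ≤ pW G A := by
    intro B hB
    refine Subgroup.closure_mono ?_
    rintro _ ⟨v, hv, rfl⟩
    exact ⟨v, hB hv, rfl⟩
  have hwA : ∀ i, w i ∈ pW G A := fun i => hpar _ (Finset.erase_subset _ _) (hw i)
  have hUA : ∀ i, U i ∈ pW G A := fun i =>
    mul_mem (mul_mem (hwA i) (Subgroup.subset_closure ⟨u, hu, rfl⟩)) (inv_mem (hwA i))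
  have hUU : ∀ i, U i * U i = 1 := by
    intro i
    have h1 := gen_mul_self G u
    change w i * gen G u * (w i)⁻¹ * (w i * gen G u * (w i)⁻¹) = 1
    rw [mul_assoc (w i * gen G u), mul_assoc (w i) (gen G u) (w i)⁻¹, inv_mul_cancel_left,
      mul_assoc (w i), ← mul_assoc (gen G u), h1, one_mul, mul_inv_cancel]
  have hdeg : ∀ i, deg G (U i) = ev u := by
    intro i
    change deg G (w i * gen G u * (w i)⁻¹) = ev u
    rw [deg_mul, deg_mul, deg_inv, deg_gen]
    funext x
    have h2 : deg G (w i) x + deg G (w i) x = 0 := CharTwo.add_self_eq_zero _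
    simp only [Pi.add_apply]
    rw [add_right_comm, h2, zero_add]
  have hth : ∀ i χ, th S.toUD (U i) (χ + ev u) = (th S.toUD (U i) χ)⁻¹ := by
    intro i χ
    have h1 := th_mul S.toUD (U i) (U i) χ
    rw [hUU, th_one, hdeg] at h1
    exact eq_inv_of_mul_eq_one_left h1.symm
  rw [mem_relF]
  intro χ
  refine leaf (S.v A) (E χ) (E (χ + ev u)) (fun x hx hx0 => S.F_triv A x (hF χ hx) hx0)
    (fun i => th S.toUD (U i) χ) ?_ ?_ (fun i => n i χ) ?_ ?_ ?_ i0
  · intro i x hx
    have h1 := EqF_pW S.toUD A E hE (U i) (hUA i) χ x hx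
    rw [hdeg] at h1
    exact h1
  · intro i x hx
    have h1 := EqF_pW S.toUD A E hE (U i) (hUA i) (χ + ev u) x hx
    rw [hdeg, hth, inv_inv, add_ev_ev] at h1
    exact h1
  · have h1 := (mem_relF E _).1 hs χ
    rw [Finset.sum_apply] at h1
    exact h1
  · have h1 := (mem_relF E _).1 hs (χ + ev u)
    rw [Finset.sum_apply] at h1
    have e : ∀ i, act (th S.toUD (U i) χ) (n i χ) =
        (rep S.toUD (U i) (n i) - n i) (χ + ev u) + n i (χ + ev u) := by
      intro i
      have h2 := rep_apply S.toUD (U i) (n i) χ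
      rw [hdeg] at h2
      rw [← h2, Pi.sub_apply, sub_add_cancel]
    simp only [e]
    rw [Finset.sum_add_distrib]
    refine Submodule.add_mem _ (Submodule.sum_mem _ fun i _ => ?_) h1
    exact (mem_relF E _).1 (hn i) (χ + ev u)
  · intro f hf l hl htr
    have key : ∀ l, deg G (wordk G u (fun j => w (f j)) l) = 0 ∧
        th S.toUD (wordk G u (fun j => w (f j)) l) χ =
          prodw (fun i => th S.toUD (U i) χ) f l ∧
        wordk G u (fun j => w (f j)) l ∈ pW G A := by
      intro l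
      induction l with
      | zero =>
        refine ⟨deg_one G, ?_, one_mem _⟩
        exact th_one _ _
      | succ l ih =>
        obtain ⟨i1, i2, i3⟩ := ih
        have e : wordk G u (fun j => w (f j)) (l + 1) =
            U (f (2 * l + 1)) * U (f (2 * l)) * wordk G u (fun j => w (f j)) l := rfl
        rw [e]
        refine ⟨?_, ?_, mul_mem (mul_mem (hUA _) (hUA _)) i3⟩
        · rw [deg_mul, deg_mul, hdeg, hdeg, i1, ev_add_ev, add_zero]
        · rw [th_mul, i1, add_zero, th_mul, hdeg, hth, i2]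
          rfl
    obtain ⟨k1, k2, k3⟩ := key l
    rw [← k2] at htr
    have h1 := S.inj A _ k3 χ htr
    exact wordk_ne_one G A u (fun j => w (f j)) (fun j => hw _) (fun j => hne _ _ (hf j)) l hl h1

end SingerRA
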