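import Mathlib
import Pool.Agent.Lib_MP_394d50_all.EDefs
import Pool.Agent.Lib_MP_394d50_all.EOp
import Pool.Agent.Lib_MP_394d50_all.ERel
import Pool.Agent.Lib_MP_394d50_all.ETdir
import Pool.Agent.Lib_MP_394d50_all.EStarG
import Pool.Agent.Lib_MP_394d50_all.EKer
import Pool.Agent.Lib_MP_394d50_all.EExp
import Pool.Agent.Lib_MP_394d50_all.EGenc
import Pool.Agent.Lib_MP_394d50_all.EStarA

/-!
Piece ESTARB (about 150 lines). Notation `A' = A.erase u`, `C = lkA G A u`, `R = RelF E`,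
`s_v = Sop S.t v`, characteristic two (`mm_sub`, `mm_add_self`).

ESTARB `star_step`: from `star_lift` and `starg` with `Wg = W G`, `r = rep S.toUD`, `H = pW G A'`, `HC = pW G C`, `U = U₀ ⊔ R`, `U₀ = {m | s_u m = m}` (kernel of
`s_u - id`), `J = {v // v ∈ A'}`, `s v = gen G v`. `hR`: `rep_relF`. `hUC`: `s_v` (`v ∈ C`, adjacent to `u`) preserves `U₀` (`Sop_comm`) and `R`;
`rep_mem_of_pW`. `T`: `r (w i)⁻¹ (n i) ∈ U` gives `n i = r (w i) (m₀ + ρ)`, `s_u m₀ = m₀`, `ρ ∈ R`; so `rep (w_i u w_i⁻¹) (n i) - n i ∈ R`; then `tdir`.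
`hi`: `II` and `R` are in the span of the `r h m'`: if `rep (w u w⁻¹) m = m` then `m = rep w m'` with `m' = rep w⁻¹ m ∈ U₀`.
Result: `q = ρ + x`, `ρ ∈ R`, `x ∈ span {m - r c m}`; `genc` (with `C`, `U`) gives `x = ∑_{v ∈ C} (m v - s_v (m v))`, `m v = m₀ v + ρ v`;
put `d v = nm v (m₀ v)` for `v ∈ C`: it is `s_u`-invariant (`Sop_nm_adj`, `Sop_comm`) and `s_v`-invariant (`Sop_nm`).
-/

namespace SingerRA

open scoped TensorProduct

variable {V : Type} [Fintype V] [DecidableEq V] {G : SimpleGraph V} {D : Type} [DivisionRing D]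
  [Algebra (ZMod 2) D]

omit [Fintype V] [DecidableEq V] in
private theorem estarb_gen_mem {A : Finset V} {v : V} (hv : v ∈ A) : gen G v ∈ pW G A :=
  Subgroup.subset_closure ⟨v, hv, rfl⟩

omit [Fintype V] [DecidableEq V] in
private theorem estarb_mono {A B : Finset V} (h : A ⊆ B) : pW G A ≤ pW G B := by
  apply Subgroup.closure_mono
  rintro g ⟨v, hv, rfl⟩
  exact ⟨v, h hv, rfl⟩

omit [Fintype V] in
private theorem estarb_lk {A : Finset V} {u v : V} (h : v ∈ lkA G A u) :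
    v ∈ A.erase u ∧ G.Adj u v := by
  classical
  unfold lkA at h
  have h' := (Finset.mem_filter (p := fun v => G.Adj u v)).1 (by convert h)
  exact h'

theorem star_step (S : Sys G D) (A : Finset V) (u : V) (hu : u ∈ A) (E : QV V → Subfield D)
    (hE : EqF S.t A E) (hF : ∀ χ, E χ ≤ S.F A)
    (IH : ∀ E' : QV V → Subfield D, EqF S.t (A.erase u) E' → (∀ χ, E' χ ≤ S.F (A.erase u)) →
      ExM G S.t (A.erase u) (RelF E'))
    (q : MM V D) (hq : Sop S.t u q = q) (n : V → MM V D)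
    (hn : ∀ v ∈ A.erase u, Sop S.t v (n v) = n v) (hs : q - ∑ v ∈ A.erase u, n v ∈ RelF E) :
    ∃ dd : V → MM V D, (∀ v ∈ lkA G A u, Sop S.t u (dd v) = dd v ∧ Sop S.t v (dd v) = dd v) ∧
      q - ∑ v ∈ lkA G A u, dd v ∈ RelF E := by
  obtain ⟨i, hi1, hi2⟩ := star_lift S A u hu E hE hF IH q hq n hn hs
  set U0 : Submodule (ZMod 2) (MM V D) :=
    LinearMap.ker (Sop S.t u - LinearMap.id) with hU0
  have hmem0 : ∀ m, m ∈ U0 ↔ Sop S.t u m = m := by
    intro m
    rw [hU0, LinearMap.mem_ker, LinearMap.sub_apply, LinearMap.id_apply, sub_eq_zero]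
  set U : Submodule (ZMod 2) (MM V D) := U0 ⊔ RelF E with hU
  have hRU : RelF E ≤ U := le_sup_right
  have hrel : ∀ w ∈ pW G A, ∀ m ∈ RelF E, rep S.toUD w m ∈ RelF E := fun w hw m hm =>
    rep_relF S.toUD A E hE w hw m hm
  have hA' : pW G (A.erase u) ≤ pW G A := estarb_mono (Finset.erase_subset u A)
  have hC : pW G (lkA G A u) ≤ pW G (A.erase u) := estarb_mono fun v hv => (estarb_lk hv).1
  have hUv : ∀ v ∈ lkA G A u, ∀ m ∈ U, Sop S.t v m ∈ U := by
    intro v hv m hm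
    obtain ⟨hv1, hv2⟩ := estarb_lk hv
    obtain ⟨m0, h0, ρ, h1, rfl⟩ := Submodule.mem_sup.1 hm
    rw [map_add]
    refine Submodule.add_mem_sup ?_ ?_
    · rw [hmem0] at h0 ⊢
      have hc := Sop_comm S.toUD hv2 m0
      rw [hc, h0]
    · exact Sop_relF S.t A E hE v (Finset.mem_of_mem_erase hv1) ρ h1
  have key := starg (rep S.toUD) (pW G (A.erase u)) (pW G (lkA G A u)) hC (RelF E) U
    (fun h hh m hm => hrel h (hA' hh) m hm) hRU
    (fun h hh m hm => rep_mem_of_pW S.toUD (lkA G A u) U hUv h hh m hm)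
    (by
      intro k w n' hw hne hn' hsum
      refine tdir S A u hu E hE hF k w n' hw hne ?_ hsum
      intro j
      obtain ⟨m0, h0, ρ, h1, h2⟩ := Submodule.mem_sup.1 (hn' j)
      rw [hmem0] at h0
      have h3 : n' j = rep S.toUD (w j) (m0 + ρ) := by
        rw [h2, ← rep_mul, mul_inv_cancel, rep_one]
      have h4 : rep S.toUD (w j * gen G u * (w j)⁻¹) (n' j) =
          rep S.toUD (w j) (Sop S.t u (m0 + ρ)) := by
        rw [rep_mul, rep_mul, h2]
        exact congrArg (rep S.toUD (w j)) (congrArg (fun f => f (rep S.toUD (w j)⁻¹ (n' j)))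
          (rep_gen S.toUD u))
      rw [h4, h3, ← map_sub, map_add (Sop S.t u), h0, add_sub_add_left_eq_sub]
      exact hrel _ (hA' (hw j)) _ (Submodule.sub_mem _ (Sop_relF S.t A E hE u hu ρ h1) h1))
    q (Submodule.mem_sup_left ((hmem0 q).2 hq)) {v // v ∈ A.erase u} (fun j => gen G j.1)
    (fun j => estarb_gen_mem j.2) (fun j => i j.1)
    (by
      intro j
      have h1 : II S.toUD A u ⊔ RelF E ≤ Submodule.span (ZMod 2)
          {m | ∃ h ∈ pW G (A.erase u), ∃ m' ∈ U, m = rep S.toUD h m'} := by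
        refine sup_le ?_ ?_
        · unfold II
          refine Submodule.span_mono ?_
          rintro m ⟨w, hw, hm⟩
          refine ⟨w, hw, rep S.toUD w⁻¹ m, ?_, ?_⟩
          · refine Submodule.mem_sup_left ((hmem0 _).2 ?_)
            have h2 : Sop S.t u (rep S.toUD w⁻¹ m) = rep S.toUD (gen G u) (rep S.toUD w⁻¹ m) :=
              congrArg (fun f => f (rep S.toUD w⁻¹ m)) (rep_gen S.toUD u).symm
            have h3 := congrArg (rep S.toUD w⁻¹) hm
            rw [← rep_mul, mul_assoc, ← mul_assoc, inv_mul_cancel, one_mul] at h3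
            rw [h2, ← rep_mul, h3]
          · rw [← rep_mul, mul_inv_cancel, rep_one]
        · intro m hm
          exact Submodule.subset_span ⟨1, one_mem _, m, hRU hm, (rep_one S.toUD m).symm⟩
      exact h1 (hi1 j.1 j.2))
    (by
      have h1 : ∑ j : {v // v ∈ A.erase u}, (i j.1 - rep S.toUD (gen G j.1) (i j.1)) =
          ∑ v ∈ A.erase u, nm S.t v (i v) := by
        rw [← Finset.sum_coe_sort (A.erase u) (fun v => nm S.t v (i v))]
        refine Finset.sum_congr rfl fun j _ => ?_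
        rw [mm_sub, nm_apply]
        exact congrArg (i j.1 + ·) (congrArg (fun f => f (i j.1)) (rep_gen S.toUD j.1))
      rw [h1]
      exact hi2)
  obtain ⟨ρ, hρ, x, hx, hqx⟩ := Submodule.mem_sup.1 key
  obtain ⟨m, hm, hxm⟩ := genc S.toUD (lkA G A u) U hUv x hx
  choose m0 h0 ρ' h1 h2 using fun v => Submodule.mem_sup.1 (hm v)
  refine ⟨fun v => nm S.t v (m0 v), ?_, ?_⟩
  · intro v hv
    obtain ⟨_, hv2⟩ := estarb_lk hv
    refine ⟨?_, Sop_nm S.t v (m0 v)⟩
    have h3 := Sop_nm_adj S.toUD hv2.symm (m0 v)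
    rw [h3, (hmem0 _).1 (h0 v)]
  · have h3 : q - ∑ v ∈ lkA G A u, nm S.t v (m0 v) =
        ρ + ∑ v ∈ lkA G A u, (ρ' v - Sop S.t v (ρ' v)) := by
      rw [← hqx, hxm, add_sub_assoc, ← Finset.sum_sub_distrib]
      congr 1
      refine Finset.sum_congr rfl fun v _ => ?_
      rw [← h2 v, map_add, nm_apply, ← mm_sub (m0 v) (Sop S.t v (m0 v))]
      abel
    rw [h3]
    refine Submodule.add_mem _ hρ (Submodule.sum_mem _ fun v hv => ?_)
    obtain ⟨hv1, _⟩ := estarb_lk hv
    exact Submodule.sub_mem _ (h1 v)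
      (Sop_relF S.t A E hE v (Finset.mem_of_mem_erase hv1) _ (h1 v))

end SingerRA
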