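import Mathlib
import Pool.Agent.Lib_MP_394d50_all.EDefs
import Pool.Agent.Lib_MP_394d50_all.EOp
import Pool.Agent.Lib_MP_394d50_all.ERel
import Pool.Agent.Lib_MP_394d50_all.EStar

/-!
Piece EMAIN: the induction (about 250 lines), from `star_step`.

`exact_all`: strong induction on `A.card`. `A = ∅`: a chain in `Cch G t ∅ i`, `i ≥ 1`, is zero; take `d = 0`. Otherwise `u ∈ A`,
`A' = A.erase u`, `C = lkA G A u`, `R = RelF E`. `E` is also compatible with `A'`, `C` and `≤ S.F A'`, `≤ S.F C` (`S.F_mono`), so the
induction hypothesis gives `ExM` for `(A', R)` and for `(C, R)`, and the hypothesis `IH` of `star_step`.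
Let `c ∈ Cch G t A i`, `bd c τ ∈ R`. For `ρ ⊆ C` put `cu ρ = c (insert u ρ)` (and `0` for other `ρ`).
(a) there is `d1 ∈ Cch G t A (i+1)`, supported on the `σ ∋ u`, with `c σ - bd d1 σ ∈ R` for all `σ ∋ u`.
  `i ≥ 2`: `cu ∈ Cch G t C (i-1)` (cliques: `insert u ρ` is a clique and then `ρ` is; the invariance under `s_v`, `v ∈ ρ`) and `bd cu τ ∈ R`:
  for `τ ⊆ C` with `u ∉ τ` it equals `bd c (insert u τ)` (the terms with `v ∉ C` vanish: `insert v (insert u τ)` is not a clique inside `A`);
  for `τ` not in `C` it is `0`. `ExM (C, R)` gives `d' ∈ Cch G t C i` with `cu τ - bd d' τ ∈ R`. Put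
  `d1 σ = sym t u (d' (σ.erase u))` if `u ∈ σ` and `σ.erase u ⊆ C`, and `0` otherwise. It is `s_u`-invariant (`Sop_sym`) and `s_v`-invariant for
  `v ∈ σ.erase u ⊆ C` (`Sop_sym_adj`); `insert u ρ` is a clique for a clique `ρ ⊆ C`. For `σ = insert u ρ ∋ u`:
  `bd d1 σ = sym t u (bd d' ρ)`, and `c σ = sym t u (c σ)` (`sym_of_inv`), so `c σ - bd d1 σ = sym t u (cu ρ - bd d' ρ) ∈ R`
  (`r0_relF`, `nm_relF`, `u ∈ A`).
  `i = 1`: `q = c {u}`, `n v = c {v}`; `q - ∑_{v ∈ A'} n v ∈ R` because `bd c ∅ = ∑_v c {v}` (characteristic two). `star_step` gives `dd`; put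
  `d1 {u, v} = dd v` for `v ∈ C` and `0` otherwise. `bd d1 {u} = ∑_{v ∈ C} dd v`.
(b) `c' = c - bd d1`; `c'' σ = c' σ` if `u ∉ σ`, else `0`. `c'' ∈ Cch G t A' i` and `bd c'' τ ∈ R`: for `u ∉ τ`: `bd c'' τ = bd c' τ - c' (insert u τ)`,
  `bd c' = bd c` (as `bd (bd d1) = 0` in characteristic two), and `c' (insert u τ) ∈ R` by (a). For `u ∈ τ` it is `0`.
  `ExM (A', R)`: `d'' ∈ Cch G t A' (i+1)` with `c'' τ - bd d'' τ ∈ R`. Take `d = d1 + d''` (`Cch` is closed under sums, and
  `Cch G t A' ⊆ Cch G t A`). For `u ∉ τ`: `c τ - bd d τ = c'' τ - bd d'' τ ∈ R`; for `u ∈ τ`: `bd d'' τ = 0` and (a).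

`exact_M`: `exact_all` for `A = univ`, `E χ = ⊥`: `EqF` because `g x g⁻¹ ∈ ⊥` for `x ∈ ⊥` (`⊥ ≤` comap of `⊥` under conjugation); `RelF ⊥ = ⊥` by `rel_bot`.
-/

namespace SingerRA

open scoped TensorProduct

variable {V : Type} [Fintype V] [DecidableEq V] {G : SimpleGraph V} {D : Type} [DivisionRing D]
  [Algebra (ZMod 2) D]

theorem bd_bd {X : Type} [AddCommGroup X] (h2 : ∀ x : X, x + x = 0) (z : Finset V → X)
    (τ : Finset V) : bd (fun ρ => bd z ρ) τ = 0 := by
  unfold bd
  rw [Finset.sum_sigma']
  refine Finset.sum_involution (fun a _ => ⟨a.2, a.1⟩) ?_ ?_ ?_ ?_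
  · rintro ⟨v, w⟩ _
    show z (insert w (insert v τ)) + z (insert v (insert w τ)) = 0
    rw [Finset.insert_comm]
    exact h2 _
  · rintro ⟨v, w⟩ h _ he
    have h1 : w = v := congrArg Sigma.fst he
    subst h1
    simp at h
  · rintro ⟨v, w⟩ h
    simp only [Finset.mem_sigma, Finset.mem_sdiff, Finset.mem_univ, true_and, Finset.mem_insert,
      not_or] at h ⊢
    exact ⟨h.2.2, fun h' => h.2.1 h'.symm, h.1⟩
  · rintro ⟨v, w⟩ _
    rfl

theorem bd_add {X : Type} [AddCommMonoid X] (z z' : Finset V → X) (τ : Finset V) :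
    bd (fun ρ => z ρ + z' ρ) τ = bd z τ + bd z' τ := by
  unfold bd
  exact Finset.sum_add_distrib

theorem bd_sub {X : Type} [AddCommGroup X] (z z' : Finset V → X) (τ : Finset V) :
    bd (fun ρ => z ρ - z' ρ) τ = bd z τ - bd z' τ := by
  unfold bd
  exact Finset.sum_sub_distrib _ _

omit [Fintype V] in
theorem cch_mono {t : V → Dˣ} {A A' : Finset V} (h : A' ⊆ A) {i : ℕ} {c : Finset V → MM V D}
    (hc : Cch G t A' i c) : Cch G t A i c := by
  refine ⟨fun σ hσ => hc.1 σ fun h' => hσ ⟨h'.1, h'.2.1.trans h, h'.2.2⟩, hc.2⟩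

omit [Fintype V] in
theorem cch_add {t : V → Dˣ} {A : Finset V} {i : ℕ} {c c' : Finset V → MM V D}
    (hc : Cch G t A i c) (hc' : Cch G t A i c') : Cch G t A i (fun σ => c σ + c' σ) := by
  refine ⟨fun σ hσ => ?_, fun σ v hv => ?_⟩
  · show c σ + c' σ = 0
    rw [hc.1 σ hσ, hc'.1 σ hσ, add_zero]
  · show Sop t v (c σ + c' σ) = c σ + c' σ
    rw [map_add, hc.2 σ v hv, hc'.2 σ v hv]

omit [Fintype V] in
theorem mem_lkA {A : Finset V} {u v : V} : v ∈ lkA G A u ↔ v ∈ A.erase u ∧ G.Adj u v := by
  classical
  unfold lkA
  exact Finset.mem_filter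

omit [Fintype V] [DecidableEq V] in
theorem cliq_sub {σ τ : Finset V} (h : τ ⊆ σ) (hσ : σ ∈ cliq G) : τ ∈ cliq G := by
  intro x hx y hy hxy
  exact hσ (h hx) (h hy) hxy

omit [Fintype V] in
/-- cliques of `A` containing `u` -/
theorem cliq_insert_iff {A : Finset V} {u : V} (hu : u ∈ A) {ρ : Finset V} (hρ : u ∉ ρ) (i : ℕ) :
    (insert u ρ ∈ cliq G ∧ insert u ρ ⊆ A ∧ (insert u ρ).card = i + 1) ↔
      (ρ ∈ cliq G ∧ ρ ⊆ lkA G A u ∧ ρ.card = i) := by
  constructor
  · rintro ⟨h1, h2, h3⟩
    refine ⟨cliq_sub (Finset.subset_insert _ _) h1, ?_, ?_⟩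
    · intro v hv
      have hne : v ≠ u := fun h => hρ (h ▸ hv)
      rw [mem_lkA, Finset.mem_erase]
      refine ⟨⟨hne, h2 (Finset.mem_insert_of_mem hv)⟩, ?_⟩
      exact h1 (Finset.mem_coe.2 (Finset.mem_insert_self u ρ))
        (Finset.mem_coe.2 (Finset.mem_insert_of_mem hv)) hne.symm
    · rw [Finset.card_insert_of_notMem hρ] at h3
      omega
  · rintro ⟨h1, h2, h3⟩
    refine ⟨?_, ?_, ?_⟩
    · intro x hx y hy hxy
      rw [Finset.mem_coe, Finset.mem_insert] at hx hy
      rcases hx with rfl | hx
      · rcases hy with rfl | hy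
        · exact absurd rfl hxy
        · exact (mem_lkA.1 (h2 hy)).2
      · rcases hy with rfl | hy
        · exact (mem_lkA.1 (h2 hx)).2.symm
        · exact h1 hx hy hxy
    · intro x hx
      rw [Finset.mem_insert] at hx
      rcases hx with rfl | hx
      · exact hu
      · exact Finset.mem_of_mem_erase (mem_lkA.1 (h2 hx)).1
    · rw [Finset.card_insert_of_notMem hρ, h3]

/-- the part (a), degrees at least two -/
theorem emain_a2 (S : Sys G D) (A : Finset V) (u : V) (hu : u ∈ A) (E : QV V → Subfield D)
    (hE : EqF S.t A E) (hC : ExM G S.t (lkA G A u) (RelF E)) (j : ℕ) (hj : 1 ≤ j)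
    (c : Finset V → MM V D) (hc : Cch G S.t A (j + 1) c) (hb : ∀ τ, bd c τ ∈ RelF E) :
    ∃ d1, Cch G S.t A (j + 1 + 1) d1 ∧ (∀ σ, u ∉ σ → d1 σ = 0) ∧
      ∀ σ, u ∈ σ → c σ - bd d1 σ ∈ RelF E := by
  classical
  set C := lkA G A u with hCdef
  have huC : ∀ ρ : Finset V, ρ ⊆ C → u ∉ ρ := by
    intro ρ hρ h
    have := (mem_lkA.1 (hρ h)).2
    exact G.loopless.irrefl u this
  set cu : Finset V → MM V D := fun ρ => if ρ ⊆ C then c (insert u ρ) else 0 with hcu
  have hcuC : Cch G S.t C j cu := by
    constructor
    · intro ρ hρ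
      by_cases h : ρ ⊆ C
      · rw [hcu]
        beta_reduce
        rw [if_pos h]
        apply hc.1
        intro h'
        exact hρ ((cliq_insert_iff hu (huC ρ h) j).1 h')
      · rw [hcu]
        beta_reduce
        rw [if_neg h]
    · intro ρ v hv
      by_cases h : ρ ⊆ C
      · rw [hcu]
        beta_reduce
        rw [if_pos h]
        exact hc.2 _ v (Finset.mem_insert_of_mem hv)
      · rw [hcu]
        beta_reduce
        rw [if_neg h, map_zero]
  have hcub : ∀ τ, bd cu τ ∈ RelF E := by
    intro τ
    by_cases h : τ ⊆ C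
    · have huτ := huC τ h
      have h1 : bd cu τ = bd c (insert u τ) := by
        unfold bd
        have h2 : ∑ v ∈ Finset.univ \ τ, cu (insert v τ) =
            ∑ v ∈ Finset.univ \ insert u τ, cu (insert v τ) := by
          symm
          apply Finset.sum_subset
          · exact Finset.sdiff_subset_sdiff (Finset.Subset.refl _) (Finset.subset_insert _ _)
          · intro v hv hv'
            have hvu : v = u := by
              simp only [Finset.mem_sdiff, Finset.mem_univ, true_and, Finset.mem_insert, not_or,
                not_and, not_not] at hv hv'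
              by_contra hne
              exact hv (hv' hne)
            rw [hvu, hcu]
            beta_reduce
            rw [if_neg]
            intro h3
            exact huC _ h3 (Finset.mem_insert_self _ _)
        rw [h2]
        refine Finset.sum_congr rfl fun v hv => ?_
        simp only [Finset.mem_sdiff, Finset.mem_univ, true_and, Finset.mem_insert, not_or] at hv
        rw [hcu]
        beta_reduce
        by_cases hvC : insert v τ ⊆ C
        · rw [if_pos hvC, Finset.insert_comm]
        · rw [if_neg hvC]
          symm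
          apply hc.1
          intro h'
          rw [Finset.insert_comm] at h'
          apply hvC
          have h4 : u ∉ insert v τ := by
            rw [Finset.mem_insert, not_or]
            exact ⟨fun h5 => hv.1 h5.symm, huτ⟩
          exact ((cliq_insert_iff hu h4 j).1 h').2.1
      rw [h1]
      exact hb _
    · have h1 : bd cu τ = 0 := by
        unfold bd
        refine Finset.sum_eq_zero fun v _ => ?_
        rw [hcu]
        beta_reduce
        rw [if_neg]
        intro h3
        exact h ((Finset.subset_insert _ _).trans h3)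
      rw [h1]
      exact zero_mem _
  obtain ⟨d', hd', hd'R⟩ := hC j hj cu hcuC hcub
  set d1 : Finset V → MM V D := fun σ =>
    if u ∈ σ ∧ σ.erase u ⊆ C then sym S.t u (d' (σ.erase u)) else 0 with hd1
  refine ⟨d1, ⟨?_, ?_⟩, ?_, ?_⟩
  · intro σ hσ
    rw [hd1]
    beta_reduce
    by_cases h : u ∈ σ ∧ σ.erase u ⊆ C
    · rw [if_pos h]
      have h1 : d' (σ.erase u) = 0 := by
        apply hd'.1
        intro h2
        apply hσ
        have h3 := (cliq_insert_iff hu (Finset.notMem_erase u σ) (j + 1)).2 h2
        rwa [Finset.insert_erase h.1] at h3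
      rw [h1, map_zero]
    · rw [if_neg h]
  · intro σ v hv
    rw [hd1]
    beta_reduce
    by_cases h : u ∈ σ ∧ σ.erase u ⊆ C
    · rw [if_pos h]
      by_cases hvu : v = u
      · rw [hvu]
        exact Sop_sym S.t u _
      · have hv' : v ∈ σ.erase u := Finset.mem_erase.2 ⟨hvu, hv⟩
        have hadj : G.Adj u v := (mem_lkA.1 (h.2 hv')).2
        rw [Sop_sym_adj S.toUD hadj, hd'.2 _ v hv']
    · rw [if_neg h, map_zero]
  · intro σ hσ
    rw [hd1]
    beta_reduce
    rw [if_neg]
    exact fun h => hσ h.1
  · intro σ hσ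
    by_cases hρ : σ.erase u ⊆ C
    · have h1 : bd d1 σ = sym S.t u (bd d' (σ.erase u)) := by
        unfold bd
        rw [map_sum]
        have h2 : ∑ v ∈ Finset.univ \ σ.erase u, sym S.t u (d' (insert v (σ.erase u))) =
            ∑ v ∈ Finset.univ \ σ, sym S.t u (d' (insert v (σ.erase u))) := by
          symm
          apply Finset.sum_subset
          · exact Finset.sdiff_subset_sdiff (Finset.Subset.refl _) (Finset.erase_subset _ _)
          · intro v hv hv'
            have hvu : v = u := by
              simp only [Finset.mem_sdiff, Finset.mem_univ, true_and, Finset.mem_erase, not_and,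
                not_not] at hv hv'
              by_contra hne
              exact hv hne hv'
            rw [hvu]
            have h3 : d' (insert u (σ.erase u)) = 0 := by
              apply hd'.1
              intro h4
              exact huC _ h4.2.1 (Finset.mem_insert_self _ _)
            rw [h3, map_zero]
        rw [h2]
        refine Finset.sum_congr rfl fun v hv => ?_
        simp only [Finset.mem_sdiff, Finset.mem_univ, true_and] at hv
        have hvu : u ≠ v := fun h => hv (h ▸ hσ)
        rw [hd1]
        beta_reduce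
        rw [Finset.erase_insert_of_ne hvu.symm]
        by_cases h4 : insert v (σ.erase u) ⊆ C
        · rw [if_pos ⟨Finset.mem_insert_of_mem hσ, h4⟩]
        · rw [if_neg (fun h5 => h4 h5.2)]
          have h6 : d' (insert v (σ.erase u)) = 0 := by
            apply hd'.1
            intro h7
            exact h4 h7.2.1
          rw [h6, map_zero]
      have h2 : c σ = sym S.t u (cu (σ.erase u)) := by
        rw [hcu]
        beta_reduce
        rw [if_pos hρ, Finset.insert_erase hσ]
        exact (sym_of_inv S.t u (c σ) (hc.2 σ u hσ)).symm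
      rw [h1, h2, ← map_sub, sym_apply]
      exact nm_relF S.t A E hE u hu _ (r0_relF E u _ (hd'R _))
    · have h1 : bd d1 σ = 0 := by
        unfold bd
        refine Finset.sum_eq_zero fun v hv => ?_
        simp only [Finset.mem_sdiff, Finset.mem_univ, true_and] at hv
        rw [hd1]
        beta_reduce
        rw [if_neg]
        rintro ⟨_, h3⟩
        apply hρ
        exact (Finset.erase_subset_erase u (Finset.subset_insert v σ)).trans h3
      have h2 : c σ = 0 := by
        apply hc.1
        intro h3
        apply hρ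
        have h4 : insert u (σ.erase u) = σ := Finset.insert_erase hσ
        rw [← h4] at h3
        exact ((cliq_insert_iff hu (Finset.notMem_erase u σ) j).1 h3).2.1
      rw [h1, h2, sub_zero]
      exact zero_mem _

/-- the part (a), degree one -/
theorem emain_a1 (S : Sys G D) (A : Finset V) (u : V) (hu : u ∈ A) (E : QV V → Subfield D)
    (hE : EqF S.t A E) (hF : ∀ χ, E χ ≤ S.F A)
    (IH : ∀ E' : QV V → Subfield D, EqF S.t (A.erase u) E' → (∀ χ, E' χ ≤ S.F (A.erase u)) →
      ExM G S.t (A.erase u) (RelF E'))
    (c : Finset V → MM V D) (hc : Cch G S.t A 1 c) (hb : ∀ τ, bd c τ ∈ RelF E) :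
    ∃ d1, Cch G S.t A (1 + 1) d1 ∧ (∀ σ, u ∉ σ → d1 σ = 0) ∧
      ∀ σ, u ∈ σ → c σ - bd d1 σ ∈ RelF E := by
  classical
  have hsum : c {u} - ∑ v ∈ A.erase u, c {v} ∈ RelF E := by
    have h1 : bd c ∅ = c {u} + ∑ v ∈ A.erase u, c {v} := by
      unfold bd
      rw [Finset.sdiff_empty, Finset.add_sum_erase A (fun v => c {v}) hu]
      symm
      apply Finset.sum_subset (Finset.subset_univ _)
      intro v _ hv
      apply hc.1
      intro h
      exact hv (h.2.1 (Finset.mem_singleton_self v))
    rw [mm_sub, ← h1]
    exact hb _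
  obtain ⟨dd, hdd, hddR⟩ := star_step S A u hu E hE hF IH (c {u})
    (hc.2 _ u (Finset.mem_singleton_self u)) (fun v => c {v})
    (fun v _ => hc.2 _ v (Finset.mem_singleton_self v)) hsum
  set C := lkA G A u with hCdef
  set d1 : Finset V → MM V D := fun σ => ∑ v ∈ C, if σ = {u, v} then dd v else 0 with hd1
  have hne : ∀ v ∈ C, u ≠ v := by
    intro v hv h
    have := (mem_lkA.1 hv).2
    rw [h] at this
    exact G.loopless.irrefl v this
  refine ⟨d1, ⟨?_, ?_⟩, ?_, ?_⟩
  · intro σ hσ
    rw [hd1]
    beta_reduce
    refine Finset.sum_eq_zero fun v hv => ?_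
    rw [if_neg]
    rintro rfl
    apply hσ
    have h1 : ({u, v} : Finset V) = insert u {v} := rfl
    rw [h1]
    refine (cliq_insert_iff hu (by simpa using hne v hv) 1).2 ⟨?_, ?_, Finset.card_singleton v⟩
    · intro x hx y hy hxy
      rw [Finset.mem_coe, Finset.mem_singleton] at hx hy
      exact absurd (hx.trans hy.symm) hxy
    · intro x hx
      rw [Finset.mem_singleton] at hx
      rw [hx]
      exact hv
  · intro σ w hw
    rw [hd1]
    beta_reduce
    rw [map_sum]
    refine Finset.sum_congr rfl fun v hv => ?_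
    by_cases h : σ = {u, v}
    · rw [if_pos h]
      rw [h, Finset.mem_insert, Finset.mem_singleton] at hw
      rcases hw with rfl | rfl
      · exact (hdd v hv).1
      · exact (hdd w hv).2
    · rw [if_neg h, map_zero]
  · intro σ hσ
    rw [hd1]
    beta_reduce
    refine Finset.sum_eq_zero fun v hv => ?_
    rw [if_neg]
    rintro rfl
    exact hσ (Finset.mem_insert_self _ _)
  · intro σ hσ
    by_cases hσu : σ = {u}
    · have h1 : bd d1 σ = ∑ v ∈ C, dd v := by
        unfold bd
        rw [hd1]
        beta_reduce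
        rw [Finset.sum_comm]
        refine Finset.sum_congr rfl fun v hv => ?_
        rw [Finset.sum_eq_single v]
        · rw [if_pos]
          rw [hσu]
          exact Finset.pair_comm v u
        · intro w hw hwv
          rw [if_neg]
          rw [hσu]
          intro h2
          have h3 : w ∈ ({u, v} : Finset V) := by
            rw [← h2]
            exact Finset.mem_insert_self _ _
          rw [Finset.mem_insert, Finset.mem_singleton] at h3
          rcases h3 with h3 | h3
          · rw [hσu] at hw
            simp only [Finset.mem_sdiff, Finset.mem_univ, true_and, Finset.mem_singleton] at hw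
            exact hw h3
          · exact hwv h3
        · intro hv'
          exfalso
          apply hv'
          rw [hσu]
          simp only [Finset.mem_sdiff, Finset.mem_univ, true_and, Finset.mem_singleton]
          exact fun h => hne v hv h.symm
      rw [h1, hσu]
      exact hddR
    · have hcard : 2 ≤ σ.card := by
        by_contra hlt
        have h1 : σ.card ≤ 1 := by omega
        rw [Finset.card_le_one] at h1
        apply hσu
        ext x
        rw [Finset.mem_singleton]
        exact ⟨fun hx => h1 x hx u hσ, fun hx => hx ▸ hσ⟩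
      have h1 : c σ = 0 := by
        apply hc.1
        intro h2
        omega
      have h2 : bd d1 σ = 0 := by
        unfold bd
        refine Finset.sum_eq_zero fun w hw => ?_
        simp only [Finset.mem_sdiff, Finset.mem_univ, true_and] at hw
        rw [hd1]
        beta_reduce
        refine Finset.sum_eq_zero fun v hv => ?_
        rw [if_neg]
        intro h3
        have h4 := congrArg Finset.card h3
        rw [Finset.card_insert_of_notMem hw] at h4
        have h5 : ({u, v} : Finset V).card ≤ 2 := Finset.card_le_two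
        omega
      rw [h1, h2, sub_zero]
      exact zero_mem _

theorem exact_all (S : Sys G D) (A : Finset V) (E : QV V → Subfield D) (hE : EqF S.t A E)
    (hF : ∀ χ, E χ ≤ S.F A) : ExM G S.t A (RelF E) := by
  classical
  obtain ⟨N, hN⟩ : ∃ N, A.card = N := ⟨_, rfl⟩
  induction N using Nat.strong_induction_on generalizing A E with
  | _ N ih =>
    intro i hi c hc hb
    rcases Finset.eq_empty_or_nonempty A with hA | ⟨u, hu⟩
    · refine ⟨fun _ => 0, ⟨fun _ _ => rfl, fun _ v _ => map_zero _⟩, fun τ => ?_⟩
      have h1 : c τ = 0 := by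
        apply hc.1
        rintro ⟨_, h2, h3⟩
        rw [hA, Finset.subset_empty] at h2
        rw [h2, Finset.card_empty] at h3
        omega
      have h2 : bd (fun _ : Finset V => (0 : MM V D)) τ = 0 := by
        unfold bd
        exact Finset.sum_const_zero
      rw [h1, h2, sub_zero]
      exact zero_mem _
    · have hA' : (A.erase u).card < N := by
        rw [← hN]
        exact Finset.card_erase_lt_of_mem hu
      have hCs : lkA G A u ⊆ A.erase u := fun v hv => (mem_lkA.1 hv).1
      have hCA : lkA G A u ⊆ A := hCs.trans (Finset.erase_subset _ _)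
      have hCc : (lkA G A u).card < N := (Finset.card_le_card hCs).trans_lt hA'
      have IH : ∀ E' : QV V → Subfield D, EqF S.t (A.erase u) E' →
          (∀ χ, E' χ ≤ S.F (A.erase u)) → ExM G S.t (A.erase u) (RelF E') :=
        fun E' h1 h2 => ih _ hA' (A.erase u) E' h1 h2 rfl
      have hexA' : ExM G S.t (A.erase u) (RelF E) :=
        IH E (fun v hv => hE v (Finset.mem_of_mem_erase hv))
          (fun χ => (hF χ).trans (S.F_mono _ _ (Finset.erase_subset _ _)))
      have hexC : ExM G S.t (lkA G A u) (RelF E) :=
        ih _ hCc (lkA G A u) E (fun v hv => hE v (hCA hv))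
          (fun χ => (hF χ).trans (S.F_mono _ _ hCA)) rfl
      have hA : ∃ d1, Cch G S.t A (i + 1) d1 ∧ (∀ σ, u ∉ σ → d1 σ = 0) ∧
          ∀ σ, u ∈ σ → c σ - bd d1 σ ∈ RelF E := by
        rcases Nat.lt_or_ge 1 i with h | h
        · obtain ⟨j, rfl⟩ : ∃ j, i = j + 1 := ⟨i - 1, by omega⟩
          exact emain_a2 S A u hu E hE hexC j (by omega) c hc hb
        · have h1 : i = 1 := le_antisymm h hi
          subst h1
          exact emain_a1 S A u hu E hE hF IH c hc hb
      obtain ⟨d1, hd1, hd1u, hd1R⟩ := hA
      have hbd1 : ∀ σ, u ∉ σ → bd d1 σ = d1 (insert u σ) := by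
        intro σ hσ
        unfold bd
        rw [Finset.sum_eq_single u]
        · intro v hv hvu
          apply hd1u
          rw [Finset.mem_insert, not_or]
          exact ⟨fun h => hvu h.symm, hσ⟩
        · intro h
          exfalso
          apply h
          simp only [Finset.mem_sdiff, Finset.mem_univ, true_and]
          exact hσ
      set c'' : Finset V → MM V D := fun σ => if u ∈ σ then 0 else c σ - bd d1 σ with hc''
      have hc''A : Cch G S.t (A.erase u) i c'' := by
        constructor
        · intro σ hσ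
          rw [hc'']
          beta_reduce
          by_cases h : u ∈ σ
          · rw [if_pos h]
          · rw [if_neg h, hbd1 σ h]
            have h1 : c σ = 0 := by
              apply hc.1
              rintro ⟨h2, h3, h4⟩
              exact hσ ⟨h2, Finset.subset_erase.2 ⟨h3, h⟩, h4⟩
            have h2 : d1 (insert u σ) = 0 := by
              apply hd1.1
              intro h2
              have h3 := (cliq_insert_iff hu h i).1 h2
              exact hσ ⟨h3.1, h3.2.1.trans hCs, h3.2.2⟩
            rw [h1, h2, sub_zero]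
        · intro σ v hv
          rw [hc'']
          beta_reduce
          by_cases h : u ∈ σ
          · rw [if_pos h, map_zero]
          · rw [if_neg h, hbd1 σ h, map_sub, hc.2 σ v hv,
              hd1.2 (insert u σ) v (Finset.mem_insert_of_mem hv)]
      have hc''b : ∀ τ, bd c'' τ ∈ RelF E := by
        intro τ
        by_cases h : u ∈ τ
        · have h1 : bd c'' τ = 0 := by
            unfold bd
            refine Finset.sum_eq_zero fun v _ => ?_
            rw [hc'']
            beta_reduce
            rw [if_pos (Finset.mem_insert_of_mem h)]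
          rw [h1]
          exact zero_mem _
        · have huu : u ∈ Finset.univ \ τ := by
            simp only [Finset.mem_sdiff, Finset.mem_univ, true_and]
            exact h
          have h1 : bd c'' τ = bd (fun σ => c σ - bd d1 σ) τ -
              (c (insert u τ) - bd d1 (insert u τ)) := by
            unfold bd
            rw [← Finset.add_sum_erase _ _ huu,
              ← Finset.add_sum_erase _ (fun v => c (insert v τ) -
                ∑ v_1 ∈ Finset.univ \ insert v τ, d1 (insert v_1 (insert v τ))) huu,
              add_sub_cancel_left]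
            rw [hc'']
            beta_reduce
            rw [if_pos (Finset.mem_insert_self _ _), zero_add]
            refine Finset.sum_congr rfl fun v hv => ?_
            rw [if_neg]
            · rfl
            · rw [Finset.mem_insert, not_or]
              exact ⟨fun h' => (Finset.mem_erase.1 hv).1 h'.symm, h⟩
          have h2 : bd (fun σ => c σ - bd d1 σ) τ = bd c τ := by
            rw [bd_sub, bd_bd (fun x => mm_add_self x), sub_zero]
          rw [h1, h2]
          exact sub_mem (hb τ) (hd1R _ (Finset.mem_insert_self _ _))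
      obtain ⟨d'', hd'', hd''R⟩ := hexA' i hi c'' hc''A hc''b
      refine ⟨fun σ => d1 σ + d'' σ, cch_add hd1 (cch_mono (Finset.erase_subset _ _) hd''),
        fun τ => ?_⟩
      rw [bd_add, ← sub_sub]
      by_cases h : u ∈ τ
      · have h1 : bd d'' τ = 0 := by
          unfold bd
          refine Finset.sum_eq_zero fun v _ => ?_
          apply hd''.1
          rintro ⟨_, h2, _⟩
          exact Finset.notMem_erase u A (h2 (Finset.mem_insert_of_mem h))
        rw [h1, sub_zero]
        exact hd1R τ h
      · have h1 := hd''R τ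
        rw [hc''] at h1
        beta_reduce at h1
        rw [if_neg h] at h1
        exact h1

theorem exact_M (S : Sys G D) (i : ℕ) (hi : 1 ≤ i) (c : Finset V → MM V D)
    (hc : Cch G S.t Finset.univ i c) (hb : ∀ τ, bd c τ = 0) :
    ∃ d, Cch G S.t Finset.univ (i + 1) d ∧ ∀ τ, c τ = bd d τ := by
  have hbot : ∀ x : D, x ∈ (⊥ : Subfield D) → ∀ y : D, x * y = y * x := by
    intro x hx y
    have h1 : (⊥ : Subfield D) ≤ (algebraMap (ZMod 2) D).fieldRange := bot_le
    obtain ⟨a, ha⟩ := h1 hx
    rw [← ha]
    exact Algebra.commutes a y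
  have hE : EqF S.t Finset.univ (fun _ : QV V => (⊥ : Subfield D)) := by
    intro v _ χ x hx
    have h1 : ((th1 S.t v χ : Dˣ) : D) * x * (((th1 S.t v χ)⁻¹ : Dˣ) : D) = x := by
      rw [← hbot x hx, mul_assoc, Units.mul_inv, mul_one]
    show ((th1 S.t v χ : Dˣ) : D) * x * (((th1 S.t v χ)⁻¹ : Dˣ) : D) ∈ (⊥ : Subfield D)
    rw [h1]
    exact hx
  obtain ⟨d, hd, hR⟩ := exact_all S Finset.univ (fun _ => ⊥) hE (fun _ => bot_le) i hi c hc
    (fun τ => by rw [hb τ]; exact zero_mem _)
  refine ⟨d, hd, fun τ => ?_⟩
  have h1 := (mem_relF (fun _ : QV V => (⊥ : Subfield D)) _).1 (hR τ)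
  funext χ
  have h2 := h1 χ
  rw [rel_bot] at h2
  have h3 : (c τ - bd d τ) χ = 0 := (Submodule.mem_bot (ZMod 2)).1 h2
  exact sub_eq_zero.1 h3

end SingerRA
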