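import Mathlib
import Pool.Agent.Lib_MP_394d50_all.TDefs

/-!
Piece TTENS: symmetric tensors over `F₂` (about 150 lines).

Let `b` be a basis of `D` over `F₂` (`Module.Basis.ofVectorSpace`), and `b ⊗ b*`: the elements `b i ⊗ star (b j)` form a basis of `D ⊗ D`
(`Basis.tensorProduct` composed with the linear equivalence `id ⊗ star`). `tau (b i ⊗ star (b j)) = b j ⊗ star (b i)`: so in the coordinates
`x_{ij}` with respect to this basis `tau` is the transposition of the (finitely supported) matrix.
* `tens_inv`: if `tau x = x` then `x_{ij} = x_{ji}`. Let `z = ∑_i x_{ii} b i`; the coordinates of `z ⊗ star z` are `x_{ii} x_{jj}`, with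
  diagonal `x_{ii}^2 = x_{ii}`. So `y = x - z ⊗ star z` is symmetric with zero diagonal: `y = e + tau e`, `e` = the part of `y` above the diagonal
  (for a linear order on the index set).
* `tens_zero`: the diagonal coordinates of `e + tau e` vanish (characteristic two), those of `z ⊗ star z` are `z_i^2 = z_i`.
-/

namespace SingerRA

open scoped TensorProduct

variable {D : Type} [DivisionRing D] [Algebra (ZMod 2) D] [StarRing D]

theorem tau_tau (x : TT D) : tau (tau x) = x := by
  induction x using TensorProduct.induction_on with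
  | zero => simp
  | tmul a b => simp [tau_tmul]
  | add x y hx hy => rw [map_add, map_add, hx, hy]

/-- The involution as a linear equivalence. -/
private def ttens_starE (D : Type) [DivisionRing D] [Algebra (ZMod 2) D] [StarRing D] :
    D ≃ₗ[ZMod 2] D :=
  LinearEquiv.ofInvolutive (starL D) (fun a => star_star a)

private theorem ttens_starE_symm (a : D) : (ttens_starE D).symm a = star a := rfl

/-- The basis of `D`. -/
private noncomputable def ttens_b (D : Type) [DivisionRing D] [Algebra (ZMod 2) D] :
    Module.Basis (Module.Basis.ofVectorSpaceIndex (ZMod 2) D) (ZMod 2) D :=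
  Module.Basis.ofVectorSpace (ZMod 2) D

/-- The basis of `D ⊗ D`. -/
private noncomputable def ttens_B (D : Type) [DivisionRing D] [Algebra (ZMod 2) D] [StarRing D] :
    Module.Basis (Module.Basis.ofVectorSpaceIndex (ZMod 2) D ×
      Module.Basis.ofVectorSpaceIndex (ZMod 2) D) (ZMod 2) (TT D) :=
  (ttens_b D).tensorProduct ((ttens_b D).map (ttens_starE D))

private theorem ttens_B_tmul (a c : D) (i j : Module.Basis.ofVectorSpaceIndex (ZMod 2) D) :
    (ttens_B D).repr (a ⊗ₜ[ZMod 2] c) (i, j) =
      (ttens_b D).repr a i * (ttens_b D).repr (star c) j := by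
  unfold ttens_B
  rw [Module.Basis.tensorProduct_repr_tmul_apply, smul_eq_mul, mul_comm]
  rfl

private theorem ttens_B_tau (x : TT D) (i j : Module.Basis.ofVectorSpaceIndex (ZMod 2) D) :
    (ttens_B D).repr (tau x) (i, j) = (ttens_B D).repr x (j, i) := by
  induction x using TensorProduct.induction_on with
  | zero => simp
  | tmul a b =>
    rw [tau_tmul, ttens_B_tmul, ttens_B_tmul, star_star, mul_comm]
  | add x y hx hy =>
    rw [map_add, map_add, map_add, Finsupp.add_apply, Finsupp.add_apply, hx, hy]

theorem tens_inv (x : TT D) (hx : tau x = x) :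
    ∃ (z : D) (e : TT D), x = z ⊗ₜ[ZMod 2] star z + (e + tau e) := by
  classical
  letI : LinearOrder (Module.Basis.ofVectorSpaceIndex (ZMod 2) D) :=
    linearOrderOfSTO WellOrderingRel
  have hsym : ∀ i j, (ttens_B D).repr x (i, j) = (ttens_B D).repr x (j, i) := by
    intro i j
    conv_lhs => rw [← hx]
    exact ttens_B_tau x i j
  have hinj : Function.Injective
      (fun i : Module.Basis.ofVectorSpaceIndex (ZMod 2) D => (i, i)) := fun i j h =>
    congrArg Prod.fst h
  set z : D := (ttens_b D).repr.symm
    (Finsupp.comapDomain (fun i => (i, i)) ((ttens_B D).repr x) hinj.injOn) with hz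
  have hzi : ∀ i, (ttens_b D).repr z i = (ttens_B D).repr x (i, i) := by
    intro i
    rw [hz, LinearEquiv.apply_symm_apply, Finsupp.comapDomain_apply]
  set e : TT D := (ttens_B D).repr.symm
    (((ttens_B D).repr (x - z ⊗ₜ[ZMod 2] star z)).filter (fun p => p.1 < p.2)) with he
  have hy : ∀ i j, (ttens_B D).repr (x - z ⊗ₜ[ZMod 2] star z) (i, j) =
      (ttens_B D).repr x (i, j) - (ttens_B D).repr x (i, i) * (ttens_B D).repr x (j, j) := by
    intro i j
    rw [map_sub, Finsupp.sub_apply, ttens_B_tmul, star_star, hzi, hzi]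
  refine ⟨z, e, ?_⟩
  apply (ttens_B D).repr.injective
  ext ⟨i, j⟩
  rw [map_add, map_add, Finsupp.add_apply, Finsupp.add_apply, ttens_B_tau, ttens_B_tmul,
    star_star, hzi, hzi, he, LinearEquiv.apply_symm_apply]
  rw [Finsupp.filter_apply, Finsupp.filter_apply]
  rcases lt_trichotomy i j with h | h | h
  · rw [if_pos h, if_neg (not_lt.2 h.le), hy]
    ring
  · subst h
    rw [if_neg (lt_irrefl i)]
    rcases zm2_cases ((ttens_B D).repr x (i, i)) with h | h <;> rw [h] <;> simp
  · rw [if_neg (not_lt.2 h.le), if_pos h, hy, hsym j i]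
    ring

theorem tens_zero (z : D) (e : TT D) (h : z ⊗ₜ[ZMod 2] star z = e + tau e) : z = 0 := by
  have hi : ∀ i, (ttens_b D).repr z i = 0 := by
    intro i
    have h1 : (ttens_B D).repr (z ⊗ₜ[ZMod 2] star z) (i, i) =
        (ttens_B D).repr (e + tau e) (i, i) := by rw [h]
    rw [ttens_B_tmul, star_star, map_add, Finsupp.add_apply, ttens_B_tau,
      CharTwo.add_self_eq_zero] at h1
    exact mul_self_eq_zero.1 h1
  apply (ttens_b D).repr.injective
  rw [map_zero]
  ext i
  rw [hi i]
  rfl

theorem act_tau (g : Dˣ) (hg : star ((g : Dˣ) : D) = ((g⁻¹ : Dˣ) : D)) (x : TT D) :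
    tau (act g x) = act g (tau x) := by
  have hg' : star ((g⁻¹ : Dˣ) : D) = ((g : Dˣ) : D) := by
    rw [← hg, star_star]
  induction x using TensorProduct.induction_on with
  | zero => simp
  | tmul a b => rw [act_tmul, tau_tmul, tau_tmul, act_tmul, star_mul, star_mul, hg, hg']
  | add x y hx hy => rw [map_add, map_add, hx, hy, map_add, map_add]

end SingerRA
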