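import Mathlib
import Pool.Agent.Lib_MP_394d50_all.TDefs
import Pool.Agent.Lib_MP_394d50_all.TTens

/-!
Piece TEXT: equivariant extension, symmetric elements of `C_σ` (about 200 lines), from `tens_inv`, `tens_zero`.

`ext_exists` (general): let `X` be a type with bijections `ρ v χ : X → X` ... used twice, for `X = D` (right multiplication by
`(th1 t v χ)⁻¹`) and `X = TT D` (`act (th1 t v χ)`): for a clique `σ` and a family `f χ`, given for the `χ` with `χ v = 0` for all `v ∈ σ`,
there is a unique equivariant family which agrees with `f` there. Proof: induction on `σ` (`Finset.induction_on`): suppose `g` is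
equivariant for `σ` and agrees with `f` on the `χ` which vanish on `σ`; for `insert v σ` put `g' χ = g χ` if `χ v = 0` and
`g' χ = ` the image of `g (χ + ev v)` under `s_v` if `χ v = 1` (that is `sym t v g` for `X = TT D`). It is equivariant under `v`; for
`w ∈ σ` use that `t v`, `t w` commute (`w` adjacent to `v`). Two equivariant families which agree on the `χ` vanishing on `σ` are
equal (induction on the number of `v ∈ σ` with `χ v = 1`).

* `kappa_eq`: pointwise (`star_mul`, `star (t v) = (t v)⁻¹`).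
* `sym_decomp`: `m` is invariant under `s_v`, `v ∈ σ`, and `tauM m = m`. For the `χ` vanishing on `σ` choose `z χ`, `e χ` by `tens_inv`;
  extend them equivariantly to `z`, `e` (`EqD t σ z`, `Sop t v e = e`). Then `pr z z + (e + tauM e)` is invariant under the `s_v`
  and agrees with `m` on the `χ` vanishing on `σ`, so it is equal to `m`.
* `kappa_zero`: pointwise `tens_zero`.
-/

namespace SingerRA

open scoped TensorProduct

variable {V : Type} [DecidableEq V] {G : SimpleGraph V} {D : Type} [DivisionRing D]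
  [Algebra (ZMod 2) D]

private theorem text_cast_v {χ : QV V} {v : V} (h : χ v ≠ 0) : (χ + ev v) v = 0 := by
  rcases zm2_cases (χ v) with h1 | h1
  · exact absurd h1 h
  · rw [Pi.add_apply, ev_self, h1]
    rfl

private theorem text_cast_v' {χ : QV V} {v : V} (h : χ v = 0) : (χ + ev v) v ≠ 0 := by
  rw [Pi.add_apply, ev_self, h, zero_add]
  exact one_ne_zero

/-- general extension of families -/
private theorem text_ext {X : Type} (ρ : V → QV V → X → X)
    (hinv : ∀ v χ x, ρ v (χ + ev v) (ρ v χ x) = x)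
    (hcomm : ∀ u v, G.Adj u v → ∀ χ x,
      ρ u (χ + ev v) (ρ v χ x) = ρ v (χ + ev u) (ρ u χ x))
    (σ : Finset V) (hσ : σ ∈ cliq G) (f : QV V → X) :
    ∃ g : QV V → X, (∀ v ∈ σ, ∀ χ, g (χ + ev v) = ρ v χ (g χ)) ∧
      ∀ χ : QV V, (∀ v ∈ σ, χ v = 0) → g χ = f χ := by
  induction σ using Finset.induction_on with
  | empty => exact ⟨f, fun v hv => absurd hv (Finset.notMem_empty v), fun χ _ => rfl⟩
  | insert v σ hv ih =>
    have hσ' : σ ∈ cliq G := by
      have h : G.IsClique ((insert v σ : Finset V) : Set V) := hσ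
      exact h.subset (by simp)
    obtain ⟨g, h1, h2⟩ := ih hσ'
    refine ⟨fun χ => if χ v = 0 then g χ else ρ v (χ + ev v) (g (χ + ev v)), ?_, ?_⟩
    · intro w hw χ
      rcases Finset.mem_insert.1 hw with rfl | hw
      · by_cases h : χ w = 0
        · simp only [if_neg (text_cast_v' h), if_pos h, add_ev_ev]
        · simp only [if_pos (text_cast_v h), if_neg h]
          have := hinv w (χ + ev w) (g (χ + ev w))
          rw [add_ev_ev] at this
          exact this.symm
      · have hne : w ≠ v := fun h => hv (h ▸ hw)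
        have hadj : G.Adj v w := by
          have h : G.IsClique ((insert v σ : Finset V) : Set V) := hσ
          exact h (by simp) (by simp [hw]) hne.symm
        have h3 : (χ + ev w) v = χ v := by
          rw [Pi.add_apply, ev_ne hne.symm, add_zero]
        by_cases h : χ v = 0
        · simp only [h3, if_pos h]
          exact h1 w hw χ
        · simp only [h3, if_neg h]
          rw [add_right_comm χ (ev w) (ev v), h1 w hw, hcomm v w hadj, add_ev_ev]
    · intro χ hχ
      have h : χ v = 0 := hχ v (Finset.mem_insert_self v σ)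
      simp only [if_pos h]
      exact h2 χ fun w hw => hχ w (Finset.mem_insert_of_mem hw)

/-- general uniqueness of the extension -/
private theorem text_uni {X : Type} (ρ : V → QV V → X → X) (σ : Finset V) (g g' : QV V → X)
    (hg : ∀ v ∈ σ, ∀ χ, g (χ + ev v) = ρ v χ (g χ))
    (hg' : ∀ v ∈ σ, ∀ χ, g' (χ + ev v) = ρ v χ (g' χ))
    (h : ∀ χ : QV V, (∀ v ∈ σ, χ v = 0) → g χ = g' χ) : g = g' := by
  induction σ using Finset.induction_on with
  | empty => exact funext fun χ => h χ fun v hv => absurd hv (Finset.notMem_empty v)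
  | insert v σ hv ih =>
    refine ih (fun w hw => hg w (Finset.mem_insert_of_mem hw))
      (fun w hw => hg' w (Finset.mem_insert_of_mem hw)) ?_
    intro χ hχ
    by_cases h0 : χ v = 0
    · refine h χ fun w hw => ?_
      rcases Finset.mem_insert.1 hw with rfl | hw
      · exact h0
      · exact hχ w hw
    · have h1 : g (χ + ev v) = g' (χ + ev v) := by
        refine h _ fun w hw => ?_
        rcases Finset.mem_insert.1 hw with rfl | hw
        · exact text_cast_v h0
        · have hne : w ≠ v := fun h => hv (h ▸ hw)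
          rw [Pi.add_apply, ev_ne hne, add_zero]
          exact hχ w hw
      have h2 := hg v (Finset.mem_insert_self v σ) (χ + ev v)
      have h3 := hg' v (Finset.mem_insert_self v σ) (χ + ev v)
      rw [add_ev_ev] at h2 h3
      rw [h2, h3, h1]

private theorem text_comm (d : UD G D) {u v : V} (h : G.Adj u v) (χ χ' : QV V) :
    th1 d.t u χ * th1 d.t v χ' = th1 d.t v χ' * th1 d.t u χ := by
  have h0 : Commute (d.t u) (d.t v) := d.comm u v h
  unfold th1
  split_ifs
  · exact h0.inv_inv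
  · exact h0.inv_left
  · exact h0.inv_right
  · exact h0

/-- An equivariant family with values in `D` with prescribed values at the `χ` vanishing on `σ`. -/
theorem extD_exists (d : UD G D) (σ : Finset V) (hσ : σ ∈ cliq G) (f : QV V → D) :
    ∃ z : QV V → D, EqD d.t σ z ∧ ∀ χ : QV V, (∀ v ∈ σ, χ v = 0) → z χ = f χ := by
  refine text_ext (G := G) (fun v χ x => x * (((th1 d.t v χ)⁻¹ : Dˣ) : D)) ?_ ?_ σ hσ f
  · intro v χ x
    show x * (((th1 d.t v χ)⁻¹ : Dˣ) : D) * (((th1 d.t v (χ + ev v))⁻¹ : Dˣ) : D) = x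
    rw [th1_add_self, mul_assoc, ← Units.val_mul, mul_inv_cancel, Units.val_one, mul_one]
  · intro u v h χ x
    show x * (((th1 d.t v χ)⁻¹ : Dˣ) : D) * (((th1 d.t u (χ + ev v))⁻¹ : Dˣ) : D) =
      x * (((th1 d.t u χ)⁻¹ : Dˣ) : D) * (((th1 d.t v (χ + ev u))⁻¹ : Dˣ) : D)
    rw [th1_add_ne d.t h.ne, th1_add_ne d.t h.ne.symm, mul_assoc, mul_assoc, ← Units.val_mul,
      ← Units.val_mul, ← mul_inv_rev, ← mul_inv_rev, text_comm d h]

theorem eqD_ext (t : V → Dˣ) (σ : Finset V) (z z' : QV V → D) (hz : EqD t σ z)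
    (hz' : EqD t σ z') (h : ∀ χ : QV V, (∀ v ∈ σ, χ v = 0) → z χ = z' χ) : z = z' :=
  text_uni (fun v χ x => x * (((th1 t v χ)⁻¹ : Dˣ) : D)) σ z z' hz hz' h

private theorem text_Sop_iff (t : V → Dˣ) (v : V) (m : MM V D) :
    Sop t v m = m ↔ ∀ χ, m (χ + ev v) = act (th1 t v χ) (m χ) := by
  constructor
  · intro h χ
    rw [← Sop_apply', h]
  · intro h
    funext χ
    rw [Sop_apply, ← h, add_ev_ev]

theorem extT_exists (d : UD G D) (σ : Finset V) (hσ : σ ∈ cliq G) (f : MM V D) :
    ∃ e : MM V D, (∀ v ∈ σ, Sop d.t v e = e) ∧ ∀ χ : QV V, (∀ v ∈ σ, χ v = 0) → e χ = f χ := by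
  obtain ⟨e, h1, h2⟩ := text_ext (G := G) (X := TT D) (fun v χ x => act (th1 d.t v χ) x) (by
    intro v χ x
    show act (th1 d.t v (χ + ev v)) (act (th1 d.t v χ) x) = x
    rw [← act_mul, th1_add_self, inv_mul_cancel, act_one]) (by
    intro u v h χ x
    show act (th1 d.t u (χ + ev v)) (act (th1 d.t v χ) x) =
      act (th1 d.t v (χ + ev u)) (act (th1 d.t u χ) x)
    rw [th1_add_ne d.t h.ne, th1_add_ne d.t h.ne.symm, ← act_mul, ← act_mul, text_comm d h])
    σ hσ f
  exact ⟨e, fun v hv => (text_Sop_iff d.t v e).2 (h1 v hv), h2⟩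

theorem eqT_ext (t : V → Dˣ) (σ : Finset V) (m m' : MM V D) (hm : ∀ v ∈ σ, Sop t v m = m)
    (hm' : ∀ v ∈ σ, Sop t v m' = m') (h : ∀ χ : QV V, (∀ v ∈ σ, χ v = 0) → m χ = m' χ) :
    m = m' :=
  text_uni (X := TT D) (fun v χ x => act (th1 t v χ) x) σ m m'
    (fun v hv => (text_Sop_iff t v m).1 (hm v hv))
    (fun v hv => (text_Sop_iff t v m').1 (hm' v hv)) h

variable [StarRing D]

omit [DecidableEq V] [Algebra (ZMod 2) D] in
private theorem text_star (t : V → Dˣ)
    (ht : ∀ v, star ((t v : Dˣ) : D) = (((t v)⁻¹ : Dˣ) : D)) (v : V) (χ : QV V) :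
    star ((th1 t v χ : Dˣ) : D) = (((th1 t v χ)⁻¹ : Dˣ) : D) := by
  unfold th1
  split_ifs
  · rw [← ht, star_star, inv_inv]
  · exact ht v

/-- The pairing of equivariant families is invariant. -/
theorem pr_eq (t : V → Dˣ) (ht : ∀ v, star ((t v : Dˣ) : D) = (((t v)⁻¹ : Dˣ) : D))
    (v : V) (y z : QV V → D) (hy : EqD t {v} y) (hz : EqD t {v} z) :
    Sop t v (pr y z) = pr y z := by
  rw [text_Sop_iff]
  intro χ
  have h1 := hy v (Finset.mem_singleton_self v) χ
  have h2 := hz v (Finset.mem_singleton_self v) χ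
  unfold pr
  rw [h1, h2, act_tmul, star_mul, ← text_star t ht, star_star]

theorem Sop_tauM (t : V → Dˣ) (ht : ∀ v, star ((t v : Dˣ) : D) = (((t v)⁻¹ : Dˣ) : D))
    (v : V) (m : MM V D) : Sop t v (tauM m) = tauM (Sop t v m) := by
  funext χ
  rw [Sop_apply]
  show act (th1 t v (χ + ev v)) (tau (m (χ + ev v))) = tau (Sop t v m χ)
  rw [Sop_apply, act_tau _ (text_star t ht v _)]

omit [DecidableEq V] in
theorem tauM_tauM (m : MM V D) : tauM (tauM m) = m := by
  funext χ
  exact tau_tau (m χ)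

omit [DecidableEq V] in
theorem tauM_pr (y z : QV V → D) : tauM (pr y z) = pr z y := by
  funext χ
  show tau (y χ ⊗ₜ[ZMod 2] star (z χ)) = z χ ⊗ₜ[ZMod 2] star (y χ)
  rw [tau_tmul, star_star]

theorem sym_decomp (d : UD G D) (ht : ∀ v, star ((d.t v : Dˣ) : D) = (((d.t v)⁻¹ : Dˣ) : D))
    (σ : Finset V) (hσ : σ ∈ cliq G) (m : MM V D) (hm : ∀ v ∈ σ, Sop d.t v m = m)
    (hs : tauM m = m) :
    ∃ (z : QV V → D) (e : MM V D), EqD d.t σ z ∧ (∀ v ∈ σ, Sop d.t v e = e) ∧
      m = pr z z + (e + tauM e) := by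
  have h0 : ∀ χ, ∃ (z : D) (e : TT D), m χ = z ⊗ₜ[ZMod 2] star z + (e + tau e) := by
    intro χ
    exact tens_inv (m χ) (congrFun hs χ)
  choose z0 e0 h1 using h0
  obtain ⟨z, hz1, hz2⟩ := extD_exists d σ hσ z0
  obtain ⟨e, he1, he2⟩ := extT_exists d σ hσ e0
  refine ⟨z, e, hz1, he1, ?_⟩
  refine eqT_ext d.t σ _ _ hm ?_ ?_
  · intro v hv
    have hz : EqD d.t {v} z := by
      intro w hw
      rw [Finset.mem_singleton] at hw
      subst hw
      exact hz1 w hv
    rw [map_add, map_add, pr_eq d.t ht v z z hz hz, Sop_tauM d.t ht, he1 v hv]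
  · intro χ hχ
    show m χ = z χ ⊗ₜ[ZMod 2] star (z χ) + (e χ + tau (e χ))
    rw [hz2 χ hχ, he2 χ hχ]
    exact h1 χ

omit [DecidableEq V] in
theorem kappa_zero (z : QV V → D) (e : MM V D) (h : pr z z = e + tauM e) : z = 0 := by
  funext χ
  exact tens_zero (z χ) (e χ) (congrFun h χ)

end SingerRA
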