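import Mathlib
import Pool.Agent.Lib_MP_394d50_all.TDefs

/-!
Piece TPATA: combinatorics of `pat` (about 150 lines).

Fix `σ` and `k`. `P F H` = `pat F H`. Words: the elements of `F ∪ H`, in increasing order, have positions `0, 1, 2, …`; `x ∈ F \ H` is GOOD if its
position is even, `x ∈ H \ F` is GOOD if its position is odd, otherwise BAD. `pat F H` iff all elements of the symmetric difference are good, `pat H F` iff
all are bad.
(A) Let `v ∉ F`, `v ∈ H` (so `(insert v F) ∪ H = F ∪ H`): `pat F H` iff [`pat (insert v F) H` and the position of `v` in `F ∪ H` is odd].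
    Symmetric: `v ∈ F`, `v ∉ H`: `pat F H` iff [`pat F (insert v H)` and the position of `v` in `F ∪ H` is even].
    (For `v ∈ F ∩ H`: exactly one of `pat (F.erase v) H`, `pat F (H.erase v)` holds if `pat F H` holds, none otherwise.)
(B) Let `F, H` with `F \ H` or `H \ F` nonempty. The number of the `v ∈ F \ H` with `pat (F.erase v) H` plus the number of the `v ∈ H \ F` with
    `pat F (H.erase v)` is congruent modulo `2` to `[pat F H] + [pat H F]`. Proof: erasing `v` shifts the positions of
    the later elements by one, so after erasing `v` everything is good iff all elements of the symmetric difference before `v` were good and all those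
    after `v` were bad. Let `p₁ < … < p_r` be the elements of the symmetric difference (`r ≥ 1`). If the sequence is good^s bad^(r-s), then the `v` which
    count are `p_s` (if `s ≥ 1`) and `p_{s+1}` (if `s < r`): two of them for `1 ≤ s ≤ r-1`, one for `s = 0` (all bad) or `s = r` (all good).
    If it is not of this form, none counts. (In Lean: e.g. prove `∑_v [good before v][bad after v] = [all good] + [all bad]` in
    `ZMod 2` by induction on a list / sorted finset of Booleans: for `l : List Bool`, the number of the positions `j` with all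
    entries before `j` true and all entries after `j` false is congruent to `[all true] + [all false]` if `l ≠ []`.)
`pat_iff_alt`: for disjoint `F`, `H`: `(F ∪ H).filter (· < x)` has `(F.filter (· < x)).card + (H.filter (· < x)).card` elements. From
right to left: the number is `2 a`, resp. `2 a + 1`. From left to right: for the elements in increasing order (strong induction on the position in `F ∪ H`) the
element with position `2 a` is in `F`, that with position `2 a + 1` in `H`, so `a` elements of `F` and `a` of `H` are before position `2 a`.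
-/

namespace SingerRA

open scoped TensorProduct

variable {V : Type} [Fintype V] [LinearOrder V]

open scoped Classical in
/-- the abstract counting lemma -/
private theorem tpata_count (g : V → Prop) (D : Finset V) (hD : D.Nonempty) :
    (∑ v ∈ D, if ∀ x ∈ D, (x < v → g x) ∧ (v < x → ¬ g x) then (1 : ZMod 2) else 0) =
      (if ∀ x ∈ D, g x then 1 else 0) + if ∀ x ∈ D, ¬ g x then 1 else 0 := by
  induction D using Finset.induction_on_max with
  | empty => exact absurd hD (by simp)
  | insert a s ha ih =>
    have has : a ∉ s := fun h => lt_irrefl _ (ha a h)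
    rw [Finset.sum_insert has]
    have h1 : (∀ x ∈ insert a s, (x < a → g x) ∧ (a < x → ¬ g x)) ↔ ∀ x ∈ s, g x := by
      constructor
      · intro h x hx
        exact (h x (Finset.mem_insert_of_mem hx)).1 (ha x hx)
      · intro h x hx
        rcases Finset.mem_insert.mp hx with rfl | hx
        · exact ⟨fun h' => absurd h' (lt_irrefl _), fun h' => absurd h' (lt_irrefl _)⟩
        · exact ⟨fun _ => h x hx, fun h' => absurd h' (not_lt.mpr (ha x hx).le)⟩
    have h2 : ∀ v ∈ s, ((∀ x ∈ insert a s, (x < v → g x) ∧ (v < x → ¬ g x)) ↔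
        (¬ g a ∧ ∀ x ∈ s, (x < v → g x) ∧ (v < x → ¬ g x))) := by
      intro v hv
      constructor
      · intro h
        exact ⟨(h a (Finset.mem_insert_self _ _)).2 (ha v hv),
          fun x hx => h x (Finset.mem_insert_of_mem hx)⟩
      · rintro ⟨h, h'⟩ x hx
        rcases Finset.mem_insert.mp hx with rfl | hx
        · exact ⟨fun h'' => absurd h'' (not_lt.mpr (ha v hv).le), fun _ => h⟩
        · exact h' x hx
    have h3 : (∑ v ∈ s, if ∀ x ∈ insert a s, (x < v → g x) ∧ (v < x → ¬ g x) then (1 : ZMod 2) else 0) =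
        if ¬ g a then (∑ v ∈ s, if ∀ x ∈ s, (x < v → g x) ∧ (v < x → ¬ g x) then (1 : ZMod 2) else 0)
          else 0 := by
      by_cases hg : g a
      · rw [if_neg (not_not.mpr hg)]
        refine Finset.sum_eq_zero fun v hv => ?_
        rw [if_neg]
        rw [h2 v hv]
        exact fun h => h.1 hg
      · rw [if_pos hg]
        refine Finset.sum_congr rfl fun v hv => ?_
        have h4 := h2 v hv
        by_cases h5 : ∀ x ∈ s, (x < v → g x) ∧ (v < x → ¬ g x)
        · rw [if_pos (h4.mpr ⟨hg, h5⟩), if_pos h5]
        · rw [if_neg (fun h => h5 (h4.mp h).2), if_neg h5]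
    rw [h3]
    have h6 : (if ∀ x ∈ insert a s, (x < a → g x) ∧ (a < x → ¬ g x) then (1 : ZMod 2) else 0) =
        if ∀ x ∈ s, g x then 1 else 0 := by
      by_cases h7 : ∀ x ∈ s, g x
      · rw [if_pos (h1.mpr h7), if_pos h7]
      · rw [if_neg (fun h => h7 (h1.mp h)), if_neg h7]
    rw [h6]
    have h8 : (∀ x ∈ insert a s, g x) ↔ (g a ∧ ∀ x ∈ s, g x) := Finset.forall_mem_insert _ _ _
    have h9 : (∀ x ∈ insert a s, ¬ g x) ↔ (¬ g a ∧ ∀ x ∈ s, ¬ g x) := Finset.forall_mem_insert _ _ _
    have h2z : (2 : ZMod 2) = 0 := by decide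
    rcases s.eq_empty_or_nonempty with rfl | hs
    · by_cases hg : g a
      · simp [hg]
      · simp [hg]
    · rw [ih hs]
      by_cases hg : g a
      · rw [if_neg (not_not.mpr hg), add_zero]
        have h10 : ¬ (∀ x ∈ insert a s, ¬ g x) := fun h => (h9.mp h).1 hg
        rw [if_neg h10, add_zero]
        by_cases h7 : ∀ x ∈ s, g x
        · rw [if_pos h7, if_pos (h8.mpr ⟨hg, h7⟩)]
        · rw [if_neg h7, if_neg (fun h => h7 (h8.mp h).2)]
      · rw [if_pos hg]
        have h10 : ¬ (∀ x ∈ insert a s, g x) := fun h => hg (h8.mp h).1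
        rw [if_neg h10, zero_add, ← add_assoc, ← two_mul, h2z, zero_mul, zero_add]
        by_cases h7 : ∀ x ∈ s, ¬ g x
        · rw [if_pos h7, if_pos (h9.mpr ⟨hg, h7⟩)]
        · rw [if_neg h7, if_neg (fun h => h7 (h9.mp h).2)]

/-- the position of an element -/
private def tpataN (F H : Finset V) (x : V) : ℕ := ((F ∪ H).filter (· < x)).card

/-- good elements -/
private def tpataG (F H : Finset V) (x : V) : Prop :=
  (x ∈ F ∧ Even (tpataN F H x)) ∨ (x ∈ H ∧ Odd (tpataN F H x))

omit [Fintype V] in
private theorem tpata_pat (F H : Finset V) : pat F H ↔ ∀ x ∈ (F \ H) ∪ (H \ F), tpataG F H x := by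
  unfold pat tpataG tpataN
  constructor
  · rintro ⟨h1, h2⟩ x hx
    rcases Finset.mem_union.mp hx with hx | hx
    · exact Or.inl ⟨(Finset.mem_sdiff.mp hx).1, h1 x hx⟩
    · exact Or.inr ⟨(Finset.mem_sdiff.mp hx).1, h2 x hx⟩
  · intro h
    constructor
    · intro x hx
      rcases h x (Finset.mem_union_left _ hx) with h' | h'
      · exact h'.2
      · exact absurd h'.1 (Finset.mem_sdiff.mp hx).2
    · intro x hx
      rcases h x (Finset.mem_union_right _ hx) with h' | h'
      · exact absurd h'.1 (Finset.mem_sdiff.mp hx).2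
      · exact h'.2

omit [Fintype V] in
private theorem tpata_bad (F H : Finset V) {x : V} (hx : x ∈ (F \ H) ∪ (H \ F)) :
    tpataG H F x ↔ ¬ tpataG F H x := by
  unfold tpataG tpataN
  rw [Finset.union_comm H F]
  rcases Finset.mem_union.mp hx with hx | hx
  · have h1 := (Finset.mem_sdiff.mp hx).1
    have h2 := (Finset.mem_sdiff.mp hx).2
    simp only [h1, h2, false_and, true_and, or_false, false_or]
    exact Nat.not_even_iff_odd.symm
  · have h1 := (Finset.mem_sdiff.mp hx).1
    have h2 := (Finset.mem_sdiff.mp hx).2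
    simp only [h1, h2, false_and, true_and, or_false, false_or]
    exact Nat.not_odd_iff_even.symm

omit [Fintype V] in
private theorem tpata_erase_lt (U : Finset V) {v x : V} (h : x < v) :
    (U.erase v).filter (· < x) = U.filter (· < x) := by
  ext y
  simp only [Finset.mem_filter, Finset.mem_erase]
  constructor
  · rintro ⟨⟨_, h1⟩, h2⟩
    exact ⟨h1, h2⟩
  · rintro ⟨h1, h2⟩
    exact ⟨⟨(h2.trans h).ne, h1⟩, h2⟩

omit [Fintype V] in
private theorem tpata_erase_gt (U : Finset V) {v x : V} (hv : v ∈ U) (h : v < x) :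
    ((U.erase v).filter (· < x)).card + 1 = (U.filter (· < x)).card := by
  have h1 : (U.erase v).filter (· < x) = (U.filter (· < x)).erase v := by
    ext y
    simp only [Finset.mem_filter, Finset.mem_erase]
    tauto
  rw [h1]
  exact Finset.card_erase_add_one (Finset.mem_filter.mpr ⟨hv, h⟩)

omit [Fintype V] in
private theorem tpata_left (F H : Finset V) {v : V} (hv : v ∈ F \ H) :
    pat (F.erase v) H ↔ ∀ x ∈ (F \ H) ∪ (H \ F),
      (x < v → tpataG F H x) ∧ (v < x → ¬ tpataG F H x) := by
  have hvF := (Finset.mem_sdiff.mp hv).1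
  have hvH := (Finset.mem_sdiff.mp hv).2
  have hU : F.erase v ∪ H = (F ∪ H).erase v := by
    rw [Finset.erase_union_distrib, Finset.erase_eq_of_notMem hvH]
  have hvU : v ∈ F ∪ H := Finset.mem_union_left _ hvF
  rw [tpata_pat]
  have key : ∀ x, x ≠ v → x ∈ (F \ H) ∪ (H \ F) → (tpataG (F.erase v) H x ↔
      ((x < v → tpataG F H x) ∧ (v < x → ¬ tpataG F H x))) := by
    intro x hxv hx
    rcases lt_or_gt_of_ne hxv with h | h
    · have h1 : tpataG (F.erase v) H x ↔ tpataG F H x := by
        unfold tpataG tpataN
        rw [hU, tpata_erase_lt _ h, Finset.mem_erase]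
        simp only [ne_eq, hxv, not_false_eq_true, true_and]
      rw [h1]
      exact ⟨fun h2 => ⟨fun _ => h2, fun h3 => absurd h3 (not_lt.mpr h.le)⟩, fun h2 => h2.1 h⟩
    · have h1 : tpataG (F.erase v) H x ↔ ¬ tpataG F H x := by
        have h2 := tpata_erase_gt (F ∪ H) hvU h
        rw [← tpata_bad F H hx]
        unfold tpataG tpataN
        rw [hU, Finset.union_comm H F, ← h2, Finset.mem_erase, Nat.even_add_one, Nat.odd_add_one,
          Nat.not_even_iff_odd, Nat.not_odd_iff_even]
        simp only [ne_eq, hxv, not_false_eq_true, true_and]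
        tauto
      rw [h1]
      exact ⟨fun h2 => ⟨fun h3 => absurd h3 (not_lt.mpr h.le), fun _ => h2⟩, fun h2 => h2.2 h⟩
  constructor
  · intro h x hx
    by_cases hxv : x = v
    · subst hxv
      exact ⟨fun h' => absurd h' (lt_irrefl _), fun h' => absurd h' (lt_irrefl _)⟩
    · refine (key x hxv hx).mp (h x ?_)
      simp only [Finset.mem_union, Finset.mem_sdiff, Finset.mem_erase] at hx ⊢
      tauto
  · intro h x hx
    have hxv : x ≠ v := by
      rintro rfl
      simp only [Finset.mem_union, Finset.mem_sdiff, Finset.mem_erase] at hx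
      tauto
    have hx' : x ∈ (F \ H) ∪ (H \ F) := by
      simp only [Finset.mem_union, Finset.mem_sdiff, Finset.mem_erase] at hx ⊢
      tauto
    exact (key x hxv hx').mpr (h x hx')

omit [Fintype V] in
private theorem tpata_right (F H : Finset V) {v : V} (hv : v ∈ H \ F) :
    pat F (H.erase v) ↔ ∀ x ∈ (F \ H) ∪ (H \ F),
      (x < v → tpataG F H x) ∧ (v < x → ¬ tpataG F H x) := by
  have hvF := (Finset.mem_sdiff.mp hv).2
  have hvH := (Finset.mem_sdiff.mp hv).1
  have hU : F ∪ H.erase v = (F ∪ H).erase v := by
    rw [Finset.erase_union_distrib, Finset.erase_eq_of_notMem hvF]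
  have hvU : v ∈ F ∪ H := Finset.mem_union_right _ hvH
  rw [tpata_pat]
  have key : ∀ x, x ≠ v → x ∈ (F \ H) ∪ (H \ F) → (tpataG F (H.erase v) x ↔
      ((x < v → tpataG F H x) ∧ (v < x → ¬ tpataG F H x))) := by
    intro x hxv hx
    rcases lt_or_gt_of_ne hxv with h | h
    · have h1 : tpataG F (H.erase v) x ↔ tpataG F H x := by
        unfold tpataG tpataN
        rw [hU, tpata_erase_lt _ h, Finset.mem_erase]
        simp only [ne_eq, hxv, not_false_eq_true, true_and]
      rw [h1]
      exact ⟨fun h2 => ⟨fun _ => h2, fun h3 => absurd h3 (not_lt.mpr h.le)⟩, fun h2 => h2.1 h⟩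
    · have h1 : tpataG F (H.erase v) x ↔ ¬ tpataG F H x := by
        have h2 := tpata_erase_gt (F ∪ H) hvU h
        rw [← tpata_bad F H hx]
        unfold tpataG tpataN
        rw [hU, Finset.union_comm H F, ← h2, Finset.mem_erase, Nat.even_add_one, Nat.odd_add_one,
          Nat.not_even_iff_odd, Nat.not_odd_iff_even]
        simp only [ne_eq, hxv, not_false_eq_true, true_and]
        tauto
      rw [h1]
      exact ⟨fun h2 => ⟨fun h3 => absurd h3 (not_lt.mpr h.le), fun _ => h2⟩, fun h2 => h2.2 h⟩
  constructor
  · intro h x hx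
    by_cases hxv : x = v
    · subst hxv
      exact ⟨fun h' => absurd h' (lt_irrefl _), fun h' => absurd h' (lt_irrefl _)⟩
    · refine (key x hxv hx).mp (h x ?_)
      simp only [Finset.mem_union, Finset.mem_sdiff, Finset.mem_erase] at hx ⊢
      tauto
  · intro h x hx
    have hxv : x ≠ v := by
      rintro rfl
      simp only [Finset.mem_union, Finset.mem_sdiff, Finset.mem_erase] at hx
      tauto
    have hx' : x ∈ (F \ H) ∪ (H \ F) := by
      simp only [Finset.mem_union, Finset.mem_sdiff, Finset.mem_erase] at hx ⊢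
      tauto
    exact (key x hxv hx').mpr (h x hx')

open scoped Classical in
/-- (B) -/
theorem pat_count (F H : Finset V) (h : F ≠ H) :
    (∑ v ∈ F \ H, (if pat (F.erase v) H then (1 : ZMod 2) else 0)) +
      ∑ v ∈ H \ F, (if pat F (H.erase v) then (1 : ZMod 2) else 0) =
    (if pat F H then 1 else 0) + if pat H F then 1 else 0 := by
  have hne : ((F \ H) ∪ (H \ F)).Nonempty := by
    by_contra hcon
    rw [Finset.not_nonempty_iff_eq_empty, Finset.union_eq_empty, Finset.sdiff_eq_empty_iff_subset,
      Finset.sdiff_eq_empty_iff_subset] at hcon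
    exact h (Finset.Subset.antisymm hcon.1 hcon.2)
  have hdisj : Disjoint (F \ H) (H \ F) := disjoint_sdiff_sdiff
  have h1 := tpata_count (tpataG F H) _ hne
  rw [Finset.sum_union hdisj] at h1
  have h2 : (∑ v ∈ F \ H, (if pat (F.erase v) H then (1 : ZMod 2) else 0)) =
      ∑ v ∈ F \ H, if ∀ x ∈ (F \ H) ∪ (H \ F),
        (x < v → tpataG F H x) ∧ (v < x → ¬ tpataG F H x) then (1 : ZMod 2) else 0 :=
    Finset.sum_congr rfl fun v hv => by simp only [tpata_left F H hv]
  have h3 : (∑ v ∈ H \ F, (if pat F (H.erase v) then (1 : ZMod 2) else 0)) =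
      ∑ v ∈ H \ F, if ∀ x ∈ (F \ H) ∪ (H \ F),
        (x < v → tpataG F H x) ∧ (v < x → ¬ tpataG F H x) then (1 : ZMod 2) else 0 :=
    Finset.sum_congr rfl fun v hv => by simp only [tpata_right F H hv]
  have h4 : pat F H ↔ ∀ x ∈ (F \ H) ∪ (H \ F), tpataG F H x := tpata_pat F H
  have h5 : pat H F ↔ ∀ x ∈ (F \ H) ∪ (H \ F), ¬ tpataG F H x := by
    rw [tpata_pat, Finset.union_comm (H \ F) (F \ H)]
    exact forall₂_congr fun x hx => tpata_bad F H hx
  rw [h2, h3, h1]
  simp only [h4, h5]

open scoped Classical in
/-- (A) -/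
theorem pat_mid (F H : Finset V) (v : V) (hF : v ∈ F) (hH : v ∈ H) :
    (if pat (F.erase v) H then (1 : ZMod 2) else 0) + (if pat F (H.erase v) then 1 else 0) =
      if pat F H then 1 else 0 := by
  have hU1 : F.erase v ∪ H = F ∪ H := by
    ext y
    simp only [Finset.mem_union, Finset.mem_erase]
    by_cases hy : y = v
    · subst hy; tauto
    · tauto
  have hU2 : F ∪ H.erase v = F ∪ H := by
    ext y
    simp only [Finset.mem_union, Finset.mem_erase]
    by_cases hy : y = v
    · subst hy; tauto
    · tauto
  have h1 : pat (F.erase v) H ↔ (pat F H ∧ Odd (tpataN F H v)) := by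
    unfold pat tpataN
    rw [hU1]
    constructor
    · rintro ⟨h1, h2⟩
      refine ⟨⟨fun x hx => h1 x ?_, fun x hx => h2 x ?_⟩, h2 v ?_⟩
      · simp only [Finset.mem_sdiff, Finset.mem_erase] at hx ⊢
        refine ⟨⟨?_, hx.1⟩, hx.2⟩
        rintro rfl
        exact hx.2 hH
      · simp only [Finset.mem_sdiff, Finset.mem_erase] at hx ⊢
        tauto
      · simp only [Finset.mem_sdiff, Finset.mem_erase]
        tauto
    · rintro ⟨⟨h1, h2⟩, h3⟩
      refine ⟨fun x hx => h1 x ?_, fun x hx => ?_⟩
      · simp only [Finset.mem_sdiff, Finset.mem_erase] at hx ⊢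
        tauto
      · by_cases hxv : x = v
        · subst hxv; exact h3
        · refine h2 x ?_
          simp only [Finset.mem_sdiff, Finset.mem_erase] at hx ⊢
          tauto
  have h2 : pat F (H.erase v) ↔ (pat F H ∧ Even (tpataN F H v)) := by
    unfold pat tpataN
    rw [hU2]
    constructor
    · rintro ⟨h1, h2⟩
      refine ⟨⟨fun x hx => h1 x ?_, fun x hx => h2 x ?_⟩, h1 v ?_⟩
      · simp only [Finset.mem_sdiff, Finset.mem_erase] at hx ⊢
        tauto
      · simp only [Finset.mem_sdiff, Finset.mem_erase] at hx ⊢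
        refine ⟨⟨?_, hx.1⟩, hx.2⟩
        rintro rfl
        exact hx.2 hF
      · simp only [Finset.mem_sdiff, Finset.mem_erase]
        tauto
    · rintro ⟨⟨h1, h2⟩, h3⟩
      refine ⟨fun x hx => ?_, fun x hx => h2 x ?_⟩
      · by_cases hxv : x = v
        · subst hxv; exact h3
        · refine h1 x ?_
          simp only [Finset.mem_sdiff, Finset.mem_erase] at hx ⊢
          tauto
      · simp only [Finset.mem_sdiff, Finset.mem_erase] at hx ⊢
        tauto
  by_cases hp : pat F H
  · rcases Nat.even_or_odd (tpataN F H v) with he | ho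
    · have h3 : ¬ pat (F.erase v) H := fun h => Nat.not_even_iff_odd.mpr (h1.mp h).2 he
      rw [if_neg h3, if_pos (h2.mpr ⟨hp, he⟩), if_pos hp, zero_add]
    · have h3 : ¬ pat F (H.erase v) := fun h => Nat.not_even_iff_odd.mpr ho (h2.mp h).2
      rw [if_neg h3, if_pos (h1.mpr ⟨hp, ho⟩), if_pos hp, add_zero]
  · rw [if_neg (fun h => hp (h1.mp h).1), if_neg (fun h => hp (h2.mp h).1), if_neg hp, zero_add]

omit [Fintype V] in
private theorem tpata_split (F H : Finset V) (hd : Disjoint F H) (x : V) :
    ((F ∪ H).filter (· < x)).card = (F.filter (· < x)).card + (H.filter (· < x)).card := by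
  rw [Finset.filter_union, Finset.card_union_of_disjoint (Finset.disjoint_filter_filter hd)]

omit [Fintype V] in
private theorem tpata_alt_aux (F H : Finset V) (hd : Disjoint F H) (hp : pat F H) (S : Finset V) :
    (∀ x ∈ S, x ∈ F ∪ H) → (∀ x ∈ S, (F ∪ H).filter (· < x) = S.filter (· < x)) →
      (F ∩ S).card = (H ∩ S).card + S.card % 2 := by
  induction S using Finset.induction_on_max with
  | empty => intro _ _; simp
  | insert a s ha ih =>
    intro h1 h2
    have has : a ∉ s := fun h => lt_irrefl _ (ha a h)
    have h3 := ih (fun x hx => h1 x (Finset.mem_insert_of_mem hx)) (fun x hx => by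
      rw [h2 x (Finset.mem_insert_of_mem hx), Finset.filter_insert,
        if_neg (not_lt.mpr (ha x hx).le)])
    have h4 : (F ∪ H).filter (· < a) = s := by
      rw [h2 a (Finset.mem_insert_self _ _), Finset.filter_insert, if_neg (lt_irrefl _)]
      exact Finset.filter_true_of_mem ha
    rcases Finset.mem_union.mp (h1 a (Finset.mem_insert_self _ _)) with haF | haH
    · have haH : a ∉ H := fun h => (Finset.disjoint_left.mp hd) haF h
      have h5 := hp.1 a (Finset.mem_sdiff.mpr ⟨haF, haH⟩)
      rw [h4] at h5
      have h6 : (F ∩ insert a s).card = (F ∩ s).card + 1 := by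
        rw [Finset.inter_insert_of_mem haF, Finset.card_insert_of_notMem]
        exact fun h => has (Finset.mem_inter.mp h).2
      have h7 : H ∩ insert a s = H ∩ s := Finset.inter_insert_of_notMem haH
      rw [h6, h7, Finset.card_insert_of_notMem has]
      have h8 := Nat.even_iff.mp h5
      omega
    · have haF : a ∉ F := fun h => (Finset.disjoint_left.mp hd) h haH
      have h5 := hp.2 a (Finset.mem_sdiff.mpr ⟨haH, haF⟩)
      rw [h4] at h5
      have h6 : (H ∩ insert a s).card = (H ∩ s).card + 1 := by
        rw [Finset.inter_insert_of_mem haH, Finset.card_insert_of_notMem]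
        exact fun h => has (Finset.mem_inter.mp h).2
      have h7 : F ∩ insert a s = F ∩ s := Finset.inter_insert_of_notMem haF
      rw [h6, h7, Finset.card_insert_of_notMem has]
      have h8 := Nat.odd_iff.mp h5
      omega

omit [Fintype V] in
private theorem tpata_alt (F H : Finset V) (hd : Disjoint F H) (hp : pat F H) (x : V) :
    (F.filter (· < x)).card = (H.filter (· < x)).card + ((F ∪ H).filter (· < x)).card % 2 := by
  have h1 := tpata_alt_aux F H hd hp ((F ∪ H).filter (· < x))
    (fun y hy => (Finset.mem_filter.mp hy).1) (fun y hy => by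
      ext z
      simp only [Finset.mem_filter]
      exact ⟨fun h => ⟨⟨h.1, h.2.trans (Finset.mem_filter.mp hy).2⟩, h.2⟩, fun h => ⟨h.1.1, h.2⟩⟩)
  have h2 : F ∩ (F ∪ H).filter (· < x) = F.filter (· < x) := by
    ext z
    simp only [Finset.mem_inter, Finset.mem_filter, Finset.mem_union]
    tauto
  have h3 : H ∩ (F ∪ H).filter (· < x) = H.filter (· < x) := by
    ext z
    simp only [Finset.mem_inter, Finset.mem_filter, Finset.mem_union]
    tauto
  rwa [h2, h3] at h1

/-- For disjoint sets of the same size, `pat` is the alternation of `VDefs.lean`. -/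
theorem pat_iff_alt (F H : Finset V) (hd : Disjoint F H) (hc : F.card = H.card) :
    pat F H ↔ (∀ x ∈ F, (H.filter (· < x)).card = (F.filter (· < x)).card) ∧
      ∀ x ∈ H, (F.filter (· < x)).card = (H.filter (· < x)).card + 1 := by
  constructor
  · intro hp
    constructor
    · intro x hx
      have h1 := hp.1 x (Finset.mem_sdiff.mpr ⟨hx, fun h => (Finset.disjoint_left.mp hd) hx h⟩)
      have h2 := tpata_alt F H hd hp x
      have h3 := Nat.even_iff.mp h1
      omega
    · intro x hx
      have h1 := hp.2 x (Finset.mem_sdiff.mpr ⟨hx, fun h => (Finset.disjoint_left.mp hd) h hx⟩)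
      have h2 := tpata_alt F H hd hp x
      have h3 := Nat.odd_iff.mp h1
      omega
  · rintro ⟨h1, h2⟩
    constructor
    · intro x hx
      have h3 := h1 x (Finset.mem_sdiff.mp hx).1
      rw [tpata_split F H hd x, h3]
      exact ⟨_, rfl⟩
    · intro x hx
      have h3 := h2 x (Finset.mem_sdiff.mp hx).1
      rw [tpata_split F H hd x, h3]
      exact ⟨(H.filter (· < x)).card, by ring⟩

end SingerRA
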