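import Mathlib
import Pool.Agent.Lib_MP_394d50_all.TDefs
import Pool.Agent.Lib_MP_394d50_all.TPatA

/-!
Piece TPATB: the canonical lifts (about 150 lines), from (A) = `pat_mid` and (B) = `pat_count` (TPatA.lean).

`xi_bd`: consider `Σ₁ = ∑_{F', H : F' ∩ H = σ, pat F' H} ∑_{v ∉ F'} pr (z (insert v F')) (z H)` over all `F', H`; it vanishes since
`∑_{v ∉ F'} z (insert v F') = bd z F' = 0` (`pr` is additive in each variable). Similarly `Σ₂ = ∑_{F, H' : F ∩ H' = σ, pat F H'} ∑_{v ∉ H'} pr (z F) (z (insert v H')) = 0`.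
Sort the terms of `Σ₁ + Σ₂` by the pair `(F, H)` (`F = insert v F'`, or `H = insert v H'`) and `v`:
  * `v ∈ F ∩ H`, `F ∩ H = insert v σ`, `v ∉ σ`: by (A) the coefficient is `[pat F H]`: the sum of these terms is `bd (xi z) σ`;
  * `F ∩ H = σ`, `v` in the symmetric difference: by (B) the coefficient of `pr (z F) (z H)` is `[pat F H] + [pat H F]` if `F ≠ H`; the sum is
    `xi z σ + tauM (xi z σ)` (`tauM (pr y z) = pr z y`). The pairs with `F = H = σ` do not contribute: `z σ = 0` because `σ.card < k`.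
-/

namespace SingerRA

open scoped TensorProduct

variable {V : Type} [Fintype V] [LinearOrder V]

variable {G : SimpleGraph V} {D : Type} [DivisionRing D] [Algebra (ZMod 2) D] [StarRing D]

omit [LinearOrder V] [Fintype V] in
private theorem tpatb_pr_add_left (y y' z : QV V → D) : pr (y + y') z = pr y z + pr y' z := by
  funext χ
  simp only [pr, Pi.add_apply, TensorProduct.add_tmul]

omit [LinearOrder V] [Fintype V] in
private theorem tpatb_pr_add_right (y z z' : QV V → D) : pr y (z + z') = pr y z + pr y z' := by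
  funext χ
  simp only [pr, Pi.add_apply, star_add, TensorProduct.tmul_add]

omit [LinearOrder V] [Fintype V] in
private theorem tpatb_pr_zero_left (z : QV V → D) : pr 0 z = 0 := by
  funext χ
  simp only [pr, Pi.zero_apply, TensorProduct.zero_tmul]

omit [LinearOrder V] [Fintype V] in
private theorem tpatb_pr_zero_right (z : QV V → D) : pr z 0 = 0 := by
  funext χ
  simp only [pr, Pi.zero_apply, star_zero, TensorProduct.tmul_zero]

omit [LinearOrder V] [Fintype V] in
private theorem tpatb_pr_sum_left {ι : Type} (s : Finset ι) (y : ι → QV V → D) (z : QV V → D) :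
    pr (∑ i ∈ s, y i) z = ∑ i ∈ s, pr (y i) z := by
  classical
  induction s using Finset.induction_on with
  | empty => rw [Finset.sum_empty, Finset.sum_empty, tpatb_pr_zero_left]
  | insert a s ha ih => rw [Finset.sum_insert ha, Finset.sum_insert ha, tpatb_pr_add_left, ih]

omit [LinearOrder V] [Fintype V] in
private theorem tpatb_pr_sum_right {ι : Type} (s : Finset ι) (y : ι → QV V → D) (z : QV V → D) :
    pr z (∑ i ∈ s, y i) = ∑ i ∈ s, pr z (y i) := by
  classical
  induction s using Finset.induction_on with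
  | empty => rw [Finset.sum_empty, Finset.sum_empty, tpatb_pr_zero_right]
  | insert a s ha ih => rw [Finset.sum_insert ha, Finset.sum_insert ha, tpatb_pr_add_right, ih]

omit [LinearOrder V] [Fintype V] in
private theorem tpatb_tauM_pr (y z : QV V → D) : tauM (pr y z) = pr z y := by
  funext χ
  show tau (y χ ⊗ₜ[ZMod 2] star (z χ)) = z χ ⊗ₜ[ZMod 2] star (y χ)
  rw [tau_tmul, star_star]

/-- re-indexing of the pairs `(F', v)`, `v ∉ F'`, and `(F, v)`, `v ∈ F` -/
private theorem tpatb_reindex {X : Type} [AddCommMonoid X] (g : Finset V → V → X) :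
    ∑ F, ∑ v ∈ Finset.univ \ F, g F v = ∑ F : Finset V, ∑ v ∈ F, g (F.erase v) v := by
  rw [Finset.sum_sigma', Finset.sum_sigma']
  refine Finset.sum_bij' (fun x _ => ⟨insert x.2 x.1, x.2⟩) (fun x _ => ⟨x.1.erase x.2, x.2⟩)
    ?_ ?_ ?_ ?_ ?_
  · rintro ⟨F, v⟩ _
    rw [Finset.mem_sigma]
    exact ⟨Finset.mem_univ _, Finset.mem_insert_self _ _⟩
  · rintro ⟨F, v⟩ _
    rw [Finset.mem_sigma]
    refine ⟨Finset.mem_univ _, ?_⟩
    rw [Finset.mem_sdiff]
    exact ⟨Finset.mem_univ _, Finset.notMem_erase _ _⟩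
  · rintro ⟨F, v⟩ h
    rw [Finset.mem_sigma, Finset.mem_sdiff] at h
    exact Sigma.ext (Finset.erase_insert h.2.2) HEq.rfl
  · rintro ⟨F, v⟩ h
    rw [Finset.mem_sigma] at h
    exact Sigma.ext (Finset.insert_erase h.2) HEq.rfl
  · rintro ⟨F, v⟩ h
    rw [Finset.mem_sigma, Finset.mem_sdiff] at h
    show g F v = g ((insert v F).erase v) v
    rw [Finset.erase_insert h.2.2]

open scoped Classical in
/-- indicator -/
private noncomputable def tpatbI (P : Prop) : ZMod 2 := if P then 1 else 0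

private theorem tpatbI_true {P : Prop} (h : P) : tpatbI P = 1 := by
  unfold tpatbI
  rw [if_pos h]

private theorem tpatbI_false {P : Prop} (h : ¬ P) : tpatbI P = 0 := by
  unfold tpatbI
  rw [if_neg h]

private theorem tpatbI_and (P Q : Prop) : tpatbI (P ∧ Q) = tpatbI P * tpatbI Q := by
  by_cases hP : P
  · by_cases hQ : Q
    · rw [tpatbI_true hP, tpatbI_true hQ, tpatbI_true ⟨hP, hQ⟩, one_mul]
    · rw [tpatbI_false hQ, tpatbI_false (fun h => hQ h.2), mul_zero]
  · rw [tpatbI_false hP, tpatbI_false (fun h => hP h.1), zero_mul]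

private theorem tpatb_xi (z : Finset V → QV V → D) (σ : Finset V) :
    xi z σ = ∑ F, ∑ H, tpatbI (F ∩ H = σ ∧ pat F H) • pr (z F) (z H) := by
  unfold xi
  refine Finset.sum_congr rfl fun F _ => Finset.sum_congr rfl fun H _ => ?_
  by_cases h : F ∩ H = σ ∧ pat F H
  · rw [if_pos h, tpatbI_true h, one_smul]
  · rw [if_neg h, tpatbI_false h, zero_smul]

private theorem tpatb_tau_xi (z : Finset V → QV V → D) (σ : Finset V) :
    tauM (xi z σ) = ∑ F, ∑ H, tpatbI (F ∩ H = σ ∧ pat H F) • pr (z F) (z H) := by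
  rw [tpatb_xi, map_sum]
  simp only [map_sum, map_smul, tpatb_tauM_pr]
  rw [Finset.sum_comm]
  refine Finset.sum_congr rfl fun F _ => Finset.sum_congr rfl fun H _ => ?_
  rw [Finset.inter_comm]

/-- the combinatorial identity -/
private theorem tpatb_coef (σ F H : Finset V) :
    (∑ v ∈ F, tpatbI ((F.erase v) ∩ H = σ ∧ pat (F.erase v) H)) +
      ∑ v ∈ H, tpatbI (F ∩ (H.erase v) = σ ∧ pat F (H.erase v)) =
    (∑ v ∈ Finset.univ \ σ, tpatbI (F ∩ H = insert v σ ∧ pat F H)) +
      (tpatbI (F ∩ H = σ ∧ pat F H) + tpatbI (F ∩ H = σ ∧ pat H F)) := by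
  have h1 : ∑ v ∈ F, tpatbI ((F.erase v) ∩ H = σ ∧ pat (F.erase v) H) =
      (∑ v ∈ F \ H, tpatbI (F ∩ H = σ) * tpatbI (pat (F.erase v) H)) +
        ∑ v ∈ F ∩ H, tpatbI ((F ∩ H).erase v = σ) * tpatbI (pat (F.erase v) H) := by
    rw [← Finset.sum_inter_add_sum_sdiff F H, add_comm]
    congr 1
    · refine Finset.sum_congr rfl fun v hv => ?_
      rw [Finset.mem_sdiff] at hv
      rw [tpatbI_and, Finset.erase_inter, Finset.erase_eq_of_notMem
        (fun h => hv.2 (Finset.mem_inter.1 h).2)]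
    · refine Finset.sum_congr rfl fun v _ => ?_
      rw [tpatbI_and, Finset.erase_inter]
  have h2 : ∑ v ∈ H, tpatbI (F ∩ (H.erase v) = σ ∧ pat F (H.erase v)) =
      (∑ v ∈ H \ F, tpatbI (F ∩ H = σ) * tpatbI (pat F (H.erase v))) +
        ∑ v ∈ F ∩ H, tpatbI ((F ∩ H).erase v = σ) * tpatbI (pat F (H.erase v)) := by
    rw [← Finset.sum_inter_add_sum_sdiff H F, add_comm, Finset.inter_comm H F]
    congr 1
    · refine Finset.sum_congr rfl fun v hv => ?_
      rw [Finset.mem_sdiff] at hv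
      rw [tpatbI_and, Finset.inter_erase, Finset.erase_eq_of_notMem
        (fun h => hv.2 (Finset.mem_inter.1 h).1)]
    · refine Finset.sum_congr rfl fun v _ => ?_
      rw [tpatbI_and, Finset.inter_erase]
  have h3 : (∑ v ∈ F \ H, tpatbI (F ∩ H = σ) * tpatbI (pat (F.erase v) H)) +
      (∑ v ∈ H \ F, tpatbI (F ∩ H = σ) * tpatbI (pat F (H.erase v))) =
      tpatbI (F ∩ H = σ ∧ pat F H) + tpatbI (F ∩ H = σ ∧ pat H F) := by
    rw [← Finset.mul_sum, ← Finset.mul_sum, ← mul_add, tpatbI_and, tpatbI_and, ← mul_add]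
    congr 1
    by_cases hFH : F = H
    · subst hFH
      rw [Finset.sdiff_self, Finset.sum_empty, Finset.sum_empty, CharTwo.add_self_eq_zero,
        CharTwo.add_self_eq_zero]
    · exact pat_count F H hFH
  have h4 : (∑ v ∈ F ∩ H, tpatbI ((F ∩ H).erase v = σ) * tpatbI (pat (F.erase v) H)) +
      (∑ v ∈ F ∩ H, tpatbI ((F ∩ H).erase v = σ) * tpatbI (pat F (H.erase v))) =
      ∑ v ∈ Finset.univ \ σ, tpatbI (F ∩ H = insert v σ ∧ pat F H) := by
    rw [← Finset.sum_add_distrib]
    have h5 : ∀ v ∈ F ∩ H, tpatbI ((F ∩ H).erase v = σ) * tpatbI (pat (F.erase v) H) +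
        tpatbI ((F ∩ H).erase v = σ) * tpatbI (pat F (H.erase v)) =
        tpatbI ((F ∩ H).erase v = σ) * tpatbI (pat F H) := by
      intro v hv
      rw [Finset.mem_inter] at hv
      rw [← mul_add]
      congr 1
      exact pat_mid F H v hv.1 hv.2
    rw [Finset.sum_congr rfl h5]
    have h6 : ∀ v ∈ F ∩ H, tpatbI ((F ∩ H).erase v = σ) * tpatbI (pat F H) =
        if v ∉ σ then tpatbI (F ∩ H = insert v σ ∧ pat F H) else 0 := by
      intro v hv
      by_cases hvσ : v ∈ σ
      · rw [if_neg (not_not.2 hvσ), tpatbI_false, zero_mul]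
        intro h
        rw [← h] at hvσ
        exact Finset.notMem_erase _ _ hvσ
      · rw [if_pos hvσ, tpatbI_and]
        congr 1
        by_cases h : (F ∩ H).erase v = σ
        · rw [tpatbI_true h, tpatbI_true]
          rw [← h, Finset.insert_erase hv]
        · rw [tpatbI_false h, tpatbI_false]
          intro h'
          apply h
          rw [h', Finset.erase_insert hvσ]
    rw [Finset.sum_congr rfl h6, ← Finset.sum_filter]
    apply Finset.sum_subset_zero_on_sdiff
    · intro v hv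
      rw [Finset.mem_filter] at hv
      rw [Finset.mem_sdiff]
      exact ⟨Finset.mem_univ _, hv.2⟩
    · intro v hv
      rw [Finset.mem_sdiff, Finset.mem_sdiff, Finset.mem_filter] at hv
      apply tpatbI_false
      intro h
      apply hv.2
      refine ⟨?_, hv.1.2⟩
      rw [h.1]
      exact Finset.mem_insert_self _ _
    · intro v _
      rfl
  rw [h1, h2, ← h3, ← h4]
  ring

private theorem tpatb_s1 (z : Finset V → QV V → D) (hc : ∀ τ, bd z τ = 0) (σ : Finset V) :
    ∑ F, ∑ H, (∑ v ∈ F, tpatbI ((F.erase v) ∩ H = σ ∧ pat (F.erase v) H)) • pr (z F) (z H) = 0 := by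
  rw [Finset.sum_comm]
  apply Finset.sum_eq_zero
  intro H _
  have h1 : ∑ F : Finset V, ∑ v ∈ F, tpatbI ((F.erase v) ∩ H = σ ∧ pat (F.erase v) H) •
      pr (z (insert v (F.erase v))) (z H) = 0 := by
    rw [← tpatb_reindex (fun F v => tpatbI (F ∩ H = σ ∧ pat F H) • pr (z (insert v F)) (z H))]
    apply Finset.sum_eq_zero
    intro F _
    rw [← Finset.smul_sum, ← tpatb_pr_sum_left]
    have h2 : ∑ v ∈ Finset.univ \ F, z (insert v F) = 0 := hc F
    rw [h2, tpatb_pr_zero_left, smul_zero]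
  rw [← h1]
  refine Finset.sum_congr rfl fun F _ => ?_
  rw [Finset.sum_smul]
  refine Finset.sum_congr rfl fun v hv => ?_
  rw [Finset.insert_erase hv]

private theorem tpatb_s2 (z : Finset V → QV V → D) (hc : ∀ τ, bd z τ = 0) (σ : Finset V) :
    ∑ F, ∑ H, (∑ v ∈ H, tpatbI (F ∩ (H.erase v) = σ ∧ pat F (H.erase v))) • pr (z F) (z H) = 0 := by
  apply Finset.sum_eq_zero
  intro F _
  have h1 : ∑ H : Finset V, ∑ v ∈ H, tpatbI (F ∩ (H.erase v) = σ ∧ pat F (H.erase v)) •
      pr (z F) (z (insert v (H.erase v))) = 0 := by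
    rw [← tpatb_reindex (fun H v => tpatbI (F ∩ H = σ ∧ pat F H) • pr (z F) (z (insert v H)))]
    apply Finset.sum_eq_zero
    intro H _
    rw [← Finset.smul_sum, ← tpatb_pr_sum_right]
    have h2 : ∑ v ∈ Finset.univ \ H, z (insert v H) = 0 := hc H
    rw [h2, tpatb_pr_zero_right, smul_zero]
  rw [← h1]
  refine Finset.sum_congr rfl fun H _ => ?_
  rw [Finset.sum_smul]
  refine Finset.sum_congr rfl fun v hv => ?_
  rw [Finset.insert_erase hv]

theorem xi_bd (k : ℕ) (z : Finset V → QV V → D)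
    (hz : ∀ σ, ¬ (σ ∈ cliq G ∧ σ.card = k) → z σ = 0) (hc : ∀ τ, bd z τ = 0) (σ : Finset V)
    (hσ : σ.card < k) : bd (xi z) σ = xi z σ + tauM (xi z σ) := by
  have h0 : bd (xi z) σ + (xi z σ + tauM (xi z σ)) = 0 := by
    have h1 := tpatb_s1 z hc σ
    have h2 := tpatb_s2 z hc σ
    have h3 : bd (xi z) σ =
        ∑ F, ∑ H, (∑ v ∈ Finset.univ \ σ, tpatbI (F ∩ H = insert v σ ∧ pat F H)) •
          pr (z F) (z H) := by
      unfold bd
      rw [Finset.sum_congr rfl (fun v _ => tpatb_xi z (insert v σ)), Finset.sum_comm]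
      refine Finset.sum_congr rfl fun F _ => ?_
      rw [Finset.sum_comm]
      refine Finset.sum_congr rfl fun H _ => ?_
      rw [Finset.sum_smul]
    rw [h3, tpatb_tau_xi, tpatb_xi, ← Finset.sum_add_distrib, ← Finset.sum_add_distrib]
    rw [← add_zero (0 : MM V D)]
    nth_rw 2 [← h1]
    rw [← h2, ← Finset.sum_add_distrib]
    refine Finset.sum_congr rfl fun F _ => ?_
    rw [← Finset.sum_add_distrib, ← Finset.sum_add_distrib, ← Finset.sum_add_distrib]
    refine Finset.sum_congr rfl fun H _ => ?_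
    rw [← add_smul, ← add_smul, ← add_smul, ← tpatb_coef, add_comm (∑ v ∈ F, _)]
  have h1 : bd (xi z) σ + bd (xi z) σ = 0 := ZModModule.add_self _
  exact add_left_cancel (h1.trans h0.symm)

theorem xi_top (k : ℕ) (z : Finset V → QV V → D)
    (hz : ∀ σ, ¬ (σ ∈ cliq G ∧ σ.card = k) → z σ = 0) (σ : Finset V)
    (hσ : σ.card = k) : xi z σ = pr (z σ) (z σ) := by
  have hsub : ∀ F : Finset V, σ ⊆ F → F ≠ σ → z F = 0 := by
    intro F hF hne
    apply hz
    intro h
    apply hne
    exact (Finset.eq_of_subset_of_card_le hF (by rw [h.2, hσ])).symm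
  rw [tpatb_xi, Finset.sum_eq_single σ, Finset.sum_eq_single σ]
  · rw [tpatbI_true, one_smul]
    refine ⟨Finset.inter_self σ, ?_, ?_⟩
    · intro x hx
      rw [Finset.sdiff_self] at hx
      exact absurd hx (Finset.notMem_empty x)
    · intro x hx
      rw [Finset.sdiff_self] at hx
      exact absurd hx (Finset.notMem_empty x)
  · intro H _ hH
    by_cases h : σ ∩ H = σ ∧ pat σ H
    · rw [hsub H (Finset.inter_eq_left.1 h.1) hH, tpatb_pr_zero_right, smul_zero]
    · rw [tpatbI_false h, zero_smul]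
  · intro h
    exact absurd (Finset.mem_univ σ) h
  · intro F _ hF
    apply Finset.sum_eq_zero
    intro H _
    by_cases h : F ∩ H = σ ∧ pat F H
    · have hs : σ ⊆ F := by
        rw [← h.1]
        exact Finset.inter_subset_left
      rw [hsub F hs hF, tpatb_pr_zero_left, smul_zero]
    · rw [tpatbI_false h, zero_smul]
  · intro h
    exact absurd (Finset.mem_univ σ) h

theorem xi_zero (k : ℕ) (z : Finset V → QV V → D)
    (hz : ∀ σ, ¬ (σ ∈ cliq G ∧ σ.card = k) → z σ = 0) (σ : Finset V)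
    (hσ : ¬ (σ ∈ cliq G ∧ σ.card ≤ k)) : xi z σ = 0 := by
  rw [tpatb_xi]
  apply Finset.sum_eq_zero
  intro F _
  apply Finset.sum_eq_zero
  intro H _
  by_cases h : F ∩ H = σ ∧ pat F H
  · have hs : σ ⊆ F := by
      rw [← h.1]
      exact Finset.inter_subset_left
    have hF : z F = 0 := by
      apply hz
      rintro ⟨h1, h2⟩
      apply hσ
      refine ⟨?_, ?_⟩
      · intro x hx y hy hxy
        exact h1 (hs hx) (hs hy) hxy
      · rw [← h2]
        exact Finset.card_le_card hs
    rw [hF, tpatb_pr_zero_left, smul_zero]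
  · rw [tpatbI_false h, zero_smul]

end SingerRA
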