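import Mathlib
import Pool.Agent.Lib_MP_394d50_all.TDefs
import Pool.Agent.Lib_MP_394d50_all.TExt
import Pool.Agent.Lib_MP_394d50_all.TPat

/-!
Piece TTATE: climbing and descending (about 250 lines), from `sym_decomp`, `kappa_zero`, `xi_bd`, `xi_top`, `xi_zero`, `pr_eq`.

Notation: `CM i = Cch G d.t univ i`; `N c = c + tauM c` (pointwise for chains); `N N = 0`, `N` commutes with `bd`, preserves `CM i` (`Sop_tauM`); for a cycle
`b ∈ ChD k` let `x_i^b σ = xi b σ` if `σ.card = i` and `0` otherwise: `x_i^b ∈ CM i` (invariance: `F ∩ H = σ`, `v ∈ σ`: `pr_eq`; `xi_zero`),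
`bd x_{i+1}^b = N x_i^b` for `i < k` (`xi_bd`), `x_k^b σ = pr (b σ) (b σ)`, `N x_k^b = 0` (`tauM_pr`).
A DESCENDING SEQUENCE below `j`: `y_i ∈ CM i` for `i < j` with `bd y_{i+1} = N y_i` (`i + 1 < j`).

(D_j) For all `c ∈ CM j` with `N c = bd c₁` for some `c₁ ∈ CM (j+1)` there are `c' ∈ CM j` with `N c' = 0` and a descending
sequence `y` below `j` with, if `j ≥ 1`, `bd c' + bd c = N y_{j-1}`.
Proof by descending induction on `j`. For `j > card V`: `CM j = 0`, trivial. Step: `N c = bd c₁`. `bd (N c₁) = N (N c) = 0`, so by (EX)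
`N c₁ = bd c₂`; by (D_{j+1}) there are `c₁'`, `N c₁' = 0`, and `y` below `j+1` with `bd c₁' + bd c₁ = N y_j`. By `sym_decomp` for every clique `ρ`, `ρ.card = j+1`:
`c₁' ρ = pr (b ρ) (b ρ) + N (e ρ)`; put `b ρ = 0`, `e ρ = 0` for other `ρ`: `b ∈ ChD`-support of degree `j+1`, `e ∈ CM (j+1)`. For each `τ`:
`pr (bd b τ) (bd b τ) = ∑_v pr (b (insert v τ)) (b (insert v τ)) + (mixed terms, which are of the form N(..))`, so it is in the image of `N`:
`∑_v pr .. = bd c₁' τ + N (bd e τ)` and `bd c₁' = bd c₁ + N y_j = N (c + y_j)`. So `bd b τ = 0` by `kappa_zero`: `b` is a cycle in `ChD (j+1)`.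
`N c = bd c₁ = bd c₁' + N y_j = bd x_{j+1}^b + N (bd e) + N y_j = N (x_j^b + bd e + y_j)`. So `c' = c + x_j^b + bd e + y_j` has `N c' = 0` and, if `j ≥ 1`,
`bd c' + bd c = bd x_j^b + bd y_j = N (x_{j-1}^b + y_{j-1})` (`bd bd e = 0`). The new sequence `x_i^b + y_i` is descending below `j`.

`tate`: climbing: by induction on `i ≤ k` there are `c_i ∈ CM i`, `c_{i+1} ∈ CM (i+1)` with `x_i^z = N c_i + bd c_{i+1}`. `i = 0`: the hypothesis `h0` (with
`c_1 {v} = n v`). Step: `bd x_{i+1}^z = N x_i^z = bd (N c_{i+1})`, so `x_{i+1}^z + N c_{i+1}` is a cycle in `CM (i+1)`, `i + 1 ≥ 1`, and `= bd c_{i+2}` by (EX).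
For `i = k`: `x_k^z = N c_k + bd c_{k+1}`; apply `N`: `0 = N x_k^z = bd (N c_{k+1})`, so `N c_{k+1} = bd c_{k+2}` by (EX). (D_{k+1}) gives `c'`, `N c' = 0`, and
`y_k` with `bd c' + bd c_{k+1} = N y_k`. So `x_k^z = N (c_k + y_k) + bd c'`. `c' ρ = pr (y' ρ) (y' ρ) + N (e ρ)` by `sym_decomp`
with `y' ∈ ChD (k+1)`; `pr (z σ + bd y' σ) (z σ + bd y' σ)` is in the image of `N` for every `σ`, so `z = bd y'` by `kappa_zero`.
-/

namespace SingerRA

open scoped TensorProduct

/-! ## The boundary -/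

section tateBd

variable {V : Type} [Fintype V] [DecidableEq V]

theorem tate_bd_add {X : Type} [AddCommMonoid X] (c c' : Finset V → X) (τ : Finset V) :
    bd (fun σ => c σ + c' σ) τ = bd c τ + bd c' τ := Finset.sum_add_distrib

theorem tate_bd_map {X Y : Type} [AddCommMonoid X] [AddCommMonoid Y] (f : X →+ Y)
    (c : Finset V → X) (τ : Finset V) : bd (fun σ => f (c σ)) τ = f (bd c τ) :=
  (map_sum f _ _).symm

theorem tate_bd_zero {X : Type} [AddCommMonoid X] (τ : Finset V) :
    bd (fun _ : Finset V => (0 : X)) τ = 0 := Finset.sum_const_zero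

theorem tate_bd_bd {X : Type} [AddCommGroup X] (h2 : ∀ x : X, x + x = 0) (c : Finset V → X)
    (τ : Finset V) : bd (bd c) τ = 0 := by
  unfold bd
  rw [Finset.sum_sigma']
  refine Finset.sum_involution (fun p _ => ⟨p.2, p.1⟩) ?_ ?_ ?_ ?_
  · rintro ⟨v, u⟩ h
    show c (insert u (insert v τ)) + c (insert v (insert u τ)) = 0
    rw [Finset.insert_comm]
    exact h2 _
  · rintro ⟨v, u⟩ h _ he
    simp only [Finset.mem_sigma, Finset.mem_sdiff, Finset.mem_univ, true_and,
      Finset.mem_insert, not_or] at h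
    have : u = v := congrArg Sigma.fst he
    exact h.2.1 this
  · rintro ⟨v, u⟩ h
    simp only [Finset.mem_sigma, Finset.mem_sdiff, Finset.mem_univ, true_and,
      Finset.mem_insert, not_or] at h ⊢
    exact ⟨h.2.2, fun e => h.2.1 e.symm, h.1⟩
  · rintro ⟨v, u⟩ h
    rfl

end tateBd

/-! ## Chains -/

section tateCh

variable {V : Type} [Fintype V] [LinearOrder V] {G : SimpleGraph V} {D : Type} [DivisionRing D]
  [Algebra (ZMod 2) D]

omit [Fintype V] [LinearOrder V] in
theorem tate_two (x : MM V D) : x + x = 0 := by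
  have h : ((1 : ZMod 2) + 1) • x = 0 := by
    rw [show (1 : ZMod 2) + 1 = 0 from rfl, zero_smul]
  rwa [add_smul, one_smul] at h

omit [Fintype V] [LinearOrder V] in
theorem tate_twoD (x : QV V → D) : x + x = 0 := by
  have h : ((1 : ZMod 2) + 1) • x = 0 := by
    rw [show (1 : ZMod 2) + 1 = 0 from rfl, zero_smul]
  rwa [add_smul, one_smul] at h

omit [Fintype V] [LinearOrder V] in
theorem tate_eq_of_add {x y : MM V D} (h : x + y = 0) : x = y := by
  have h1 := tate_two y
  calc x = x + (y + y) := by rw [h1, add_zero]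
    _ = (x + y) + y := by rw [add_assoc]
    _ = y := by rw [h, zero_add]

theorem tate_Cch_add {t : V → Dˣ} {A : Finset V} {i : ℕ} {c c' : Finset V → MM V D}
    (h : Cch G t A i c) (h' : Cch G t A i c') : Cch G t A i (fun σ => c σ + c' σ) := by
  refine ⟨fun σ hσ => ?_, fun σ v hv => ?_⟩
  · show c σ + c' σ = 0
    rw [h.1 σ hσ, h'.1 σ hσ, add_zero]
  · show Sop t v (c σ + c' σ) = c σ + c' σ
    rw [map_add, h.2 σ v hv, h'.2 σ v hv]

theorem tate_Cch_zero (t : V → Dˣ) (A : Finset V) (i : ℕ) :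
    Cch G t A i (fun _ => (0 : MM V D)) :=
  ⟨fun _ _ => rfl, fun _ _ _ => map_zero _⟩

omit [Fintype V] [LinearOrder V] in
theorem tate_cliq_sub {σ ρ : Finset V} (h : ρ ∈ cliq G) (hs : σ ⊆ ρ) : σ ∈ cliq G := by
  have h1 : G.IsClique (ρ : Set V) := h
  exact h1.subset (by exact_mod_cast hs)

theorem tate_Cch_bd {t : V → Dˣ} {i : ℕ} {c : Finset V → MM V D}
    (h : Cch G t Finset.univ (i + 1) c) : Cch G t Finset.univ i (bd c) := by
  refine ⟨fun σ hσ => ?_, fun σ v hv => ?_⟩
  · unfold bd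
    refine Finset.sum_eq_zero fun v hv => ?_
    rw [Finset.mem_sdiff] at hv
    apply h.1
    rintro ⟨h1, _, h3⟩
    rw [Finset.card_insert_of_notMem hv.2] at h3
    exact hσ ⟨tate_cliq_sub h1 (Finset.subset_insert _ _), Finset.subset_univ _, by omega⟩
  · unfold bd
    rw [map_sum]
    refine Finset.sum_congr rfl fun u _ => ?_
    exact h.2 _ v (Finset.mem_insert_of_mem hv)

variable [StarRing D]

/-- The norm. -/
noncomputable def tateN : MM V D →ₗ[ZMod 2] MM V D := LinearMap.id + tauM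

omit [Fintype V] [LinearOrder V] in
theorem tateN_apply (x : MM V D) : tateN x = x + tauM x := rfl

omit [Fintype V] in
theorem tateN_N (x : MM V D) : tateN (tateN x) = 0 := by
  rw [tateN_apply, tateN_apply, map_add, tauM_tauM, add_comm (tauM x) x]
  exact tate_two _

omit [Fintype V] in
theorem tateN_pr (y : QV V → D) : tateN (pr y y) = 0 := by
  rw [tateN_apply, tauM_pr]
  exact tate_two _

omit [Fintype V] in
theorem tateN_Sop (t : V → Dˣ) (ht : ∀ v, star ((t v : Dˣ) : D) = (((t v)⁻¹ : Dˣ) : D)) (v : V)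
    (x : MM V D) (hx : Sop t v x = x) : Sop t v (tateN x) = tateN x := by
  rw [tateN_apply, map_add, Sop_tauM t ht, hx]

theorem tate_Cch_N {t : V → Dˣ} (ht : ∀ v, star ((t v : Dˣ) : D) = (((t v)⁻¹ : Dˣ) : D))
    {A : Finset V} {i : ℕ} {c : Finset V → MM V D} (h : Cch G t A i c) :
    Cch G t A i (fun σ => tateN (c σ)) := by
  refine ⟨fun σ hσ => ?_, fun σ v hv => ?_⟩
  · show tateN (c σ) = 0
    rw [h.1 σ hσ, map_zero]
  · exact tateN_Sop t ht v _ (h.2 σ v hv)

theorem tate_bd_N (c : Finset V → MM V D) (τ : Finset V) :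
    bd (fun σ => tateN (c σ)) τ = tateN (bd c τ) :=
  tate_bd_map (tateN (V := V) (D := D)).toAddMonoidHom c τ

/-! ## The pairing -/

omit [Fintype V] [LinearOrder V] in
theorem tate_pr_add (a b : QV V → D) :
    pr (a + b) (a + b) = pr a a + pr b b + (pr a b + pr b a) := by
  funext χ
  show (a χ + b χ) ⊗ₜ[ZMod 2] star (a χ + b χ) = _
  rw [star_add, TensorProduct.add_tmul, TensorProduct.tmul_add, TensorProduct.tmul_add]
  show _ = a χ ⊗ₜ[ZMod 2] star (a χ) + b χ ⊗ₜ[ZMod 2] star (b χ) +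
    (a χ ⊗ₜ[ZMod 2] star (b χ) + b χ ⊗ₜ[ZMod 2] star (a χ))
  abel

omit [Fintype V] in
theorem tate_pr_add' (a b : QV V → D) :
    pr (a + b) (a + b) = pr a a + pr b b + tateN (pr a b) := by
  rw [tate_pr_add, tateN_apply, tauM_pr]

omit [Fintype V] [LinearOrder V] in
theorem tate_pr_zero : pr (0 : QV V → D) (0 : QV V → D) = 0 := by
  funext χ
  show (0 : D) ⊗ₜ[ZMod 2] star (0 : D) = 0
  rw [TensorProduct.zero_tmul]

omit [Fintype V] in
theorem tate_pr_sum {ι : Type} (s : Finset ι) (b : ι → QV V → D) :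
    ∃ m : MM V D, pr (∑ i ∈ s, b i) (∑ i ∈ s, b i) = ∑ i ∈ s, pr (b i) (b i) + tateN m := by
  classical
  induction s using Finset.induction_on with
  | empty =>
    refine ⟨0, ?_⟩
    rw [Finset.sum_empty, Finset.sum_empty, map_zero, add_zero]
    exact tate_pr_zero
  | insert i s hi ih =>
    obtain ⟨m, hm⟩ := ih
    refine ⟨m + pr (b i) (∑ i ∈ s, b i), ?_⟩
    rw [Finset.sum_insert hi, Finset.sum_insert hi, tate_pr_add', hm, map_add]
    abel

theorem tate_pr_bd (b : Finset V → QV V → D) (τ : Finset V) :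
    ∃ m : MM V D, pr (bd b τ) (bd b τ) = bd (fun σ => pr (b σ) (b σ)) τ + tateN m :=
  tate_pr_sum _ _

omit [Fintype V] in
theorem tate_kappa (z : QV V → D) (e : MM V D) (h : pr z z = tateN e) : z = 0 :=
  kappa_zero z e h

/-! ## The canonical chains -/

/-- The part of degree `i` of `xi`. -/
noncomputable def tateX (z : Finset V → QV V → D) (i : ℕ) (σ : Finset V) : MM V D :=
  if σ.card = i then xi z σ else 0

omit [Fintype V] [Algebra (ZMod 2) D] [StarRing D] in
theorem tate_eqD_mem {t : V → Dˣ} {σ : Finset V} {y : QV V → D} (h : EqD t σ y) {v : V}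
    (hv : v ∈ σ) : EqD t {v} y := by
  intro u hu χ
  rw [Finset.mem_singleton] at hu
  subst hu
  exact h u hv χ

theorem tateX_mem {t : V → Dˣ} (ht : ∀ v, star ((t v : Dˣ) : D) = (((t v)⁻¹ : Dˣ) : D))
    {k : ℕ} {z : Finset V → QV V → D} (hz : ChD G t k z) (i : ℕ) :
    Cch G t Finset.univ i (tateX z i) := by
  refine ⟨fun σ hσ => ?_, fun σ v hv => ?_⟩
  · unfold tateX
    split_ifs with h
    · apply xi_zero (G := G) k z hz.1
      rintro ⟨h1, _⟩
      exact hσ ⟨h1, Finset.subset_univ _, h⟩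
    · rfl
  · unfold tateX
    split_ifs with h
    · unfold xi
      rw [map_sum]
      refine Finset.sum_congr rfl fun F _ => ?_
      rw [map_sum]
      refine Finset.sum_congr rfl fun H _ => ?_
      split_ifs with hFH
      · have hv' : v ∈ F ∩ H := by
          rw [hFH.1]
          exact hv
        rw [Finset.mem_inter] at hv'
        exact pr_eq t ht v _ _ (tate_eqD_mem (hz.2 F) hv'.1) (tate_eqD_mem (hz.2 H) hv'.2)
      · exact map_zero _
    · exact map_zero _

theorem tateX_bd {k : ℕ} {z : Finset V → QV V → D}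
    (hz : ∀ σ, ¬ (σ ∈ cliq G ∧ σ.card = k) → z σ = 0) (hc : ∀ τ, bd z τ = 0) (i : ℕ) (hi : i < k)
    (σ : Finset V) : bd (tateX z (i + 1)) σ = tateN (tateX z i σ) := by
  have h1 : bd (tateX z (i + 1)) σ = if σ.card = i then bd (xi z) σ else 0 := by
    unfold bd
    split_ifs with h
    · refine Finset.sum_congr rfl fun v hv => ?_
      rw [Finset.mem_sdiff] at hv
      unfold tateX
      rw [Finset.card_insert_of_notMem hv.2, if_pos (by omega)]
    · refine Finset.sum_eq_zero fun v hv => ?_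
      rw [Finset.mem_sdiff] at hv
      unfold tateX
      rw [Finset.card_insert_of_notMem hv.2, if_neg (by omega)]
  rw [h1]
  unfold tateX
  split_ifs with h
  · rw [xi_bd (G := G) k z hz hc σ (by omega), tateN_apply]
  · rw [map_zero]

theorem tateX_top {k : ℕ} {z : Finset V → QV V → D}
    (hz : ∀ σ, ¬ (σ ∈ cliq G ∧ σ.card = k) → z σ = 0) (σ : Finset V) :
    tateX z k σ = pr (z σ) (z σ) := by
  unfold tateX
  split_ifs with h
  · exact xi_top (G := G) k z hz σ h
  · rw [hz σ (fun h' => h h'.2), tate_pr_zero]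

/-! ## Decomposition of symmetric chains -/

theorem tate_decomp (d : UD G D) (ht : ∀ v, star ((d.t v : Dˣ) : D) = (((d.t v)⁻¹ : Dˣ) : D))
    (i : ℕ) (c : Finset V → MM V D) (hc : Cch G d.t Finset.univ i c)
    (hN : ∀ σ, tateN (c σ) = 0) :
    ∃ (b : Finset V → QV V → D) (e : Finset V → MM V D), ChD G d.t i b ∧
      Cch G d.t Finset.univ i e ∧ ∀ σ, c σ = pr (b σ) (b σ) + tateN (e σ) := by
  classical
  have key : ∀ σ : Finset V, ∃ (z : QV V → D) (e : MM V D), EqD d.t σ z ∧
      (∀ v ∈ σ, Sop d.t v e = e) ∧ c σ = pr z z + tateN e ∧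
      (¬ (σ ∈ cliq G ∧ σ.card = i) → z = 0 ∧ e = 0) := by
    intro σ
    by_cases h : σ ∈ cliq G ∧ σ.card = i
    · have hs : tauM (c σ) = c σ := by
        have h1 := hN σ
        rw [tateN_apply, add_comm] at h1
        exact tate_eq_of_add h1
      obtain ⟨z, e, h1, h2, h3⟩ := sym_decomp d ht σ h.1 (c σ) (hc.2 σ) hs
      exact ⟨z, e, h1, h2, h3, fun hn => absurd h hn⟩
    · refine ⟨0, 0, fun v _ χ => ?_, fun v _ => map_zero _, ?_, fun _ => ⟨rfl, rfl⟩⟩
      · show (0 : D) = 0 * _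
        rw [zero_mul]
      · rw [tate_pr_zero, map_zero, add_zero]
        apply hc.1
        rintro ⟨h1, _, h3⟩
        exact h ⟨h1, h3⟩
  choose b e h1 h2 h3 h4 using key
  refine ⟨b, e, ⟨fun σ hσ => (h4 σ hσ).1, h1⟩, ⟨fun σ hσ => ?_, h2⟩, h3⟩
  apply (h4 σ _).2
  rintro ⟨ha, hb⟩
  exact hσ ⟨ha, Finset.subset_univ _, hb⟩

/-! ## Descending -/

/-- A descending sequence below `j`. -/
def TDesc (G : SimpleGraph V) (t : V → Dˣ) (j : ℕ) (y : ℕ → Finset V → MM V D) : Prop :=
  (∀ i, i < j → Cch G t Finset.univ i (y i)) ∧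
    ∀ i, i + 1 < j → ∀ σ, bd (y (i + 1)) σ = tateN (y i σ)

/-- The statement `(D_j)`. -/
def TDj (G : SimpleGraph V) (t : V → Dˣ) (j : ℕ) : Prop :=
  ∀ c c₁ : Finset V → MM V D, Cch G t Finset.univ j c → Cch G t Finset.univ (j + 1) c₁ →
    (∀ σ, tateN (c σ) = bd c₁ σ) → ∃ (c' : Finset V → MM V D) (y : ℕ → Finset V → MM V D),
      Cch G t Finset.univ j c' ∧ (∀ σ, tateN (c' σ) = 0) ∧ TDesc G t j y ∧
      ∀ i, i + 1 = j → ∀ σ, bd c' σ + bd c σ = tateN (y i σ)

theorem tate_desc_step (d : UD G D)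
    (ht : ∀ v, star ((d.t v : Dˣ) : D) = (((d.t v)⁻¹ : Dˣ) : D))
    (EX : ∀ i, 1 ≤ i → ∀ c, Cch G d.t Finset.univ i c → (∀ τ, bd c τ = 0) →
      ∃ c', Cch G d.t Finset.univ (i + 1) c' ∧ ∀ τ, c τ = bd c' τ) (j : ℕ)
    (hD : TDj G d.t (j + 1)) : TDj G d.t j := by
  intro c c₁ hc hc₁ hN
  -- the element `N c₁`
  obtain ⟨c₂, hc₂, hb₂⟩ := EX (j + 1) (by omega) (fun σ => tateN (c₁ σ)) (tate_Cch_N ht hc₁)
    (fun τ => by rw [tate_bd_N, ← hN, tateN_N])
  obtain ⟨c₁', y, hc₁', hNc', hy, hby⟩ := hD c₁ c₂ hc₁ hc₂ hb₂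
  have hby' := hby j rfl
  obtain ⟨b, e, hb, he, hdec⟩ := tate_decomp d ht (j + 1) c₁' hc₁' hNc'
  -- the boundary of `κ b`
  have hκ : ∀ τ, bd (fun σ => pr (b σ) (b σ)) τ = tateN (c τ + y j τ + bd e τ) := by
    intro τ
    have h1 : bd c₁' τ = bd (fun σ => pr (b σ) (b σ)) τ + tateN (bd e τ) := by
      rw [← tate_bd_N, ← tate_bd_add]
      unfold bd
      exact Finset.sum_congr rfl fun v _ => hdec _
    have h2 : bd c₁' τ = tateN (c τ) + tateN (y j τ) := by
      rw [hN, ← hby' τ, add_comm (bd c₁' τ), ← add_assoc, tate_two, zero_add]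
    calc bd (fun σ => pr (b σ) (b σ)) τ
        = bd (fun σ => pr (b σ) (b σ)) τ + (tateN (bd e τ) + tateN (bd e τ)) := by
          rw [tate_two, add_zero]
      _ = bd c₁' τ + tateN (bd e τ) := by rw [h1, add_assoc]
      _ = tateN (c τ + y j τ + bd e τ) := by rw [h2, map_add, map_add]
  have hbc : ∀ τ, bd b τ = 0 := by
    intro τ
    obtain ⟨m, hm⟩ := tate_pr_bd b τ
    apply tate_kappa (bd b τ) (c τ + y j τ + bd e τ + m)
    rw [hm, hκ, map_add tateN _ m]
  -- the canonical chains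
  have hx1 : ∀ σ, bd (tateX b (j + 1)) σ = tateN (tateX b j σ) :=
    tateX_bd hb.1 hbc j (by omega)
  have hx0 : ∀ i, i + 1 = j → ∀ σ, bd (tateX b j) σ = tateN (tateX b i σ) := by
    rintro i rfl σ
    exact tateX_bd hb.1 hbc i (by omega) σ
  have hxt : ∀ τ, bd (fun σ => pr (b σ) (b σ)) τ = tateN (tateX b j τ) := by
    intro τ
    rw [← hx1 τ]
    unfold bd
    exact Finset.sum_congr rfl fun v _ => (tateX_top hb.1 _).symm
  refine ⟨fun σ => c σ + y j σ + bd e σ + tateX b j σ, fun i σ => tateX b i σ + y i σ,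
    tate_Cch_add (tate_Cch_add (tate_Cch_add hc (hy.1 j (by omega))) (tate_Cch_bd he))
      (tateX_mem ht hb j), fun σ => ?_, ⟨fun i hi => ?_, fun i hi σ => ?_⟩, fun i hi σ => ?_⟩
  · show tateN (c σ + y j σ + bd e σ + tateX b j σ) = 0
    rw [map_add, ← hκ σ, hxt σ, tate_two]
  · exact tate_Cch_add (tateX_mem ht hb i) (hy.1 i (by omega))
  · rw [tate_bd_add, tateX_bd hb.1 hbc i (by omega), hy.2 i (by omega) σ, map_add]
  · have h1 : bd (fun σ => c σ + y j σ + bd e σ + tateX b j σ) σ =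
        bd c σ + bd (y j) σ + bd (bd e) σ + bd (tateX b j) σ := by
      rw [tate_bd_add (fun σ => c σ + y j σ + bd e σ), tate_bd_add (fun σ => c σ + y j σ),
        tate_bd_add c]
    rw [h1, tate_bd_bd tate_two, hx0 i hi σ, add_zero]
    subst hi
    rw [hy.2 i (by omega) σ, map_add]
    calc bd c σ + tateN (y i σ) + tateN (tateX b i σ) + bd c σ
        = (bd c σ + bd c σ) + (tateN (tateX b i σ) + tateN (y i σ)) := by abel
      _ = _ := by rw [tate_two, zero_add]

theorem tate_desc (d : UD G D)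
    (ht : ∀ v, star ((d.t v : Dˣ) : D) = (((d.t v)⁻¹ : Dˣ) : D))
    (EX : ∀ i, 1 ≤ i → ∀ c, Cch G d.t Finset.univ i c → (∀ τ, bd c τ = 0) →
      ∃ c', Cch G d.t Finset.univ (i + 1) c' ∧ ∀ τ, c τ = bd c' τ) (j : ℕ) : TDj G d.t j := by
  have hbig : ∀ j, Fintype.card V < j → TDj G d.t j := by
    intro j hj c c₁ hc hc₁ _
    have h0 : ∀ σ : Finset V, c σ = 0 := by
      intro σ
      apply hc.1
      rintro ⟨_, _, h3⟩
      have := Finset.card_le_univ σ
      omega
    refine ⟨fun _ => 0, fun _ _ => 0, tate_Cch_zero _ _ _, fun σ => map_zero _,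
      ⟨fun i _ => tate_Cch_zero _ _ _, fun i _ σ => ?_⟩, fun i _ σ => ?_⟩
    · rw [tate_bd_zero, map_zero]
    · rw [tate_bd_zero, map_zero, zero_add]
      unfold bd
      exact Finset.sum_eq_zero fun v _ => h0 _
  have key : ∀ n j, Fintype.card V + 1 ≤ j + n → TDj G d.t j := by
    intro n
    induction n with
    | zero =>
      intro j hj
      exact hbig j (by omega)
    | succ n ih =>
      intro j hj
      exact tate_desc_step d ht EX j (ih (j + 1) (by omega))
  exact key (Fintype.card V + 1) j (by omega)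

end tateCh

variable {V : Type} [Fintype V] [LinearOrder V] {G : SimpleGraph V} {D : Type} [DivisionRing D]
  [Algebra (ZMod 2) D] [StarRing D]

theorem tate (d : UD G D) (ht : ∀ v, star ((d.t v : Dˣ) : D) = (((d.t v)⁻¹ : Dˣ) : D))
    (EX : ∀ i, 1 ≤ i → ∀ c, Cch G d.t Finset.univ i c → (∀ τ, bd c τ = 0) →
      ∃ c', Cch G d.t Finset.univ (i + 1) c' ∧ ∀ τ, c τ = bd c' τ)
    (k : ℕ) (hk : 1 ≤ k) (z : Finset V → QV V → D) (hz : ChD G d.t k z)
    (hc : ∀ τ, bd z τ = 0) (c0 : MM V D) (n : V → MM V D) (hn : ∀ v, Sop d.t v (n v) = n v)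
    (h0 : xi z ∅ = c0 + tauM c0 + ∑ v, n v) :
    ∃ y, ChD G d.t (k + 1) y ∧ ∀ τ, z τ = bd y τ := by
  classical
  -- climbing
  have climb : ∀ i, i ≤ k → ∃ a b : Finset V → MM V D, Cch G d.t Finset.univ i a ∧
      Cch G d.t Finset.univ (i + 1) b ∧ ∀ σ, tateX z i σ = tateN (a σ) + bd b σ := by
    intro i
    induction i with
    | zero =>
      intro _
      refine ⟨fun σ => if σ = ∅ then c0 else 0,
        fun σ => ∑ v, if σ = {v} then n v else 0, ⟨fun σ hσ => ?_, fun σ v hv => ?_⟩,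
        ⟨fun σ hσ => ?_, fun σ v hv => ?_⟩, fun σ => ?_⟩
      · show (if σ = ∅ then c0 else 0) = 0
        rw [if_neg]
        rintro rfl
        refine hσ ⟨?_, Finset.subset_univ _, Finset.card_empty⟩
        show G.IsClique ((∅ : Finset V) : Set V)
        rw [Finset.coe_empty]
        exact SimpleGraph.isClique_empty
      · show Sop d.t v (if σ = ∅ then c0 else 0) = if σ = ∅ then c0 else 0
        rw [if_neg]
        · exact map_zero _
        · rintro rfl
          exact absurd hv (Finset.notMem_empty v)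
      · refine Finset.sum_eq_zero fun v _ => ?_
        rw [if_neg]
        rintro rfl
        refine hσ ⟨?_, Finset.subset_univ _, Finset.card_singleton v⟩
        show G.IsClique (({v} : Finset V) : Set V)
        rw [Finset.coe_singleton]
        exact SimpleGraph.isClique_singleton _
      · rw [map_sum]
        refine Finset.sum_congr rfl fun u _ => ?_
        split_ifs with h
        · subst h
          rw [Finset.mem_singleton] at hv
          subst hv
          exact hn v
        · exact map_zero _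
      · by_cases h : σ = ∅
        · subst h
          have h1 : tateX z 0 ∅ = xi z ∅ := by
            unfold tateX
            rw [if_pos Finset.card_empty]
          rw [h1, h0, tateN_apply]
          simp only [if_true]
          congr 1
          unfold bd
          rw [Finset.sdiff_empty]
          refine Finset.sum_congr rfl fun v _ => ?_
          show n v = ∑ u, if insert v (∅ : Finset V) = {u} then n u else 0
          rw [Finset.sum_eq_single v]
          · rw [if_pos (by simp)]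
          · intro u _ hu
            rw [if_neg]
            intro he
            have hv : v ∈ ({u} : Finset V) := by
              rw [← he]
              exact Finset.mem_insert_self _ _
            rw [Finset.mem_singleton] at hv
            exact hu hv.symm
          · intro hv
            exact absurd (Finset.mem_univ v) hv
        · have h1 : tateX z 0 σ = 0 := by
            unfold tateX
            rw [if_neg]
            rw [Finset.card_eq_zero]
            exact h
          show tateX z 0 σ = tateN (if σ = ∅ then c0 else 0) + _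
          rw [h1, if_neg h, map_zero, zero_add]
          symm
          unfold bd
          refine Finset.sum_eq_zero fun v hv => Finset.sum_eq_zero fun u _ => ?_
          rw [if_neg]
          intro he
          rw [Finset.mem_sdiff] at hv
          have h2 := congrArg Finset.card he
          rw [Finset.card_insert_of_notMem hv.2, Finset.card_singleton] at h2
          apply h
          rw [← Finset.card_eq_zero]
          omega
    | succ i ih =>
      intro hi
      obtain ⟨a, b, ha, hb, hab⟩ := ih (by omega)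
      have hcyc : ∀ τ, bd (fun σ => tateX z (i + 1) σ + tateN (b σ)) τ = 0 := by
        intro τ
        rw [tate_bd_add, tateX_bd hz.1 hc i (by omega), tate_bd_N, hab τ, map_add, tateN_N,
          zero_add, tate_two]
      obtain ⟨b', hb', hbb⟩ := EX (i + 1) (by omega) _
        (tate_Cch_add (tateX_mem ht hz (i + 1)) (tate_Cch_N ht hb)) hcyc
      refine ⟨b, b', hb, hb', fun σ => ?_⟩
      have h1 : tateX z (i + 1) σ + tateN (b σ) = bd b' σ := hbb σ
      rw [← h1, ← add_assoc, add_comm (tateN (b σ)), add_assoc, tate_two, add_zero]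
  obtain ⟨a, b, ha, hb, hab⟩ := climb k le_rfl
  have hNb : ∀ τ, bd (fun σ => tateN (b σ)) τ = 0 := by
    intro τ
    have h1 : tateN (tateX z k τ) = 0 := by
      rw [tateX_top hz.1, tateN_pr]
    rw [hab τ, map_add, tateN_N, zero_add] at h1
    rw [tate_bd_N, h1]
  obtain ⟨b₂, hb₂, hbb₂⟩ := EX (k + 1) (by omega) _ (tate_Cch_N ht hb) hNb
  obtain ⟨c', y, hc', hNc', hy, hby⟩ := tate_desc d ht EX (k + 1) b b₂ hb hb₂ hbb₂
  obtain ⟨w, e, hw, he, hdec⟩ := tate_decomp d ht (k + 1) c' hc' hNc'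
  refine ⟨w, hw, fun σ => ?_⟩
  -- the class of `z σ + bd w σ`
  have h1 : pr (z σ) (z σ) = tateN (a σ + y k σ) + bd c' σ := by
    have h2 := hby k rfl σ
    have h3 : bd b σ = bd c' σ + tateN (y k σ) := by
      rw [← h2, ← add_assoc, tate_two, zero_add]
    rw [← tateX_top hz.1, hab σ, h3, map_add]
    abel
  have h4 : bd c' σ = bd (fun σ => pr (w σ) (w σ)) σ + tateN (bd e σ) := by
    rw [← tate_bd_N, ← tate_bd_add]
    unfold bd
    exact Finset.sum_congr rfl fun v _ => hdec _
  obtain ⟨m, hm⟩ := tate_pr_bd w σ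
  have h5 : z σ + bd w σ = 0 := by
    apply tate_kappa _ (a σ + y k σ + bd e σ + m + pr (z σ) (bd w σ))
    rw [tate_pr_add', h1, h4, hm, map_add tateN _ (pr (z σ) (bd w σ)), map_add tateN _ m,
      map_add tateN _ (bd e σ)]
    calc tateN (a σ + y k σ) + (bd (fun σ => pr (w σ) (w σ)) σ + tateN (bd e σ)) +
          (bd (fun σ => pr (w σ) (w σ)) σ + tateN m) + tateN (pr (z σ) (bd w σ))
        = tateN (a σ + y k σ) + tateN (bd e σ) + tateN m + tateN (pr (z σ) (bd w σ)) +
          (bd (fun σ => pr (w σ) (w σ)) σ + bd (fun σ => pr (w σ) (w σ)) σ) := by abel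
      _ = _ := by rw [tate_two, add_zero]
  have h6 := tate_twoD (bd w σ)
  calc z σ = z σ + (bd w σ + bd w σ) := by rw [h6, add_zero]
    _ = (z σ + bd w σ) + bd w σ := by rw [add_assoc]
    _ = bd w σ := by rw [h5, zero_add]

end SingerRA
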