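import Mathlib
import Pool.Agent.Lib_MP_394d50_vk.VDefs
import Pool.Agent.Lib_MP_394d50_vk.VVk
import Pool.Agent.Lib_MP_394d50_vk.VRow
import Pool.Agent.Lib_MP_394d50_all.TDefs
import Pool.Agent.Lib_MP_394d50_all.TExt
import Pool.Agent.Lib_MP_394d50_all.TPat
import Pool.Agent.Lib_MP_394d50_all.TTate
import Pool.Agent.Lib_MP_394d50_all.EMain

/-!
Piece TVK: van Kampen (about 120 lines), from `vk` (VVk.lean), `HomSphere.acyc` (VRow.lean), `pat_iff_alt`, `pr_eq`.

Let `Q₀ = span {c + tauM c} ⊔ span {m | ∃ v, Sop d.t v m = m}`. Suppose `xi z ∅ ∉ Q₀`. By `Submodule.exists_le_ker_of_notMem` there is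
`lam : MM V D →ₗ[ZMod 2] ZMod 2` with `lam (xi z ∅) ≠ 0`, `lam = 0` on `Q₀`. Let `Wf F H = lam (pr (z F) (z H))`. It is symmetric (`tauM_pr`). It vanishes
unless `F, H` are cliques with `k` elements, and if `v ∈ F ∩ H` then `pr (z F) (z H)` is `s_v`-invariant (`pr_eq`) so it vanishes. So `Wf` is supported on
the pairs `DP G F H` with `F.card + H.card = 2 * k`. `DD Wf σ τ = bs (fun ρ => Wf ρ τ) σ + bs (Wf σ) τ = lam (pr (bd z σ) (z τ)) + lam (pr (z σ) (bd z τ)) = 0`
(`pr` is additive in each variable). `vk n (2 * k)` (with `hac` from `HomSphere.acyc`) gives `∑ alt σ τ * Wf σ τ = 0`. For `F ∩ H = ∅`,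
`F.card = H.card` `pat F H` is `Alt F H` (`pat_iff_alt`), so the sum is `lam (xi z ∅)`: contradiction. So `xi z ∅ ∈ Q₀`, which gives `c0` and
`n` (an element of `span {c + tauM c}` is `c0 + tauM c0` for one `c0`, linearity; an element of the second span is a sum `∑_v n v`: the span is the
supremum over `v` of the submodules of the `s_v`-invariants).
`main_D`: `xi_mem`, `tate`, `exact_M`.
-/

namespace SingerRA

open scoped TensorProduct

variable {V : Type} [Fintype V] [LinearOrder V] {G : SimpleGraph V} {D : Type} [DivisionRing D]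
  [Algebra (ZMod 2) D] [StarRing D]

omit [Fintype V] [LinearOrder V] in
theorem tvk_zero_left (z : QV V → D) : pr (0 : QV V → D) z = 0 := by
  funext χ
  show (0 : D) ⊗ₜ[ZMod 2] star (z χ) = 0
  exact TensorProduct.zero_tmul _ _

omit [Fintype V] [LinearOrder V] in
theorem tvk_zero_right (y : QV V → D) : pr y (0 : QV V → D) = 0 := by
  funext χ
  show y χ ⊗ₜ[ZMod 2] star (0 : D) = 0
  rw [star_zero, TensorProduct.tmul_zero]

omit [Fintype V] [LinearOrder V] in
theorem tvk_add_left (y y' z : QV V → D) : pr (y + y') z = pr y z + pr y' z := by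
  funext χ
  show (y χ + y' χ) ⊗ₜ[ZMod 2] star (z χ) = _
  exact TensorProduct.add_tmul _ _ _

omit [Fintype V] [LinearOrder V] in
theorem tvk_add_right (y z z' : QV V → D) : pr y (z + z') = pr y z + pr y z' := by
  funext χ
  show y χ ⊗ₜ[ZMod 2] star (z χ + z' χ) = _
  rw [star_add]
  exact TensorProduct.tmul_add _ _ _

omit [Fintype V] [LinearOrder V] in
theorem tvk_sum_left {ι : Type} (s : Finset ι) (f : ι → QV V → D) (z : QV V → D) :
    pr (∑ i ∈ s, f i) z = ∑ i ∈ s, pr (f i) z := by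
  classical
  induction s using Finset.induction_on with
  | empty => rw [Finset.sum_empty, Finset.sum_empty, tvk_zero_left]
  | insert a s ha ih => rw [Finset.sum_insert ha, Finset.sum_insert ha, tvk_add_left, ih]

omit [Fintype V] [LinearOrder V] in
theorem tvk_sum_right {ι : Type} (s : Finset ι) (y : QV V → D) (f : ι → QV V → D) :
    pr y (∑ i ∈ s, f i) = ∑ i ∈ s, pr y (f i) := by
  classical
  induction s using Finset.induction_on with
  | empty => rw [Finset.sum_empty, Finset.sum_empty, tvk_zero_right]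
  | insert a s ha ih => rw [Finset.sum_insert ha, Finset.sum_insert ha, tvk_add_right, ih]

theorem xi_mem (d : UD G D) (ht : ∀ v, star ((d.t v : Dˣ) : D) = (((d.t v)⁻¹ : Dˣ) : D))
    (n k : ℕ) (hS : HomSphere n G) (hk : n < 2 * k) (z : Finset V → QV V → D)
    (hz : ChD G d.t k z) (hc : ∀ τ, bd z τ = 0) :
    ∃ (c0 : MM V D) (m : V → MM V D), (∀ v, Sop d.t v (m v) = m v) ∧
      xi z ∅ = c0 + tauM c0 + ∑ v, m v := by
  classical
  set Q : Submodule (ZMod 2) (MM V D) := LinearMap.range (LinearMap.id + tauM) ⊔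
    ⨆ v, LinearMap.ker (Sop d.t v - LinearMap.id) with hQ
  have hker : ∀ (v : V) (m : MM V D), m ∈ LinearMap.ker (Sop d.t v - LinearMap.id) ↔
      Sop d.t v m = m := by
    intro v m
    rw [LinearMap.mem_ker, LinearMap.sub_apply, LinearMap.id_apply, sub_eq_zero]
  have hQ1 : ∀ m : MM V D, m + tauM m ∈ Q := by
    intro m
    exact Submodule.mem_sup_left ⟨m, rfl⟩
  have hQ2 : ∀ (v : V) (m : MM V D), Sop d.t v m = m → m ∈ Q := by
    intro v m hm
    exact Submodule.mem_sup_right (Submodule.mem_iSup_of_mem v ((hker v m).2 hm))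
  by_cases hmem : xi z ∅ ∈ Q
  · rw [hQ, Submodule.mem_sup] at hmem
    obtain ⟨a, ⟨c0, hc0⟩, b, hb, hab⟩ := hmem
    rw [Submodule.mem_iSup_iff_exists_finsupp] at hb
    obtain ⟨f, hf, hfs⟩ := hb
    refine ⟨c0, fun v => f v, fun v => (hker v _).1 (hf v), ?_⟩
    rw [← hab, ← hfs, ← hc0, Finsupp.sum_fintype _ _ (fun _ => rfl)]
    rfl
  exfalso
  obtain ⟨lam, hlam, hle⟩ := Submodule.exists_le_ker_of_notMem hmem
  have hl0 : ∀ m ∈ Q, lam m = 0 := fun m hm => LinearMap.mem_ker.1 (hle hm)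
  set Wf : Finset V → Finset V → ZMod 2 := fun F H => lam (pr (z F) (z H)) with hWf
  have h0l : ∀ F H, z F = 0 → Wf F H = 0 := by
    intro F H h
    rw [hWf]
    beta_reduce
    rw [h, tvk_zero_left, map_zero]
  have h0r : ∀ F H, z H = 0 → Wf F H = 0 := by
    intro F H h
    rw [hWf]
    beta_reduce
    rw [h, tvk_zero_right, map_zero]
  have hsupp : ∀ σ τ, ¬ (DP G σ τ ∧ σ.card + τ.card = 2 * k) → Wf σ τ = 0 := by
    intro σ τ h
    by_cases hσ : σ ∈ cliq G ∧ σ.card = k
    swap
    · exact h0l σ τ (hz.1 σ hσ)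
    by_cases hτ : τ ∈ cliq G ∧ τ.card = k
    swap
    · exact h0r σ τ (hz.1 τ hτ)
    have hnd : ¬ Disjoint σ τ := by
      intro hd
      exact h ⟨⟨hσ.1, hτ.1, hd⟩, by omega⟩
    rw [Finset.not_disjoint_iff] at hnd
    obtain ⟨v, hvσ, hvτ⟩ := hnd
    apply hl0
    apply hQ2 v
    refine pr_eq d.t ht v _ _ ?_ ?_
    · intro w hw χ
      rw [Finset.mem_singleton] at hw
      rw [hw]
      exact hz.2 σ v hvσ χ
    · intro w hw χ
      rw [Finset.mem_singleton] at hw
      rw [hw]
      exact hz.2 τ v hvτ χ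
  have hsymm : ∀ σ τ, Wf σ τ = Wf τ σ := by
    intro σ τ
    have h1 := hl0 _ (hQ1 (pr (z σ) (z τ)))
    rw [tauM_pr, map_add] at h1
    exact CharTwo.add_eq_zero.1 h1
  have hDD : ∀ σ τ, DP G σ τ → DD Wf σ τ = 0 := by
    intro σ τ _
    unfold DD bs
    have h1 : ∑ v ∈ Finset.univ \ σ, Wf (insert v σ) τ = 0 := by
      have h2 := hc σ
      unfold bd at h2
      have h3 := tvk_sum_left (Finset.univ \ σ) (fun v => z (insert v σ)) (z τ)
      rw [h2, tvk_zero_left] at h3
      have h4 := congrArg lam h3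
      rw [map_zero, map_sum] at h4
      exact h4.symm
    have h1' : ∑ v ∈ Finset.univ \ τ, Wf σ (insert v τ) = 0 := by
      have h2 := hc τ
      unfold bd at h2
      have h3 := tvk_sum_right (Finset.univ \ τ) (z σ) (fun v => z (insert v τ))
      rw [h2, tvk_zero_right] at h3
      have h4 := congrArg lam h3
      rw [map_zero, map_sum] at h4
      exact h4.symm
    rw [h1, h1', add_zero]
  have hvk := vk (G := G) n (2 * k) (fun σ hσ => hS.dim σ hσ) hk
    (fun σ hσ hne => hS.acyc σ hne ∅ (by rwa [Finset.empty_union]) (Finset.disjoint_empty_left _))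
    Wf hsupp hsymm hDD
  apply hlam
  rw [← hvk]
  unfold xi
  rw [map_sum]
  refine Finset.sum_congr rfl fun F _ => ?_
  rw [map_sum]
  refine Finset.sum_congr rfl fun H _ => ?_
  by_cases hDP : DP G F H ∧ F.card + H.card = 2 * k
  swap
  · rw [hsupp F H hDP, mul_zero]
    have h1 := hsupp F H hDP
    rw [hWf] at h1
    beta_reduce at h1
    split_ifs
    · exact h1
    · exact map_zero _
  by_cases hF : F ∈ cliq G ∧ F.card = k
  swap
  · have h1 := hz.1 F hF
    rw [h0l F H h1, h1, tvk_zero_left, ite_self, map_zero, mul_zero]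
  by_cases hH : H ∈ cliq G ∧ H.card = k
  swap
  · have h1 := hz.1 H hH
    rw [h0r F H h1, h1, tvk_zero_right, ite_self, map_zero, mul_zero]
  have hpat := pat_iff_alt F H hDP.1.2.2 (by rw [hF.2, hH.2])
  have hint : F ∩ H = ∅ := Finset.disjoint_iff_inter_eq_empty.1 hDP.1.2.2
  by_cases hp : pat F H
  · have ha : Alt F H := hpat.1 hp
    rw [if_pos ⟨hint, hp⟩]
    unfold alt
    rw [if_pos ha, one_mul]
  · have ha : ¬ Alt F H := fun h => hp (hpat.2 h)
    rw [if_neg (fun h => hp h.2)]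
    unfold alt
    rw [if_neg ha, zero_mul, map_zero]

/-- The homology of a flag homology sphere with coefficients in `D` vanishes above the middle. -/
theorem main_D (S : Sys G D) (ht : ∀ v, star ((S.t v : Dˣ) : D) = (((S.t v)⁻¹ : Dˣ) : D))
    (n k : ℕ) (hS : HomSphere n G) (hk : n < 2 * k) : ExD G S.t k := by
  intro z hz hc
  obtain ⟨c0, m, hm, h0⟩ := xi_mem S.toUD ht n k hS hk z hz hc
  exact tate S.toUD ht (fun i hi c hc' hb => exact_M S i hi c hc' hb) k (by omega) z hz hc c0 m hm h0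

end SingerRA
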