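import Mathlib
import Pool.Agent.Lib_MP_394d50_all.UDefs

/-!
# The ultraproduct of a sequence of division rings of characteristic two
-/

namespace SingerRA

open Filter

variable (D : ℕ → Type) [∀ c, DivisionRing (D c)]

theorem upm_zero_iff (f : (c : ℕ) → D c) :
    upm D f = 0 ↔ ∀ᶠ c in (hyperfilter ℕ : Filter ℕ), f c = 0 := by
  rw [← map_zero (upm D), upm_eq]
  rfl

theorem upm_ne_zero_iff (f : (c : ℕ) → D c) :
    upm D f ≠ 0 ↔ ∀ᶠ c in (hyperfilter ℕ : Filter ℕ), f c ≠ 0 := by
  rw [Ne, upm_zero_iff, ← Ultrafilter.eventually_not]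

theorem upm_mul_inv (f : (c : ℕ) → D c) (hf : upm D f ≠ 0) :
    upm D f * upm D (fun c => (f c)⁻¹) = 1 := by
  rw [← map_mul, ← map_one (upm D), upm_eq]
  exact ((upm_ne_zero_iff D f).1 hf).mono fun c hc => mul_inv_cancel₀ hc

theorem upm_inv_mul (f : (c : ℕ) → D c) (hf : upm D f ≠ 0) :
    upm D (fun c => (f c)⁻¹) * upm D f = 1 := by
  rw [← map_mul, ← map_one (upm D), upm_eq]
  exact ((upm_ne_zero_iff D f).1 hf).mono fun c hc => inv_mul_cancel₀ hc

instance instNontrivialUP : Nontrivial (UP D) := by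
  refine ⟨⟨1, 0, ?_⟩⟩
  rw [← map_one (upm D), upm_ne_zero_iff]
  exact Eventually.of_forall fun c => one_ne_zero

noncomputable instance instDivisionRingUP : DivisionRing (UP D) :=
  DivisionRing.ofIsUnitOrEqZero fun a => by
    obtain ⟨f, rfl⟩ := upm_surj D a
    by_cases h : upm D f = 0
    · exact Or.inr h
    · exact Or.inl ⟨⟨upm D f, upm D (fun c => (f c)⁻¹), upm_mul_inv D f h, upm_inv_mul D f h⟩, rfl⟩

theorem upm_inv (f : (c : ℕ) → D c) : (upm D f)⁻¹ = upm D (fun c => (f c)⁻¹) := by
  by_cases h : upm D f = 0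
  · rw [h, inv_zero]
    symm
    rw [upm_zero_iff]
    exact ((upm_zero_iff D f).1 h).mono fun c hc => by rw [hc, inv_zero]
  · exact inv_eq_of_mul_eq_one_right (upm_mul_inv D f h)

variable [∀ c, Algebra (ZMod 2) (D c)]

theorem two_eq_zero_alg (R : Type) [Ring R] [Algebra (ZMod 2) R] : (2 : R) = 0 := by
  have h : algebraMap (ZMod 2) R 2 = 2 := map_ofNat _ 2
  rw [← h, show (2 : ZMod 2) = 0 from rfl, map_zero]

instance instCharUP : CharP (UP D) 2 :=
  CharTwo.of_one_ne_zero_of_two_eq_zero one_ne_zero (by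
    have h : (2 : UP D) = upm D 2 := (map_ofNat (upm D) 2).symm
    rw [h, upm_zero_iff]
    exact Eventually.of_forall fun c => two_eq_zero_alg (D c))

noncomputable instance instAlgUP : Algebra (ZMod 2) (UP D) := ZMod.algebra (UP D) 2

variable [∀ c, StarRing (D c)]

/-- The involution of the ultraproduct. -/
noncomputable def starUP (x : UP D) : UP D :=
  Quotient.map' (s₁ := (upCon D).toSetoid) (s₂ := (upCon D).toSetoid)
    (fun f : (c : ℕ) → D c => fun c => star (f c))
    (fun _ _ h => Eventually.mono h fun _ h => congrArg star h) x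

theorem starUP_upm (f : (c : ℕ) → D c) : starUP D (upm D f) = upm D (fun c => star (f c)) := rfl

noncomputable instance instStarUP : StarRing (UP D) where
  star := starUP D
  star_involutive x := by
    obtain ⟨f, rfl⟩ := upm_surj D x
    rw [starUP_upm, starUP_upm]
    exact congrArg (upm D) (funext fun c => star_star _)
  star_mul x y := by
    obtain ⟨f, rfl⟩ := upm_surj D x
    obtain ⟨g, rfl⟩ := upm_surj D y
    show starUP D (upm D f * upm D g) = starUP D (upm D g) * starUP D (upm D f)
    rw [← map_mul, starUP_upm, starUP_upm, starUP_upm, ← map_mul]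
    exact congrArg (upm D) (funext fun c => star_mul _ _)
  star_add x y := by
    obtain ⟨f, rfl⟩ := upm_surj D x
    obtain ⟨g, rfl⟩ := upm_surj D y
    show starUP D (upm D f + upm D g) = starUP D (upm D f) + starUP D (upm D g)
    rw [← map_add, starUP_upm, starUP_upm, starUP_upm, ← map_add]
    exact congrArg (upm D) (funext fun c => star_add _ _)

theorem star_upm (f : (c : ℕ) → D c) : star (upm D f) = upm D (fun c => star (f c)) := rfl

end SingerRA
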