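import Mathlib
import Pool.Agent.Lib_MP_394d50_all.UBase

/-!
# The valuations, division subrings and the system on the ultraproduct
-/

namespace SingerRA

open Filter

variable (D : ℕ → Type) [∀ c, DivisionRing (D c)]

/-- The valuation of the ultraproduct. -/
def pvUP (v : ∀ c, PV (D c)) : PV (UP D) where
  le x y := ∀ f g : (c : ℕ) → D c, upm D f = x → upm D g = y →
    ∀ᶠ c in (hyperfilter ℕ : Filter ℕ), (v c).le (f c) (g c)
  total a b := by
    obtain ⟨f, rfl⟩ := upm_surj D a
    obtain ⟨g, rfl⟩ := upm_surj D b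
    have h : ∀ᶠ c in (hyperfilter ℕ : Filter ℕ), (v c).le (f c) (g c) ∨ (v c).le (g c) (f c) :=
      Eventually.of_forall fun c => (v c).total _ _
    rw [Ultrafilter.eventually_or] at h
    rcases h with h | h
    · left
      intro f' g' hf hg
      have hf' := (upm_eq D f' f).1 hf
      have hg' := (upm_eq D g' g).1 hg
      filter_upwards [h, hf', hg'] with c h1 h2 h3
      rw [h2, h3]
      exact h1
    · right
      intro g' f' hg hf
      have hf' := (upm_eq D f' f).1 hf
      have hg' := (upm_eq D g' g).1 hg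
      filter_upwards [h, hf', hg'] with c h1 h2 h3
      rw [h2, h3]
      exact h1
  trans a b c' h h' := by
    intro f g hf hg
    obtain ⟨e, he⟩ := upm_surj D b
    filter_upwards [h f e hf he, h' e g he hg] with c h1 h2
    exact (v c).trans _ _ _ h1 h2
  mul_left a b x h := by
    intro f g hf hg
    obtain ⟨f', rfl⟩ := upm_surj D a
    obtain ⟨g', rfl⟩ := upm_surj D b
    obtain ⟨e, rfl⟩ := upm_surj D x
    rw [← map_mul, upm_eq] at hf hg
    filter_upwards [h f' g' rfl rfl, hf, hg] with c h1 h2 h3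
    rw [h2, h3, Pi.mul_apply, Pi.mul_apply]
    exact (v c).mul_left _ _ _ h1
  mul_right a b x h := by
    intro f g hf hg
    obtain ⟨f', rfl⟩ := upm_surj D a
    obtain ⟨g', rfl⟩ := upm_surj D b
    obtain ⟨e, rfl⟩ := upm_surj D x
    rw [← map_mul, upm_eq] at hf hg
    filter_upwards [h f' g' rfl rfl, hf, hg] with c h1 h2 h3
    rw [h2, h3, Pi.mul_apply, Pi.mul_apply]
    exact (v c).mul_right _ _ _ h1
  add a b x h h' := by
    intro f g hf hg
    obtain ⟨a', rfl⟩ := upm_surj D a
    obtain ⟨b', rfl⟩ := upm_surj D b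
    rw [← map_add, upm_eq] at hg
    filter_upwards [h f a' hf rfl, h' f b' hf rfl, hg] with c h1 h2 h3
    rw [h3, Pi.add_apply]
    exact (v c).add _ _ _ h1 h2
  le_zero a := by
    intro f g _ hg
    rw [upm_zero_iff] at hg
    filter_upwards [hg] with c hc
    rw [hc]
    exact (v c).le_zero _
  eq_zero a h := by
    obtain ⟨f, rfl⟩ := upm_surj D a
    rw [upm_zero_iff]
    filter_upwards [h 0 f (map_zero _) rfl] with c hc
    exact (v c).eq_zero _ hc

theorem pvUP_le (v : ∀ c, PV (D c)) (f g : (c : ℕ) → D c) :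
    (pvUP D v).le (upm D f) (upm D g) ↔
      ∀ᶠ c in (hyperfilter ℕ : Filter ℕ), (v c).le (f c) (g c) := by
  constructor
  · intro h
    exact h f g rfl rfl
  · intro h f' g' hf hg
    have hf' := (upm_eq D f' f).1 hf
    have hg' := (upm_eq D g' g).1 hg
    filter_upwards [h, hf', hg'] with c h1 h2 h3
    rw [h2, h3]
    exact h1

theorem pvUP_triv (v : ∀ c, PV (D c)) (f : (c : ℕ) → D c) :
    (pvUP D v).triv (upm D f) ↔ ∀ᶠ c in (hyperfilter ℕ : Filter ℕ), (v c).triv (f c) := by
  unfold PV.triv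
  rw [← map_one (upm D), pvUP_le, pvUP_le, ← eventually_and]
  rfl

/-- The division subring of the ultraproduct. -/
def sfUP (F : ∀ c, Subfield (D c)) : Subfield (UP D) where
  carrier := {x | ∃ f : (c : ℕ) → D c, (∀ c, f c ∈ F c) ∧ upm D f = x}
  mul_mem' := by
    rintro _ _ ⟨f, hf, rfl⟩ ⟨g, hg, rfl⟩
    exact ⟨f * g, fun c => mul_mem (hf c) (hg c), map_mul _ _ _⟩
  one_mem' := ⟨1, fun c => one_mem _, map_one _⟩
  add_mem' := by
    rintro _ _ ⟨f, hf, rfl⟩ ⟨g, hg, rfl⟩
    exact ⟨f + g, fun c => add_mem (hf c) (hg c), map_add _ _ _⟩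
  zero_mem' := ⟨0, fun c => zero_mem _, map_zero _⟩
  neg_mem' := by
    rintro _ ⟨f, hf, rfl⟩
    exact ⟨-f, fun c => neg_mem (hf c), map_neg _ _⟩
  inv_mem' := by
    rintro _ ⟨f, hf, rfl⟩
    exact ⟨fun c => (f c)⁻¹, fun c => inv_mem (hf c), (upm_inv D f).symm⟩

/-- The unit given by a sequence of units. -/
noncomputable def unUP (f : ∀ c, (D c)ˣ) : (UP D)ˣ where
  val := upm D (fun c => (f c : D c))
  inv := upm D (fun c => ((f c)⁻¹ : (D c)ˣ))
  val_inv := by
    rw [← map_mul, ← map_one (upm D)]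
    exact congrArg (upm D) (funext fun c => (f c).mul_inv)
  inv_val := by
    rw [← map_mul, ← map_one (upm D)]
    exact congrArg (upm D) (funext fun c => (f c).inv_mul)

theorem unUP_val (f : ∀ c, (D c)ˣ) : ((unUP D f : (UP D)ˣ) : UP D) = upm D (fun c => (f c : D c)) :=
  rfl

theorem unUP_mul (f g : ∀ c, (D c)ˣ) : unUP D (f * g) = unUP D f * unUP D g := by
  apply Units.ext
  rw [Units.val_mul, unUP_val, unUP_val, unUP_val, ← map_mul]
  rfl

theorem unUP_inv (f : ∀ c, (D c)ˣ) : unUP D (f⁻¹) = (unUP D f)⁻¹ := by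
  apply Units.ext
  rfl

theorem unUP_one : unUP D 1 = 1 := by
  apply Units.ext
  rw [unUP_val, Units.val_one, ← map_one (upm D)]
  rfl

variable {V : Type} [DecidableEq V] {G : SimpleGraph V}

/-- The units of the ultraproduct. -/
noncomputable def udUP (S : ∀ c, PreSys G (D c) c) : UD G (UP D) where
  t v := unUP D (fun c => (S c).t v)
  comm u v h := by
    rw [← unUP_mul, ← unUP_mul]
    exact congrArg (unUP D) (funext fun c => (S c).comm u v h)

theorem th1_udUP (S : ∀ c, PreSys G (D c) c) (v : V) (χ : QV V) :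
    th1 (udUP D S).t v χ = unUP D (fun c => th1 (S c).t v χ) := by
  unfold th1
  split_ifs
  · exact (unUP_inv D (fun c => (S c).t v)).symm
  · rfl

theorem th_udUP (S : ∀ c, PreSys G (D c) c) (w : W G) (χ : QV V) :
    th (udUP D S) w χ = unUP D (fun c => th (S c).toUD w χ) := by
  induction w using W_ind with
  | one =>
    rw [th_one]
    have : (fun c => th (S c).toUD (1 : W G) χ) = 1 := funext fun c => th_one _ _
    rw [this, unUP_one]
  | gm v w ih =>
    rw [th_mul, th_gen, ih, th1_udUP, ← unUP_mul]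
    refine congrArg (unUP D) (funext fun c => ?_)
    rw [th_mul, th_gen]
    rfl

theorem closure_udUP (S : ∀ c, PreSys G (D c) c) (g : (UP D)ˣ)
    (hg : g ∈ Subgroup.closure (Set.range (udUP D S).t)) :
    ∃ f : ∀ c, (D c)ˣ, (∀ c, f c ∈ Subgroup.closure (Set.range (S c).t)) ∧ g = unUP D f := by
  induction hg using Subgroup.closure_induction with
  | mem x hx =>
    obtain ⟨v, rfl⟩ := hx
    exact ⟨fun c => (S c).t v, fun c => Subgroup.subset_closure ⟨v, rfl⟩, rfl⟩
  | one => exact ⟨1, fun c => one_mem _, (unUP_one D).symm⟩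
  | mul x y _ _ hx hy =>
    obtain ⟨f, hf, rfl⟩ := hx
    obtain ⟨g, hg, rfl⟩ := hy
    exact ⟨f * g, fun c => mul_mem (hf c) (hg c), (unUP_mul D f g).symm⟩
  | inv x _ hx =>
    obtain ⟨f, hf, rfl⟩ := hx
    exact ⟨f⁻¹, fun c => inv_mem (hf c), (unUP_inv D f).symm⟩

/-- The system on the ultraproduct. -/
noncomputable def sysUP (S : ∀ c, PreSys G (D c) c) : Sys G (UP D) where
  toUD := udUP D S
  v A := pvUP D (fun c => (S c).v A)
  F A := sfUP D (fun c => (S c).F A)
  F_triv A x hx h0 := by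
    obtain ⟨f, hf, rfl⟩ := hx
    rw [upm_ne_zero_iff] at h0
    rw [pvUP_triv]
    filter_upwards [h0] with c hc
    exact (S c).F_triv A _ (hf c) hc
  F_mono A B h := by
    rintro _ ⟨f, hf, rfl⟩
    exact ⟨f, fun c => (S c).F_mono A B h (hf c), rfl⟩
  v_t A u hu := by
    show (pvUP D (fun c => (S c).v A)).triv (upm D (fun c => (((S c).t u : (D c)ˣ) : D c)))
    rw [pvUP_triv]
    exact Eventually.of_forall fun c => (S c).v_t A u hu
  gen_mem A g hg h := by
    obtain ⟨f, hf, rfl⟩ := closure_udUP D S g hg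
    rw [unUP_val, pvUP_triv] at h
    classical
    refine ⟨fun c => if ((S c).v A).triv ((f c : (D c)ˣ) : D c) then ((f c : (D c)ˣ) : D c) else 0,
      fun c => ?_, ?_⟩
    · show (if ((S c).v A).triv ((f c : (D c)ˣ) : D c) then ((f c : (D c)ˣ) : D c) else 0) ∈ _
      split_ifs with h1
      · exact (S c).gen_mem A (f c) (hf c) h1
      · exact zero_mem _
    · rw [unUP_val, upm_eq]
      filter_upwards [h] with c hc
      exact if_pos hc
  inj A w hw χ h := by
    rw [th_udUP, unUP_val, pvUP_triv] at h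
    have h2 : ∀ᶠ c in (hyperfilter ℕ : Filter ℕ), len G w < c := by
      have : ∀ᶠ c in (cofinite : Filter ℕ), len G w < c := by
        rw [Nat.cofinite_eq_atTop]
        exact eventually_gt_atTop _
      exact hyperfilter_le_cofinite this
    obtain ⟨c, hc1, hc2⟩ := (h.and h2).exists
    exact (S c).inj A w hw hc2 χ hc1

theorem sysUP_t (S : ∀ c, PreSys G (D c) c) (v : V) :
    (((sysUP D S).t v : (UP D)ˣ) : UP D) = upm D (fun c => (((S c).t v : (D c)ˣ) : D c)) := rfl

end SingerRA
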