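import Mathlib
import Pool.Agent.Lib_MP_394d50_all.USys

/-!
# Passage from the ultraproduct to one of the division rings
-/

namespace SingerRA

open Filter

variable {V : Type} [Fintype V] [DecidableEq V] {G : SimpleGraph V}

theorem exD_of_ultra (D : ℕ → Type) [∀ c, DivisionRing (D c)] (S : ∀ c, PreSys G (D c) c) (k : ℕ)
    (h : ExD G (sysUP D S).t k) : ∃ c, ExD G (S c).t k := by
  classical
  by_contra hno
  push Not at hno
  have hno' : ∀ c, ∃ z, ChD G (S c).t k z ∧ (∀ τ, bd z τ = 0) ∧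
      ∀ y, ChD G (S c).t (k + 1) y → ¬ ∀ τ, z τ = bd y τ := by
    intro c
    have h1 := hno c
    unfold ExD at h1
    push Not at h1
    obtain ⟨z, hz, hb, hy⟩ := h1
    refine ⟨z, hz, hb, fun y hy1 hy2 => ?_⟩
    obtain ⟨τ, hτ⟩ := hy y hy1
    exact hτ (hy2 τ)
  choose z hz hb hy using hno'
  -- the chain over the ultraproduct
  have hbd : ∀ (y : ∀ c, Finset V → QV V → D c) (τ : Finset V) (χ : QV V),
      bd (fun σ χ => upm D (fun c => y c σ χ)) τ χ = upm D (fun c => bd (y c) τ χ) := by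
    intro y τ χ
    unfold bd
    rw [Finset.sum_apply]
    have : (fun c => (∑ v ∈ Finset.univ \ τ, y c (insert v τ)) χ) =
        ∑ v ∈ Finset.univ \ τ, fun c => y c (insert v τ) χ := by
      funext c
      rw [Finset.sum_apply, Finset.sum_apply]
    rw [this, map_sum]
  have hZ : ChD G (sysUP D S).t k (fun σ χ => upm D (fun c => z c σ χ)) := by
    refine ⟨fun σ hσ => ?_, fun σ v hv χ => ?_⟩
    · funext χ
      show upm D (fun c => z c σ χ) = 0
      rw [upm_zero_iff]
      exact Eventually.of_forall fun c => by rw [(hz c).1 σ hσ]; rfl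
    · show upm D (fun c => z c σ (χ + ev v)) = upm D (fun c => z c σ χ) * _
      have e1 : ((((th1 (sysUP D S).t v χ)⁻¹ : (UP D)ˣ)) : UP D) =
          upm D (fun c => ((((th1 (S c).t v χ)⁻¹ : (D c)ˣ)) : D c)) := by
        have := th1_udUP D S v χ
        show (((th1 (udUP D S).t v χ)⁻¹ : (UP D)ˣ) : UP D) = _
        rw [this]
        rfl
      rw [e1, ← map_mul]
      exact congrArg (upm D) (funext fun c => (hz c).2 σ v hv χ)
  have hB : ∀ τ, bd (fun σ χ => upm D (fun c => z c σ χ)) τ = 0 := by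
    intro τ
    funext χ
    rw [hbd, Pi.zero_apply, upm_zero_iff]
    exact Eventually.of_forall fun c => by rw [hb c]; rfl
  obtain ⟨Y, hY, hYz⟩ := h _ hZ hB
  -- representatives
  have hrep : ∀ σ : Finset V, ∀ χ : QV V, ∃ f : (c : ℕ) → D c, upm D f = Y σ χ ∧
      (¬ (σ ∈ cliq G ∧ σ.card = k + 1) → f = 0) := by
    intro σ χ
    by_cases hσ : σ ∈ cliq G ∧ σ.card = k + 1
    · obtain ⟨f, hf⟩ := upm_surj D (Y σ χ)
      exact ⟨f, hf, fun h => (h hσ).elim⟩
    · refine ⟨0, ?_, fun _ => rfl⟩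
      rw [hY.1 σ hσ, map_zero]
      rfl
  choose f hf hf0 using hrep
  have hE : ∀ᶠ c in (hyperfilter ℕ : Filter ℕ), ∀ (σ : Finset V) (v : V) (χ : QV V), v ∈ σ →
      f σ (χ + ev v) c = f σ χ c * ((((th1 (S c).t v χ)⁻¹ : (D c)ˣ)) : D c) := by
    rw [eventually_all]
    intro σ
    rw [eventually_all]
    intro v
    rw [eventually_all]
    intro χ
    by_cases hv : v ∈ σ
    · have h1 := hY.2 σ v hv χ
      have e1 : ((((th1 (sysUP D S).t v χ)⁻¹ : (UP D)ˣ)) : UP D) =
          upm D (fun c => ((((th1 (S c).t v χ)⁻¹ : (D c)ˣ)) : D c)) := by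
        have := th1_udUP D S v χ
        show (((th1 (udUP D S).t v χ)⁻¹ : (UP D)ˣ) : UP D) = _
        rw [this]
        rfl
      rw [e1, ← hf, ← hf, ← map_mul, upm_eq] at h1
      filter_upwards [h1] with c hc _
      exact hc
    · exact Eventually.of_forall fun c h => (hv h).elim
  have hZ' : ∀ᶠ c in (hyperfilter ℕ : Filter ℕ), ∀ (τ : Finset V) (χ : QV V),
      z c τ χ = bd (fun σ χ => f σ χ c) τ χ := by
    rw [eventually_all]
    intro τ
    rw [eventually_all]
    intro χ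
    have h1 : upm D (fun c => z c τ χ) = bd Y τ χ := congrFun (hYz τ) χ
    have h2 : Y = fun σ χ => upm D (fun c => (fun σ χ => f σ χ c) σ χ) := by
      funext σ χ
      exact (hf σ χ).symm
    rw [h2, hbd (fun c σ χ => f σ χ c), upm_eq] at h1
    exact h1
  obtain ⟨c, hc1, hc2⟩ := (hE.and hZ').exists
  refine hy c (fun σ χ => f σ χ c) ⟨fun σ hσ => ?_, fun σ v hv χ => hc1 σ v χ hv⟩ fun τ => ?_
  · funext χ
    show f σ χ c = 0
    rw [hf0 σ χ hσ]
    rfl
  · funext χ
    exact hc2 τ χ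

/-- If the homology in degree `k` vanishes for all systems then it vanishes for one of the given
sequence. -/
theorem ultra (G : SimpleGraph V) (D : ℕ → Type) [∀ c, DivisionRing (D c)]
    [∀ c, Algebra (ZMod 2) (D c)] [∀ c, StarRing (D c)] (S : ∀ c, PreSys G (D c) c)
    (ht : ∀ c v, star (((S c).t v : (D c)ˣ) : D c) = ((((S c).t v)⁻¹ : (D c)ˣ) : D c)) (k : ℕ)
    (h : ∀ (D' : Type) [DivisionRing D'] [Algebra (ZMod 2) D'] [StarRing D'] (S' : Sys G D'),
      (∀ v, star ((S'.t v : D'ˣ) : D') = (((S'.t v)⁻¹ : D'ˣ) : D')) → ExD G S'.t k) :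
    ∃ c, ExD G (S c).t k := by
  refine exD_of_ultra D S k (h (UP D) (sysUP D S) fun v => ?_)
  rw [sysUP_t, star_upm]
  show _ = upm D (fun c => ((((S c).t v)⁻¹ : (D c)ˣ) : D c))
  exact congrArg (upm D) (funext fun c => ht c v)

end SingerRA
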