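import Mathlib
import Pool.Agent.Lib_MP_394d50_all.OAsm
import Pool.Agent.Lib_MP_394d50_all.UTrans
import Pool.Agent.Lib_MP_394d50_all.TVk
import Pool.Agent.Lib_MP_394d50_all.RMain
import Pool.Agent.Lib_MP_394d50_all.GMain
import Pool.Agent.Lib_MP_394d50_gt.EMain

/-!
# Assembly
-/

namespace SingerRA

/-- Exactness for one of the groups `N_c`. -/
theorem exists_exD {V : Type} [Fintype V] [LinearOrder V] (G : SimpleGraph V) (n k : ℕ)
    (hS : HomSphere n G) (hk : n < 2 * k) :
    ∃ c, ExD G (fun v => unN (Nc G c) (tN G c v)) k := by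
  choose S hSt using fun c => preSys_exists G c (tN G c) (tN_comm G c) piG (tN_h1 G c)
    (tN_h2 G c) (tN_h3 G c)
  obtain ⟨c, hc⟩ := ultra G (fun c => DN (Nc G c)) S (fun c v => by
    rw [hSt c]
    exact star_unN (Nc G c) (tN G c v)) k fun D' _ _ _ S' ht => main_D S' ht n k hS hk
  refine ⟨c, ?_⟩
  rw [hSt c] at hc
  exact hc

/-- Small gradients above the middle dimension. -/
theorem small_upper {V : Type} [Fintype V] [LinearOrder V] (G : SimpleGraph V) (n k : ℕ)
    (hS : HomSphere n G) (hk : n < 2 * k) : SmallGrad k G := by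
  obtain ⟨c, hc⟩ := exists_exD G n k hS hk
  exact small_of_exD G k (tN G c) (tN_comm G c) (folQ_tN G c) (io (Nc G c)) (io_inj (Nc G c))
    (unN (Nc G c)) (fun _ => rfl) hc

/-- Small gradients outside the middle dimension. -/
theorem small_all {V : Type} [Fintype V] [LinearOrder V] (G : SimpleGraph V) (n k : ℕ)
    (hS : HomSphere n G) (hk : 2 * k ≠ n) : SmallGrad k G :=
  small_of_upper hS (fun p hp => small_upper G n p hS hp) k hk

end SingerRA
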