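import Mathlib
import Pool.Agent.Lib_MP_394d50_all.AMain

/-! The sign of the Euler characteristic. -/

namespace SingerRA

/-- The theorem on the `ℓ²`-Betti numbers. -/
theorem l2_all {n : ℕ} {V : Type} [Fintype V] [LinearOrder V] {G : SimpleGraph V}
    (hS : HomSphere n G) :
    (∀ k, 2 * k ≠ n → l2Betti G k = 0) ∧
    (∀ k, 2 * k = n → l2Betti G k = (-1 : ℝ) ^ k * (chi G : ℝ)) ∧
    ((∀ k, l2Betti G k = 0) ↔ chi G = 0) ∧
    (∀ k, 2 * k = n → 0 ≤ (-1) ^ k * chi G) := by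
  have h := l2_of_small (n := n) (G := G) fun k hk => small_all G n k hS hk
  refine ⟨h.1, h.2.1, h.2.2, fun k hk => ?_⟩
  have h1 := l2Betti_nonneg G k
  rw [h.2.1 k hk] at h1
  exact_mod_cast h1

end SingerRA
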