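import Mathlib
import Pool.Agent.Lib_MP_394d50_gt.Main
import Pool.Agent.Lib_MP_394d50_gt.EMain
import Pool.Agent.Lib_MP_394d50_gt.GTop
import Pool.Agent.Lib_MP_394d50_bary.BSphere
import Pool.Agent.Lib_MP_394d50_all.AFin

set_option autoImplicit false

namespace SingerRA.FlagSpheres

open SingerRA

/-- The Singer conjecture, in all dimensions `n`, for the aspherical (homology) manifolds `Z` whose
universal covering is the Davis complex of the right-angled Coxeter group of an arbitrary finite
flag complex `L` which is a homology `(n-1)`-sphere over `F₂`: the `ℓ²`-Betti numbers vanish outside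
the middle dimension. In the middle dimension this gives the sign of the Euler characteristic
(the Charney-Davis inequality). When `L` is a triangulation of the sphere, `Z` is a closed
`n`-manifold. -/
theorem result (n : ℕ) (V : Type) [Fintype V] [LinearOrder V] (G : SimpleGraph V)
    (h : F2Sphere n G) :
    IsUniversalCover G ∧ IsCubed G ∧
    (∀ k, 2 * k ≠ n → l2Betti G k = 0) ∧
    (∀ k, 2 * k = n → l2Betti G k = (-1 : ℝ) ^ k * (chi G : ℝ)) ∧
    ((∀ k, l2Betti G k = 0) ↔ chi G = 0) ∧
    (∀ k, 2 * k = n → 0 ≤ (-1) ^ k * chi G) ∧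
    (Nonempty (realiz (flagK G) ≃ₜ Metric.sphere (0 : EuclideanSpace ℝ (Fin n)) 1) →
      IsClosedManifold n G) := by
  have h1 := l2_all (homSphere_of_f2 n G h)
  exact ⟨⟨contractible_davis G, isCoveringMap_proj G, surjective_proj G,
    continuous_dact G, proj_eq_iff G, dact_free G⟩, exists_cells G, h1.1, h1.2.1, h1.2.2.1,
    h1.2.2.2, fun ⟨e⟩ => closed_manifold_of_cone (cone_of_sphere e)⟩

end SingerRA.FlagSpheres
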